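import Pool.Agent.Work.MP_7453a1_lg.Interface

/-! # Block APX: approximation of the signed sums -/

namespace Pool.LG

open Finset Real Filter

theorem APX_sum {N : ℕ} (σ : Fin N → ℤ) (hσ : Sg σ) (u w : Fin N → ℝ) (c : ℝ)
    (h : ∀ k, |u k - w k| ≤ c) :
    |∑ k, (σ k : ℝ) * u k - ∑ k, (σ k : ℝ) * w k| ≤ N * c := by
  rw [← Finset.sum_sub_distrib]
  refine (Finset.abs_sum_le_sum_abs _ _).trans ?_
  calc ∑ k, |(σ k : ℝ) * u k - (σ k : ℝ) * w k| ≤ ∑ _k : Fin N, c := by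
        refine Finset.sum_le_sum fun k _ => ?_
        rw [← mul_sub, abs_mul]
        have h1 : |(σ k : ℝ)| = 1 := by
          rcases hσ k with h2 | h2 <;> rw [h2] <;> norm_num
        rw [h1, one_mul]
        exact h k
    _ = N * c := by simp

theorem p_APX (hCST : Stmt_CST) : Stmt_APX := by
  intro m n F X ε Θ hC σ τ hσ hτ
  have hth : DD m n * th m n = 1 / (1000 * 3 ^ (m + n + 2)) := (hCST m n).2.2.2.2.2.2.2.2.2.1
  have hD : ((m + 1 : ℕ) : ℝ) + ((n + 1 : ℕ) : ℝ) = DD m n := by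
    unfold DD; push_cast; ring
  have hfin : ∀ Y : ℝ, ((m + 1 : ℕ) : ℝ) * (th m n * Y) + ((n + 1 : ℕ) : ℝ) * (th m n * Y)
      = Y / (1000 * 3 ^ (m + n + 2)) := by
    intro Y
    have h1 : ((m + 1 : ℕ) : ℝ) * (th m n * Y) + ((n + 1 : ℕ) : ℝ) * (th m n * Y)
        = (DD m n * th m n) * Y := by rw [← hD]; ring
    rw [h1, hth]; ring
  constructor
  · have h1 := APX_sum σ hσ (fun j => F.X j 0) (fun j => X * pP m j 0) (th m n * X)
      (fun j => hC.hx j 0)
    have h2 := APX_sum τ hτ (fun k => F.U k 0) (fun _ => 0) (th m n * X)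
      (fun k => by simpa using hC.hf k 0)
    have h3 : ∑ j, (σ j : ℝ) * (X * pP m j 0) = X * ∑ j, (σ j : ℝ) * pP m j 0 := by
      rw [Finset.mul_sum]
      exact Finset.sum_congr rfl fun j _ => by ring
    rw [h3] at h1
    simp only [mul_zero, Finset.sum_const_zero, sub_zero] at h2
    rw [← hfin X]
    have h4 : aa F σ τ - X * ∑ j, (σ j : ℝ) * pP m j 0
        = (∑ j, (σ j : ℝ) * F.X j 0 - X * ∑ j, (σ j : ℝ) * pP m j 0)
          + ∑ k, (τ k : ℝ) * F.U k 0 := by
      unfold aa; ring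
    rw [h4]
    exact (abs_add_le _ _).trans (add_le_add h1 h2)
  · have h1 := APX_sum τ hτ (fun k => ev Θ (F.f k) (Fin.last n))
      (fun k => ε * pQ n k (Fin.last n)) (th m n * ε) (fun k => hC.he k _)
    have h2 := APX_sum σ hσ (fun j => ev Θ (F.v j) (Fin.last n)) (fun _ => 0) (th m n * ε)
      (fun j => by simpa using hC.hv j _)
    have h3 : ∑ k, (τ k : ℝ) * (ε * pQ n k (Fin.last n))
        = ε * ∑ k, (τ k : ℝ) * pQ n k (Fin.last n) := by
      rw [Finset.mul_sum]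
      exact Finset.sum_congr rfl fun j _ => by ring
    rw [h3] at h1
    simp only [mul_zero, Finset.sum_const_zero, sub_zero] at h2
    rw [← hfin ε]
    have h4 : ee Θ F σ τ - ε * ∑ k, (τ k : ℝ) * pQ n k (Fin.last n)
        = (∑ j, (σ j : ℝ) * ev Θ (F.v j) (Fin.last n))
          + (∑ k, (τ k : ℝ) * ev Θ (F.f k) (Fin.last n)
            - ε * ∑ k, (τ k : ℝ) * pQ n k (Fin.last n)) := by
      unfold ee; ring
    rw [h4]
    exact (abs_add_le _ _).trans (add_le_add h2 h1)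

end Pool.LG
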