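import Pool.Agent.Work.MP_7453a1_lg.Interface

set_option autoImplicit false

/-! # Block BNS -/

namespace Pool.LG

open Finset Real Filter

theorem BNS_exp (y C Q : ℝ) (hQ : 0 < Q) (h : |log Q - y| ≤ C) :
    exp (y - C) ≤ Q ∧ Q ≤ exp (y + C) := by
  rw [abs_le] at h
  constructor
  · rw [← Real.le_log_iff_exp_le hQ]
    linarith [h.1]
  · rw [← Real.log_le_iff_le_exp hQ]
    linarith [h.2]

theorem p_BNS (hCST : Stmt_CST) (hKTO : Stmt_KTO) : Stmt_BNS := by
  intro m n η τ hη hτ
  obtain ⟨-, -, -, -, -, -, -, -, -, -, -, -, -, -, -, -, hLam⟩ := hCST m n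
  have hLp : 0 < Lam m n := by linarith
  obtain ⟨hK, hE, -, -⟩ := hKTO m n η 6 hη
  have hCC : CC m n = 8 * ((m : ℝ) + n + 2) := rfl
  have hm : (0 : ℝ) ≤ m := Nat.cast_nonneg m
  have hn : (0 : ℝ) ≤ n := Nat.cast_nonneg n
  constructor
  · intro X S j hX hS h
    have h1 := hK τ hτ j
    have hP : 0 < X * Lam m n ^ Ax m n τ j := by positivity
    have h2 : |log (S / (X * Lam m n ^ Ax m n τ j)) - 0| ≤ CC m n := by
      rw [abs_le] at h h1 ⊢
      rw [hCC]
      constructor <;> linarith [h.1, h.2, h1.1, h1.2]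
    obtain ⟨h3, h4⟩ := BNS_exp 0 (CC m n) _ (by positivity) h2
    rw [zero_sub] at h3
    rw [zero_add] at h4
    rw [le_div_iff₀ hP] at h3
    rw [div_le_iff₀ hP] at h4
    constructor
    · calc X * exp (-CC m n) * Lam m n ^ Ax m n τ j
          = exp (-CC m n) * (X * Lam m n ^ Ax m n τ j) := by ring
        _ ≤ S := h3
    · calc S ≤ exp (CC m n) * (X * Lam m n ^ Ax m n τ j) := h4
        _ = X * exp (CC m n) * Lam m n ^ Ax m n τ j := by ring
  · intro ε s z i hε hs hz h
    have h1 := hE τ hτ i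
    have hη' := hη i
    have hPL : 0 < Lam m n ^ Bx m n τ i := by positivity
    have hlog : log (s / ε * Lam m n ^ Bx m n τ i) =
        log (s / ε) + Bx m n τ i * log (Lam m n) := by
      rw [Real.log_mul (by positivity) (by positivity), Real.log_pow]
    have h2 : |log (s / ε * Lam m n ^ Bx m n τ i) - 0| ≤ CC m n := by
      rw [hlog]
      rw [abs_le] at h h1 hη' ⊢
      rw [hCC]
      constructor <;> linarith [h.1, h.2, h1.1, h1.2, hη'.1, hη'.2]
    obtain ⟨h3, h4⟩ := BNS_exp 0 (CC m n) _ (by positivity) h2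
    rw [zero_sub] at h3
    rw [zero_add] at h4
    rw [one_div, inv_pow]
    have h5 : s / ε * Lam m n ^ Bx m n τ i = s * Lam m n ^ Bx m n τ i / ε := by ring
    rw [h5, le_div_iff₀ hε] at h3
    rw [h5, div_le_iff₀ hε] at h4
    constructor
    · rw [← div_eq_mul_inv, div_le_iff₀ hPL]
      linarith
    · rw [← div_eq_mul_inv, le_div_iff₀ hPL]
      linarith

end Pool.LG
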