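import Pool.Agent.Work.MP_7453a1_lg.Interface

set_option autoImplicit false

/-! # Block BST: a pair of signs which is not beaten gives a best approximation -/

namespace Pool.LG

open Finset Real Filter

theorem BST_xv_neg {m n : ℕ} (w : Pt m n) : ‖xv (-w)‖ = ‖xv w‖ := by
  have h : xv (-w) = -xv w := by
    funext l
    simp [xv]
  rw [h, norm_neg]

theorem BST_ev_neg {m n : ℕ} (Θ : Mat m n) (w : Pt m n) : ‖ev Θ (-w)‖ = ‖ev Θ w‖ := by
  have h : ev Θ (-w) = -ev Θ w := by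
    funext l
    simp only [ev, Prod.fst_neg, Prod.snd_neg, Pi.neg_apply, Int.cast_neg, mul_neg,
      Finset.sum_neg_distrib]
    ring
  rw [h, norm_neg]

theorem BST_half {m n : ℕ} (w z : Pt m n) (h : w + w = z + z) : w = z := by
  have h1 : ∀ l, w.1 l = z.1 l := by
    intro l
    have := congrFun (congrArg Prod.fst h) l
    simp only [Prod.fst_add, Pi.add_apply] at this
    omega
  have h2 : ∀ l, w.2 l = z.2 l := by
    intro l
    have := congrFun (congrArg Prod.snd h) l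
    simp only [Prod.snd_add, Pi.add_apply] at this
    omega
  exact Prod.ext (funext h1) (funext h2)

theorem BST_Sg_neg {N : ℕ} (σ : Fin N → ℤ) (h : Sg σ) : Sg (-σ) := by
  intro k
  rcases h k with h | h
  · right
    simp [h]
  · left
    simp [h]

theorem p_BST (hCLC : Stmt_CLC) (hCEC : Stmt_CEC) : Stmt_BST := by
  intro m n F X ε Θ hC σ τ hσ hτ hσ0 hun
  obtain ⟨⟨z, hz⟩, ha1, ha2, -, he2, hpos, -, hnorm⟩ := hCLC m n F X ε Θ hC σ τ hσ hτ
  obtain ⟨hzx, hze⟩ := hnorm z hz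
  have haa : |aa F σ τ| = aa F σ τ := abs_of_pos (hpos hσ0)
  have hXp := hC.Xp
  -- the case of signs beginning with 1
  have key : ∀ w : Pt m n, ‖xv w‖ ≤ ‖xv z‖ → ‖ev Θ w‖ ≤ ‖ev Θ z‖ →
      ∀ (σ' : Fin (m + 1) → ℤ) (τ' : Fin (n + 1) → ℤ), Sg σ' → Sg τ' → σ' 0 = 1 →
      w + w = ∑ j, σ' j • F.v j + ∑ k, τ' k • F.f k → w = z := by
    intro w hw1 hw2 σ' τ' hσ' hτ' h0 hw
    obtain ⟨-, -, -, -, -, hpos', -, hnorm'⟩ := hCLC m n F X ε Θ hC σ' τ' hσ' hτ'
    obtain ⟨hwx, hwe⟩ := hnorm' w hw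
    have haa' : |aa F σ' τ'| = aa F σ' τ' := abs_of_pos (hpos' h0)
    obtain ⟨h1, h2⟩ := hun σ' τ' hσ' hτ' h0 (by rw [← haa, ← haa', ← hwx, ← hzx]; linarith)
      (by rw [← hwe, ← hze]; linarith)
    apply BST_half
    rw [hw, hz, h1, h2]
  refine ⟨z, ⟨?_, ?_⟩, ?_, ?_, ?_⟩
  · intro h0
    have h1 : xv z = 0 := by
      funext l
      simp [xv, h0]
    rw [h1, norm_zero] at hzx
    linarith
  · intro w hw1 hw2
    rcases hCEC m n F X ε Θ hC w (fun p => by
        have h1 : |(w.1 p : ℝ)| ≤ ‖xv w‖ := norm_le_pi_norm (xv w) p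
        linarith) (fun p => by
        have h1 : |ev Θ w p| ≤ ‖ev Θ w‖ := norm_le_pi_norm (ev Θ w) p
        linarith) with h | ⟨σ', τ', hσ', hτ', hw⟩
    · exact Or.inl h
    · right
      rcases hσ' 0 with h0 | h0
      · exact Or.inl (key w hw1 hw2 σ' τ' hσ' hτ' h0 hw)
      · right
        have h1 := key (-w) (by rw [BST_xv_neg]; exact hw1) (by rw [BST_ev_neg]; exact hw2)
          (-σ') (-τ') (BST_Sg_neg _ hσ') (BST_Sg_neg _ hτ') (by simp [h0]) (by
            rw [← neg_add, hw]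
            simp only [Pi.neg_apply, neg_smul, Finset.sum_neg_distrib, neg_add])
        rw [← h1, neg_neg]
  · rw [hzx, haa]
  · linarith
  · linarith

end Pool.LG
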