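import Pool.Agent.Work.MP_7453a1_lg.Interface

set_option autoImplicit false

/-! # CEC: classification of the points of the cluster -/

namespace Pool.LG

open Finset Real

theorem CEC_dom {N K : ℕ} (P x : Fin N → Fin N → ℝ) (u : Fin K → Fin N → ℝ) (X θ B : ℝ)
    (hX : 0 < X) (α : Fin N → ℝ) (β : Fin K → ℝ) (j : Fin N)
    (hP : 1 + ∑ l ∈ univ.erase j, |P l j| ≤ P j j)
    (hx : ∀ l, |x l j - X * P l j| ≤ θ * X) (hu : ∀ k, |u k j| ≤ θ * X)
    (hα : ∀ l, |α l| ≤ |α j|) (hβ : ∀ k, |β k| ≤ B)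
    (hs : |∑ l, α l * x l j + ∑ k, β k * u k j| ≤ 3 / 2 * X) :
    |α j| ≤ 3 / 2 + N * θ * |α j| + K * θ * B := by
  have hsum : 0 ≤ ∑ l ∈ univ.erase j, |P l j| := Finset.sum_nonneg fun _ _ => abs_nonneg _
  have hPj : 0 < P j j := by linarith
  have h1 : |∑ l ∈ univ.erase j, α l * (X * P l j)| ≤ |α j| * X * ∑ l ∈ univ.erase j, |P l j| := by
    refine (Finset.abs_sum_le_sum_abs _ _).trans ?_
    rw [Finset.mul_sum]
    refine Finset.sum_le_sum fun l _ => ?_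
    rw [abs_mul, abs_mul, abs_of_pos hX, ← mul_assoc]
    exact mul_le_mul_of_nonneg_right (mul_le_mul_of_nonneg_right (hα l) hX.le) (abs_nonneg _)
  have h2 : |∑ l, α l * (x l j - X * P l j)| ≤ N * (|α j| * (θ * X)) := by
    refine (Finset.abs_sum_le_sum_abs _ _).trans ?_
    refine (Finset.sum_le_card_nsmul _ _ (|α j| * (θ * X)) fun l _ => ?_).trans (le_of_eq ?_)
    · rw [abs_mul]
      exact mul_le_mul (hα l) (hx l) (abs_nonneg _) (abs_nonneg _)
    · rw [Finset.card_univ, Fintype.card_fin, nsmul_eq_mul]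
  have h3 : |∑ k, β k * u k j| ≤ K * (B * (θ * X)) := by
    refine (Finset.abs_sum_le_sum_abs _ _).trans ?_
    refine (Finset.sum_le_card_nsmul _ _ (B * (θ * X)) fun k _ => ?_).trans (le_of_eq ?_)
    · rw [abs_mul]
      exact mul_le_mul (hβ k) (hu k) (abs_nonneg _) ((abs_nonneg _).trans (hβ k))
    · rw [Finset.card_univ, Fintype.card_fin, nsmul_eq_mul]
  have h4 : ∑ l, α l * x l j = α j * (X * P j j) + ∑ l ∈ univ.erase j, α l * (X * P l j) +
      ∑ l, α l * (x l j - X * P l j) := by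
    rw [Finset.add_sum_erase univ (fun l => α l * (X * P l j)) (Finset.mem_univ j),
      ← Finset.sum_add_distrib]
    refine Finset.sum_congr rfl fun l _ => ?_
    ring
  have h5 : |α j * (X * P j j)| = |α j| * (X * P j j) := by
    rw [abs_mul, abs_of_pos (mul_pos hX hPj)]
  have h6 : |α j| * (X * P j j) ≤ 3 / 2 * X + |α j| * X * ∑ l ∈ univ.erase j, |P l j| +
      N * (|α j| * (θ * X)) + K * (B * (θ * X)) := by
    rw [← h5]
    rw [h4] at hs
    have h7 := abs_le.mp hs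
    have h8 := abs_le.mp h1
    have h9 := abs_le.mp h2
    have h10 := abs_le.mp h3
    rw [abs_le]
    constructor <;> linarith [h7.1, h7.2, h8.1, h8.2, h9.1, h9.2, h10.1, h10.2]
  have h7 : |α j| * X * (1 + ∑ l ∈ univ.erase j, |P l j|) ≤ |α j| * X * P j j :=
    mul_le_mul_of_nonneg_left hP (mul_nonneg (abs_nonneg _) hX.le)
  refine le_of_mul_le_mul_right ?_ hX
  nlinarith [h6, h7]

theorem CEC_pP (hPAT : Stmt_PAT) (m : ℕ) (j : Fin (m + 1)) :
    1 + ∑ l ∈ univ.erase j, |pP m l j| ≤ pP m j j := by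
  obtain ⟨⟨h1, -, h3, h4, -, h6, h7, -⟩, -⟩ := hPAT m
  by_cases hj : j = 0
  · rw [hj, h7]
    have : ∑ l ∈ univ.erase (0 : Fin (m + 1)), |pP m l 0| =
        ∑ l ∈ univ.erase (0 : Fin (m + 1)), pP m l 0 :=
      Finset.sum_congr rfl fun l _ => abs_of_nonneg (h1 l 0).1
    rw [this]
    linarith [h3 0]
  · have : ∑ l ∈ univ.erase j, |pP m l j| = 0 := by
      refine Finset.sum_eq_zero fun l hl => ?_
      rw [h4 l j hj (Finset.ne_of_mem_erase hl).symm, abs_zero]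
    rw [this, h6 j hj, add_zero]

theorem CEC_pQ (hPAT : Stmt_PAT) (m : ℕ) (j : Fin (m + 1)) :
    1 + ∑ l ∈ univ.erase j, |pQ m l j| ≤ pQ m j j := by
  obtain ⟨-, ⟨h1, -, h3, h4, -, h6, h7, -⟩⟩ := hPAT m
  by_cases hj : j = Fin.last m
  · rw [hj, h7]
    have : ∑ l ∈ univ.erase (Fin.last m), |pQ m l (Fin.last m)| =
        ∑ l ∈ univ.erase (Fin.last m), pQ m l (Fin.last m) :=
      Finset.sum_congr rfl fun l _ => abs_of_nonneg (h1 l (Fin.last m)).1
    rw [this]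
    linarith [h3 (Fin.last m)]
  · have : ∑ l ∈ univ.erase j, |pQ m l j| = 0 := by
      refine Finset.sum_eq_zero fun l hl => ?_
      rw [h4 l j hj (Finset.ne_of_mem_erase hl).symm, abs_zero]
    rw [this, h6 j hj, add_zero]

/-- the coordinate `p` of the vector `x` -/
def CEC_xHom (m n : ℕ) (p : Fin (m + 1)) : Pt m n →+ ℝ :=
  AddMonoidHom.mk' (fun w => (w.1 p : ℝ)) (fun a b => by
    simp only [Prod.fst_add, Pi.add_apply]
    push_cast
    ring)

/-- the coordinate `p` of the error vector -/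
noncomputable def CEC_eHom {m n : ℕ} (Θ : Mat m n) (p : Fin (n + 1)) : Pt m n →+ ℝ :=
  AddMonoidHom.mk' (fun w => ev Θ w p) (fun a b => by
    simp only [ev, Prod.fst_add, Prod.snd_add, Pi.add_apply]
    push_cast
    simp only [mul_add, Finset.sum_add_distrib]
    ring)

theorem CEC_hom {m n : ℕ} (F : Fr m n) (φ : Pt m n →+ ℝ) (z : Pt m n) (α : Fin (m + 1) → ℤ)
    (β : Fin (n + 1) → ℤ) (h : z + z = ∑ j, α j • F.v j + ∑ k, β k • F.f k) :
    2 * φ z = ∑ j, (α j : ℝ) * φ (F.v j) + ∑ k, (β k : ℝ) * φ (F.f k) := by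
  have h1 := congrArg φ h
  rw [map_add, map_add, map_sum, map_sum] at h1
  simp only [map_zsmul] at h1
  simp only [zsmul_eq_mul] at h1
  linarith

theorem CEC_num {A B N K θ : ℝ} (hA0 : 0 ≤ A) (hN : 0 ≤ N) (hK : 0 ≤ K) (hθ : 0 ≤ θ)
    (hk : (N + K) * θ ≤ 1 / 1000)
    (hA : A ≤ 3 / 2 + N * θ * A + K * θ * B) (hB : B ≤ 3 / 2 + K * θ * B + N * θ * A) :
    A < 2 ∧ B < 2 := by
  have h1 : N * θ * A ≤ N * θ * max A B :=
    mul_le_mul_of_nonneg_left (le_max_left _ _) (mul_nonneg hN hθ)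
  have h2 : K * θ * B ≤ K * θ * max A B :=
    mul_le_mul_of_nonneg_left (le_max_right _ _) (mul_nonneg hK hθ)
  have h3 : max A B ≤ 3 / 2 + N * θ * A + K * θ * B := max_le hA (by linarith)
  have h0 : 0 ≤ max A B := hA0.trans (le_max_left _ _)
  have h4 : (N + K) * θ * max A B ≤ 1 / 1000 * max A B := mul_le_mul_of_nonneg_right hk h0
  have h5 : max A B < 2 := by nlinarith
  exact ⟨(le_max_left _ _).trans_lt h5, (le_max_right _ _).trans_lt h5⟩

theorem p_CEC (hPAT : Stmt_PAT) (hCST : Stmt_CST) : Stmt_CEC := by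
  intro m n F X ε Θ hC z hz1 hz2
  obtain ⟨-, -, -, -, -, -, hth, -, -, hDth, -⟩ := hCST m n
  obtain ⟨h, hh, hgen⟩ := hC.good
  obtain ⟨t, a, b, hz⟩ := hgen z
  have hzz : z + z = ∑ j, (t + 2 * a j) • F.v j + ∑ k, (t + 2 * b k) • F.f k := by
    have e1 : ∑ j, (t + 2 * a j) • F.v j =
        t • ∑ j, F.v j + (∑ j, a j • F.v j + ∑ j, a j • F.v j) := by
      rw [Finset.smul_sum, ← Finset.sum_add_distrib, ← Finset.sum_add_distrib]
      refine Finset.sum_congr rfl fun j _ => ?_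
      module
    have e2 : ∑ k, (t + 2 * b k) • F.f k =
        t • ∑ k, F.f k + (∑ k, b k • F.f k + ∑ k, b k • F.f k) := by
      rw [Finset.smul_sum, ← Finset.sum_add_distrib, ← Finset.sum_add_distrib]
      refine Finset.sum_congr rfl fun j _ => ?_
      module
    have e3 : z + z = t • (h + h) + (∑ j, a j • F.v j + ∑ j, a j • F.v j) +
        (∑ k, b k • F.f k + ∑ k, b k • F.f k) := by
      rw [hz]
      module
    rw [e1, e2, e3, hh]
    module
  obtain ⟨j0, -, hj0⟩ := Finset.exists_max_image (univ : Finset (Fin (m + 1)))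
    (fun j => |t + 2 * a j|) ⟨0, Finset.mem_univ _⟩
  obtain ⟨k0, -, hk0⟩ := Finset.exists_max_image (univ : Finset (Fin (n + 1)))
    (fun k => |t + 2 * b k|) ⟨0, Finset.mem_univ _⟩
  have hj : ∀ j, |((t + 2 * a j : ℤ) : ℝ)| ≤ |((t + 2 * a j0 : ℤ) : ℝ)| := fun j => by
    exact_mod_cast hj0 j (Finset.mem_univ _)
  have hk : ∀ k, |((t + 2 * b k : ℤ) : ℝ)| ≤ |((t + 2 * b k0 : ℤ) : ℝ)| := fun k => by
    exact_mod_cast hk0 k (Finset.mem_univ _)
  have k1 : |((t + 2 * a j0 : ℤ) : ℝ)| ≤ 3 / 2 + ((m + 1 : ℕ) : ℝ) * th m n *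
      |((t + 2 * a j0 : ℤ) : ℝ)| + ((n + 1 : ℕ) : ℝ) * th m n * |((t + 2 * b k0 : ℤ) : ℝ)| := by
    refine CEC_dom (pP m) F.X F.U X (th m n) _ hC.Xp (fun j => ((t + 2 * a j : ℤ) : ℝ))
      (fun k => ((t + 2 * b k : ℤ) : ℝ)) j0 (CEC_pP hPAT m j0) (fun l => hC.hx l j0)
      (fun k => hC.hf k j0) hj hk ?_
    have e := CEC_hom F (CEC_xHom m n j0) z _ _ hzz
    have e2 : ∑ l, ((t + 2 * a l : ℤ) : ℝ) * F.X l j0 + ∑ k, ((t + 2 * b k : ℤ) : ℝ) * F.U k j0 =
        2 * (z.1 j0 : ℝ) := e.symm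
    rw [e2, abs_mul, abs_of_pos (by norm_num : (0 : ℝ) < 2)]
    exact hz1 j0
  have k2 : |((t + 2 * b k0 : ℤ) : ℝ)| ≤ 3 / 2 + ((n + 1 : ℕ) : ℝ) * th m n *
      |((t + 2 * b k0 : ℤ) : ℝ)| + ((m + 1 : ℕ) : ℝ) * th m n * |((t + 2 * a j0 : ℤ) : ℝ)| := by
    refine CEC_dom (pQ n) (fun k p => ev Θ (F.f k) p) (fun j p => ev Θ (F.v j) p) ε (th m n) _
      hC.ep (fun k => ((t + 2 * b k : ℤ) : ℝ)) (fun j => ((t + 2 * a j : ℤ) : ℝ)) k0
      (CEC_pQ hPAT n k0) (fun l => hC.he l k0) (fun k => hC.hv k k0) hk hj ?_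
    have e := CEC_hom F (CEC_eHom Θ k0) z _ _ hzz
    have e2 : ∑ k, ((t + 2 * b k : ℤ) : ℝ) * ev Θ (F.f k) k0 +
        ∑ j, ((t + 2 * a j : ℤ) : ℝ) * ev Θ (F.v j) k0 = 2 * ev Θ z k0 := by
      rw [add_comm]
      exact e.symm
    rw [e2, abs_mul, abs_of_pos (by norm_num : (0 : ℝ) < 2)]
    exact hz2 k0
  have hκ : (((m + 1 : ℕ) : ℝ) + ((n + 1 : ℕ) : ℝ)) * th m n ≤ 1 / 1000 := by
    have e : ((m + 1 : ℕ) : ℝ) + ((n + 1 : ℕ) : ℝ) = DD m n := by
      rw [DD]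
      push_cast
      ring
    rw [e, hDth]
    refine one_div_le_one_div_of_le (by norm_num) ?_
    have : (1 : ℝ) ≤ 3 ^ (m + n + 2) := one_le_pow₀ (by norm_num)
    linarith
  obtain ⟨hA, hB⟩ := CEC_num (abs_nonneg _) (Nat.cast_nonneg _) (Nat.cast_nonneg _) hth.le hκ k1 k2
  have hA2 : |t + 2 * a j0| < 2 := by exact_mod_cast hA
  have hB2 : |t + 2 * b k0| < 2 := by exact_mod_cast hB
  have hα : ∀ j, -1 ≤ t + 2 * a j ∧ t + 2 * a j ≤ 1 := fun j => by
    have h1 : |t + 2 * a j| ≤ |t + 2 * a j0| := hj0 j (Finset.mem_univ _)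
    have h2 : |t + 2 * a j| ≤ 1 := by omega
    exact abs_le.mp h2
  have hβ : ∀ k, -1 ≤ t + 2 * b k ∧ t + 2 * b k ≤ 1 := fun k => by
    have h1 : |t + 2 * b k| ≤ |t + 2 * b k0| := hk0 k (Finset.mem_univ _)
    have h2 : |t + 2 * b k| ≤ 1 := by omega
    exact abs_le.mp h2
  rcases Int.even_or_odd t with ⟨r, hr⟩ | ⟨r, hr⟩
  · left
    have z1 : ∀ j, t + 2 * a j = 0 := fun j => by
      have := hα j
      omega
    have z2 : ∀ k, t + 2 * b k = 0 := fun k => by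
      have := hβ k
      omega
    have h0 : z + z = 0 := by
      rw [hzz]
      simp only [z1, z2, zero_smul, Finset.sum_const_zero, add_zero]
    ext l
    · have h1 : z.1 l + z.1 l = 0 := congrArg (fun w : Pt m n => w.1 l) h0
      change z.1 l = 0
      omega
    · have h1 : z.2 l + z.2 l = 0 := congrArg (fun w : Pt m n => w.2 l) h0
      change z.2 l = 0
      omega
  · right
    refine ⟨fun j => t + 2 * a j, fun k => t + 2 * b k, fun j => ?_, fun k => ?_, hzz⟩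
    · have := hα j
      change t + 2 * a j = 1 ∨ t + 2 * a j = -1
      omega
    · have := hβ k
      change t + 2 * b k = 1 ∨ t + 2 * b k = -1
      omega

end Pool.LG
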