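import Pool.Agent.Work.MP_7453a1_lg.Interface

set_option autoImplicit false

/-! Block CLC (helper88): sizes of the signed sums. -/

namespace Pool.LG

open Finset Real

theorem CLC_sg {K : ℕ} (s : Fin K → ℤ) (hs : Sg s) (k : Fin K) : |(s k : ℝ)| = 1 := by
  rcases hs k with h | h <;> rw [h] <;> norm_num

theorem CLC_key {N : ℕ} (σ : Fin N → ℤ) (hσ : Sg σ) (q : Fin N) (R : ℝ) (hR : 0 < R) (C S : ℝ)
    (dq : |C - S| ≤ 1 / 9000 * R) (pq' : |S - R * ((σ q : ℝ) * (7 / 5))| ≤ 1 / 20 * R) :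
    4 / 3 * R ≤ |C| ∧ |C| ≤ 3 / 2 * R ∧ (σ q = 1 → 0 < C) ∧ (σ q = -1 → C < 0) := by
  rw [abs_le] at dq pq'
  rcases hσ q with h | h
  · rw [h] at pq'
    push_cast at pq'
    have hC : 0 < C := by linarith [dq.1, pq'.1]
    rw [abs_of_pos hC]
    refine ⟨by linarith [dq.1, pq'.1], by linarith [dq.2, pq'.2], fun _ => hC, fun h' => ?_⟩
    rw [h] at h'
    norm_num at h'
  · rw [h] at pq'
    push_cast at pq'
    have hC : C < 0 := by linarith [dq.2, pq'.2]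
    rw [abs_of_neg hC]
    refine ⟨by linarith [dq.2, pq'.2], by linarith [dq.1, pq'.1], fun h' => ?_, fun _ => hC⟩
    rw [h] at h'
    norm_num at h'

theorem CLC_gen {N M : ℕ} (P : Fin (N + 1) → Fin (N + 1) → ℝ) (q : Fin (N + 1))
    (h0 : ∀ j p, 0 ≤ P j p) (h1 : ∑ j ∈ univ.erase q, P j q ≤ 1 / 20)
    (h2 : ∀ j p, p ≠ q → p ≠ j → P j p = 0) (h3 : ∀ j, j ≠ q → P j j = 1) (h4 : P q q = 7 / 5)
    (R t : ℝ) (hR : 0 < R) (A : Fin (N + 1) → Fin (N + 1) → ℝ)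
    (B : Fin (M + 1) → Fin (N + 1) → ℝ)
    (hA : ∀ j p, |A j p - R * P j p| ≤ t * R) (hB : ∀ k p, |B k p| ≤ t * R)
    (ht : ((N : ℝ) + M + 2) * t ≤ 1 / 9000) (σ : Fin (N + 1) → ℤ) (τ : Fin (M + 1) → ℤ)
    (hσ : Sg σ) (hτ : Sg τ) :
    (4 / 3 * R ≤ |∑ j, (σ j : ℝ) * A j q + ∑ k, (τ k : ℝ) * B k q|) ∧
    (|∑ j, (σ j : ℝ) * A j q + ∑ k, (τ k : ℝ) * B k q| ≤ 3 / 2 * R) ∧
    (∀ p, |∑ j, (σ j : ℝ) * A j p + ∑ k, (τ k : ℝ) * B k p| ≤
      |∑ j, (σ j : ℝ) * A j q + ∑ k, (τ k : ℝ) * B k q|) ∧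
    (σ q = 1 → 0 < ∑ j, (σ j : ℝ) * A j q + ∑ k, (τ k : ℝ) * B k q) ∧
    (σ q = -1 → ∑ j, (σ j : ℝ) * A j q + ∑ k, (τ k : ℝ) * B k q < 0) := by
  have dev : ∀ p, |(∑ j, (σ j : ℝ) * A j p + ∑ k, (τ k : ℝ) * B k p) -
      R * ∑ j, (σ j : ℝ) * P j p| ≤ 1 / 9000 * R := by
    intro p
    have e : (∑ j, (σ j : ℝ) * A j p + ∑ k, (τ k : ℝ) * B k p) - R * ∑ j, (σ j : ℝ) * P j p
        = ∑ j, (σ j : ℝ) * (A j p - R * P j p) + ∑ k, (τ k : ℝ) * B k p := by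
      rw [Finset.mul_sum]
      have : ∑ j, (σ j : ℝ) * (A j p - R * P j p) =
          ∑ j, (σ j : ℝ) * A j p - ∑ j, R * ((σ j : ℝ) * P j p) := by
        rw [← Finset.sum_sub_distrib]
        exact Finset.sum_congr rfl fun j _ => by ring
      rw [this]; ring
    rw [e]
    have a1 : |∑ j, (σ j : ℝ) * (A j p - R * P j p)| ≤ ((N : ℝ) + 1) * (t * R) := by
      calc |∑ j, (σ j : ℝ) * (A j p - R * P j p)|
          ≤ ∑ j, |(σ j : ℝ) * (A j p - R * P j p)| := Finset.abs_sum_le_sum_abs _ _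
        _ ≤ ∑ _j : Fin (N + 1), t * R := Finset.sum_le_sum fun j _ => by
            rw [abs_mul, CLC_sg σ hσ, one_mul]; exact hA j p
        _ = ((N : ℝ) + 1) * (t * R) := by simp
    have a2 : |∑ k, (τ k : ℝ) * B k p| ≤ ((M : ℝ) + 1) * (t * R) := by
      calc |∑ k, (τ k : ℝ) * B k p|
          ≤ ∑ k, |(τ k : ℝ) * B k p| := Finset.abs_sum_le_sum_abs _ _
        _ ≤ ∑ _j : Fin (M + 1), t * R := Finset.sum_le_sum fun k _ => by
            rw [abs_mul, CLC_sg τ hτ, one_mul]; exact hB k p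
        _ = ((M : ℝ) + 1) * (t * R) := by simp
    calc |∑ j, (σ j : ℝ) * (A j p - R * P j p) + ∑ k, (τ k : ℝ) * B k p|
        ≤ |∑ j, (σ j : ℝ) * (A j p - R * P j p)| + |∑ k, (τ k : ℝ) * B k p| := abs_add_le _ _
      _ ≤ ((N : ℝ) + 1) * (t * R) + ((M : ℝ) + 1) * (t * R) := add_le_add a1 a2
      _ = ((N : ℝ) + M + 2) * t * R := by ring
      _ ≤ 1 / 9000 * R := mul_le_mul_of_nonneg_right ht hR.le
  have pq : |∑ j, (σ j : ℝ) * P j q - (σ q : ℝ) * (7 / 5)| ≤ 1 / 20 := by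
    have e : ∑ j, (σ j : ℝ) * P j q =
        (σ q : ℝ) * P q q + ∑ j ∈ univ.erase q, (σ j : ℝ) * P j q :=
      (Finset.add_sum_erase _ (fun j => (σ j : ℝ) * P j q) (Finset.mem_univ q)).symm
    rw [e, h4]
    calc |(σ q : ℝ) * (7 / 5) + ∑ j ∈ univ.erase q, (σ j : ℝ) * P j q - (σ q : ℝ) * (7 / 5)|
        = |∑ j ∈ univ.erase q, (σ j : ℝ) * P j q| := by congr 1; ring
      _ ≤ ∑ j ∈ univ.erase q, |(σ j : ℝ) * P j q| := Finset.abs_sum_le_sum_abs _ _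
      _ = ∑ j ∈ univ.erase q, P j q := Finset.sum_congr rfl fun j _ => by
          rw [abs_mul, CLC_sg σ hσ, one_mul, abs_of_nonneg (h0 j q)]
      _ ≤ 1 / 20 := h1
  have pp : ∀ p, p ≠ q → |∑ j, (σ j : ℝ) * P j p| ≤ 1 := by
    intro p hp
    have e : ∑ j, (σ j : ℝ) * P j p = (σ p : ℝ) * P p p := by
      refine Finset.sum_eq_single p (fun j _ hj => ?_) (fun h => absurd (Finset.mem_univ _) h)
      rw [h2 j p hp (Ne.symm hj), mul_zero]
    rw [e, h3 p hp, mul_one, CLC_sg σ hσ]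
  have pp' : ∀ p, p ≠ q → |∑ j, (σ j : ℝ) * A j p + ∑ k, (τ k : ℝ) * B k p| ≤ 4 / 3 * R := by
    intro p hp
    have d := dev p
    have e := pp p hp
    have e2 : |R * ∑ j, (σ j : ℝ) * P j p| ≤ R := by
      rw [abs_mul, abs_of_pos hR]
      calc R * |∑ j, (σ j : ℝ) * P j p| ≤ R * 1 := mul_le_mul_of_nonneg_left e hR.le
        _ = R := mul_one R
    rw [abs_le] at d e2 ⊢
    constructor <;> linarith [d.1, d.2, e2.1, e2.2]
  have pq' : |R * ∑ j, (σ j : ℝ) * P j q - R * ((σ q : ℝ) * (7 / 5))| ≤ 1 / 20 * R := by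
    rw [← mul_sub, abs_mul, abs_of_pos hR]
    calc R * |∑ j, (σ j : ℝ) * P j q - (σ q : ℝ) * (7 / 5)| ≤ R * (1 / 20) :=
          mul_le_mul_of_nonneg_left pq hR.le
      _ = 1 / 20 * R := mul_comm _ _
  have key := CLC_key σ hσ q R hR _ _ (dev q) pq'
  refine ⟨key.1, key.2.1, fun p => ?_, key.2.2.1, key.2.2.2⟩
  by_cases hp : p = q
  · rw [hp]
  · exact (pp' p hp).trans key.1

/-- evaluation of one coordinate of the error is additive -/
noncomputable def CLC_evh {m n : ℕ} (Θ : Mat m n) (p : Fin (n + 1)) : Pt m n →+ ℝ where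
  toFun w := ev Θ w p
  map_zero' := by simp [ev]
  map_add' w w' := by
    simp only [ev, Prod.fst_add, Prod.snd_add, Pi.add_apply, Int.cast_add, mul_add,
      Finset.sum_add_distrib]
    ring

/-- evaluation of one coordinate of x is additive -/
def CLC_xvh {m n : ℕ} (p : Fin (m + 1)) : Pt m n →+ ℝ where
  toFun w := xv w p
  map_zero' := by simp [xv]
  map_add' w w' := by simp [xv]

theorem CLC_hom {m n : ℕ} (g : Pt m n →+ ℝ) (F : Fr m n) (σ : Fin (m + 1) → ℤ)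
    (τ : Fin (n + 1) → ℤ) : g (∑ j, σ j • F.v j + ∑ k, τ k • F.f k) =
    ∑ j, (σ j : ℝ) * g (F.v j) + ∑ k, (τ k : ℝ) * g (F.f k) := by
  rw [map_add, map_sum, map_sum]
  congr 1
  · exact Finset.sum_congr rfl fun j _ => by rw [map_zsmul, zsmul_eq_mul]
  · exact Finset.sum_congr rfl fun j _ => by rw [map_zsmul, zsmul_eq_mul]

theorem CLC_norm {N : ℕ} (x : Fin (N + 1) → ℝ) (y : Fin (N + 1) → ℝ) (q : Fin (N + 1))
    (h : ∀ p, 2 * x p = y p) (hy : ∀ p, |y p| ≤ |y q|) : 2 * ‖x‖ = |y q| := by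
  have h1 : ‖x‖ ≤ |y q| / 2 := by
    rw [pi_norm_le_iff_of_nonneg (by positivity)]
    intro p
    have := hy p
    rw [← h p, abs_mul, abs_of_pos (by norm_num : (0 : ℝ) < 2)] at this
    rw [Real.norm_eq_abs]
    linarith
  have h2 : |y q| / 2 ≤ ‖x‖ := by
    have := norm_le_pi_norm x q
    rw [Real.norm_eq_abs] at this
    rw [← h q, abs_mul, abs_of_pos (by norm_num : (0 : ℝ) < 2)]
    linarith
  linarith

theorem p_CLC (hP : Stmt_PAT) (hC : Stmt_CST) (_hA : Stmt_APX) : Stmt_CLC := by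
  intro m n F X ε Θ hF σ τ hσ hτ
  obtain ⟨⟨a1, a2, a3, a4, a5, a6, a7, a8⟩, -⟩ := hP m
  obtain ⟨-, b1, b2, b3, b4, b5, b6, b7, b8⟩ := hP n
  have hth := (hC m n).2.2.2.2.2.2.2.2.2.1
  have hk : DD m n * th m n ≤ 1 / 9000 := by
    rw [hth]
    apply one_div_le_one_div_of_le (by norm_num)
    have : (9 : ℝ) ≤ 3 ^ (m + n + 2) := by
      calc (9 : ℝ) = 3 ^ 2 := by norm_num
        _ ≤ 3 ^ (m + n + 2) := pow_le_pow_right₀ (by norm_num) (by omega)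
    linarith
  unfold DD at hk
  have hx := CLC_gen (N := m) (M := n) (pP m) 0 (fun j p => (a1 j p).1) (a3 0) a4 a6 a7 X
    (th m n) hF.Xp F.X F.U hF.hx hF.hf hk σ τ hσ hτ
  have he := CLC_gen (N := n) (M := m) (pQ n) (Fin.last n) (fun j p => (b1 j p).1)
    (b3 _) b4 b6 b7 ε
    (th m n) hF.ep (fun k p => ev Θ (F.f k) p) (fun j p => ev Θ (F.v j) p) hF.he hF.hv
    (by rw [add_comm (n : ℝ) (m : ℝ)]; exact hk) τ σ hτ hσ
  have haa : aa F σ τ = ∑ j, (σ j : ℝ) * F.X j 0 + ∑ k, (τ k : ℝ) * F.U k 0 := rfl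
  have hee : ee Θ F σ τ = ∑ k, (τ k : ℝ) * ev Θ (F.f k) (Fin.last n) +
      ∑ j, (σ j : ℝ) * ev Θ (F.v j) (Fin.last n) := add_comm _ _
  refine ⟨?_, ?_⟩
  · obtain ⟨h, hh, -⟩ := hF.good
    have hs : ∀ j, ∃ a : ℤ, σ j = 1 + 2 * a := fun j => by
      rcases hσ j with e | e
      · exact ⟨0, by rw [e]; norm_num⟩
      · exact ⟨-1, by rw [e]; norm_num⟩
    have ht : ∀ j, ∃ a : ℤ, τ j = 1 + 2 * a := fun j => by
      rcases hτ j with e | e
      · exact ⟨0, by rw [e]; norm_num⟩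
      · exact ⟨-1, by rw [e]; norm_num⟩
    choose a ha using hs
    choose b hb using ht
    refine ⟨h + ∑ j, a j • F.v j + ∑ k, b k • F.f k, ?_⟩
    have e1 : ∑ j, σ j • F.v j = ∑ j, F.v j + (∑ j, a j • F.v j + ∑ j, a j • F.v j) := by
      rw [← Finset.sum_add_distrib, ← Finset.sum_add_distrib]
      refine Finset.sum_congr rfl fun j _ => ?_
      rw [ha j, add_smul, one_smul, two_mul, add_smul]
    have e2 : ∑ j, τ j • F.f j = ∑ j, F.f j + (∑ j, b j • F.f j + ∑ j, b j • F.f j) := by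
      rw [← Finset.sum_add_distrib, ← Finset.sum_add_distrib]
      refine Finset.sum_congr rfl fun j _ => ?_
      rw [hb j, add_smul, one_smul, two_mul, add_smul]
    rw [e1, e2]
    have e3 : h + ∑ j, a j • F.v j + ∑ k, b k • F.f k +
        (h + ∑ j, a j • F.v j + ∑ k, b k • F.f k) = (h + h) +
        (∑ j, a j • F.v j + ∑ j, a j • F.v j) + (∑ j, b j • F.f j + ∑ j, b j • F.f j) := by
      abel
    rw [e3, hh]
    abel
  rw [hee, haa]
  refine ⟨hx.1, hx.2.1, he.1, he.2.1, hx.2.2.2.1, he.2.2.2.2, fun z hz => ⟨?_, ?_⟩⟩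
  · refine CLC_norm (xv z) (fun p => ∑ j, (σ j : ℝ) * F.X j p + ∑ k, (τ k : ℝ) * F.U k p) 0
      (fun p => ?_) hx.2.2.1
    have h1 := congrArg (CLC_xvh (m := m) (n := n) p) hz
    rw [CLC_hom, map_add] at h1
    rw [two_mul]
    exact h1
  · refine CLC_norm (ev Θ z) (fun p => ∑ k, (τ k : ℝ) * ev Θ (F.f k) p +
      ∑ j, (σ j : ℝ) * ev Θ (F.v j) p) (Fin.last n) (fun p => ?_) he.2.2.1
    have h1 := congrArg (CLC_evh Θ p) hz
    rw [CLC_hom, map_add] at h1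
    rw [two_mul]
    exact h1.trans (add_comm _ _)

end Pool.LG
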