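import Pool.Agent.Work.MP_7453a1_lg.Interface

set_option autoImplicit false

/-!
# MP_7453a1_nt, sup norms: block CLF (helper21)
-/

namespace Pool.LG

open Finset Real Filter

/-- From the logarithmic estimate to the bound for the errors. -/
theorem CLF_ratio {e e' L : ℝ} {b : ℕ} (he : 0 < e) (he' : 0 < e') (hL : 0 < L)
    (h : |log (e' / e) + b * log L| ≤ 3) : e' ≤ e * exp 3 * (1 / L) ^ b := by
  have h1 : log (e' / e) ≤ 3 - b * log L := by linarith [(abs_le.mp h).2]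
  have h2 : e' / e ≤ exp (3 - b * log L) := by
    rw [← Real.exp_log (div_pos he' he)]
    exact Real.exp_le_exp.mpr h1
  have h3 : exp (3 - b * log L) = exp 3 * (1 / L) ^ b := by
    rw [sub_eq_add_neg, Real.exp_add, Real.exp_neg, Real.exp_nat_mul, Real.exp_log hL, one_div,
      inv_pow]
  rw [h3, div_le_iff₀ he] at h2
  linarith

/-- Powers. -/
theorem CLF_pow {L : ℝ} (hL : 1 ≤ L) {w a : ℕ} (h : w < a) : L ^ w ≤ L ^ a * (1 / L) := by
  have hL0 : 0 < L := by linarith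
  have h1 : L ^ w * L ≤ L ^ a := by
    rw [← pow_succ]
    exact pow_le_pow_right₀ hL h
  rw [mul_one_div, le_div_iff₀ hL0]
  exact h1

/-- All constants. -/
structure CLF_K (m n : ℕ) (y q r : ℝ) : Prop where
  y1 : 1 ≤ y
  ey : exp (CC m n) = y
  ey2 : exp (2 * CC m n) = y ^ 2
  en : exp (-CC m n) = y⁻¹
  e3 : exp 3 ≤ y
  q0 : 0 < q
  q1 : q ≤ 1
  qL : 1 / Lam m n = q
  L0 : 1 ≤ Lam m n
  yq : y ^ 4 * q = r
  r0 : 0 < r
  r1 : r ≤ 1 / 2000
  rf : 2 * r ≤ ft m n
  fp : 0 < ft m n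
  tp : 0 < th m n
  ft400 : 400 * ft m n ≤ th m n
  ths : th m n ≤ 1 / 18000
  nf : 30 * ((n : ℝ) + 1) * 3 ^ m * r < 1
  mf : 120 * ((m : ℝ) + 1) * 3 ^ n * r < 1

theorem CLF_consts (hCST : Stmt_CST) (m n : ℕ) : ∃ y q r : ℝ, CLF_K m n y q r := by
  obtain ⟨c1, c2, c3, c4, c5, c6, c7, c8, c9, c10, c11, c12, c13, c14, c15, c16, c17⟩ := hCST m n
  have hH : 0 < HH m n := by linarith
  have hL : 0 < Lam m n := by linarith
  have hy1 : 1 ≤ exp (CC m n) := Real.one_le_exp (by linarith)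
  have h4 : exp (4 * CC m n) = exp (CC m n) ^ 4 := by
    rw [← Real.exp_nat_mul]
    norm_num
  have hyp : 0 < exp (CC m n) := Real.exp_pos _
  have hD : (m : ℝ) + 1 ≤ DD m n ∧ (n : ℝ) + 1 ≤ DD m n := by
    unfold DD
    constructor
    · have : (0 : ℝ) ≤ n := Nat.cast_nonneg n
      linarith
    · have : (0 : ℝ) ≤ m := Nat.cast_nonneg m
      linarith
  have hft : 1 ≤ HH m n * ft m n := by
    rw [div_le_iff₀ hH] at c13
    linarith
  -- `H ≥ 3600000 D 3^m`
  have key : ∀ k : ℕ, th m n ≤ 1 / (18000 * 3 ^ k) → 3600000 * (DD m n * 3 ^ k) ≤ HH m n := by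
    intro k hk
    have h3 : (0 : ℝ) < 3 ^ k := by positivity
    have hDp : 0 < DD m n := by linarith
    rw [le_div_iff₀ (by positivity)] at hk
    rw [← c9] at hk
    -- hk : 200 * D * ft * (18000 * 3^k) ≤ 1
    have h5 : HH m n * ft m n * (3600000 * (DD m n * 3 ^ k)) ≤ HH m n := by
      calc HH m n * ft m n * (3600000 * (DD m n * 3 ^ k))
          = HH m n * (200 * DD m n * ft m n * (18000 * 3 ^ k)) := by ring
        _ ≤ HH m n * 1 := by gcongr
        _ = HH m n := mul_one _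
    have h6 : 3600000 * (DD m n * 3 ^ k) ≤ HH m n * ft m n * (3600000 * (DD m n * 3 ^ k)) := by
      have h7 : 0 ≤ 3600000 * (DD m n * 3 ^ k) := by positivity
      nlinarith
    linarith
  have km := key m c11
  have kn := key n c12
  refine ⟨exp (CC m n), 1 / Lam m n, 1 / (2 * HH m n), ?_⟩
  refine ⟨hy1, rfl, ?_, ?_, ?_, by positivity, ?_, rfl, by linarith, ?_, by positivity, ?_, ?_,
    c8, c7, ?_, ?_, ?_, ?_⟩
  · rw [← Real.exp_nat_mul]
    norm_num
  · rw [Real.exp_neg]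
  · exact Real.exp_le_exp.mpr (by linarith)
  · rw [div_le_one hL]
    linarith
  · rw [← c14, h4]
    field_simp
  · rw [div_le_div_iff₀ (by positivity) (by norm_num)]
    linarith
  · have : 2 * (1 / (2 * HH m n)) = 1 / HH m n := by field_simp
    rw [this]
    exact c13
  · rw [← c9]
    nlinarith
  · refine c11.trans ?_
    have : (1 : ℝ) ≤ 3 ^ m := one_le_pow₀ (by norm_num)
    apply one_div_le_one_div_of_le (by norm_num)
    linarith
  · have h3 : (0 : ℝ) < 3 ^ m := by positivity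
    have h7 : ((n : ℝ) + 1) * 3 ^ m ≤ DD m n * 3 ^ m := by
      gcongr
      exact hD.2
    have h8 : 30 * ((n : ℝ) + 1) * 3 ^ m * (1 / (2 * HH m n))
        = 15 * (((n : ℝ) + 1) * 3 ^ m) / HH m n := by
      field_simp
      ring
    rw [h8, div_lt_one hH]
    nlinarith [mul_pos (by linarith : (0 : ℝ) < DD m n) h3]
  · have h3 : (0 : ℝ) < 3 ^ n := by positivity
    have h7 : ((m : ℝ) + 1) * 3 ^ n ≤ DD m n * 3 ^ n := by
      gcongr
      exact hD.1
    have h8 : 120 * ((m : ℝ) + 1) * 3 ^ n * (1 / (2 * HH m n))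
        = 60 * (((m : ℝ) + 1) * 3 ^ n) / HH m n := by
      field_simp
      ring
    rw [h8, div_lt_one hH]
    nlinarith [mul_pos (by linarith : (0 : ℝ) < DD m n) h3]

section numbers

variable {m n : ℕ} {y q r : ℝ}

theorem CLF_yq (K : CLF_K m n y q r) (k : ℕ) (hk : k ≤ 4) : y ^ k * q ≤ r := by
  rw [← K.yq]
  have := K.q0
  have := K.y1
  gcongr

theorem CLF_yqq (K : CLF_K m n y q r) (k : ℕ) (hk : k ≤ 8) : y ^ k * q ^ 2 ≤ r ^ 2 := by
  have e : r ^ 2 = y ^ 8 * q ^ 2 := by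
    rw [← K.yq]
    ring
  rw [e]
  have := K.q0
  have := K.y1
  gcongr

end numbers

/-- `|exp x - 1| ≤ 2 |x|`. -/
theorem CLF_exp {x : ℝ} (h : |x| ≤ 1) : |exp x - 1| ≤ 2 * |x| := by
  have := Real.abs_exp_sub_one_le h
  linarith

/-- sum over a filter: crude bound -/
theorem CLF_sum {N : ℕ} (P : Fin (N + 1) → Prop) [DecidablePred P] (g : Fin (N + 1) → ℝ) {B : ℝ}
    (hB : 0 ≤ B) (h : ∀ l, P l → g l ≤ B) : ∑ l ∈ univ.filter P, g l ≤ ((N : ℝ) + 1) * B := by
  calc ∑ l ∈ univ.filter P, g l ≤ ∑ l ∈ univ.filter P, B :=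
        sum_le_sum fun l hl => h l (mem_filter.mp hl).2
    _ = ((univ.filter P).card : ℝ) * B := by rw [sum_const, nsmul_eq_mul]
    _ ≤ ((N : ℝ) + 1) * B := by
      gcongr
      have := card_filter_le (univ : Finset (Fin (N + 1))) P
      rw [card_univ, Fintype.card_fin] at this
      exact_mod_cast this

/-- the same, one term missing -/
theorem CLF_sum' {N : ℕ} (P : Fin (N + 1) → Prop) [DecidablePred P] (g : Fin (N + 1) → ℝ) {B : ℝ}
    (hB : 0 ≤ B) (h : ∀ l, P l → g l ≤ B) (j : Fin (N + 1)) (hj : ¬ P j) :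
    ∑ l ∈ univ.filter P, g l ≤ (N : ℝ) * B := by
  calc ∑ l ∈ univ.filter P, g l ≤ ∑ l ∈ univ.filter P, B :=
        sum_le_sum fun l hl => h l (mem_filter.mp hl).2
    _ = ((univ.filter P).card : ℝ) * B := by rw [sum_const, nsmul_eq_mul]
    _ ≤ (N : ℝ) * B := by
      gcongr
      have h1 : univ.filter P ⊆ univ.erase j := by
        intro l hl
        rw [mem_erase]
        refine ⟨?_, mem_univ _⟩
        rintro rfl
        exact hj (mem_filter.mp hl).2
      have h2 := card_le_card h1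
      rw [card_erase_of_mem (mem_univ _), card_univ, Fintype.card_fin] at h2
      exact_mod_cast h2

theorem p_CLF (hPAT : Stmt_PAT) (hCST : Stmt_CST) (hSCH : Stmt_SCH) (hSEQ : Stmt_SEQ)
    (hLMT : Stmt_LMT) : Stmt_CLF := by
  intro m n
  obtain ⟨y, q, r, K⟩ := CLF_consts hCST m n
  obtain ⟨F, Θ, ε, η, W, hs⟩ := hSEQ m n
  obtain ⟨-, -, -, -, -, -, -, -, -, hWA, hWW, hbb, hbe⟩ := hSCH m n
  have hL0 : 0 < Lam m n := lt_of_lt_of_le one_pos K.L0
  have hqp := K.q0
  have hyp : 0 < y := lt_of_lt_of_le one_pos K.y1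
  have hrp := K.r0
  have hAt : 1 ≤ At m n := by
    have := hWA 0
    omega
  have hKE : Lam m n ≤ KE m n := by
    unfold KE
    calc Lam m n = Lam m n ^ 1 := (pow_one _).symm
      _ ≤ Lam m n ^ At m n := pow_le_pow_right₀ K.L0 hAt
  have hKE0 : 0 < KE m n := lt_of_lt_of_le hL0 hKE
  have hLq : Lam m n * q = 1 := by
    rw [← K.qL]
    field_simp
  have hKq : 1 ≤ KE m n * q := by
    rw [← hLq]
    gcongr
  have hep : ∀ s, 0 < ε s := fun s => (hs s).1.ep
  have hXp : ∀ s, 0 < KE m n ^ (s + 1) := fun s => by positivity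
  -- growth of the errors
  have hgr : ∀ s, ε (s + 1) ≤ ε s * exp 3 * q ^ Bt m n := by
    intro s
    have h := (hs s).2.2.1.eps
    have := CLF_ratio (hep s) (hep (s + 1)) hL0 h
    rw [K.qL] at this
    exact this
  set μ : ℕ → ℝ := fun s => 10 * y ^ 2 * (ε s / KE m n ^ (s + 1)) * q with hμ
  have hμ0 : ∀ s, 0 ≤ μ s := fun s => by
    have := hep s
    have := hXp s
    simp only [hμ]
    positivity
  have hμ2 : ∀ s, μ (s + 1) ≤ μ s / 2 := by
    intro s
    have e1 : ε (s + 1) ≤ ε s * y := by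
      refine (hgr s).trans ?_
      have h1 : q ^ Bt m n ≤ 1 := pow_le_one₀ hqp.le K.q1
      have h2 : 0 < ε s * exp 3 := mul_pos (hep s) (exp_pos _)
      calc ε s * exp 3 * q ^ Bt m n ≤ ε s * exp 3 * 1 := by gcongr
        _ = ε s * exp 3 := mul_one _
        _ ≤ ε s * y := by
          have := hep s
          gcongr
          exact K.e3
    have e2 : ε (s + 1) / KE m n ^ (s + 1 + 1) ≤ ε s / KE m n ^ (s + 1) * (y * q) := by
      rw [div_le_iff₀ (hXp (s + 1))]
      refine e1.trans ?_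
      have h3 : ε s / KE m n ^ (s + 1) * (y * q) * KE m n ^ (s + 1 + 1)
          = ε s * y * (KE m n * q) := by
        rw [pow_succ (KE m n) (s + 1)]
        have := (hXp s).ne'
        field_simp
      rw [h3]
      have h4 : 0 < ε s * y := mul_pos (hep s) hyp
      nlinarith
    have e3 : y * q ≤ 1 / 2 := by
      have h5 := CLF_yq K 1 (by norm_num)
      rw [pow_one] at h5
      linarith [K.r1]
    have e4 : 0 < ε s / KE m n ^ (s + 1) := div_pos (hep s) (hXp s)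
    simp only [hμ]
    calc 10 * y ^ 2 * (ε (s + 1) / KE m n ^ (s + 1 + 1)) * q
        ≤ 10 * y ^ 2 * (ε s / KE m n ^ (s + 1) * (y * q)) * q := by gcongr
      _ ≤ 10 * y ^ 2 * (ε s / KE m n ^ (s + 1) * (1 / 2)) * q := by gcongr
      _ = 10 * y ^ 2 * (ε s / KE m n ^ (s + 1)) * q / 2 := by ring
  obtain ⟨Θ', hΘ⟩ := hLMT m n Θ μ (fun s => ⟨hμ0 s, hμ2 s⟩) (by
    intro s w R hR p
    have h := (hs s).2.2.1.mov w R hR p
    refine h.trans (le_of_eq ?_)
    simp only [hμ]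
    rw [K.ey2, ← K.qL]
    ring)
  obtain ⟨⟨-, -, -, -, -, -, -, -⟩, -⟩ := hPAT m
  have hP7 : ∀ j p, 0 ≤ pP m j p ∧ pP m j p ≤ 7 / 5 := (hPAT m).1.1
  have hQ7 : ∀ j p, 0 ≤ pQ n j p ∧ pQ n j p ≤ 7 / 5 := (hPAT n).2.1
  refine ⟨fun s => F (s + 1), fun s => ε (s + 1), Θ', ?_⟩
  intro s
  have hX1 : 0 < KE m n ^ (s + 2) := by positivity
  have he1 : 0 < ε (s + 1) := hep (s + 1)
  have S1 := (hs (s + 1)).1
  have N0 := (hs s).2.2.1
  have N1 := (hs (s + 1)).2.2.1
  have hfm : ft m n ≤ th m n := by linarith [K.ft400, K.fp]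
  -- bound for `x(f k)`
  have hU : ∀ k p, |(F (s + 1)).U k p| ≤ 3 / 2 * (y * q) * KE m n ^ (s + 2) := by
    intro k p
    refine (N0.fup k p).trans ?_
    have h1 := CLF_pow K.L0 (hWA k)
    rw [K.qL] at h1
    rw [K.ey]
    have h2 : Lam m n ^ At m n = KE m n := rfl
    rw [h2] at h1
    have h3 : 0 < KE m n ^ (s + 1) * y := mul_pos (hXp s) hyp
    calc 3 / 2 * (KE m n ^ (s + 1) * y * Lam m n ^ Wx m n (TT m n) k)
        ≤ 3 / 2 * (KE m n ^ (s + 1) * y * (KE m n * q)) := by gcongr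
      _ = 3 / 2 * (y * q) * KE m n ^ (s + 2) := by ring
  -- bound for `x(v j)`
  have hV : ∀ j p, |(F (s + 1)).X j p| ≤ 3 / 2 * KE m n ^ (s + 2) := by
    intro j p
    have h1 := S1.sta.hx j p
    have h2 := (hP7 j p).2
    have h3 := (hP7 j p).1
    have h4 : KE m n ^ (s + 1 + 1) = KE m n ^ (s + 2) := rfl
    rw [h4] at h1
    have h5 : |(F (s + 1)).X j p| ≤ |(F (s + 1)).X j p - KE m n ^ (s + 2) * pP m j p|
        + |KE m n ^ (s + 2) * pP m j p| := by
      have := abs_add_le ((F (s + 1)).X j p - KE m n ^ (s + 2) * pP m j p)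
        (KE m n ^ (s + 2) * pP m j p)
      rwa [sub_add_cancel] at this
    rw [abs_of_nonneg (mul_nonneg hX1.le h3)] at h5
    have h6 : ft m n ≤ 1 / 10 := by linarith [K.ths]
    nlinarith
  -- the tail
  have htail : ∀ (j : Fin (m + 1)) p, |ev Θ' ((F (s + 1)).v j) p - ev (Θ (s + 2)) ((F (s + 1)).v j) p|
      ≤ ε (s + 1) * (30 * (y ^ 3 * q ^ 2)) * q ^ be m n j := by
    intro j p
    have h1 := hΘ (s + 2) ((F (s + 1)).v j) (3 / 2 * KE m n ^ (s + 2)) (fun l => hV j l) p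
    refine h1.trans ?_
    simp only [hμ]
    have h2 := hgr (s + 1)
    have h3 : exp 3 ≤ y := K.e3
    have h4 : q ^ Bt m n ≤ q ^ be m n j :=
      pow_le_pow_of_le_one hqp.le K.q1 (hbe j (Nat.lt_succ_iff.mp j.2)).2.2
    have h5 : ε (s + 2) ≤ ε (s + 1) * y * q ^ be m n j := by
      refine h2.trans ?_
      gcongr
    have h6 : ε (s + 2) / KE m n ^ (s + 2 + 1) ≤ ε (s + 1) * y * q ^ be m n j * q
        / KE m n ^ (s + 2) := by
      rw [div_le_div_iff₀ (by positivity) hX1]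
      have h7 : 0 ≤ ε (s + 1) * y * q ^ be m n j := by positivity
      calc ε (s + 2) * KE m n ^ (s + 2)
          ≤ ε (s + 1) * y * q ^ be m n j * KE m n ^ (s + 2) := by gcongr
        _ ≤ ε (s + 1) * y * q ^ be m n j * KE m n ^ (s + 2) * (KE m n * q) := by
          have h8 : 0 ≤ ε (s + 1) * y * q ^ be m n j * KE m n ^ (s + 2) := by positivity
          nlinarith
        _ = ε (s + 1) * y * q ^ be m n j * q * KE m n ^ (s + 2 + 1) := by ring
    calc 2 * (10 * y ^ 2 * (ε (s + 2) / KE m n ^ (s + 2 + 1)) * q) * (3 / 2 * KE m n ^ (s + 2))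
        ≤ 2 * (10 * y ^ 2 * (ε (s + 1) * y * q ^ be m n j * q / KE m n ^ (s + 2)) * q)
          * (3 / 2 * KE m n ^ (s + 2)) := by gcongr
      _ = ε (s + 1) * (30 * (y ^ 3 * q ^ 2)) * q ^ be m n j := by
        field_simp
        ring
  have hmob : ∀ (j : Fin (m + 1)) p, |ev (Θ (s + 2)) ((F (s + 1)).v j) p|
      ≤ ε (s + 1) * (3 * y) * q ^ be m n j := by
    intro j p
    have h1 := N1.mob j p
    rw [K.ey, K.qL] at h1
    refine h1.trans (le_of_eq ?_)
    ring
  have hr2 : 30 * r ^ 2 ≤ r / 60 := by nlinarith [K.r1]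
  have hyqq : 30 * (y ^ 3 * q ^ 2) ≤ r / 60 := by
    have := CLF_yqq K 3 (by norm_num)
    linarith
  have hyyqq : 30 * (y ^ 4 * q ^ 2) ≤ r / 60 := by
    have := CLF_yqq K 4 (by norm_num)
    linarith
  have hv : ∀ (j : Fin (m + 1)) p, |ev Θ' ((F (s + 1)).v j) p|
      ≤ ε (s + 1) * (3 * y + 30 * (y ^ 3 * q ^ 2)) * q ^ be m n j := by
    intro j p
    have h1 := htail j p
    have h2 := hmob j p
    have h3 : |ev Θ' ((F (s + 1)).v j) p| ≤
        |ev Θ' ((F (s + 1)).v j) p - ev (Θ (s + 2)) ((F (s + 1)).v j) p|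
          + |ev (Θ (s + 2)) ((F (s + 1)).v j) p| := by
      have := abs_add_le (ev Θ' ((F (s + 1)).v j) p - ev (Θ (s + 2)) ((F (s + 1)).v j) p)
        (ev (Θ (s + 2)) ((F (s + 1)).v j) p)
      rwa [sub_add_cancel] at this
    refine h3.trans ((add_le_add h1 h2).trans (le_of_eq ?_))
    ring
  have h1k := CLF_yq K 1 (by norm_num)
  have h2k := CLF_yq K 2 (by norm_num)
  rw [pow_one] at h1k
  refine ⟨S1.sta.good, hX1, he1, ?_, ?_, ?_, ?_, ?_, ?_⟩
  · -- hx
    intro j p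
    have h1 := S1.sta.hx j p
    have h4 : KE m n ^ (s + 1 + 1) = KE m n ^ (s + 2) := rfl
    rw [h4] at h1
    refine h1.trans ?_
    gcongr
  · -- hf
    intro k p
    refine (hU k p).trans ?_
    have : 3 / 2 * (y * q) ≤ th m n := by linarith [K.rf]
    gcongr
  · -- he
    intro i p
    have h1 := S1.sta.he i p
    have h2 := hΘ (s + 1) ((F (s + 1)).f i) (3 / 2 * (y * q) * KE m n ^ (s + 2))
      (fun l => hU i l) p
    have h3 : 2 * μ (s + 1) * (3 / 2 * (y * q) * KE m n ^ (s + 2))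
        = ε (s + 1) * (30 * (y ^ 3 * q ^ 2)) := by
      simp only [hμ]
      have h4 : KE m n ^ (s + 1 + 1) = KE m n ^ (s + 2) := rfl
      rw [h4]
      field_simp
      ring
    rw [h3] at h2
    have hη : |η (s + 1) i| ≤ th m n / 5 := (hs s).2.1 i
    have hη1 : |η (s + 1) i| ≤ 1 := by linarith [K.ths]
    have hex := CLF_exp hη1
    have hex1 : |exp (η (s + 1) i) - 1| ≤ 2 / 5 * th m n := by linarith
    have hex2 : exp (η (s + 1) i) ≤ 2 := by
      have := (abs_le.mp hex1).2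
      linarith [K.ths]
    have hq7 := hQ7 i p
    have t1 : |ev (Θ (s + 1)) ((F (s + 1)).f i) p - ε (s + 1) * exp (η (s + 1) i) * pQ n i p|
        ≤ ε (s + 1) * (2 * ft m n) := by
      refine h1.trans ?_
      have : ft m n * (ε (s + 1) * exp (η (s + 1) i)) ≤ ft m n * (ε (s + 1) * 2) := by
        have := K.fp
        gcongr
      linarith
    have t2 : |ε (s + 1) * exp (η (s + 1) i) * pQ n i p - ε (s + 1) * pQ n i p|
        ≤ ε (s + 1) * (14 / 25 * th m n) := by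
      have e1 : ε (s + 1) * exp (η (s + 1) i) * pQ n i p - ε (s + 1) * pQ n i p
          = ε (s + 1) * (exp (η (s + 1) i) - 1) * pQ n i p := by ring
      rw [e1, abs_mul, abs_mul, abs_of_pos he1, abs_of_nonneg hq7.1]
      calc ε (s + 1) * |exp (η (s + 1) i) - 1| * pQ n i p
          ≤ ε (s + 1) * (2 / 5 * th m n) * (7 / 5) := by
            have := K.tp
            gcongr
            · exact hq7.1
            · exact hq7.2
        _ = ε (s + 1) * (14 / 25 * th m n) := by ring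
    have t3 : |ev Θ' ((F (s + 1)).f i) p - ε (s + 1) * pQ n i p|
        ≤ ε (s + 1) * (30 * (y ^ 3 * q ^ 2)) + ε (s + 1) * (2 * ft m n)
          + ε (s + 1) * (14 / 25 * th m n) := by
      have e1 : ev Θ' ((F (s + 1)).f i) p - ε (s + 1) * pQ n i p
          = (ev Θ' ((F (s + 1)).f i) p - ev (Θ (s + 1)) ((F (s + 1)).f i) p)
            + (ev (Θ (s + 1)) ((F (s + 1)).f i) p - ε (s + 1) * exp (η (s + 1) i) * pQ n i p)
            + (ε (s + 1) * exp (η (s + 1) i) * pQ n i p - ε (s + 1) * pQ n i p) := by ring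
      rw [e1]
      refine (abs_add_le _ _).trans (add_le_add ((abs_add_le _ _).trans (add_le_add h2 t1)) t2)
    refine t3.trans ?_
    have : 30 * (y ^ 3 * q ^ 2) + 2 * ft m n + 14 / 25 * th m n ≤ th m n := by
      linarith [K.rf, K.ft400]
    nlinarith
  · -- hv
    intro j p
    refine (hv j p).trans ?_
    have h1 : q ^ be m n j ≤ q := by
      calc q ^ be m n j ≤ q ^ 1 :=
            pow_le_pow_of_le_one hqp.le K.q1 (hbe j (Nat.lt_succ_iff.mp j.2)).1
        _ = q := pow_one q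
    have h2 : 0 ≤ ε (s + 1) * (3 * y + 30 * (y ^ 3 * q ^ 2)) := by positivity
    calc ε (s + 1) * (3 * y + 30 * (y ^ 3 * q ^ 2)) * q ^ be m n j
        ≤ ε (s + 1) * (3 * y + 30 * (y ^ 3 * q ^ 2)) * q := by gcongr
      _ = ε (s + 1) * (3 * (y * q) + 30 * (y ^ 3 * q ^ 2) * q) := by ring
      _ ≤ ε (s + 1) * (3 * r + r / 60 * 1) := by
        gcongr
        exact K.q1
      _ ≤ ε (s + 1) * th m n := by
        have := K.rf
        have := K.ft400
        have := K.fp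
        gcongr
        linarith
      _ = th m n * ε (s + 1) := mul_comm _ _
  · -- fo
    intro k
    set w : ℕ := Wx m n (TT m n) k with hw
    have hlo := N0.flo k
    rw [K.en] at hlo
    have h3m : (0 : ℝ) < 3 ^ m := by positivity
    set B : ℝ := 3 / 2 * (KE m n ^ (s + 1) * y * (Lam m n ^ w * q)) with hB
    have hB0 : 0 ≤ B := by rw [hB]; positivity
    have hsum := CLF_sum (fun l => l < k) (fun l => |(F (s + 1)).U l 0|) hB0 (by
      intro l hl
      refine (N0.fup l 0).trans ?_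
      have h1 := CLF_pow K.L0 (hWW l k hl)
      rw [K.qL] at h1
      rw [K.ey, hB]
      have h3 : 0 < KE m n ^ (s + 1) * y := mul_pos (hXp s) hyp
      gcongr)
    refine lt_of_le_of_lt hsum (lt_of_lt_of_le ?_ hlo)
    have hP : 0 < KE m n ^ (s + 1) * Lam m n ^ w := by positivity
    have e1 : ((n : ℝ) + 1) * B
        = KE m n ^ (s + 1) * Lam m n ^ w * (3 / 2 * ((n : ℝ) + 1) * (y * q)) := by
      rw [hB]
      ring
    have e2 : 1 / (20 * 3 ^ m) * (KE m n ^ (s + 1) * y⁻¹ * Lam m n ^ w)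
        = KE m n ^ (s + 1) * Lam m n ^ w * (1 / (20 * 3 ^ m * y)) := by
      field_simp
    rw [e1, e2]
    apply mul_lt_mul_of_pos_left _ hP
    rw [lt_div_iff₀ (by positivity)]
    have e3 : 3 / 2 * ((n : ℝ) + 1) * (y * q) * (20 * 3 ^ m * y)
        = 30 * ((n : ℝ) + 1) * 3 ^ m * (y ^ 2 * q) := by ring
    rw [e3]
    refine lt_of_le_of_lt ?_ K.nf
    gcongr
  · -- vo
    intro j
    have hlo := (hs (s + 1)).2.2.2 j
    rw [K.en, K.qL] at hlo
    have h3n : (0 : ℝ) < 3 ^ n := by positivity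
    have htl := (abs_le.mp (htail j (Fin.last n))).1
    set P : ℝ := ε (s + 1) * q ^ be m n j with hP
    have hPp : 0 < P := by rw [hP]; positivity
    set B : ℝ := P * (3 * (y * q) + 30 * (y ^ 3 * q ^ 2)) with hB
    have hB0 : 0 ≤ B := by rw [hB]; positivity
    have hsum := CLF_sum' (fun l => j < l) (fun l => |ev Θ' ((F (s + 1)).v l) (Fin.last n)|) hB0 (by
      intro l hl
      refine (hv l (Fin.last n)).trans ?_
      have h1 : be m n j < be m n l := hbb j l hl (Nat.lt_succ_iff.mp l.2)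
      have h2 : q ^ be m n l ≤ q ^ be m n j * q := by
        rw [← pow_succ]
        exact pow_le_pow_of_le_one hqp.le K.q1 h1
      have h3 : 0 ≤ ε (s + 1) * (3 * y + 30 * (y ^ 3 * q ^ 2)) := by positivity
      calc ε (s + 1) * (3 * y + 30 * (y ^ 3 * q ^ 2)) * q ^ be m n l
          ≤ ε (s + 1) * (3 * y + 30 * (y ^ 3 * q ^ 2)) * (q ^ be m n j * q) := by gcongr
        _ = P * (3 * (y * q) + 30 * (y ^ 3 * q ^ 2) * q) := by
          rw [hP]
          ring
        _ ≤ P * (3 * (y * q) + 30 * (y ^ 3 * q ^ 2) * 1) := by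
          gcongr
          exact K.q1
        _ = B := by rw [hB, mul_one]) j (lt_irrefl j)
    refine lt_of_le_of_lt hsum ?_
    have e1 : 1 / (30 * 3 ^ n) * y⁻¹ * ε (s + 1) * q ^ be m n j = P * (1 / (30 * 3 ^ n * y)) := by
      rw [hP]
      field_simp
    rw [e1] at hlo
    have e2 : ε (s + 1) * (30 * (y ^ 3 * q ^ 2)) * q ^ be m n j = P * (30 * (y ^ 3 * q ^ 2)) := by
      rw [hP]
      ring
    rw [e2] at htl
    have hgoal : (m : ℝ) * B + P * (30 * (y ^ 3 * q ^ 2)) < P * (1 / (30 * 3 ^ n * y)) := by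
      have e3 : (m : ℝ) * B + P * (30 * (y ^ 3 * q ^ 2))
          = P * ((m : ℝ) * (3 * (y * q) + 30 * (y ^ 3 * q ^ 2)) + 30 * (y ^ 3 * q ^ 2)) := by
        rw [hB]
        ring
      rw [e3]
      apply mul_lt_mul_of_pos_left _ hPp
      rw [lt_div_iff₀ (by positivity)]
      have e4 : ((m : ℝ) * (3 * (y * q) + 30 * (y ^ 3 * q ^ 2)) + 30 * (y ^ 3 * q ^ 2))
            * (30 * 3 ^ n * y)
          = 30 * 3 ^ n * ((m : ℝ) * (3 * (y ^ 2 * q) + 30 * (y ^ 4 * q ^ 2))
            + 30 * (y ^ 4 * q ^ 2)) := by ring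
      rw [e4]
      have hm0 : (0 : ℝ) ≤ m := Nat.cast_nonneg m
      have h5 : (m : ℝ) * (3 * (y ^ 2 * q) + 30 * (y ^ 4 * q ^ 2)) + 30 * (y ^ 4 * q ^ 2)
          ≤ 4 * ((m : ℝ) + 1) * r := by
        have h6 : 3 * (y ^ 2 * q) + 30 * (y ^ 4 * q ^ 2) ≤ 4 * r := by linarith
        have h7 : (m : ℝ) * (3 * (y ^ 2 * q) + 30 * (y ^ 4 * q ^ 2)) ≤ (m : ℝ) * (4 * r) := by
          gcongr
        linarith
      calc 30 * 3 ^ n * ((m : ℝ) * (3 * (y ^ 2 * q) + 30 * (y ^ 4 * q ^ 2))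
            + 30 * (y ^ 4 * q ^ 2)) ≤ 30 * 3 ^ n * (4 * ((m : ℝ) + 1) * r) := by gcongr
        _ = 120 * ((m : ℝ) + 1) * 3 ^ n * r := by ring
        _ < 1 := K.mf
    linarith

end Pool.LG
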