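import Pool.Agent.Work.MP_7453a1_lg.Interface

set_option autoImplicit false

/-!
# Sup norms, all `m, n`, block CNT: the number of best approximations in a cluster
-/

namespace Pool.LG

open Finset Real Filter

theorem CNT_card {q : ℕ} (g : (Fin q → Bool) → ℝ) (hg : Function.Injective g) :
    (univ.image g).card = 2 ^ q := by
  rw [Finset.card_image_of_injective _ hg]
  simp

/-- signs from a Boolean -/
def CNT_b (b : Bool) : ℤ := if b then 1 else -1

theorem CNT_b_sg (b : Bool) : CNT_b b = 1 ∨ CNT_b b = -1 := by cases b <;> simp [CNT_b]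

theorem CNT_b_inj : Function.Injective CNT_b := by
  intro a b h
  cases a <;> cases b <;> simp_all [CNT_b]

/-- strict monotonicity gives injectivity -/
theorem CNT_ne {N : ℕ} (σ σ' : Fin N → ℤ) (hσ : Sg σ) (hσ' : Sg σ') (k : Fin N)
    (hk : σ k ≠ σ' k) : (σ k = -1 ∧ σ' k = 1) ∨ (σ' k = -1 ∧ σ k = 1) := by
  rcases hσ k with h | h <;> rcases hσ' k with h' | h'
  · exact absurd (h.trans h'.symm) hk
  · exact Or.inr ⟨h', h⟩
  · exact Or.inl ⟨h, h'⟩
  · exact absurd (h.trans h'.symm) hk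

theorem CNT_X (hPAT : Stmt_PAT) (hCST : Stmt_CST) {m n : ℕ} {F : Fr m n} {X ε : ℝ} {Θ : Mat m n}
    (h : Clu m n F X ε Θ) (j : Fin (m + 1)) (hj : j ≠ 0) :
    ∑ l ∈ univ.filter (j < ·), |F.X l 0| < F.X j 0 := by
  obtain ⟨⟨h1, -, -, -, h5, -, -, h8⟩, -⟩ := hPAT m
  obtain ⟨-, -, -, -, -, -, hth, -, -, hD, -⟩ := hCST m n
  have hX := h.Xp
  have e1 : ∑ l ∈ univ.filter (j < ·), |F.X l 0| ≤
      ∑ l ∈ univ.filter (j < ·), (X * pP m l 0 + th m n * X) := by
    refine Finset.sum_le_sum fun l _ => ?_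
    have e2 := h.hx l 0
    have e3 : |F.X l 0| ≤ |F.X l 0 - X * pP m l 0| + |X * pP m l 0| := by
      have := abs_add_le (F.X l 0 - X * pP m l 0) (X * pP m l 0)
      rwa [sub_add_cancel] at this
    rw [abs_of_nonneg (mul_nonneg hX.le (h1 l 0).1)] at e3
    linarith
  rw [Finset.sum_add_distrib, ← Finset.mul_sum, Finset.sum_const, nsmul_eq_mul] at e1
  have e4 := h8 j hj
  have e5 : ((univ.filter (j < ·)).card : ℝ) ≤ (m : ℝ) + 1 := by
    have : (univ.filter (j < ·)).card ≤ m + 1 := by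
      refine (Finset.card_le_univ _).trans ?_
      simp
    exact_mod_cast this
  have e6 : X * (pP m j 0 - th m n) ≤ F.X j 0 := by
    have := (abs_le.1 (h.hx j 0)).1
    linarith
  have e7 : X * ∑ l ∈ univ.filter (j < ·), pP m l 0 ≤ X * (pP m j 0 / 2) :=
    mul_le_mul_of_nonneg_left e4 hX.le
  have e8 : ((univ.filter (j < ·)).card : ℝ) * (th m n * X) ≤ ((m : ℝ) + 1) * (th m n * X) :=
    mul_le_mul_of_nonneg_right e5 (mul_pos hth hX).le
  have e9 : ((m : ℝ) + 2) * th m n ≤ 1 / (1000 * 3 ^ (m + n + 2)) := by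
    rw [← hD]
    refine mul_le_mul_of_nonneg_right ?_ hth.le
    unfold DD
    have : (0 : ℝ) ≤ n := Nat.cast_nonneg n
    linarith
  have e10 : 1 / (1000 * 3 ^ (m + n + 2)) < pP m j 0 / 2 := by
    have e11 := h5 j
    have e12 : (1 : ℝ) / (1000 * 3 ^ (m + n + 2)) ≤ 1 / (1000 * 3 ^ m) := by
      refine one_div_le_one_div_of_le (by positivity) ?_
      refine mul_le_mul_of_nonneg_left ?_ (by norm_num)
      exact pow_le_pow_right₀ (by norm_num) (by omega)
    have e13 : (1 : ℝ) / (1000 * 3 ^ m) < 1 / (10 * 3 ^ m) / 2 := by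
      have : (0 : ℝ) < 3 ^ m := by positivity
      rw [div_div, div_lt_div_iff_of_pos_left one_pos (by positivity) (by positivity)]
      nlinarith
    linarith
  have e14 : X * (((m : ℝ) + 2) * th m n) < X * (pP m j 0 / 2) :=
    mul_lt_mul_of_pos_left (by linarith) hX
  nlinarith

theorem p_CNT (hPAT : Stmt_PAT) (hCST : Stmt_CST) (hNMA : Stmt_NMA) (hNMB : Stmt_NMB)
    (hBST : Stmt_BST) (hORD : Stmt_ORD) : Stmt_CNT := by
  intro m n F X ε Θ h
  obtain ⟨hO1, hO2, hO3⟩ := hORD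
  have hsA : Sg (sA m) := fun j => by unfold sA; split_ifs <;> simp
  have hsA0 : sA m 0 = 1 := by simp [sA]
  have htB : Sg (tB n) := fun k => by unfold tB; split_ifs <;> simp
  rcases le_total m n with hmn | hmn
  · -- the signs of the `f k` vary
    rw [max_eq_right hmn]
    let τ : (Fin n → Bool) → Fin (n + 1) → ℤ := fun b =>
      Fin.lastCases (-1) (fun i => CNT_b (b i))
    have hτl : ∀ b, τ b (Fin.last n) = -1 := fun b => by simp [τ]
    have hτc : ∀ b (i : Fin n), τ b i.castSucc = CNT_b (b i) := fun b i => by simp [τ]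
    have hτs : ∀ b, Sg (τ b) := fun b k => by
      refine Fin.lastCases ?_ (fun i => ?_) k
      · exact Or.inr (hτl b)
      · rw [hτc]; exact CNT_b_sg _
    have hne : ∀ b b', b ≠ b' → τ b ≠ τ b' := fun b b' hb he => hb (funext fun i => by
      have := congrFun he i.castSucc
      rw [hτc, hτc] at this
      exact CNT_b_inj this)
    have hB : ∀ b, ∃ z : Pt m n, IsB Θ z ∧ 2 * ‖xv z‖ = aa F (sA m) (τ b) ∧ X / 2 < ‖xv z‖ ∧
        ‖xv z‖ ≤ X := fun b =>
      hBST m n F X ε Θ h (sA m) (τ b) hsA (hτs b) hsA0 (hNMA m n F X ε Θ h (τ b) (hτs b) (hτl b))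
    have hlt : ∀ b b' k, (∀ l, k < l → τ b l = τ b' l) → τ b k = -1 → τ b' k = 1 →
        aa F (sA m) (τ b) < aa F (sA m) (τ b') := by
      intro b b' k h1 h2 h3
      have := hO2 (n + 1) (fun l => F.U l 0) (τ b) (τ b') k (hτs b) (hτs b') (h.fo k) h1 h2 h3
      unfold aa
      exact (add_lt_add_iff_left _).2 this
    have hinj : Function.Injective fun b => aa F (sA m) (τ b) / 2 := by
      intro b b' he
      by_contra hb
      obtain ⟨⟨k, hk, hkl⟩, -⟩ := hO1 (n + 1) (τ b) (τ b') (hne b b' hb)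
      have he' : aa F (sA m) (τ b) = aa F (sA m) (τ b') := by
        have : aa F (sA m) (τ b) / 2 = aa F (sA m) (τ b') / 2 := he
        linarith
      rcases CNT_ne _ _ (hτs b) (hτs b') k hk with ⟨h1, h2⟩ | ⟨h1, h2⟩
      · exact absurd he' (hlt b b' k hkl h1 h2).ne
      · exact absurd he' (hlt b' b k (fun l hl => (hkl l hl).symm) h1 h2).ne'
    refine ⟨univ.image fun b => aa F (sA m) (τ b) / 2, (CNT_card _ hinj).ge, ?_⟩
    intro r hr
    obtain ⟨b, -, rfl⟩ := Finset.mem_image.1 hr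
    obtain ⟨z, hz, h1, h2, h3⟩ := hB b
    have h4 : ‖xv z‖ = aa F (sA m) (τ b) / 2 := by linarith
    rw [← h4]
    exact ⟨h2, h3, z, hz, rfl⟩
  · -- the signs of the `v j` vary
    rw [max_eq_left hmn]
    let σ : (Fin m → Bool) → Fin (m + 1) → ℤ := fun b => Fin.cons 1 (fun i => CNT_b (b i))
    have hσ0 : ∀ b, σ b 0 = 1 := fun b => by simp [σ]
    have hσc : ∀ b (i : Fin m), σ b i.succ = CNT_b (b i) := fun b i => by simp [σ]
    have hσs : ∀ b, Sg (σ b) := fun b k => by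
      refine Fin.cases ?_ (fun i => ?_) k
      · exact Or.inl (hσ0 b)
      · rw [hσc]; exact CNT_b_sg _
    have hne : ∀ b b', b ≠ b' → σ b ≠ σ b' := fun b b' hb he => hb (funext fun i => by
      have := congrFun he i.succ
      rw [hσc, hσc] at this
      exact CNT_b_inj this)
    have hB : ∀ b, ∃ z : Pt m n, IsB Θ z ∧ 2 * ‖xv z‖ = aa F (σ b) (tB n) ∧ X / 2 < ‖xv z‖ ∧
        ‖xv z‖ ≤ X := fun b =>
      hBST m n F X ε Θ h (σ b) (tB n) (hσs b) htB (hσ0 b)
        (hNMB m n F X ε Θ h (σ b) (hσs b) (hσ0 b))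
    have hlt : ∀ b b' k, k ≠ 0 → (∀ l, l < k → σ b l = σ b' l) → σ b k = -1 → σ b' k = 1 →
        aa F (σ b) (tB n) < aa F (σ b') (tB n) := by
      intro b b' k h0 h1 h2 h3
      have := hO3 (m + 1) (fun l => F.X l 0) (σ b) (σ b') k (hσs b) (hσs b')
        (CNT_X hPAT hCST h k h0) h1 h2 h3
      unfold aa
      exact (add_lt_add_iff_right _).2 this
    have hinj : Function.Injective fun b => aa F (σ b) (tB n) / 2 := by
      intro b b' he
      by_contra hb
      obtain ⟨-, ⟨k, hk, hkl⟩⟩ := hO1 (m + 1) (σ b) (σ b') (hne b b' hb)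
      have hk0 : k ≠ 0 := by
        rintro rfl
        exact hk ((hσ0 b).trans (hσ0 b').symm)
      have he' : aa F (σ b) (tB n) = aa F (σ b') (tB n) := by
        have : aa F (σ b) (tB n) / 2 = aa F (σ b') (tB n) / 2 := he
        linarith
      rcases CNT_ne _ _ (hσs b) (hσs b') k hk with ⟨h1, h2⟩ | ⟨h1, h2⟩
      · exact absurd he' (hlt b b' k hk0 hkl h1 h2).ne
      · exact absurd he' (hlt b' b k hk0 (fun l hl => (hkl l hl).symm) h1 h2).ne'
    refine ⟨univ.image fun b => aa F (σ b) (tB n) / 2, (CNT_card _ hinj).ge, ?_⟩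
    intro r hr
    obtain ⟨b, -, rfl⟩ := Finset.mem_image.1 hr
    obtain ⟨z, hz, h1, h2, h3⟩ := hB b
    have h4 : ‖xv z‖ = aa F (σ b) (tB n) / 2 := by linarith
    rw [← h4]
    exact ⟨h2, h3, z, hz, rfl⟩

end Pool.LG
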