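import Pool.Agent.Work.MP_7453a1_lg.Interface

/-! Block CST: numbers. -/

namespace Pool.LG

open Finset Real

theorem CST_D (m n : ℕ) : (2 : ℝ) ≤ DD m n := by
  have hm : (0 : ℝ) ≤ m := Nat.cast_nonneg m
  have hn : (0 : ℝ) ≤ n := Nat.cast_nonneg n
  unfold DD
  linarith

theorem CST_P (m n : ℕ) : (9 : ℝ) * 3 ^ m ≤ 3 ^ (m + n + 2) ∧ (9 : ℝ) * 3 ^ n ≤ 3 ^ (m + n + 2) ∧
    (9 : ℝ) ≤ 3 ^ (m + n + 2) := by
  have h1 : (1 : ℝ) ≤ 3 ^ m := one_le_pow₀ (by norm_num)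
  have h2 : (1 : ℝ) ≤ 3 ^ n := one_le_pow₀ (by norm_num)
  have h3 : (3 : ℝ) ^ (m + n + 2) = 9 * (3 ^ m * 3 ^ n) := by
    rw [pow_add, pow_add]
    ring
  rw [h3]
  refine ⟨?_, ?_, ?_⟩
  · nlinarith
  · nlinarith
  · nlinarith

theorem CST_T (m n : ℕ) : (TT m n : ℝ) ≤ DD m n ^ 3 / 2 := by
  have hm : (0 : ℝ) ≤ m := Nat.cast_nonneg m
  have hn : (0 : ℝ) ≤ n := Nat.cast_nonneg n
  have h1 : (TT m n : ℝ) = 2 * ((m : ℝ) + 1) * (((m : ℝ) + 1) * ((n : ℝ) + 1)) := by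
    unfold TT LL
    push_cast
    ring
  rw [h1]
  unfold DD
  have h2 : ((m : ℝ) + 1) * ((n : ℝ) + 1) ≤ ((m : ℝ) + n + 2) ^ 2 / 4 := by
    nlinarith [sq_nonneg ((m : ℝ) - n)]
  have h3 : (0 : ℝ) ≤ ((m : ℝ) + 1) * ((n : ℝ) + 1) := by positivity
  have h4 : ((m : ℝ) + 1) ≤ (m : ℝ) + n + 2 := by linarith
  calc 2 * ((m : ℝ) + 1) * (((m : ℝ) + 1) * ((n : ℝ) + 1))
      ≤ 2 * ((m : ℝ) + n + 2) * (((m : ℝ) + n + 2) ^ 2 / 4) := by
        apply mul_le_mul (by linarith) h2 h3 (by positivity)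
    _ = ((m : ℝ) + n + 2) ^ 3 / 2 := by ring

theorem p_CST : Stmt_CST := by
  intro m n
  have hD := CST_D m n
  obtain ⟨hP1, hP2, hP3⟩ := CST_P m n
  have hT := CST_T m n
  have hT0 : (0 : ℝ) ≤ (TT m n : ℝ) := Nat.cast_nonneg _
  set D := DD m n with hDdef
  set P : ℝ := 3 ^ (m + n + 2) with hPdef
  set T : ℝ := (TT m n : ℝ) with hTdef
  have hD0 : 0 < D := by linarith
  have hP0 : 0 < P := by linarith
  have hm0 : (0 : ℝ) < 3 ^ m := by positivity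
  have hn0 : (0 : ℝ) < 3 ^ n := by positivity
  have hH : HH m n = 10 ^ 6 * D ^ 6 * P := rfl
  have hth : th m n = 1 / (1000 * D * P) := rfl
  have hft : ft m n = 1 / (1000 * D * P) / (200 * D) := rfl
  have hH0 : 0 < HH m n := by rw [hH]; positivity
  have hftH : ft m n = 5 * D ^ 4 / HH m n := by
    rw [hft, hH]
    field_simp
    norm_num
  have hD4 : (16 : ℝ) ≤ D ^ 4 := by
    have := pow_le_pow_left₀ (by norm_num : (0 : ℝ) ≤ 2) hD 4
    linarith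
  have hD3 : (8 : ℝ) ≤ D ^ 3 := by
    have := pow_le_pow_left₀ (by norm_num : (0 : ℝ) ≤ 2) hD 3
    linarith
  have hD5 : (32 : ℝ) ≤ D ^ 5 := by
    have := pow_le_pow_left₀ (by norm_num : (0 : ℝ) ≤ 2) hD 5
    linarith
  have hDT : D * T ≤ D ^ 4 / 2 := by
    have := mul_le_mul_of_nonneg_left hT hD0.le
    calc D * T ≤ D * (D ^ 3 / 2) := this
      _ = D ^ 4 / 2 := by ring
  have hD34 : 2 * D ^ 3 ≤ D ^ 4 := by
    have : D ^ 4 = D * D ^ 3 := by ring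
    rw [this]
    exact mul_le_mul_of_nonneg_right hD (by positivity)
  have hHD : 1000 * D ≤ HH m n := by
    rw [hH]
    have h1 : (1 : ℝ) ≤ D ^ 5 * P := by nlinarith
    have h2 : (10 : ℝ) ^ 6 * D ^ 6 * P = 10 ^ 6 * D * (D ^ 5 * P) := by ring
    rw [h2]
    have h3 : (10 : ℝ) ^ 6 * D * 1 ≤ 10 ^ 6 * D * (D ^ 5 * P) :=
      mul_le_mul_of_nonneg_left h1 (by positivity)
    nlinarith
  have hth0 : 0 < th m n := by rw [hth]; positivity
  have hft0 : 0 < ft m n := by rw [hft]; positivity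
  have hH1 : 1000 ≤ HH m n := by linarith
  have hC : CC m n = 8 * D := rfl
  have hL : Lam m n = 2 * HH m n * exp (4 * CC m n) := rfl
  refine ⟨hD, hHD, hT, ?_, ?_, ?_, hth0, hft0, ?_, ?_, ?_, ?_, ?_, ?_, hH1, ?_, ?_⟩
  · rw [hftH]
    refine div_le_div_of_nonneg_right ?_ hH0.le
    linarith
  · rw [hftH]
    refine div_le_div_of_nonneg_right ?_ hH0.le
    linarith
  · rw [hftH, div_mul_eq_mul_div, ← mul_div_assoc]
    refine div_le_div_of_nonneg_right ?_ hH0.le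
    linarith
  · rw [hft, hth]
    field_simp
  · rw [hth]
    field_simp
  · rw [hth]
    apply one_div_le_one_div_of_le (by positivity)
    nlinarith [mul_le_mul_of_nonneg_right hD hP0.le]
  · rw [hth]
    apply one_div_le_one_div_of_le (by positivity)
    nlinarith [mul_le_mul_of_nonneg_right hD hP0.le]
  · rw [hftH]
    refine div_le_div_of_nonneg_right ?_ hH0.le
    linarith
  · rw [hL]
    ring
  · rw [hC]
    linarith
  · rw [hL]
    have h1 : (1 : ℝ) ≤ exp (4 * CC m n) := by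
      apply one_le_exp
      rw [hC]
      positivity
    nlinarith

end Pool.LG
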