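import Pool.Agent.Work.MP_7453a1_lg.Interface

/-!
# Block DUA: dual vectors
-/

set_option autoImplicit false

namespace Pool.LG

open Finset

theorem DUA_bound (n : ℕ) (M : Matrix (Fin n) (Fin n) ℝ) (h1 : ∀ j, 4 / 5 ≤ M j j)
    (h2 : ∀ j, ∑ l ∈ univ.erase j, |M j l| ≤ 4 / 25) (α T : Fin n → ℝ)
    (hα : M.mulVec α = T) (hT : ∀ j, |T j| ≤ 1) (k : Fin n) : |α k| ≤ 25 / 16 := by
  obtain ⟨l, -, hl⟩ := Finset.exists_max_image univ (fun l => |α l|) ⟨k, mem_univ k⟩
  have hk := hl k (mem_univ k)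
  refine hk.trans ?_
  have e := congrFun hα l
  rw [Matrix.mulVec, dotProduct, ← Finset.add_sum_erase _ _ (mem_univ l)] at e
  have h3 : |∑ x ∈ univ.erase l, M l x * α x| ≤ 4 / 25 * |α l| := by
    refine (abs_sum_le_sum_abs _ _).trans ?_
    calc ∑ x ∈ univ.erase l, |M l x * α x| ≤ ∑ x ∈ univ.erase l, |M l x| * |α l| := by
          apply sum_le_sum
          intro x _
          rw [abs_mul]
          exact mul_le_mul_of_nonneg_left (hl x (mem_univ x)) (abs_nonneg _)
      _ = (∑ x ∈ univ.erase l, |M l x|) * |α l| := by rw [sum_mul]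
      _ ≤ 4 / 25 * |α l| := mul_le_mul_of_nonneg_right (h2 l) (abs_nonneg _)
  have h4 : M l l * α l = T l - ∑ x ∈ univ.erase l, M l x * α x := by linarith
  have h5 : |M l l * α l| ≤ 1 + 4 / 25 * |α l| := by
    rw [h4]
    exact (abs_sub _ _).trans (add_le_add (hT l) h3)
  have h0 : 0 ≤ M l l := by linarith [h1 l]
  rw [abs_mul, abs_of_nonneg h0] at h5
  have h6 := mul_le_mul_of_nonneg_right (h1 l) (abs_nonneg (α l))
  linarith

theorem p_DUA : Stmt_DUA := by
  intro n A S hD
  set M : Matrix (Fin n) (Fin n) ℝ := Matrix.of fun j l => A l j / S l with hM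
  have hMa : ∀ j l, M j l = A l j / S l := fun _ _ => rfl
  have h1 : ∀ j, 4 / 5 ≤ M j j := by
    intro j
    rw [hMa, le_div_iff₀ (hD.pos j)]
    exact hD.dl j
  have h2 : ∀ j, ∑ l ∈ univ.erase j, |M j l| ≤ 4 / 25 := by
    intro j
    refine le_trans (le_of_eq ?_) (hD.off j)
    apply sum_congr rfl
    intro l _
    rw [hMa, abs_div, abs_of_pos (hD.pos l)]
  have hdet : M.det ≠ 0 := by
    apply det_ne_zero_of_sum_row_lt_diag
    intro j
    have h0 : 0 ≤ M j j := by linarith [h1 j]
    simp only [Real.norm_eq_abs]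
    rw [abs_of_nonneg h0]
    linarith [h1 j, h2 j]
  have hu : IsUnit M.det := isUnit_iff_ne_zero.2 hdet
  have hinv : M⁻¹ * M = 1 := Matrix.nonsing_inv_mul M hu
  have hinv' : M * M⁻¹ = 1 := Matrix.mul_nonsing_inv M hu
  have hζ : ∀ k l, ∑ j, M⁻¹ k j * M j l = if k = l then 1 else 0 := by
    intro k l
    have := congrFun (congrFun hinv k) l
    rw [Matrix.mul_apply, Matrix.one_apply] at this
    exact this
  have hsum : ∀ k, ∑ j, |M⁻¹ k j| ≤ 25 / 16 := by
    intro k
    have h3 := DUA_bound n M h1 h2 (M⁻¹.mulVec (fun j => SignType.sign (M⁻¹ k j)))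
      (fun j => SignType.sign (M⁻¹ k j)) (by rw [Matrix.mulVec_mulVec, hinv', Matrix.one_mulVec])
      (by
        intro j
        rcases lt_trichotomy (M⁻¹ k j) 0 with h | h | h
        · rw [sign_neg h]; simp
        · rw [h]; simp
        · rw [sign_pos h]; simp) k
    refine le_trans (le_trans (le_of_eq ?_) (le_abs_self _)) h3
    rw [Matrix.mulVec, dotProduct]
    apply sum_congr rfl
    intro j _
    exact (self_mul_sign (M⁻¹ k j)).symm
  have hval : ∀ k l, ∑ j, M⁻¹ k j / S k * A l j = S l / S k * (if k = l then 1 else 0) := by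
    intro k l
    rw [← hζ k l, mul_sum]
    apply sum_congr rfl
    intro j _
    rw [hMa]
    have hSl := (hD.pos l).ne'
    have hSk' := (hD.pos k).ne'
    field_simp
  refine ⟨fun k j => M⁻¹ k j / S k, ?_, ?_, ?_⟩
  · intro k l
    rw [hval]
    rcases eq_or_ne l k with h | h
    · rw [h, if_pos rfl, mul_one, div_self (hD.pos k).ne']
    · rw [if_neg h, if_neg (Ne.symm h), mul_zero]
  · intro k
    have hSk := hD.pos k
    have : ∑ j, |M⁻¹ k j / S k| = (∑ j, |M⁻¹ k j|) / S k := by
      rw [sum_div]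
      apply sum_congr rfl
      intro j _
      rw [abs_div, abs_of_pos hSk]
    rw [this, div_le_iff₀ hSk]
    refine (hsum k).trans (le_of_eq ?_)
    have hSk' := hSk.ne'
    field_simp
  · intro p q
    have h3 := congrFun (congrFun hinv' p) q
    rw [Matrix.mul_apply, Matrix.one_apply] at h3
    rw [← h3]
    apply sum_congr rfl
    intro k _
    rw [hMa]
    ring

end Pool.LG
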