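import Pool.Agent.Work.MP_7453a1_lg.Interface
import Pool.Agent.Work.MP_7453a1_le.B_ADM

set_option autoImplicit false

/-! # Block FIN -/

namespace Pool.LG

open Finset Real Filter
open Pool.Agent.Work.MP_7453a1_nt_two (Admissible IsBest Lengths G g len err)
open Pool.LE (sn)

theorem p_FIN (hCLF : Stmt_CLF) (hCNT : Stmt_CNT) (hBRG : Stmt_BRG) (hLM2 : Stmt_LM2)
    (hNUM : Stmt_NUM) : Stmt_FIN := by
  intro m n
  obtain ⟨F, ε, Θ, h⟩ := hCLF m n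
  have key : ∀ s : ℕ, ∃ T : Finset ℝ, 2 ^ (max m n) ≤ T.card ∧ ∀ r ∈ T,
      r ∈ Lengths (sn (m + 1)) (sn (n + 1)) Θ ∧ KE m n ^ (s + 2) / 2 < r ∧
        r ≤ KE m n ^ (s + 2) := by
    intro s
    obtain ⟨T, hT, hr⟩ := hCNT m n (F s) _ _ Θ (h s)
    refine ⟨T, hT, fun r hr' => ?_⟩
    obtain ⟨h1, h2, z, hz, hzr⟩ := hr r hr'
    exact ⟨hzr ▸ hBRG m n Θ z hz, h1, h2⟩
  obtain ⟨hinf, hG⟩ := hLM2 (m + 1) (n + 1) (sn (m + 1)) (sn (n + 1)) Θ (max m n) (KE m n)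
    (hNUM m n).1 key
  refine ⟨Θ, Pool.LE.p_ADM (m + 1) (n + 1) _ _ Θ hinf, ?_,
    hG.trans (ENNReal.ofReal_le_ofReal (hNUM m n).2)⟩
  exact Set.infinite_of_forall_exists_gt hinf

end Pool.LG
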