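import Pool.Agent.Work.MP_7453a1_lg.Interface

set_option autoImplicit false

/-! Block GOD (helper69): a step preserves good frames. -/

namespace Pool.LG

open Finset Real Filter

theorem GOD_upd {N : ℕ} {M : Type*} [AddCommGroup M] (g : Fin N → ℤ) (v : Fin N → M) (j : Fin N)
    (x : ℤ) (y : M) :
    ∑ l, Function.update g j x l • Function.update v j y l =
      ∑ l, g l • v l - g j • v j + x • y := by
  rw [← Finset.add_sum_erase univ (fun l => Function.update g j x l • Function.update v j y l)
      (mem_univ j), ← Finset.add_sum_erase univ (fun l => g l • v l) (mem_univ j)]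
  have h : ∑ l ∈ univ.erase j, Function.update g j x l • Function.update v j y l =
      ∑ l ∈ univ.erase j, g l • v l := by
    refine Finset.sum_congr rfl fun l hl => ?_
    have hne : l ≠ j := Finset.ne_of_mem_erase hl
    rw [Function.update_of_ne hne, Function.update_of_ne hne]
  rw [h, Function.update_self, Function.update_self]
  abel

theorem GOD_sum {N : ℕ} {M : Type*} [AddCommGroup M] (v : Fin N → M) (j : Fin N) (y : M) :
    ∑ l, Function.update v j y l = ∑ l, v l - v j + y := by
  rw [← Finset.add_sum_erase univ (fun l => Function.update v j y l) (mem_univ j),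
    ← Finset.add_sum_erase univ v (mem_univ j)]
  have h : ∑ l ∈ univ.erase j, Function.update v j y l = ∑ l ∈ univ.erase j, v l := by
    refine Finset.sum_congr rfl fun l hl => ?_
    rw [Function.update_of_ne (Finset.ne_of_mem_erase hl)]
  rw [h, Function.update_self]
  abel

theorem GOD_core {p q : ℕ} {M : Type*} [AddCommGroup M] (v : Fin p → M) (f : Fin q → M)
    (i : Fin q) (j : Fin p) (c : Fin q → ℤ) (d : Fin p → ℤ) (hc : c i = 0) (w : M)
    (hw : w = ∑ l, (2 * d l) • v l - ∑ k, (2 * c k) • f k - f i)
    (h : M) (hh : h + h = ∑ l, v l + ∑ k, f k)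
    (hz : ∀ z : M, ∃ (t : ℤ) (a : Fin p → ℤ) (b : Fin q → ℤ),
      z = t • h + ∑ l, a l • v l + ∑ k, b k • f k) :
    ∃ h' : M, h' + h' = ∑ l, Function.update v j w l + ∑ k, Function.update f i (v j) k ∧
      ∀ z : M, ∃ (t : ℤ) (a : Fin p → ℤ) (b : Fin q → ℤ),
        z = t • h' + ∑ l, a l • Function.update v j w l +
          ∑ k, b k • Function.update f i (v j) k := by
  have hd2 : ∑ l, (2 * d l) • v l = (2 : ℤ) • ∑ l, d l • v l := by
    rw [Finset.smul_sum]
    exact Finset.sum_congr rfl fun l _ => by rw [mul_smul]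
  have hc2 : ∑ k, (2 * c k) • f k = (2 : ℤ) • ∑ k, c k • f k := by
    rw [Finset.smul_sum]
    exact Finset.sum_congr rfl fun l _ => by rw [mul_smul]
  set V := ∑ l, d l • v l with hV
  set W := ∑ k, c k • f k with hW
  refine ⟨h - f i + V - W, ?_, fun z => ?_⟩
  · rw [GOD_sum, GOD_sum, hw, hd2, hc2]
    have : h - f i + V - W + (h - f i + V - W) = (h + h) + (2 : ℤ) • V - (2 : ℤ) • W - f i - f i := by
      rw [two_smul, two_smul]; abel
    rw [this, hh]
    abel
  · obtain ⟨t, a, b, hzab⟩ := hz z
    have e1 : ∑ l, (a l - t * d l + 2 * (b i + t) * d l) • v l =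
        ∑ l, a l • v l - t • V + (2 * (b i + t)) • V := by
      rw [hV, Finset.smul_sum, Finset.smul_sum, ← Finset.sum_sub_distrib, ← Finset.sum_add_distrib]
      refine Finset.sum_congr rfl fun l _ => ?_
      rw [add_smul, sub_smul, mul_smul, mul_smul]
    have e2 : ∑ k, (b k + t * c k - 2 * (b i + t) * c k) • f k =
        ∑ k, b k • f k + t • W - (2 * (b i + t)) • W := by
      rw [hW, Finset.smul_sum, Finset.smul_sum, ← Finset.sum_add_distrib, ← Finset.sum_sub_distrib]
      refine Finset.sum_congr rfl fun l _ => ?_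
      rw [sub_smul, add_smul, mul_smul, mul_smul]
    refine ⟨t, Function.update (fun l => a l - t * d l + 2 * (b i + t) * d l) j (-(b i + t)),
      Function.update (fun k => b k + t * c k - 2 * (b i + t) * c k) i
        (a j - t * d j + 2 * (b i + t) * d j), ?_⟩
    rw [GOD_upd, GOD_upd, e1, e2, hzab, hw, hd2, hc2, hc]
    simp only [mul_zero, add_zero, sub_zero]
    module

theorem p_GOD : Stmt_GOD := by
  intro m n F i j c d hc hG
  obtain ⟨h, hh, hz⟩ := hG
  exact GOD_core F.v F.f i j c d hc _ rfl h hh hz

end Pool.LG
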