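import Pool.Agent.Work.MP_7453a1_lg.Interface

set_option autoImplicit false

namespace Pool.LG

open Finset Real Filter

/-- the first frame -/
def INI_F (m n : ℕ) : Fr m n where
  v := fun j => (Pi.single j 1, 0)
  f := fun k => if k = 0 then (fun _ => 1, fun p => if p = 0 then -2 else -1) else (0, Pi.single k (-1))

/-- the sizes of the errors -/
noncomputable def INI_s (n : ℕ) : Fin (n + 1) → ℝ :=
  fun k => if k = 0 then 2 else if k = Fin.last n then 5 / 7 else 1

/-- the tolerances of the errors -/
noncomputable def INI_te (n : ℕ) : Fin (n + 1) → ℝ :=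
  fun k => if k = 0 then 1 / 2 else if k = Fin.last n then 0 else pQ n k (Fin.last n)

/-- the mean of the logarithms -/
noncomputable def INI_mu (n : ℕ) : ℝ := (∑ i, log (INI_s n i)) / (n + 1)

theorem INI_good (m n : ℕ) : (INI_F m n).Good := by
  refine ⟨(fun _ => 1, fun _ => -1), ?_, ?_⟩
  · have hv : ∑ j, (INI_F m n).v j = ((fun _ => 1, 0) : Pt m n) := by
      apply Prod.ext
      · rw [Prod.fst_sum]
        funext p
        rw [Finset.sum_apply]
        simp [INI_F, Pi.single_apply]
      · rw [Prod.snd_sum]
        simp [INI_F]
    have hf : ∑ k, (INI_F m n).f k = ((fun _ => 1, fun _ => -2) : Pt m n) := by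
      rw [Fin.sum_univ_succ]
      apply Prod.ext
      · rw [Prod.fst_add, Prod.fst_sum]
        funext p
        simp [INI_F, Fin.succ_ne_zero]
      · rw [Prod.snd_add, Prod.snd_sum]
        funext p
        rw [Pi.add_apply, Finset.sum_apply]
        simp only [INI_F, Fin.succ_ne_zero, if_false, if_true, Pi.single_apply]
        refine Fin.cases ?_ (fun q => ?_) p
        · have : ∀ i : Fin n, ((0 : Fin (n + 1)) = i.succ) = False := fun i =>
            eq_false (Fin.succ_ne_zero i).symm
          simp [this]
        · simp [Fin.succ_ne_zero, Fin.succ_inj]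
    rw [hv, hf]
    apply Prod.ext
    · funext p; rfl
    · funext p
      show (-1 : ℤ) + -1 = 0 + -2
      norm_num
  · intro z
    refine ⟨- z.2 0, fun j => z.1 j + z.2 0, fun k => if k = 0 then 0 else z.2 0 - z.2 k, ?_⟩
    apply Prod.ext
    · rw [Prod.fst_add, Prod.fst_add, Prod.fst_sum, Prod.fst_sum]
      funext p
      rw [Pi.add_apply, Pi.add_apply, Finset.sum_apply, Finset.sum_apply]
      have h2 : ∑ k, ((if k = 0 then (0 : ℤ) else z.2 0 - z.2 k) • (INI_F m n).f k).1 p = 0 := by
        apply Finset.sum_eq_zero
        intro k _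
        by_cases hk : k = 0
        · simp [hk]
        · simp [INI_F, hk]
      rw [h2]
      simp [INI_F, Pi.single_apply]
    · rw [Prod.snd_add, Prod.snd_add, Prod.snd_sum, Prod.snd_sum]
      funext p
      rw [Pi.add_apply, Pi.add_apply, Finset.sum_apply, Finset.sum_apply]
      have h1 : ∑ j, ((z.1 j + z.2 0) • (INI_F m n).v j).2 p = 0 := by
        apply Finset.sum_eq_zero
        intro k _
        simp [INI_F]
      have h2 : ∑ k, ((if k = 0 then (0 : ℤ) else z.2 0 - z.2 k) • (INI_F m n).f k).2 p =
          if p = 0 then 0 else z.2 p - z.2 0 := by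
        have : ∀ k, ((if k = 0 then (0 : ℤ) else z.2 0 - z.2 k) • (INI_F m n).f k).2 p =
            if k = p then (if p = 0 then 0 else z.2 p - z.2 0) else 0 := by
          intro k
          by_cases hk : k = 0
          · subst hk
            by_cases hp : p = 0
            · simp [hp]
            · have : ¬ (0 : Fin (n + 1)) = p := fun h => hp h.symm
              simp [this]
          · by_cases hp : k = p
            · subst hp
              simp [INI_F, hk]
            · have : ¬ p = k := fun h => hp h.symm
              simp [INI_F, hk, hp, this]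
        rw [Finset.sum_congr rfl fun k _ => this k]
        simp
      rw [h1, h2]
      by_cases hp : p = 0
      · subst hp
        simp
      · simp [hp]

theorem INI_spos (n : ℕ) (i : Fin (n + 1)) : 5 / 7 ≤ INI_s n i ∧ INI_s n i ≤ 2 := by
  unfold INI_s
  split_ifs <;> norm_num

theorem INI_log (n : ℕ) (i : Fin (n + 1)) : |log (INI_s n i)| ≤ 1 := by
  obtain ⟨h1, h2⟩ := INI_spos n i
  have h0 : 0 < INI_s n i := by linarith
  rw [abs_le]
  constructor
  · have := Real.one_sub_inv_le_log_of_pos h0
    have h3 : (INI_s n i)⁻¹ ≤ 7 / 5 := by
      rw [inv_le_comm₀ h0 (by norm_num)]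
      linarith
    linarith
  · have := Real.log_le_sub_one_of_pos h0
    linarith

theorem INI_mu_le (n : ℕ) : |INI_mu n| ≤ 1 := by
  unfold INI_mu
  have hn : (0 : ℝ) < (n : ℝ) + 1 := by positivity
  rw [abs_div, abs_of_pos hn, div_le_iff₀ hn, one_mul]
  refine (Finset.abs_sum_le_sum_abs _ _).trans ?_
  refine (Finset.sum_le_sum fun i _ => INI_log n i).trans ?_
  simp

theorem INI_dx : |log (5 / 7 : ℝ)| ≤ 2 / 5 := by
  have h0 : (0 : ℝ) < 5 / 7 := by norm_num
  rw [abs_le]
  constructor
  · have := Real.one_sub_inv_le_log_of_pos h0
    norm_num at this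
    linarith
  · have := Real.log_le_sub_one_of_pos h0
    linarith

theorem p_INI (hP : Stmt_PAT) : Stmt_INI := by
  intro m n
  obtain ⟨⟨a1, a2, a3, a4, a5, a6, a7, a8⟩, -⟩ := hP m
  obtain ⟨-, ⟨b1, b2, b3, b4, b5, b6, b7, b8⟩⟩ := hP n
  -- the values of the pattern
  have hs : ∀ i, exp (INI_mu n) * exp (log (INI_s n i) - INI_mu n) = INI_s n i := by
    intro i
    rw [← exp_add]
    have h0 : 0 < INI_s n i := by linarith [(INI_spos n i).1]
    rw [show INI_mu n + (log (INI_s n i) - INI_mu n) = log (INI_s n i) by ring, exp_log h0]
  have hte0 : ∀ i, 0 ≤ INI_te n i := by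
    intro i
    unfold INI_te
    split_ifs
    · norm_num
    · norm_num
    · exact (b1 i _).1
  have hste : ∑ i ∈ univ.erase 0, INI_te n i ≤ 1 / 20 := by
    refine le_trans ?_ (b3 (Fin.last n))
    have h1 : ∑ i ∈ univ.erase 0, INI_te n i ≤
        ∑ i ∈ univ.erase (0 : Fin (n + 1)), (if i = Fin.last n then 0 else pQ n i (Fin.last n)) := by
      apply Finset.sum_le_sum
      intro i hi
      rw [Finset.mem_erase] at hi
      unfold INI_te
      rw [if_neg hi.1]
    refine h1.trans ?_
    have h2 : ∑ i ∈ univ.erase (Fin.last n), pQ n i (Fin.last n) =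
        ∑ i ∈ univ.erase (Fin.last n), (if i = Fin.last n then 0 else pQ n i (Fin.last n)) := by
      apply Finset.sum_congr rfl
      intro i hi
      rw [Finset.mem_erase] at hi
      rw [if_neg hi.1]
    rw [h2, Finset.sum_erase (s := univ) (a := Fin.last n)
      (f := fun i => if i = Fin.last n then (0 : ℝ) else pQ n i (Fin.last n)) (by simp)]
    apply Finset.sum_le_sum_of_subset_of_nonneg (Finset.erase_subset _ _)
    intro i _ _
    split_ifs
    · exact le_rfl
    · exact (b1 i _).1
  have hstx : ∑ j, (if j = 0 then (0 : ℝ) else pP m j 0) ≤ 1 / 20 := by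
    refine le_trans (le_of_eq ?_) (a3 0)
    rw [← Finset.sum_erase (s := univ) (a := (0 : Fin (m + 1)))
      (f := fun j => if j = 0 then (0 : ℝ) else pP m j 0) (by simp)]
    apply Finset.sum_congr rfl
    intro j hj
    rw [Finset.mem_erase] at hj
    rw [if_neg hj.1]
  have hev : ∀ (w : Pt m n) p, ev (0 : Mat m n) w p = - (w.2 p : ℝ) := by
    intro w p
    simp [ev]
  refine ⟨INI_F m n, 0, exp (INI_mu n), fun j => if j = 0 then 5 / 7 else 1,
    fun j => if j = 0 then 2 / 5 else 0, fun j => if j = 0 then 0 else pP m j 0,
    fun i => log (INI_s n i) - INI_mu n, INI_te n, fun k => if k = 0 then 1 else 0, ?_⟩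
  refine
    { sta := ?_
      Xp := one_pos
      ep := exp_pos _
      eta0 := ?_
      eta := ?_
      dS := ?_
      dxp := ?_
      txp := ?_
      stx := hstx
      tep := hte0
      tez := ?_
      ste := hste
      W0 := ?_
      Zle := ?_ }
  · refine
      { good := INI_good m n
        cen := ?_
        Sp := ?_
        sp := ?_
        hx := ?_
        he := ?_
        hw := ?_ }
    · intro j p
      rw [hev]
      simp [INI_F]
    · intro j
      split_ifs <;> norm_num
    · intro i
      exact mul_pos (exp_pos _) (exp_pos _)
    · intro j p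
      have hX : (INI_F m n).X j p = if p = j then 1 else 0 := by
        simp [Fr.X, INI_F, Pi.single_apply]
      rw [hX]
      by_cases hj : j = 0
      · subst hj
        by_cases hp : p = 0
        · subst hp
          rw [a7]
          norm_num
        · rw [a4 0 p hp hp]
          simp [hp]
      · by_cases hp : p = j
        · subst hp
          rw [a6 p hj]
          simp [hj, (a1 p 0).1]
        · by_cases hp0 : p = 0
          · subst hp0
            simp [hj, hp, abs_of_nonneg (a1 j 0).1]
          · rw [a4 j p hp0 hp]
            simp [hj, hp, (a1 j 0).1]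
    · intro i p
      rw [hs i, hev]
      by_cases hi : i = 0
      · subst hi
        have hf : (((INI_F m n).f 0).2 p : ℝ) = if p = 0 then -2 else -1 := by
          simp only [INI_F, if_true]
          split_ifs <;> norm_num
        rw [hf]
        have e1 : INI_s n 0 = 2 := by simp [INI_s]
        have e2 : INI_te n 0 = 1 / 2 := by simp [INI_te]
        rw [e1, e2]
        obtain ⟨c1, c2⟩ := b1 0 p
        by_cases hp : p = 0
        · subst hp
          have c3 := b2 0
          rw [if_pos rfl, abs_le]
          constructor <;> linarith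
        · rw [if_neg hp]
          have c4 : pQ n 0 p ≤ 1 / 20 := by
            refine le_trans ?_ (b3 p)
            exact Finset.single_le_sum (f := fun j => pQ n j p) (fun j _ => (b1 j p).1)
              (Finset.mem_erase.2 ⟨fun h => hp h.symm, Finset.mem_univ _⟩)
          rw [abs_le]
          constructor <;> linarith
      · have hf : (((INI_F m n).f i).2 p : ℝ) = if p = i then -1 else 0 := by
          simp only [INI_F, if_neg hi, Pi.single_apply]
          split_ifs <;> norm_num
        rw [hf]
        by_cases hl : i = Fin.last n
        · have e1 : INI_s n i = 5 / 7 := by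
            unfold INI_s
            rw [if_neg hi, if_pos hl]
          have e2 : INI_te n i = 0 := by
            unfold INI_te
            rw [if_neg hi, if_pos hl]
          rw [e1, e2]
          by_cases hp : p = i
          · rw [if_pos hp, hp, hl, b7]
            norm_num
          · have : pQ n i p = 0 := b4 i p (fun h => hp (h.trans hl.symm)) hp
            rw [if_neg hp, this]
            norm_num
        · have e1 : INI_s n i = 1 := by simp [INI_s, hi, hl]
          have e2 : INI_te n i = pQ n i (Fin.last n) := by simp [INI_te, hi, hl]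
          rw [e1, e2]
          by_cases hp : p = i
          · rw [if_pos hp, hp, b6 i hl]
            have := (b1 i (Fin.last n)).1
            norm_num
            exact this
          · by_cases hpl : p = Fin.last n
            · subst hpl
              rw [if_neg hp]
              simp [abs_of_nonneg (b1 i (Fin.last n)).1]
            · rw [if_neg hp, b4 i p hpl hp]
              have := (b1 i (Fin.last n)).1
              norm_num
              exact this
    · intro k p
      by_cases hk : k = 0
      · simp [Fr.U, INI_F, hk]
      · simp [Fr.U, INI_F, hk]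
  · have hn : ((n : ℝ) + 1) ≠ 0 := by positivity
    rw [Finset.sum_sub_distrib, Finset.sum_const, Finset.card_univ, Fintype.card_fin, nsmul_eq_mul]
    unfold INI_mu
    push_cast
    field_simp
    ring
  · intro i
    refine (abs_sub _ _).trans ?_
    linarith [INI_log n i, INI_mu_le n]
  · intro j
    by_cases hj : j = 0
    · rw [if_pos hj, if_pos hj, div_one]
      exact INI_dx
    · rw [if_neg hj, if_neg hj]
      simp
  · intro j
    split_ifs <;> norm_num
  · intro j
    split_ifs
    · exact le_rfl
    · exact (a1 j 0).1
  · simp [INI_te]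
  · intro k
    have h1 : 1 ≤ exp (CC m n) := by
      apply Real.one_le_exp
      unfold CC DD
      positivity
    split_ifs
    · linarith
    · linarith
  · have h1 : ∑ j : Fin (m + 1), (if j = 0 then (2 / 5 : ℝ) else 0) = 2 / 5 := by simp
    have h2 : ∑ i, INI_te n i ≤ 1 / 2 + 1 / 20 := by
      rw [← Finset.add_sum_erase univ (INI_te n) (Finset.mem_univ 0)]
      have : INI_te n 0 = 1 / 2 := by simp [INI_te]
      rw [this]
      linarith
    rw [h1]
    linarith

end Pool.LG
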