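import Pool.Agent.Work.MP_7453a1_lg.Interface

set_option autoImplicit false

/-! # Block KTO (helper28) -/

namespace Pool.LG

open Finset Real

theorem KTO_LL_pos (m n : ℕ) : 0 < LL m n := by
  unfold LL; positivity

theorem KTO_xt {m n b u : ℕ} (hu : u < 2 * LL m n) : xt m n (2 * LL m n * b + u) ↔ u < LL m n := by
  unfold xt
  rw [Nat.mul_add_mod, Nat.mod_eq_of_lt hu]

theorem KTO_ro (m n b u : ℕ) : ((ro n (2 * LL m n * b + u) : Fin (n + 1)) : ℕ) = u % (n + 1) := by
  show (2 * LL m n * b + u) % (n + 1) = u % (n + 1)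
  have h : 2 * LL m n * b = (n + 1) * (2 * (m + 1) * b) := by unfold LL; ring
  rw [h, Nat.mul_add_mod]

theorem KTO_co {m n b u : ℕ} (hu : u < 2 * LL m n) :
    ((co m n (2 * LL m n * b + u) : Fin (m + 1)) : ℕ) = (u + b) % (m + 1) := by
  show (2 * LL m n * b + u + (2 * LL m n * b + u) / (2 * LL m n)) % (m + 1) = (u + b) % (m + 1)
  have hL := KTO_LL_pos m n
  rw [Nat.mul_add_div (by positivity), Nat.div_eq_of_lt hu, add_zero, add_assoc]
  have h : 2 * LL m n * b = (m + 1) * (2 * (n + 1) * b) := by unfold LL; ring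
  rw [h, Nat.mul_add_mod]

/-- shift of a full period -/
theorem KTO_shift (M : ℕ) (f : ℕ → ℝ) : ∀ u, ∑ b ∈ range M, f ((u + b) % M) = ∑ c ∈ range M, f c := by
  intro u
  induction u with
  | zero =>
    refine Finset.sum_congr rfl fun b hb => ?_
    rw [zero_add, Nat.mod_eq_of_lt (mem_range.1 hb)]
  | succ u ih =>
    rw [← ih]
    have h1 : ∑ b ∈ range M, f ((u + 1 + b) % M) = ∑ b ∈ range M, f ((u + (b + 1)) % M) :=
      Finset.sum_congr rfl fun b _ => by rw [show u + 1 + b = u + (b + 1) by ring]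
    have h2 := Finset.sum_range_succ' (fun b => f ((u + b) % M)) M
    have h3 := Finset.sum_range_succ (fun b => f ((u + b) % M)) M
    have h4 : f ((u + M) % M) = f ((u + 0) % M) := by rw [Nat.add_mod_right, add_zero]
    rw [h1]
    linarith

/-- sum over `a` periods -/
theorem KTO_per (K : ℕ) (f : ℕ → ℝ) : ∀ a, ∑ u ∈ range (a * K), f (u % K) = a * ∑ v ∈ range K, f v := by
  intro a
  induction a with
  | zero => simp
  | succ a ih =>
    rw [add_mul, one_mul, Finset.sum_range_add, ih]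
    have h1 : ∑ x ∈ range K, f ((a * K + x) % K) = ∑ v ∈ range K, f v := by
      refine Finset.sum_congr rfl fun v hv => ?_
      rw [mul_comm a K, Nat.mul_add_mod, Nat.mod_eq_of_lt (mem_range.1 hv)]
    rw [h1]
    push_cast
    ring

/-- decomposition of a sum over a stage -/
theorem KTO_sum (m n : ℕ) (f : ℕ → ℝ) : ∀ B, ∑ t ∈ range (2 * LL m n * B), (if xt m n t then f t else 0) =
    ∑ b ∈ range B, ∑ u ∈ range (LL m n), f (2 * LL m n * b + u) := by
  intro B
  induction B with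
  | zero => simp
  | succ B ih =>
    rw [mul_add, mul_one, Finset.sum_range_add, ih, Finset.sum_range_succ]
    congr 1
    rw [two_mul (LL m n), Finset.sum_range_add]
    have h1 : ∑ x ∈ range (LL m n), (if xt m n ((LL m n + LL m n) * B + x) then f ((LL m n + LL m n) * B + x) else 0) =
        ∑ x ∈ range (LL m n), f ((LL m n + LL m n) * B + x) := by
      refine Finset.sum_congr rfl fun x hx => ?_
      have hx' := mem_range.1 hx
      rw [← two_mul, if_pos ((KTO_xt (by omega)).2 hx')]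
    have h2 : ∑ x ∈ range (LL m n), (if xt m n ((LL m n + LL m n) * B + (LL m n + x)) then
        f ((LL m n + LL m n) * B + (LL m n + x)) else 0) = 0 := by
      refine Finset.sum_eq_zero fun x hx => ?_
      have hx' := mem_range.1 hx
      rw [← two_mul, if_neg]
      rw [KTO_xt (by omega)]
      omega
    rw [h1, h2, add_zero]

theorem KTO_Kx (m n : ℕ) (η : Fin (n + 1) → ℝ) : ∀ τ j, Kx m n η τ j =
    ∑ t ∈ range τ, (if xt m n t then (if co m n t = j then η (ro n t) / ((m : ℝ) + 1) ^ 2 else 0) else 0) := by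
  intro τ
  induction τ with
  | zero => intro j; simp [Kx]
  | succ τ ih =>
    intro j
    rw [Finset.sum_range_succ, ← ih]
    show (if xt m n τ then Function.update (Kx m n η τ) (co m n τ)
      (Kx m n η τ (co m n τ) + η (ro n τ) / ((m : ℝ) + 1) ^ 2) else Kx m n η τ) j = _
    split_ifs with h1 h2
    · subst h2; rw [Function.update_self]
    · rw [Function.update_of_ne (Ne.symm h2), add_zero]
    · rw [add_zero]

theorem KTO_Ke (m n : ℕ) (η : Fin (n + 1) → ℝ) : ∀ τ i, Ke m n η τ i =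
    ∑ t ∈ range τ, (if xt m n t then (if ro n t = i then η (ro n t) / ((m : ℝ) + 1) ^ 2 else 0) else 0) := by
  intro τ
  induction τ with
  | zero => intro j; simp [Ke]
  | succ τ ih =>
    intro j
    rw [Finset.sum_range_succ, ← ih]
    show (if xt m n τ then Function.update (Ke m n η τ) (ro n τ)
      (Ke m n η τ (ro n τ) + η (ro n τ) / ((m : ℝ) + 1) ^ 2) else Ke m n η τ) j = _
    split_ifs with h1 h2
    · subst h2; rw [Function.update_self]
    · rw [Function.update_of_ne (Ne.symm h2), add_zero]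
    · rw [add_zero]

theorem KTO_TT (m n : ℕ) : TT m n = 2 * LL m n * (m + 1) := by unfold TT; ring

theorem KTO_bound (m n : ℕ) (Δ : ℝ) (hΔ : 0 ≤ Δ) (g : ℕ → ℝ) (hg : ∀ t, |g t| ≤ Δ / ((m : ℝ) + 1) ^ 2)
    (τ : ℕ) (hτ : τ ≤ TT m n) : |∑ t ∈ range τ, (if xt m n t then g t else 0)| ≤ (n + 1) * Δ := by
  have hm : (0 : ℝ) < (m : ℝ) + 1 := by positivity
  have hc : 0 ≤ Δ / ((m : ℝ) + 1) ^ 2 := by positivity
  calc |∑ t ∈ range τ, (if xt m n t then g t else 0)|
      ≤ ∑ t ∈ range τ, |if xt m n t then g t else 0| := Finset.abs_sum_le_sum_abs _ _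
    _ ≤ ∑ t ∈ range τ, (if xt m n t then Δ / ((m : ℝ) + 1) ^ 2 else 0) := by
        refine Finset.sum_le_sum fun t _ => ?_
        split_ifs
        · exact hg t
        · rw [abs_zero]
    _ ≤ ∑ t ∈ range (TT m n), (if xt m n t then Δ / ((m : ℝ) + 1) ^ 2 else 0) := by
        refine Finset.sum_le_sum_of_subset_of_nonneg (Finset.range_mono hτ) fun t _ _ => ?_
        split_ifs
        · exact hc
        · exact le_rfl
    _ = (n + 1) * Δ := by
        rw [KTO_TT, KTO_sum m n (fun _ => Δ / ((m : ℝ) + 1) ^ 2)]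
        rw [Finset.sum_const, Finset.sum_const, card_range, card_range, nsmul_eq_mul, nsmul_eq_mul]
        unfold LL
        push_cast
        field_simp

theorem p_KTO : Stmt_KTO := by
  intro m n η Δ hη
  have hΔ : 0 ≤ Δ := (abs_nonneg _).trans (hη 0)
  have hm : (0 : ℝ) < (m : ℝ) + 1 := by positivity
  have hq : ∀ t, |η (ro n t) / ((m : ℝ) + 1) ^ 2| ≤ Δ / ((m : ℝ) + 1) ^ 2 := fun t => by
    rw [abs_div, abs_of_pos (by positivity : (0 : ℝ) < ((m : ℝ) + 1) ^ 2)]
    exact div_le_div_of_nonneg_right (hη _) (by positivity)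
  have hc : 0 ≤ Δ / ((m : ℝ) + 1) ^ 2 := by positivity
  refine ⟨fun τ hτ j => ?_, fun τ hτ i => ?_, fun hs j => ?_, fun i => ?_⟩
  · rw [KTO_Kx]
    refine KTO_bound m n Δ hΔ _ (fun t => ?_) τ hτ
    split_ifs
    · exact hq t
    · rw [abs_zero]; exact hc
  · rw [KTO_Ke]
    refine KTO_bound m n Δ hΔ _ (fun t => ?_) τ hτ
    split_ifs
    · exact hq t
    · rw [abs_zero]; exact hc
  · rw [KTO_Kx, KTO_TT, KTO_sum m n (fun t => if co m n t = j then η (ro n t) / ((m : ℝ) + 1) ^ 2 else 0), Finset.sum_comm]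
    have hL := KTO_LL_pos m n
    -- the function of the residue of `u` modulo `n + 1`
    have h1 : ∀ u ∈ range (LL m n), ∑ b ∈ range (m + 1), (if co m n (2 * LL m n * b + u) = j then
        η (ro n (2 * LL m n * b + u)) / ((m : ℝ) + 1) ^ 2 else 0) =
        (fun v => η ⟨v % (n + 1), Nat.mod_lt _ n.succ_pos⟩ / ((m : ℝ) + 1) ^ 2) (u % (n + 1)) := by
      intro u hu
      have hu' : u < 2 * LL m n := by have := mem_range.1 hu; omega
      have h2 : ∀ b ∈ range (m + 1), (if co m n (2 * LL m n * b + u) = j then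
          η (ro n (2 * LL m n * b + u)) / ((m : ℝ) + 1) ^ 2 else 0) =
          (fun c => if c = (j : ℕ) then η ⟨u % (n + 1), Nat.mod_lt _ n.succ_pos⟩ / ((m : ℝ) + 1) ^ 2 else 0)
            ((u + b) % (m + 1)) := by
        intro b _
        have h3 : ro n (2 * LL m n * b + u) = ⟨u % (n + 1), Nat.mod_lt _ n.succ_pos⟩ := Fin.ext (KTO_ro m n b u)
        have h4 : (co m n (2 * LL m n * b + u) = j) ↔ ((u + b) % (m + 1) = (j : ℕ)) := by
          rw [Fin.ext_iff, KTO_co hu']
        rw [h3]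
        by_cases h5 : (u + b) % (m + 1) = (j : ℕ)
        · rw [if_pos (h4.2 h5)]; simp only [h5, if_true]
        · rw [if_neg (fun h => h5 (h4.1 h))]; simp only [h5, if_false]
      rw [Finset.sum_congr rfl h2]
      refine (KTO_shift (m + 1) (fun c => if c = (j : ℕ) then
        η ⟨u % (n + 1), Nat.mod_lt _ n.succ_pos⟩ / ((m : ℝ) + 1) ^ 2 else 0) u).trans ?_
      rw [Finset.sum_ite_eq', if_pos (mem_range.2 j.2)]
      simp only [Nat.mod_mod]
    rw [Finset.sum_congr rfl h1]
    show ∑ u ∈ range ((m + 1) * (n + 1)), _ = 0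
    refine (KTO_per (n + 1) (fun v => η ⟨v % (n + 1), Nat.mod_lt _ n.succ_pos⟩ / ((m : ℝ) + 1) ^ 2) (m + 1)).trans ?_
    have h6 : ∑ v ∈ range (n + 1), (fun v => η ⟨v % (n + 1), Nat.mod_lt _ n.succ_pos⟩ / ((m : ℝ) + 1) ^ 2) v = 0 := by
      rw [Finset.sum_range]
      have h7 : ∀ i : Fin (n + 1), (fun v => η ⟨v % (n + 1), Nat.mod_lt _ n.succ_pos⟩ / ((m : ℝ) + 1) ^ 2) (i : ℕ) =
          η i / ((m : ℝ) + 1) ^ 2 := by
        intro i
        have : (⟨(i : ℕ) % (n + 1), Nat.mod_lt _ n.succ_pos⟩ : Fin (n + 1)) = i := Fin.ext (Nat.mod_eq_of_lt i.2)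
        simp only [this]
      rw [Finset.sum_congr rfl fun i _ => h7 i, ← Finset.sum_div, hs, zero_div]
    rw [h6, mul_zero]
  · rw [KTO_Ke, KTO_TT, KTO_sum m n (fun t => if ro n t = i then η (ro n t) / ((m : ℝ) + 1) ^ 2 else 0)]
    have h1 : ∀ b ∈ range (m + 1), ∑ u ∈ range (LL m n), (if ro n (2 * LL m n * b + u) = i then
        η (ro n (2 * LL m n * b + u)) / ((m : ℝ) + 1) ^ 2 else 0) =
        ((m + 1 : ℕ) : ℝ) * (η i / ((m : ℝ) + 1) ^ 2) := by
      intro b _
      have h2 : ∀ u ∈ range (LL m n), (if ro n (2 * LL m n * b + u) = i then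
          η (ro n (2 * LL m n * b + u)) / ((m : ℝ) + 1) ^ 2 else 0) =
          (fun v => if v = (i : ℕ) then η i / ((m : ℝ) + 1) ^ 2 else 0) (u % (n + 1)) := by
        intro u _
        have h4 : (ro n (2 * LL m n * b + u) = i) ↔ (u % (n + 1) = (i : ℕ)) := by
          rw [Fin.ext_iff, KTO_ro m n b u]
        by_cases h5 : u % (n + 1) = (i : ℕ)
        · rw [if_pos (h4.2 h5), h4.2 h5]; simp only [h5, if_true]
        · rw [if_neg (fun h => h5 (h4.1 h))]; simp only [h5, if_false]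
      rw [Finset.sum_congr rfl h2]
      show ∑ u ∈ range ((m + 1) * (n + 1)), _ = _
      refine (KTO_per (n + 1) (fun v => if v = (i : ℕ) then η i / ((m : ℝ) + 1) ^ 2 else 0) (m + 1)).trans ?_
      rw [Finset.sum_ite_eq', if_pos (mem_range.2 i.2)]
    rw [Finset.sum_congr rfl h1, Finset.sum_const, card_range, nsmul_eq_mul]
    push_cast
    field_simp

end Pool.LG
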