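import Pool.Agent.Work.MP_7453a1_lg.Interface

/-! # Block LGI: the logarithm near one -/

set_option autoImplicit false

open Real

namespace Pool.LG

lemma LGI_exp : Real.exp (-(17 / 8)) ≤ 3 / 20 := by
  have h1 : (20 : ℝ) / 3 ≤ Real.exp (17 / 8) := by
    have e1 : Real.exp (17 / 8) = Real.exp 1 * Real.exp 1 * Real.exp (1 / 8) := by
      rw [← Real.exp_add, ← Real.exp_add]
      norm_num
    have e2 := Real.exp_one_gt_d9
    have e3 : (1 : ℝ) / 8 + 1 ≤ Real.exp (1 / 8) := Real.add_one_le_exp _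
    rw [e1]
    nlinarith
  rw [Real.exp_neg]
  calc (Real.exp (17 / 8))⁻¹ ≤ ((20 : ℝ) / 3)⁻¹ := inv_anti₀ (by norm_num) h1
    _ = 3 / 20 := by norm_num

theorem p_LGI : Stmt_LGI := by
  intro u hu
  obtain ⟨h1, h2⟩ := abs_le.mp hu
  rcases le_or_gt 0 u with h | h
  · have e1 : 0 ≤ Real.log (1 + u) := Real.log_nonneg (by linarith)
    have e2 : Real.log (1 + u) ≤ 1 + u - 1 := Real.log_le_sub_one_of_pos (by linarith)
    rw [abs_of_nonneg e1, abs_of_nonneg h]
    linarith
  · have e1 : Real.log (1 + u) ≤ 0 := Real.log_nonpos (by linarith) (by linarith)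
    rw [abs_of_nonpos e1, abs_of_neg h]
    have e2 : 5 / 2 * u ≤ Real.log (1 + u) := by
      rw [Real.le_log_iff_exp_le (by linarith)]
      have hc := convexOn_exp.2 (Set.mem_univ (-(17 / 8) : ℝ)) (Set.mem_univ (0 : ℝ))
        (show (0 : ℝ) ≤ -(20 / 17) * u by linarith) (show (0 : ℝ) ≤ 1 - -(20 / 17) * u by linarith)
        (by ring)
      simp only [smul_eq_mul, mul_zero, add_zero, Real.exp_zero, mul_one] at hc
      have e3 : -(20 / 17) * u * -(17 / 8) = 5 / 2 * u := by ring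
      rw [e3] at hc
      have e4 : -(20 / 17) * u * Real.exp (-(17 / 8)) ≤ -(20 / 17) * u * (3 / 20) :=
        mul_le_mul_of_nonneg_left LGI_exp (by linarith)
      linarith
    linarith

end Pool.LG
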