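import Pool.Agent.Work.MP_7453a1_lg.Interface
import Pool.Agent.Work.MP_7453a1_le.B_LIM

set_option autoImplicit false

namespace Pool.LG

open Finset Real Filter
open Pool.Agent.Work.MP_7453a1_nt_two (Admissible IsBest Lengths G g len err)

theorem LM2_lim (K : ℝ) (hK : 2 ≤ K) (q : ℕ) :
    Tendsto (fun t : ℕ => ENNReal.ofReal (K ^ ((1 + 1 / ((t : ℝ) + 1)) * (1 / (2 : ℝ) ^ q)))) atTop
      (nhds (ENNReal.ofReal (K ^ (1 / (2 : ℝ) ^ q)))) := by
  have h1 : Tendsto (fun t : ℕ => (1 + 1 / ((t : ℝ) + 1)) * (1 / (2 : ℝ) ^ q)) atTop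
      (nhds ((1 + 0) * (1 / (2 : ℝ) ^ q))) :=
    (tendsto_one_div_add_atTop_nhds_zero_nat.const_add 1).mul_const _
  rw [add_zero, one_mul] at h1
  have h2 : Continuous (fun x : ℝ => K ^ x) := Real.continuous_const_rpow (by linarith)
  exact (ENNReal.continuous_ofReal.tendsto _).comp ((h2.tendsto _).comp h1)

theorem p_LM2 : Stmt_LM2 := by
  classical
  intro a b Nm Nn Θ q K hK hT
  choose T hT using hT
  have hK1 : 1 ≤ K := by linarith
  have hmono : ∀ i j : ℕ, i ≤ j → K ^ i ≤ K ^ j := fun i j h => pow_le_pow_right₀ hK1 h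
  have hub : ∀ R : ℝ, ∃ r ∈ Lengths Nm Nn Θ, R < r := by
    intro R
    obtain ⟨s, hs⟩ := pow_unbounded_of_one_lt R (show (1 : ℝ) < 2 by norm_num)
    have hne : (T s).Nonempty := by
      rw [← Finset.card_pos]
      exact lt_of_lt_of_le (by positivity) (hT s).1
    obtain ⟨r, hr⟩ := hne
    obtain ⟨h1, h2, -⟩ := (hT s).2 r hr
    refine ⟨r, h1, ?_⟩
    have h3 : (2 : ℝ) ^ (s + 2) ≤ K ^ (s + 2) := pow_le_pow_left₀ (by norm_num) hK _
    have h4 : (2 : ℝ) ^ (s + 2) = 2 ^ s * 4 := by rw [pow_add]; norm_num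
    have h5 : (0 : ℝ) < 2 ^ s := by positivity
    rw [h4] at h3
    linarith
  refine ⟨hub, ?_⟩
  have hpos : 0 < 2 ^ q := by positivity
  have hM : ∀ t : ℕ, Pool.Agent.Work.MP_7453a1_nt_two.M Nm Nn Θ ((t + 1) * 2 ^ q) ≤
      K ^ (t + 2) := by
    intro t
    have hdis : ∀ s ∈ range (t + 1), ∀ s' ∈ range (t + 1), s ≠ s' → Disjoint (T s) (T s') := by
      have key : ∀ s s', s < s' → Disjoint (T s) (T s') := by
        intro s s' hss
        rw [Finset.disjoint_left]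
        intro r h1 h2
        have h3 := ((hT s).2 r h1).2.2
        have h4 := ((hT s').2 r h2).2.1
        have h5 := hmono (s + 2) (s' + 1) (by omega)
        have h6 : 2 * K ^ (s' + 1) ≤ K ^ (s' + 2) := by
          have h7 : K ^ (s' + 2) = K * K ^ (s' + 1) := by
            rw [show s' + 2 = (s' + 1) + 1 from rfl, pow_succ K (s' + 1), mul_comm]
          rw [h7]
          exact mul_le_mul_of_nonneg_right hK (by positivity)
        linarith
      intro s _ s' _ hne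
      rcases lt_or_gt_of_ne hne with h | h
      · exact key s s' h
      · exact (key s' s h).symm
    have hcard : (t + 1) * 2 ^ q ≤ ((range (t + 1)).biUnion T).card := by
      rw [Finset.card_biUnion hdis]
      calc (t + 1) * 2 ^ q = ∑ _s ∈ range (t + 1), 2 ^ q := by
            rw [Finset.sum_const, Finset.card_range, smul_eq_mul]
        _ ≤ ∑ s ∈ range (t + 1), (T s).card := Finset.sum_le_sum fun s _ => (hT s).1
    obtain ⟨ν, hν⟩ : ∃ ν, (t + 1) * 2 ^ q = ν + 1 :=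
      Nat.exists_eq_add_one.2 (Nat.mul_pos (Nat.succ_pos t) hpos)
    rw [hν] at hcard ⊢
    refine Pool.LE.LIM_bound Nm Nn Θ ((range (t + 1)).biUnion T) ?_ ν _ ?_ hcard
    · intro r hr
      rw [Finset.mem_biUnion] at hr
      obtain ⟨s, -, hr⟩ := hr
      obtain ⟨h1, h2, -⟩ := (hT s).2 r hr
      have h3 : 0 < K ^ (s + 2) := by positivity
      exact ⟨h1, by linarith⟩
    · intro r hr
      rw [Finset.mem_biUnion] at hr
      obtain ⟨s, hs, hr⟩ := hr
      rw [Finset.mem_range] at hs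
      exact ((hT s).2 r hr).2.2.trans (hmono _ _ (by omega))
  obtain ⟨f, hf⟩ : ∃ f : ℕ → ENNReal, f = fun ν : ℕ =>
    ENNReal.ofReal (Pool.Agent.Work.MP_7453a1_nt_two.M Nm Nn Θ ν ^ (1 / (ν : ℝ))) := ⟨_, rfl⟩
  obtain ⟨φ, hφ⟩ : ∃ φ : ℕ → ℕ, φ = fun t => (t + 1) * 2 ^ q := ⟨_, rfl⟩
  have hφt : Tendsto φ atTop atTop := by
    refine tendsto_atTop_mono (fun t => ?_) tendsto_id
    rw [hφ]
    change t ≤ (t + 1) * 2 ^ q
    calc t ≤ t + 1 := Nat.le_succ t
      _ ≤ (t + 1) * 2 ^ q := Nat.le_mul_of_pos_right _ hpos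
  have h1 : G Nm Nn Θ ≤ liminf (fun t => f (φ t)) atTop := by
    have h2 : liminf f atTop ≤ liminf f (map φ atTop) := liminf_le_liminf_of_le hφt
    rw [hf] at h2 ⊢
    exact h2
  have hfg : ∀ t : ℕ, f (φ t) ≤
      ENNReal.ofReal (K ^ ((1 + 1 / ((t : ℝ) + 1)) * (1 / (2 : ℝ) ^ q))) := by
    intro t
    rw [hf]
    refine ENNReal.ofReal_le_ofReal ?_
    have h2 := hM t
    have h5 : ((φ t : ℕ) : ℝ) = ((t : ℝ) + 1) * 2 ^ q := by
      rw [hφ]; push_cast; ring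
    have h6 : (t + 1) * 2 ^ q = φ t := by rw [hφ]
    rw [h6] at h2
    have h3 : Pool.Agent.Work.MP_7453a1_nt_two.M Nm Nn Θ (φ t) ^ (1 / ((φ t : ℕ) : ℝ)) ≤
        (K ^ (t + 2)) ^ (1 / ((φ t : ℕ) : ℝ)) :=
      Real.rpow_le_rpow (Pool.LE.LIM_M_nonneg Nm Nn Θ hub _) h2 (by positivity)
    refine h3.trans (le_of_eq ?_)
    rw [h5, ← Real.rpow_natCast, ← Real.rpow_mul (by linarith)]
    congr 1
    push_cast
    have h4 : ((t : ℝ) + 1) ≠ 0 := by positivity
    have h7 : ((2 : ℝ) ^ q) ≠ 0 := by positivity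
    field_simp
    ring
  calc G Nm Nn Θ ≤ liminf (fun t => f (φ t)) atTop := h1
    _ ≤ liminf (fun t : ℕ => ENNReal.ofReal
          (K ^ ((1 + 1 / ((t : ℝ) + 1)) * (1 / (2 : ℝ) ^ q)))) atTop :=
        liminf_le_liminf (Eventually.of_forall hfg)
    _ = ENNReal.ofReal (K ^ (1 / (2 : ℝ) ^ q)) := (LM2_lim K hK q).liminf_eq

end Pool.LG
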