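import Pool.Agent.Work.MP_7453a1_lg.Interface

set_option autoImplicit false

/-!
# Sup norms, all `m, n`, block LMT: the limit of the centres
-/

namespace Pool.LG

open Finset Real Filter

theorem LMT_ev {m n : ℕ} (Θ : Mat m n) (l : Fin (m + 1)) (p : Fin (n + 1)) :
    ev Θ (Pi.single l 1, 0) p = Θ p l := by
  unfold ev
  rw [Finset.sum_eq_single l]
  · simp
  · intro b _ hb
    simp [Pi.single_eq_of_ne hb]
  · simp

theorem LMT_mu (μ : ℕ → ℝ) (hμ : ∀ s, 0 ≤ μ s ∧ μ (s + 1) ≤ μ s / 2) (s : ℕ) :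
    μ s ≤ μ 0 / 2 ^ s := by
  induction s with
  | zero => simp
  | succ s ih =>
    refine (hμ s).2.trans ?_
    rw [pow_succ, ← div_div]
    exact div_le_div_of_nonneg_right ih two_pos.le

theorem p_LMT : Stmt_LMT := by
  intro m n Θ μ hμ hmov
  have hent : ∀ (p : Fin (n + 1)) (l : Fin (m + 1)), ∃ a : ℝ,
      Tendsto (fun s => Θ s p l) atTop (nhds a) := by
    intro p l
    refine cauchySeq_tendsto_of_complete
      (cauchySeq_of_le_geometric_two (C := 2 * μ 0) fun s => ?_)
    have h1 := hmov s (Pi.single l 1, 0) 1 (fun l' => by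
      by_cases h : l' = l
      · subst h; simp
      · simp [Pi.single_eq_of_ne h]) p
    rw [LMT_ev, LMT_ev, mul_one] at h1
    rw [Real.dist_eq, abs_sub_comm]
    refine h1.trans ((LMT_mu μ hμ s).trans (le_of_eq ?_))
    ring
  choose Θ' hΘ' using hent
  refine ⟨Θ', ?_⟩
  intro s w R hR p
  have hR0 : 0 ≤ R := (abs_nonneg _).trans (hR 0)
  have hlim : Tendsto (fun t => ev (Θ (s + t)) w p) atTop (nhds (ev Θ' w p)) := by
    unfold ev
    refine Tendsto.sub_const (tendsto_finsetSum _ fun l _ => Tendsto.mul_const _ ?_) _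
    have := (tendsto_add_atTop_iff_nat s).2 (hΘ' p l)
    refine this.congr fun t => ?_
    rw [add_comm]
  have hbd : ∀ t, |ev (Θ (s + t)) w p - ev (Θ s) w p| ≤ (2 * μ s - 2 * μ (s + t)) * R := by
    intro t
    induction t with
    | zero => simp
    | succ t ih =>
      have h1 := hmov (s + t) w R hR p
      have h2 := (hμ (s + t)).2
      have h3 : |ev (Θ (s + t + 1)) w p - ev (Θ s) w p| ≤
          |ev (Θ (s + t + 1)) w p - ev (Θ (s + t)) w p| + |ev (Θ (s + t)) w p - ev (Θ s) w p| :=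
        abs_sub_le _ _ _
      change |ev (Θ (s + t + 1)) w p - ev (Θ s) w p| ≤ (2 * μ s - 2 * μ (s + t + 1)) * R
      nlinarith
  refine le_of_tendsto ((hlim.sub_const (ev (Θ s) w p)).abs) (Eventually.of_forall fun t => ?_)
  refine (hbd t).trans ?_
  have := mul_nonneg (hμ (s + t)).1 hR0
  nlinarith

end Pool.LG
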