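import Pool.Agent.Work.MP_7453a1_lg.Interface

set_option autoImplicit false

/-! # Block LNK (helper28) -/

namespace Pool.LG

open Finset Real

theorem LNK_pos (m n : ℕ) : 0 < LL m n := by
  unfold LL; positivity

theorem LNK_one (m n b t : ℕ) (ht : t < 2 * LL m n) :
    (xt m n (2 * LL m n * b + t) ↔ t < LL m n) ∧ rho m n (2 * LL m n * b + t) = rr (LL m n) t ∧
      ((ro n (2 * LL m n * b + t) : Fin (n + 1)) : ℕ) = t % (n + 1) ∧
      ((co m n (2 * LL m n * b + t) : Fin (m + 1)) : ℕ) = (t + b) % (m + 1) ∧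
      (((co m n (2 * LL m n * b + t) : Fin (m + 1)) : ℕ) + m * b) % (m + 1) = t % (m + 1) := by
  have hL := LNK_pos m n
  have hmod : (2 * LL m n * b + t) % (2 * LL m n) = t := by rw [Nat.mul_add_mod, Nat.mod_eq_of_lt ht]
  have hco : ((co m n (2 * LL m n * b + t) : Fin (m + 1)) : ℕ) = (t + b) % (m + 1) := by
    show (2 * LL m n * b + t + (2 * LL m n * b + t) / (2 * LL m n)) % (m + 1) = (t + b) % (m + 1)
    rw [Nat.mul_add_div (by positivity), Nat.div_eq_of_lt ht, add_zero, add_assoc]
    have h : 2 * LL m n * b = (m + 1) * (2 * (n + 1) * b) := by unfold LL; ring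
    rw [h, Nat.mul_add_mod]
  refine ⟨?_, ?_, ?_, hco, ?_⟩
  · unfold xt; rw [hmod]
  · unfold rho rr; rw [hmod]
  · show (2 * LL m n * b + t) % (n + 1) = t % (n + 1)
    have h : 2 * LL m n * b = (n + 1) * (2 * (m + 1) * b) := by unfold LL; ring
    rw [h, Nat.mul_add_mod]
  · rw [hco, Nat.mod_add_mod]
    have h : t + b + m * b = (m + 1) * b + t := by ring
    rw [h, Nat.mul_add_mod]

theorem LNK_co_iff (m n b t : ℕ) (ht : t < 2 * LL m n) (l : Fin (m + 1)) :
    t % (m + 1) = ((l : ℕ) + m * b) % (m + 1) ↔ l = co m n (2 * LL m n * b + t) := by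
  obtain ⟨-, -, -, h1, h2⟩ := LNK_one m n b t ht
  constructor
  · intro h
    refine Fin.ext ?_
    rw [h1]
    have h3 : ((l : ℕ) + m * b + b) % (m + 1) = (t + b) % (m + 1) := by
      rw [Nat.add_mod, ← h, ← Nat.add_mod]
    rw [← h3]
    have h4 : (l : ℕ) + m * b + b = (m + 1) * b + l := by ring
    rw [h4, Nat.mul_add_mod, Nat.mod_eq_of_lt l.2]
  · rintro rfl
    exact h2.symm

theorem LNK_V0 (L p c : ℕ) : V L p 0 c = 0 := by simp [V]

theorem LNK_Vs (L p t c : ℕ) : V L p (t + 1) c = V L p t c + if t % p = c then rr L t else 0 := by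
  unfold V; rw [Finset.sum_range_succ]

theorem LNK_dM (m n : ℕ) : LL m n / (m + 1) = n + 1 := by
  unfold LL; exact Nat.mul_div_cancel_left _ m.succ_pos

theorem LNK_dK (m n : ℕ) : LL m n / (n + 1) = m + 1 := by
  unfold LL; exact Nat.mul_div_cancel _ n.succ_pos

theorem p_LNK (hU : Stmt_UMO) : Stmt_LNK := by
  intro m n
  have hL := LNK_pos m n
  have hM := (hU (LL m n) (m + 1) m.succ_pos (Dvd.intro _ rfl) hL).1
  have hK := (hU (LL m n) (n + 1) n.succ_pos (Dvd.intro_left _ rfl) hL).1
  -- the claims for the start of a round give the claims in the round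
  have key : ∀ b, ((∀ l : Fin (m + 1), Ax m n (2 * LL m n * b) l = b * ((n + 1) * (2 * LL m n + 1))) ∧
      (∀ k : Fin (n + 1), Bx m n (2 * LL m n * b) k = b * ((m + 1) * (2 * LL m n + 1)))) →
      ∀ t, t ≤ 2 * LL m n →
      (∀ l : Fin (m + 1), Ax m n (2 * LL m n * b + t) l =
        b * ((n + 1) * (2 * LL m n + 1)) + V (LL m n) (m + 1) t (((l : ℕ) + m * b) % (m + 1))) ∧
      (∀ k : Fin (n + 1), Bx m n (2 * LL m n * b + t) k =
        b * ((m + 1) * (2 * LL m n + 1)) + V (LL m n) (n + 1) t k) := by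
    intro b hb t
    induction t with
    | zero =>
      intro _
      refine ⟨fun l => ?_, fun k => ?_⟩
      · rw [add_zero, LNK_V0, hb.1 l, add_zero]
      · rw [add_zero, LNK_V0, hb.2 k, add_zero]
    | succ t ih =>
      intro ht
      have ht' : t < 2 * LL m n := ht
      obtain ⟨ihA, ihB⟩ := ih ht'.le
      obtain ⟨-, h2, h3, -, -⟩ := LNK_one m n b t ht'
      refine ⟨fun l => ?_, fun k => ?_⟩
      · rw [← add_assoc, LNK_Vs]
        show Function.update (Ax m n (2 * LL m n * b + t)) (co m n (2 * LL m n * b + t))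
          (Ax m n (2 * LL m n * b + t) (co m n (2 * LL m n * b + t)) + rho m n (2 * LL m n * b + t)) l = _
        by_cases hl : l = co m n (2 * LL m n * b + t)
        · rw [if_pos ((LNK_co_iff m n b t ht' l).2 hl), hl, Function.update_self, ihA, h2, add_assoc]
        · rw [if_neg (fun h => hl ((LNK_co_iff m n b t ht' l).1 h)), Function.update_of_ne hl, ihA, add_zero]
      · rw [← add_assoc, LNK_Vs]
        show Function.update (Bx m n (2 * LL m n * b + t)) (ro n (2 * LL m n * b + t))
          (Bx m n (2 * LL m n * b + t) (ro n (2 * LL m n * b + t)) + rho m n (2 * LL m n * b + t)) k = _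
        by_cases hk : k = ro n (2 * LL m n * b + t)
        · have h4 : t % (n + 1) = (k : ℕ) := by rw [hk, h3]
          rw [if_pos h4, hk, Function.update_self, ihB, h2, add_assoc]
        · have h4 : ¬ t % (n + 1) = (k : ℕ) := fun h => hk (Fin.ext (by rw [h3, h]))
          rw [if_neg h4, Function.update_of_ne hk, ihB, add_zero]
  have start : ∀ b, (∀ l : Fin (m + 1), Ax m n (2 * LL m n * b) l = b * ((n + 1) * (2 * LL m n + 1))) ∧
      (∀ k : Fin (n + 1), Bx m n (2 * LL m n * b) k = b * ((m + 1) * (2 * LL m n + 1))) := by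
    intro b
    induction b with
    | zero =>
      refine ⟨fun l => ?_, fun k => ?_⟩
      · rw [mul_zero, zero_mul]; rfl
      · rw [mul_zero, zero_mul]; rfl
    | succ b ih =>
      obtain ⟨h1, h2⟩ := key b ih (2 * LL m n) le_rfl
      refine ⟨fun l => ?_, fun k => ?_⟩
      · rw [mul_add, mul_one, h1 l, hM _ (Nat.mod_lt _ m.succ_pos), LNK_dM]; ring
      · rw [mul_add, mul_one, h2 k, hK _ k.2, LNK_dK]; ring
  intro b t
  exact ⟨LNK_one m n b t, key b (start b) t⟩

end Pool.LG
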