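import Pool.Agent.Work.MP_7453a1_lg.Interface

set_option autoImplicit false

/-! # Block NMA -/

namespace Pool.LG

open Finset Real Filter

theorem NMA_gen {N : ℕ} (P w : Fin N → ℝ) (s : Finset (Fin N)) (k : Fin N) (X t : ℝ) (hX : 0 < X)
    (ht : 0 ≤ t) (hw : ∀ l, |w l - X * P l| ≤ t * X) (hs : ∑ l ∈ s, P l ≤ P k / 2)
    (hP : ∀ l, 0 ≤ P l) (hk : (N : ℝ) * t < P k / 2) (hks : k ∉ s) : ∑ l ∈ s, |w l| < w k := by
  have h1 : ∑ l ∈ s, |w l| ≤ ∑ l ∈ s, (X * P l + t * X) := by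
    refine Finset.sum_le_sum fun l _ => ?_
    have h2 := abs_le.mp (hw l)
    have h3 : 0 ≤ X * P l := mul_nonneg hX.le (hP l)
    have h4 : 0 ≤ t * X := mul_nonneg ht hX.le
    rw [abs_le]
    constructor <;> linarith [h2.1, h2.2]
  have h2 : ∑ l ∈ s, (X * P l + t * X) = X * ∑ l ∈ s, P l + (s.card : ℝ) * (t * X) := by
    rw [Finset.sum_add_distrib, Finset.mul_sum, Finset.sum_const, nsmul_eq_mul]
  have h3 : (s.card : ℝ) + 1 ≤ N := by
    have h4 : (insert k s).card ≤ N := by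
      have := Finset.card_le_univ (insert k s)
      simpa using this
    rw [Finset.card_insert_of_notMem hks] at h4
    exact_mod_cast h4
  have h4 := (abs_le.mp (hw k)).1
  have h5 : X * ∑ l ∈ s, P l ≤ X * (P k / 2) := mul_le_mul_of_nonneg_left hs hX.le
  have h6 : ((s.card : ℝ) + 1) * (t * X) ≤ (N : ℝ) * (t * X) :=
    mul_le_mul_of_nonneg_right h3 (mul_nonneg ht hX.le)
  have h7 : (N : ℝ) * t * X < P k / 2 * X := mul_lt_mul_of_pos_right hk hX
  nlinarith [h1, h2, h4, h5, h6, h7]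

theorem NMA_num (m n : ℕ) : (0 : ℝ) < 1 / (1000 * 3 ^ (m + n + 2)) ∧
    (1 : ℝ) / (1000 * 3 ^ (m + n + 2)) < 1 / (20 * 3 ^ n) ∧
    (1 : ℝ) / (1000 * 3 ^ (m + n + 2)) < 1 / (20 * 3 ^ m) := by
  refine ⟨by positivity, ?_, ?_⟩
  · refine one_div_lt_one_div_of_lt (by positivity) ?_
    have h1 : (3 : ℝ) ^ n ≤ 3 ^ (m + n + 2) := pow_le_pow_right₀ (by norm_num) (by omega)
    have h2 : (0 : ℝ) < 3 ^ n := by positivity
    linarith
  · refine one_div_lt_one_div_of_lt (by positivity) ?_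
    have h1 : (3 : ℝ) ^ m ≤ 3 ^ (m + n + 2) := pow_le_pow_right₀ (by norm_num) (by omega)
    have h2 : (0 : ℝ) < 3 ^ m := by positivity
    linarith

theorem NMA_half (N : ℕ) : (1 : ℝ) / (10 * 3 ^ N) / 2 = 1 / (20 * 3 ^ N) := by
  rw [div_div]
  congr 1
  ring

/-- The errors of the `f k` are dominated for `k` not the last index. -/
theorem NMA_domf (hPAT : Stmt_PAT) (hCST : Stmt_CST) {m n : ℕ} {F : Fr m n} {X ε : ℝ} {Θ : Mat m n}
    (hC : Clu m n F X ε Θ) (k : Fin (n + 1)) (hk : k ≠ Fin.last n) :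
    ∑ l ∈ univ.filter (· < k), |ev Θ (F.f l) (Fin.last n)| < ev Θ (F.f k) (Fin.last n) := by
  obtain ⟨-, hQ0, hQ1, -, -, hQlow, -, -, hQdom⟩ := hPAT n
  obtain ⟨hD2, -, -, -, -, -, hth, -, -, hDth, -⟩ := hCST m n
  refine NMA_gen (fun l => pQ n l (Fin.last n)) (fun l => ev Θ (F.f l) (Fin.last n)) _ k ε (th m n)
    hC.ep hth.le (fun l => hC.he l (Fin.last n)) (hQdom k hk) (fun l => (hQ0 l (Fin.last n)).1) ?_
    (by simp)
  have h1 : ((n + 1 : ℕ) : ℝ) ≤ DD m n := by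
    unfold DD
    push_cast
    linarith [(Nat.cast_nonneg m : (0 : ℝ) ≤ m)]
  have h2 : ((n + 1 : ℕ) : ℝ) * th m n ≤ DD m n * th m n := mul_le_mul_of_nonneg_right h1 hth.le
  have h3 := hQlow k
  have h4 := (NMA_num m n).2.1
  have h5 := NMA_half n
  linarith

/-- The vectors `x(v j)` are dominated for `j ≠ 0`. -/
theorem NMA_domv (hPAT : Stmt_PAT) (hCST : Stmt_CST) {m n : ℕ} {F : Fr m n} {X ε : ℝ} {Θ : Mat m n}
    (hC : Clu m n F X ε Θ) (j : Fin (m + 1)) (hj : j ≠ 0) :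
    ∑ l ∈ univ.filter (j < ·), |F.X l 0| < F.X j 0 := by
  obtain ⟨⟨hP0, hP1, -, -, hPlow, -, -, hPdom⟩, -⟩ := hPAT m
  obtain ⟨hD2, -, -, -, -, -, hth, -, -, hDth, -⟩ := hCST m n
  refine NMA_gen (fun l => pP m l 0) (fun l => F.X l 0) _ j X (th m n)
    hC.Xp hth.le (fun l => hC.hx l 0) (hPdom j hj) (fun l => (hP0 l 0).1) ?_
    (by simp)
  have h1 : ((m + 1 : ℕ) : ℝ) ≤ DD m n := by
    unfold DD
    push_cast
    linarith [(Nat.cast_nonneg n : (0 : ℝ) ≤ n)]
  have h2 : ((m + 1 : ℕ) : ℝ) * th m n ≤ DD m n * th m n := mul_le_mul_of_nonneg_right h1 hth.le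
  have h3 := hPlow j
  have h4 := (NMA_num m n).2.2
  have h5 := NMA_half m
  linarith

/-- If the signs `σ'` are not less than `σ` where the weights count, the weighted sum grows. -/
theorem NMA_sum {N : ℕ} (P : Fin N → ℝ) (hP : ∀ l, 0 ≤ P l) (σ σ' : Fin N → ℤ)
    (h : ∀ l, σ l ≤ σ' l) (k : Fin N) (hk : σ k = -1) (hk' : σ' k = 1) :
    ∑ l, (σ l : ℝ) * P l + 2 * P k ≤ ∑ l, (σ' l : ℝ) * P l := by
  have h1 : ∑ l, (σ' l : ℝ) * P l - ∑ l, (σ l : ℝ) * P l = ∑ l, ((σ' l : ℝ) - σ l) * P l := by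
    rw [← Finset.sum_sub_distrib]
    refine Finset.sum_congr rfl fun l _ => ?_
    ring
  have h2 : ((σ' k : ℝ) - σ k) * P k ≤ ∑ l, ((σ' l : ℝ) - σ l) * P l := by
    refine Finset.single_le_sum (f := fun l => ((σ' l : ℝ) - σ l) * P l) (fun l _ => ?_)
      (Finset.mem_univ k)
    refine mul_nonneg ?_ (hP l)
    have := h l
    have h3 : (σ l : ℝ) ≤ σ' l := by exact_mod_cast this
    linarith
  rw [hk, hk'] at h2
  push_cast at h2
  linarith

theorem p_NMA (hPAT : Stmt_PAT) (hCST : Stmt_CST) (hAPX : Stmt_APX) (hCLC : Stmt_CLC)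
    (hORD : Stmt_ORD) : Stmt_NMA := by
  intro m n F X ε Θ hC τ hτ hτl σ' τ' hσ' hτ' hσ0 haa hee
  obtain ⟨⟨hP0, hP1, -, -, hPlow, -, -, hPdom⟩, -⟩ := hPAT m
  have hsA : Sg (sA m) := by
    intro k
    unfold sA
    split_ifs
    · exact Or.inl rfl
    · exact Or.inr rfl
  have hσ : σ' = sA m := by
    funext j
    by_cases hj : j = 0
    · subst hj
      rw [hσ0]
      simp [sA]
    · by_contra hne
      have h1 : sA m j = -1 := by simp [sA, hj]
      have h2 : σ' j = 1 := by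
        rcases hσ' j with h | h
        · exact h
        · exact absurd (h.trans h1.symm) hne
      have h3 := NMA_sum (fun l => pP m l 0) (fun l => (hP0 l 0).1) (sA m) σ' (fun l => by
        by_cases hl : l = 0
        · subst hl
          rw [hσ0]
          simp [sA]
        · have h4 : sA m l = -1 := by simp [sA, hl]
          rw [h4]
          rcases hσ' l with h | h <;> rw [h]
          norm_num) j h1 h2
      have h5 := (abs_le.mp (hAPX m n F X ε Θ hC σ' τ' hσ' hτ').1).1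
      have h6 := (abs_le.mp (hAPX m n F X ε Θ hC (sA m) τ hsA hτ).1).2
      have h7 := hPlow j
      have h8 := (NMA_num m n).2.2
      have h9 := NMA_half m
      have h10 : X / (1000 * 3 ^ (m + n + 2)) = X * (1 / (1000 * 3 ^ (m + n + 2))) := by ring
      rw [h10] at h5 h6
      have h11 : X * (∑ l, (sA m l : ℝ) * pP m l 0 + 2 * pP m j 0) ≤
          X * ∑ l, (σ' l : ℝ) * pP m l 0 := mul_le_mul_of_nonneg_left h3 hC.Xp.le
      have h12 : X * (1 / (1000 * 3 ^ (m + n + 2))) < X * pP m j 0 := by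
        refine mul_lt_mul_of_pos_left ?_ hC.Xp
        have : (0 : ℝ) < 1 / (20 * 3 ^ m) := by positivity
        linarith
      nlinarith [h5, h6, h11, h12, haa]
  refine ⟨hσ, ?_⟩
  subst hσ
  by_contra hne
  obtain ⟨⟨k, hk, hkl⟩, -⟩ := hORD.1 (n + 1) τ τ' (fun h => hne h.symm)
  rcases hτ k with h1 | h1
  · -- `τ k = 1`, `τ' k = -1`
    have h2 : τ' k = -1 := by
      rcases hτ' k with h | h
      · exact absurd (h1.trans h.symm) hk
      · exact h
    have h3 : k ≠ Fin.last n := by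
      intro h
      rw [h, hτl] at h1
      norm_num at h1
    have h4 := hORD.2.1 (n + 1) (fun l => ev Θ (F.f l) (Fin.last n)) τ' τ k hτ' hτ
      (NMA_domf hPAT hCST hC k h3) (fun l hl => (hkl l hl).symm) h2 h1
    have h5 : ee Θ F (sA m) τ' < ee Θ F (sA m) τ := by
      unfold ee
      linarith
    have h6 : ee Θ F (sA m) τ < 0 := (hCLC m n F X ε Θ hC (sA m) τ hsA hτ).2.2.2.2.2.2.1 hτl
    rw [abs_of_neg (h5.trans h6), abs_of_neg h6] at hee
    linarith
  · -- `τ k = -1`, `τ' k = 1`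
    have h2 : τ' k = 1 := by
      rcases hτ' k with h | h
      · exact h
      · exact absurd (h1.trans h.symm) hk
    have h4 := hORD.2.1 (n + 1) (fun l => F.U l 0) τ τ' k hτ hτ' (hC.fo k) hkl h1 h2
    have h5 : aa F (sA m) τ < aa F (sA m) τ' := by
      unfold aa
      linarith
    linarith

end Pool.LG
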