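import Pool.Agent.Work.MP_7453a1_lg.B_NMA

set_option autoImplicit false

/-! # Block NMB -/

namespace Pool.LG

open Finset Real Filter

theorem NMB_neg {N : ℕ} {σ : Fin N → ℤ} (h : Sg σ) : Sg (fun l => -σ l) := by
  intro l
  rcases h l with h1 | h1
  · right
    show -σ l = -1
    rw [h1]
  · left
    show -σ l = 1
    rw [h1]
    rfl

theorem p_NMB (hPAT : Stmt_PAT) (hCST : Stmt_CST) (hAPX : Stmt_APX) (hCLC : Stmt_CLC)
    (hORD : Stmt_ORD) : Stmt_NMB := by
  intro m n F X ε Θ hC σ hσ hσ0 σ' τ' hσ' hτ' hσ'0 haa hee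
  obtain ⟨-, hQ0, hQ1, hQs, -, hQlow, -, hQl, hQdom⟩ := hPAT n
  have htB : Sg (tB n) := by
    intro k
    unfold tB
    split_ifs
    · exact Or.inr rfl
    · exact Or.inl rfl
  have htBl : tB n (Fin.last n) = -1 := by simp [tB]
  have hneg : ee Θ F σ (tB n) < 0 :=
    (hCLC m n F X ε Θ hC σ (tB n) hσ htB).2.2.2.2.2.2.1 htBl
  have hκ : ε / (1000 * 3 ^ (m + n + 2)) = ε * (1 / (1000 * 3 ^ (m + n + 2))) := by ring
  have hap := (abs_le.mp (hAPX m n F X ε Θ hC σ (tB n) hσ htB).2).1
  have hap' := hAPX m n F X ε Θ hC σ' τ' hσ' hτ'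
  have hap1 := (abs_le.mp hap'.2).1
  have hap2 := (abs_le.mp hap'.2).2
  rw [hκ] at hap hap1 hap2
  have hn2 := (NMA_num m n).2.1
  have hn3 := NMA_half n
  have hn4 : (0 : ℝ) < 1 / (20 * 3 ^ n) := by positivity
  have hbig : ∀ k : Fin (n + 1), ε * (1 / (1000 * 3 ^ (m + n + 2))) < ε * pQ n k (Fin.last n) := by
    intro k
    refine mul_lt_mul_of_pos_left ?_ hC.ep
    have := hQlow k
    linarith
  -- (2) the last sign of `τ'` is not 1
  have hlast : τ' (Fin.last n) = -1 := by
    rcases hτ' (Fin.last n) with h | h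
    · exfalso
      -- `τ' = - tB n`
      have hall : ∀ k, τ' k = -(tB n k) := by
        intro k
        by_cases hk : k = Fin.last n
        · rw [hk, h, htBl]
          rfl
        · have h1 : tB n k = 1 := by simp [tB, hk]
          rw [h1]
          rcases hτ' k with h2 | h2
          · exfalso
            have h3 := NMA_sum (fun l => pQ n l (Fin.last n)) (fun l => (hQ0 l (Fin.last n)).1)
              (fun l => -(tB n l)) τ' (fun l => by
                by_cases hl : l = Fin.last n
                · rw [hl, h, htBl]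
                  norm_num
                · have h4 : tB n l = 1 := by simp [tB, hl]
                  rw [h4]
                  rcases hτ' l with h5 | h5 <;> rw [h5]
                  norm_num) k (by rw [h1]) h2
            have h6 : ∑ l, ((-(tB n l) : ℤ) : ℝ) * pQ n l (Fin.last n) =
                -∑ l, (tB n l : ℝ) * pQ n l (Fin.last n) := by
              rw [← Finset.sum_neg_distrib]
              refine Finset.sum_congr rfl fun l _ => ?_
              push_cast
              ring
            rw [h6] at h3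
            have h7 : ε * (-∑ l, (tB n l : ℝ) * pQ n l (Fin.last n) + 2 * pQ n k (Fin.last n)) ≤
                ε * ∑ l, (τ' l : ℝ) * pQ n l (Fin.last n) := mul_le_mul_of_nonneg_left h3 hC.ep.le
            have h8 := hbig k
            have h9 : -ee Θ F σ (tB n) < ee Θ F σ' τ' := by nlinarith [h7, h8, hap, hap1]
            rw [abs_of_neg hneg] at hee
            have h10 := le_abs_self (ee Θ F σ' τ')
            linarith
          · exact h2
      have h1 : ∑ l, (τ' l : ℝ) * ev Θ (F.f l) (Fin.last n) =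
          -∑ l, (tB n l : ℝ) * ev Θ (F.f l) (Fin.last n) := by
        rw [← Finset.sum_neg_distrib]
        refine Finset.sum_congr rfl fun l _ => ?_
        rw [hall l]
        push_cast
        ring
      have h2 : ∑ l, ((-(σ l) : ℤ) : ℝ) * ev Θ (F.v l) (Fin.last n) <
          ∑ l, (σ' l : ℝ) * ev Θ (F.v l) (Fin.last n) :=
        hORD.2.2 (m + 1) (fun l => ev Θ (F.v l) (Fin.last n)) (fun l => -σ l) σ' 0
          (NMB_neg hσ) hσ' (hC.vo 0) (fun l hl => absurd hl (Fin.not_lt_zero l))
          (by simp only [hσ0]) hσ'0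
      have h3 : ∑ l, ((-(σ l) : ℤ) : ℝ) * ev Θ (F.v l) (Fin.last n) =
          -∑ l, (σ l : ℝ) * ev Θ (F.v l) (Fin.last n) := by
        rw [← Finset.sum_neg_distrib]
        refine Finset.sum_congr rfl fun l _ => ?_
        push_cast
        ring
      rw [h3] at h2
      rw [abs_of_neg hneg] at hee
      have h4 := le_abs_self (ee Θ F σ' τ')
      have h5 : ee Θ F σ' τ' = ∑ l, (σ' l : ℝ) * ev Θ (F.v l) (Fin.last n) +
          ∑ l, (τ' l : ℝ) * ev Θ (F.f l) (Fin.last n) := rfl
      have h6 : ee Θ F σ (tB n) = ∑ l, (σ l : ℝ) * ev Θ (F.v l) (Fin.last n) +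
          ∑ l, (tB n l : ℝ) * ev Θ (F.f l) (Fin.last n) := rfl
      linarith
    · exact h
  have hneg' : ee Θ F σ' τ' < 0 :=
    (hCLC m n F X ε Θ hC σ' τ' hσ' hτ').2.2.2.2.2.2.1 hlast
  -- (1) `τ' = tB n`
  have hτeq : τ' = tB n := by
    funext k
    by_cases hk : k = Fin.last n
    · rw [hk, hlast, htBl]
    · have h1 : tB n k = 1 := by simp [tB, hk]
      rw [h1]
      rcases hτ' k with h2 | h2
      · exact h2
      · exfalso
        have h3 := NMA_sum (fun l => pQ n l (Fin.last n)) (fun l => (hQ0 l (Fin.last n)).1)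
          τ' (tB n) (fun l => by
            by_cases hl : l = Fin.last n
            · rw [hl, hlast, htBl]
            · have h4 : tB n l = 1 := by simp [tB, hl]
              rw [h4]
              rcases hτ' l with h5 | h5 <;> rw [h5]
              norm_num) k h2 h1
        have h7 : ε * (∑ l, (τ' l : ℝ) * pQ n l (Fin.last n) + 2 * pQ n k (Fin.last n)) ≤
            ε * ∑ l, (tB n l : ℝ) * pQ n l (Fin.last n) := mul_le_mul_of_nonneg_left h3 hC.ep.le
        have h8 := hbig k
        rw [abs_of_neg hneg, abs_of_neg hneg'] at hee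
        nlinarith [h7, h8, hap, hap2]
  refine ⟨?_, hτeq⟩
  subst hτeq
  by_contra hne
  obtain ⟨-, ⟨k, hk, hkl⟩⟩ := hORD.1 (m + 1) σ σ' (fun h => hne h.symm)
  have hk0 : k ≠ 0 := by
    intro h
    rw [h, hσ0, hσ'0] at hk
    exact hk rfl
  rcases hσ k with h1 | h1
  · -- `σ k = 1`, `σ' k = -1`
    have h2 : σ' k = -1 := by
      rcases hσ' k with h | h
      · exact absurd (h1.trans h.symm) hk
      · exact h
    have h4 := hORD.2.2 (m + 1) (fun l => ev Θ (F.v l) (Fin.last n)) σ' σ k hσ' hσ
      (hC.vo k) (fun l hl => (hkl l hl).symm) h2 h1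
    have h5 : ee Θ F σ' (tB n) < ee Θ F σ (tB n) := by
      unfold ee
      linarith
    rw [abs_of_neg hneg, abs_of_neg hneg'] at hee
    linarith
  · -- `σ k = -1`, `σ' k = 1`
    have h2 : σ' k = 1 := by
      rcases hσ' k with h | h
      · exact h
      · exact absurd (h1.trans h.symm) hk
    have h4 := hORD.2.2 (m + 1) (fun l => F.X l 0) σ σ' k hσ hσ'
      (NMA_domv hPAT hCST hC k hk0) hkl h1 h2
    have h5 : aa F σ (tB n) < aa F σ' (tB n) := by
      unfold aa
      linarith
    linarith

end Pool.LG
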