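import Pool.Agent.Work.MP_7453a1_lg.Interface

set_option autoImplicit false

/-! # Block NUM: the numerical bound (MP_7453a1, sup norms) -/

namespace Pool.LG

open Finset Real Filter

theorem NUM_e15 : (2 * 10 ^ 6 : ℝ) ≤ exp 15 := by
  have h1 : (2.7 : ℝ) ≤ exp 1 := by
    have := Real.exp_one_gt_d9
    linarith
  have h2 : exp 15 = exp 1 ^ 15 := by
    rw [← Real.exp_nat_mul]
    norm_num
  rw [h2]
  calc (2 * 10 ^ 6 : ℝ) ≤ 2.7 ^ 15 := by norm_num
    _ ≤ exp 1 ^ 15 := pow_le_pow_left₀ (by norm_num) h1 15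

theorem NUM_e2 : (3 : ℝ) ≤ exp 2 := by
  have := Real.add_one_le_exp (2 : ℝ)
  linarith

theorem NUM_lam (m n : ℕ) : Lam m n ≤ exp (95 / 2 * DD m n) := by
  have hD : 2 ≤ DD m n := by
    unfold DD
    have h1 : (0 : ℝ) ≤ m := Nat.cast_nonneg m
    have h2 : (0 : ℝ) ≤ n := Nat.cast_nonneg n
    linarith
  have hD0 : 0 ≤ DD m n := by linarith
  have h1 : DD m n ^ 6 ≤ exp (6 * DD m n) := by
    have h2 : DD m n ≤ exp (DD m n) := by
      have := Real.add_one_le_exp (DD m n)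
      linarith
    calc DD m n ^ 6 ≤ exp (DD m n) ^ 6 := pow_le_pow_left₀ hD0 h2 6
      _ = exp (6 * DD m n) := by
        rw [← Real.exp_nat_mul]
        norm_num
  have h2 : (3 : ℝ) ^ (m + n + 2) ≤ exp (2 * DD m n) := by
    calc (3 : ℝ) ^ (m + n + 2) ≤ exp 2 ^ (m + n + 2) :=
          pow_le_pow_left₀ (by norm_num) NUM_e2 _
      _ = exp (2 * DD m n) := by
        rw [← Real.exp_nat_mul]
        congr 1
        unfold DD
        push_cast
        ring
  unfold Lam HH CC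
  calc 2 * (10 ^ 6 * DD m n ^ 6 * 3 ^ (m + n + 2)) * exp (4 * (8 * DD m n))
      = (2 * 10 ^ 6) * DD m n ^ 6 * 3 ^ (m + n + 2) * exp (4 * (8 * DD m n)) := by ring
    _ ≤ exp 15 * exp (6 * DD m n) * exp (2 * DD m n) * exp (4 * (8 * DD m n)) := by
        have := NUM_e15
        gcongr
    _ = exp (15 + 40 * DD m n) := by
        rw [← Real.exp_add, ← Real.exp_add, ← Real.exp_add]
        congr 1
        ring
    _ ≤ exp (95 / 2 * DD m n) := by
        apply Real.exp_le_exp.2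
        linarith

theorem NUM_lam2 (m n : ℕ) : 2 ≤ Lam m n := by
  have hD : 1 ≤ DD m n := by
    unfold DD
    have h1 : (0 : ℝ) ≤ m := Nat.cast_nonneg m
    have h2 : (0 : ℝ) ≤ n := Nat.cast_nonneg n
    linarith
  have h1 : 1 ≤ HH m n := by
    unfold HH
    have h2 : (1 : ℝ) ≤ DD m n ^ 6 := one_le_pow₀ hD
    have h3 : (1 : ℝ) ≤ 3 ^ (m + n + 2) := one_le_pow₀ (by norm_num)
    calc (1 : ℝ) = 1 * 1 * 1 := by norm_num
      _ ≤ 10 ^ 6 * DD m n ^ 6 * 3 ^ (m + n + 2) := by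
        gcongr
        norm_num
  have h2 : 1 ≤ exp (4 * CC m n) := by
    apply Real.one_le_exp
    unfold CC
    linarith
  unfold Lam
  calc (2 : ℝ) = 2 * 1 * 1 := by norm_num
    _ ≤ 2 * HH m n * exp (4 * CC m n) := by gcongr

theorem NUM_At (m n : ℕ) : ((At m n : ℕ) : ℝ) ≤ 3 * (((max m n : ℕ) : ℝ) + 1) ^ 4 := by
  have hm : (m : ℝ) ≤ ((max m n : ℕ) : ℝ) := Nat.cast_le.2 (le_max_left m n)
  have hn : (n : ℝ) ≤ ((max m n : ℕ) : ℝ) := Nat.cast_le.2 (le_max_right m n)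
  have hm0 : (0 : ℝ) ≤ m := Nat.cast_nonneg m
  have hn0 : (0 : ℝ) ≤ n := Nat.cast_nonneg n
  set N : ℝ := ((max m n : ℕ) : ℝ) + 1 with hN
  have hN1 : 1 ≤ N := by
    have : (0 : ℝ) ≤ ((max m n : ℕ) : ℝ) := Nat.cast_nonneg _
    linarith
  have hL : ((LL m n : ℕ) : ℝ) ≤ N ^ 2 := by
    unfold LL
    push_cast
    calc ((m : ℝ) + 1) * ((n : ℝ) + 1) ≤ N * N := by
          apply mul_le_mul <;> linarith
      _ = N ^ 2 := by ring
  have hL0 : (0 : ℝ) ≤ ((LL m n : ℕ) : ℝ) := Nat.cast_nonneg _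
  unfold At
  push_cast
  have hN2 : 1 ≤ N ^ 2 := one_le_pow₀ hN1
  calc ((LL m n : ℕ) : ℝ) * (2 * ((LL m n : ℕ) : ℝ) + 1) ≤ N ^ 2 * (2 * N ^ 2 + 1) := by
        apply mul_le_mul hL (by linarith) (by linarith) (by positivity)
    _ ≤ N ^ 2 * (3 * N ^ 2) := by
        apply mul_le_mul_of_nonneg_left (by linarith) (by positivity)
    _ = 3 * N ^ 4 := by ring

theorem NUM_DD (m n : ℕ) : DD m n ≤ 2 * (((max m n : ℕ) : ℝ) + 1) := by
  have hm : (m : ℝ) ≤ ((max m n : ℕ) : ℝ) := Nat.cast_le.2 (le_max_left m n)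
  have hn : (n : ℝ) ≤ ((max m n : ℕ) : ℝ) := Nat.cast_le.2 (le_max_right m n)
  unfold DD
  linarith

theorem p_NUM : Stmt_NUM := by
  intro m n
  have hlam2 := NUM_lam2 m n
  have hAt1 : 1 ≤ At m n := by
    unfold At LL
    have h1 : 0 < (m + 1) * (n + 1) := by positivity
    exact Nat.mul_pos h1 (by omega)
  have hKE2 : 2 ≤ KE m n := by
    unfold KE
    calc (2 : ℝ) ≤ Lam m n := hlam2
      _ = Lam m n ^ 1 := (pow_one _).symm
      _ ≤ Lam m n ^ At m n := pow_le_pow_right₀ (by linarith) hAt1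
  refine ⟨hKE2, ?_⟩
  set N : ℝ := ((max m n : ℕ) : ℝ) + 1 with hN
  have hN1 : 1 ≤ N := by
    have : (0 : ℝ) ≤ ((max m n : ℕ) : ℝ) := Nat.cast_nonneg _
    linarith
  have hKE : KE m n ≤ exp (300 * N ^ 5) := by
    unfold KE
    calc Lam m n ^ At m n ≤ exp (95 / 2 * DD m n) ^ At m n :=
          pow_le_pow_left₀ (by linarith) (NUM_lam m n) _
      _ = exp (((At m n : ℕ) : ℝ) * (95 / 2 * DD m n)) := by rw [← Real.exp_nat_mul]
      _ ≤ exp (300 * N ^ 5) := by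
        apply Real.exp_le_exp.2
        have h1 := NUM_At m n
        have h2 := NUM_DD m n
        rw [← hN] at h1 h2
        have hD0 : 0 ≤ DD m n := by
          unfold DD
          positivity
        calc ((At m n : ℕ) : ℝ) * (95 / 2 * DD m n) ≤ (3 * N ^ 4) * (95 / 2 * (2 * N)) := by
              apply mul_le_mul h1 (by linarith) (by positivity) (by positivity)
          _ = 285 * N ^ 5 := by ring
          _ ≤ 300 * N ^ 5 := by
            have : 0 ≤ N ^ 5 := by positivity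
            linarith
  have hp : (0 : ℝ) ≤ 1 / (2 : ℝ) ^ max m n := by positivity
  calc KE m n ^ (1 / (2 : ℝ) ^ max m n) ≤ exp (300 * N ^ 5) ^ (1 / (2 : ℝ) ^ max m n) :=
        Real.rpow_le_rpow (by linarith) hKE hp
    _ = exp (300 * N ^ 5 * (1 / (2 : ℝ) ^ max m n)) := (Real.exp_mul _ _).symm
    _ = exp (600 * N ^ 5 / 2 ^ (max m n + 1)) := by
        congr 1
        rw [pow_succ]
        field_simp
        ring

end Pool.LG
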