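import Pool.Agent.Work.MP_7453a1_lg.Interface

set_option autoImplicit false

/-! # Block ORD (helper90) -/

namespace Pool.LG

open Finset

theorem ORD_diff {N : ℕ} (s : Finset (Fin N)) (w : Fin N → ℝ) (σ σ' : Fin N → ℤ) (k : Fin N)
    (hσ : Sg σ) (hσ' : Sg σ') (hks : k ∉ s) (hw : ∑ l ∈ s, |w l| < w k)
    (heq : ∀ l, l ≠ k → l ∉ s → σ l = σ' l) (h1 : σ k = -1) (h2 : σ' k = 1) :
    ∑ l, (σ l : ℝ) * w l < ∑ l, (σ' l : ℝ) * w l := by
  classical
  have h3 : ∑ l, (σ' l : ℝ) * w l - ∑ l, (σ l : ℝ) * w l =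
      ∑ l, ((σ' l : ℝ) - σ l) * w l := by
    rw [← Finset.sum_sub_distrib]
    exact Finset.sum_congr rfl fun l _ => by ring
  have h4 : ∑ l, ((σ' l : ℝ) - σ l) * w l = 2 * w k + ∑ l ∈ s, ((σ' l : ℝ) - σ l) * w l := by
    rw [← Finset.sum_erase_add _ _ (Finset.mem_univ k)]
    have h5 : ∑ l ∈ univ.erase k, ((σ' l : ℝ) - σ l) * w l = ∑ l ∈ s, ((σ' l : ℝ) - σ l) * w l := by
      symm
      apply Finset.sum_subset
      · intro l hl
        exact Finset.mem_erase.mpr ⟨fun h => hks (h ▸ hl), Finset.mem_univ l⟩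
      · intro l hl hl'
        rw [heq l (Finset.mem_erase.mp hl).1 hl']
        ring
    rw [h5, h1, h2]
    push_cast
    ring
  have h5 : -(2 * ∑ l ∈ s, |w l|) ≤ ∑ l ∈ s, ((σ' l : ℝ) - σ l) * w l := by
    rw [Finset.mul_sum, ← Finset.sum_neg_distrib]
    apply Finset.sum_le_sum
    intro l _
    have h6 : |((σ' l : ℝ) - σ l) * w l| ≤ 2 * |w l| := by
      rw [abs_mul]
      apply mul_le_mul_of_nonneg_right _ (abs_nonneg _)
      rcases hσ l with h | h <;> rcases hσ' l with h' | h' <;> rw [h, h'] <;> norm_num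
    linarith [(abs_le.mp h6).1]
  linarith

theorem p_ORD : Stmt_ORD := by
  classical
  refine ⟨?_, ?_, ?_⟩
  · intro n σ σ' hne
    have hS : (univ.filter fun k => σ k ≠ σ' k).Nonempty := by
      by_contra hcon
      rw [Finset.not_nonempty_iff_eq_empty] at hcon
      apply hne
      funext k
      by_contra hk
      have : k ∈ univ.filter fun k => σ k ≠ σ' k := by simp [hk]
      rw [hcon] at this
      exact absurd this (Finset.notMem_empty k)
    refine ⟨⟨(univ.filter fun k => σ k ≠ σ' k).max' hS, ?_, ?_⟩,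
      ⟨(univ.filter fun k => σ k ≠ σ' k).min' hS, ?_, ?_⟩⟩
    · have := Finset.max'_mem _ hS
      rw [Finset.mem_filter] at this
      exact this.2
    · intro l hl
      by_contra hne'
      have h1 : l ∈ univ.filter fun k => σ k ≠ σ' k := by simp [hne']
      exact absurd (Finset.le_max' _ l h1) (not_le.mpr hl)
    · have := Finset.min'_mem _ hS
      rw [Finset.mem_filter] at this
      exact this.2
    · intro l hl
      by_contra hne'
      have h1 : l ∈ univ.filter fun k => σ k ≠ σ' k := by simp [hne']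
      exact absurd (Finset.min'_le _ l h1) (not_le.mpr hl)
  · intro N w σ σ' k hσ hσ' hw heq h1 h2
    refine ORD_diff (univ.filter (· < k)) w σ σ' k hσ hσ' (by simp) hw ?_ h1 h2
    intro l hl hl'
    apply heq
    rcases lt_or_gt_of_ne hl with h | h
    · exact absurd (Finset.mem_filter.mpr ⟨Finset.mem_univ l, h⟩) hl'
    · exact h
  · intro N w σ σ' k hσ hσ' hw heq h1 h2
    refine ORD_diff (univ.filter (k < ·)) w σ σ' k hσ hσ' (by simp) hw ?_ h1 h2
    intro l hl hl'
    apply heq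
    rcases lt_or_gt_of_ne hl with h | h
    · exact h
    · exact absurd (Finset.mem_filter.mpr ⟨Finset.mem_univ l, h⟩) hl'

end Pool.LG
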