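import Pool.Agent.Work.MP_7453a1_lg.Interface

/-! # Block PAT: the patterns -/

namespace Pool.LG

open Finset Real Filter

/-- the geometric sum -/
theorem PAT_geom (j k : ℕ) :
    ∑ l ∈ (range (j + 1 + k)).filter (fun l => j < l), (1 / (10 * 3 ^ l) : ℝ)
      = 1 / (20 * 3 ^ j) * (1 - 1 / 3 ^ k) := by
  induction k with
  | zero =>
    rw [Finset.sum_eq_zero]
    · simp
    · intro l hl
      rw [Finset.mem_filter, Finset.mem_range] at hl
      omega
  | succ k ih =>
    have h1 : j + 1 + (k + 1) = (j + 1 + k) + 1 := by ring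
    rw [h1, Finset.range_add_one, Finset.filter_insert, if_pos (by omega : j < j + 1 + k),
      Finset.sum_insert (by simp), ih]
    have h2 : (3 : ℝ) ^ (j + 1 + k) = 3 ^ j * (3 * 3 ^ k) := by
      rw [pow_add, pow_add, pow_one]; ring
    rw [h2, pow_succ]
    have h3 : (3 : ℝ) ^ j ≠ 0 := by positivity
    have h4 : (3 : ℝ) ^ k ≠ 0 := by positivity
    field_simp
    ring

theorem PAT_tail (m : ℕ) (j : Fin (m + 1)) :
    ∑ l ∈ univ.filter (j < ·), (1 / (10 * 3 ^ (l : ℕ)) : ℝ) ≤ 1 / (20 * 3 ^ (j : ℕ)) := by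
  have h1 : ∑ l ∈ univ.filter (fun l : Fin (m + 1) => j < l), (1 / (10 * 3 ^ (l : ℕ)) : ℝ)
      = ∑ l ∈ (range (m + 1)).filter (fun l => (j : ℕ) < l), (1 / (10 * 3 ^ l) : ℝ) := by
    rw [Finset.sum_filter, Finset.sum_filter,
      ← Fin.sum_univ_eq_sum_range (fun l => if (j : ℕ) < l then (1 / (10 * 3 ^ l) : ℝ) else 0)]
    rfl
  rw [h1]
  have h2 : range (m + 1) = range ((j : ℕ) + 1 + (m - (j : ℕ))) := by
    have := j.2
    congr 1
    omega
  rw [h2, PAT_geom]
  have h3 : (0 : ℝ) < 1 / (20 * 3 ^ (j : ℕ)) := by positivity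
  have h4 : (0 : ℝ) < 1 / 3 ^ (m - (j : ℕ)) := by positivity
  nlinarith

theorem PAT_P (m : ℕ) :
    (∀ j p, 0 ≤ pP m j p ∧ pP m j p ≤ 7 / 5) ∧ (∀ j, 1 ≤ pP m j j) ∧
      (∀ p, ∑ j ∈ univ.erase p, pP m j p ≤ 1 / 20) ∧
      (∀ j p, p ≠ 0 → p ≠ j → pP m j p = 0) ∧ (∀ j, 1 / (10 * 3 ^ m) ≤ pP m j 0) ∧
      (∀ j, j ≠ 0 → pP m j j = 1) ∧ pP m 0 0 = 7 / 5 ∧
      ∀ j, j ≠ 0 → ∑ l ∈ univ.filter (j < ·), pP m l 0 ≤ pP m j 0 / 2 := by
  have hj0 : ∀ j : Fin (m + 1), j ≠ 0 → pP m j 0 = 1 / (10 * 3 ^ (j : ℕ)) := by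
    intro j hj
    unfold pP
    rw [if_neg (fun h => hj h.symm), if_pos rfl]
  refine ⟨?_, ?_, ?_, ?_, ?_, ?_, ?_, ?_⟩
  · intro j p
    unfold pP
    have h1 : (1 : ℝ) ≤ 3 ^ (j : ℕ) := one_le_pow₀ (by norm_num)
    have h2 : (1 / (10 * 3 ^ (j : ℕ)) : ℝ) ≤ 1 := by
      rw [div_le_one (by positivity)]
      linarith
    split_ifs
    · norm_num
    · norm_num
    · exact ⟨by positivity, by linarith⟩
    · norm_num
  · intro j
    unfold pP
    rw [if_pos rfl]
    split_ifs <;> norm_num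
  · intro p
    by_cases hp : p = 0
    · subst hp
      have h1 : ∑ j ∈ univ.erase (0 : Fin (m + 1)), pP m j 0
          = ∑ l ∈ univ.filter (fun l : Fin (m + 1) => 0 < l), (1 / (10 * 3 ^ (l : ℕ)) : ℝ) := by
        have h2 : (univ.erase (0 : Fin (m + 1))) = univ.filter (fun l : Fin (m + 1) => 0 < l) := by
          ext l
          rw [Finset.mem_erase, Finset.mem_filter, Fin.pos_iff_ne_zero]
          tauto
        rw [h2]
        refine Finset.sum_congr rfl fun l hl => ?_
        rw [Finset.mem_filter, Fin.pos_iff_ne_zero] at hl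
        exact hj0 l hl.2
      rw [h1]
      have h3 := PAT_tail m 0
      simp only [Fin.val_zero, pow_zero, mul_one] at h3
      exact h3
    · rw [Finset.sum_eq_zero]
      · norm_num
      · intro j hj
        rw [Finset.mem_erase] at hj
        unfold pP
        rw [if_neg (fun h => hj.1 h.symm), if_neg hp]
  · intro j p h1 h2
    unfold pP
    rw [if_neg h2, if_neg h1]
  · intro j
    by_cases hj : j = 0
    · subst hj
      unfold pP
      rw [if_pos rfl, if_pos rfl]
      have h1 : (1 : ℝ) ≤ 3 ^ m := one_le_pow₀ (by norm_num)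
      have h2 : (1 / (10 * 3 ^ m) : ℝ) ≤ 1 := by
        rw [div_le_one (by positivity)]
        linarith
      linarith
    · rw [hj0 j hj]
      apply one_div_le_one_div_of_le (by positivity)
      have h3 : (3 : ℝ) ^ (j : ℕ) ≤ 3 ^ m :=
        pow_le_pow_right₀ (by norm_num) (by have := j.2; omega)
      linarith
  · intro j hj
    unfold pP
    rw [if_pos rfl, if_neg hj]
  · unfold pP
    rw [if_pos rfl, if_pos rfl]
  · intro j hj
    rw [hj0 j hj]
    have h1 : ∑ l ∈ univ.filter (fun l : Fin (m + 1) => j < l), pP m l 0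
        = ∑ l ∈ univ.filter (fun l : Fin (m + 1) => j < l), (1 / (10 * 3 ^ (l : ℕ)) : ℝ) := by
      refine Finset.sum_congr rfl fun l hl => ?_
      rw [Finset.mem_filter] at hl
      apply hj0
      intro h
      rw [h] at hl
      exact absurd hl.2 (Fin.not_lt_zero j)
    rw [h1]
    refine (PAT_tail m j).trans (le_of_eq ?_)
    have h3 : (3 : ℝ) ^ (j : ℕ) ≠ 0 := by positivity
    field_simp
    norm_num

theorem p_PAT : Stmt_PAT := by
  intro m
  obtain ⟨a1, a2, a3, a4, a5, a6, a7, a8⟩ := PAT_P m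
  refine ⟨⟨a1, a2, a3, a4, a5, a6, a7, a8⟩, ?_, ?_, ?_, ?_, ?_, ?_, ?_, ?_⟩
  · intro j p
    exact a1 _ _
  · intro j
    exact a2 _
  · intro p
    have h1 : ∑ j ∈ univ.erase p, pQ m j p = ∑ j ∈ univ.erase p.rev, pP m j p.rev := by
      refine Finset.sum_bij (fun j _ => j.rev) ?_ ?_ ?_ ?_
      · intro j hj
        rw [Finset.mem_erase] at hj ⊢
        exact ⟨fun h => hj.1 (Fin.rev_injective h), Finset.mem_univ _⟩
      · intro j _ j' _ h
        exact Fin.rev_injective h
      · intro j hj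
        rw [Finset.mem_erase] at hj
        refine ⟨j.rev, ?_, Fin.rev_rev j⟩
        rw [Finset.mem_erase]
        refine ⟨fun h => hj.1 ?_, Finset.mem_univ _⟩
        rw [← h, Fin.rev_rev]
      · intro j _
        rfl
    rw [h1]
    exact a3 _
  · intro j p h1 h2
    refine a4 _ _ ?_ ?_
    · intro h
      apply h1
      rw [← Fin.rev_rev p, h, Fin.rev_zero]
    · intro h
      exact h2 (Fin.rev_injective h)
  · intro j
    have := a5 j.rev
    unfold pQ
    rw [Fin.rev_last]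
    exact this
  · intro j hj
    unfold pQ
    refine a6 _ ?_
    intro h
    apply hj
    rw [← Fin.rev_rev j, h, Fin.rev_zero]
  · unfold pQ
    rw [Fin.rev_last]
    exact a7
  · intro j hj
    have h0 : j.rev ≠ 0 := by
      intro h
      apply hj
      rw [← Fin.rev_rev j, h, Fin.rev_zero]
    have h1 : ∑ l ∈ univ.filter (· < j), pQ m l (Fin.last m)
        = ∑ l ∈ univ.filter (j.rev < ·), pP m l 0 := by
      refine Finset.sum_bij (fun l _ => l.rev) ?_ ?_ ?_ ?_
      · intro l hl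
        rw [Finset.mem_filter] at hl ⊢
        exact ⟨Finset.mem_univ _, Fin.rev_lt_rev.2 hl.2⟩
      · intro l _ l' _ h
        exact Fin.rev_injective h
      · intro l hl
        rw [Finset.mem_filter] at hl
        refine ⟨l.rev, ?_, Fin.rev_rev l⟩
        rw [Finset.mem_filter]
        refine ⟨Finset.mem_univ _, ?_⟩
        rw [← Fin.rev_lt_rev, Fin.rev_rev]
        exact hl.2
      · intro l _
        unfold pQ
        rw [Fin.rev_last]
    rw [h1]
    have h2 := a8 j.rev h0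
    unfold pQ
    rw [Fin.rev_last]
    exact h2

end Pool.LG
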