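import Pool.Agent.Work.MP_7453a1_lg.Interface

set_option autoImplicit false

namespace Pool.LG

open Finset Real Filter

/-! ### The recursions -/

theorem PHC_Axn (m n τ : ℕ) (l : Fin (m + 1)) (h : l ≠ co m n τ) :
    Ax m n (τ + 1) l = Ax m n τ l :=
  Function.update_of_ne h _ _

theorem PHC_Bxn (m n τ : ℕ) (k : Fin (n + 1)) (h : k ≠ ro n τ) :
    Bx m n (τ + 1) k = Bx m n τ k :=
  Function.update_of_ne h _ _

theorem PHC_Bxi (m n τ : ℕ) :
    Bx m n (τ + 1) (ro n τ) = Bx m n τ (ro n τ) + rho m n τ :=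
  Function.update_self _ _ _

theorem PHC_Wxn (m n τ : ℕ) (k : Fin (n + 1)) (h : k ≠ ro n τ) :
    Wx m n (τ + 1) k = Wx m n τ k :=
  Function.update_of_ne h _ _

theorem PHC_Wxi (m n τ : ℕ) : Wx m n (τ + 1) (ro n τ) = Ax m n τ (co m n τ) :=
  Function.update_self _ _ _

theorem PHC_Kxn (m n τ : ℕ) (η : Fin (n + 1) → ℝ) (l : Fin (m + 1)) (h : l ≠ co m n τ) :
    Kx m n η (τ + 1) l = Kx m n η τ l := by
  show (if xt m n τ then
      Function.update (Kx m n η τ) (co m n τ) (Kx m n η τ (co m n τ) + η (ro n τ) / ((m : ℝ) + 1) ^ 2)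
      else Kx m n η τ) l = _
  by_cases hx : xt m n τ
  · rw [if_pos hx, Function.update_of_ne h]
  · rw [if_neg hx]

theorem PHC_Ken (m n τ : ℕ) (η : Fin (n + 1) → ℝ) (k : Fin (n + 1)) (h : k ≠ ro n τ) :
    Ke m n η (τ + 1) k = Ke m n η τ k := by
  show (if xt m n τ then
      Function.update (Ke m n η τ) (ro n τ) (Ke m n η τ (ro n τ) + η (ro n τ) / ((m : ℝ) + 1) ^ 2)
      else Ke m n η τ) k = _
  by_cases hx : xt m n τ
  · rw [if_pos hx, Function.update_of_ne h]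
  · rw [if_neg hx]

theorem PHC_KK (m n τ : ℕ) (η : Fin (n + 1) → ℝ) :
    Ke m n η (τ + 1) (ro n τ) - Ke m n η τ (ro n τ) =
      Kx m n η (τ + 1) (co m n τ) - Kx m n η τ (co m n τ) := by
  show (if xt m n τ then
      Function.update (Ke m n η τ) (ro n τ) (Ke m n η τ (ro n τ) + η (ro n τ) / ((m : ℝ) + 1) ^ 2)
      else Ke m n η τ) (ro n τ) - Ke m n η τ (ro n τ) =
    (if xt m n τ then
      Function.update (Kx m n η τ) (co m n τ) (Kx m n η τ (co m n τ) + η (ro n τ) / ((m : ℝ) + 1) ^ 2)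
      else Kx m n η τ) (co m n τ) - Kx m n η τ (co m n τ)
  by_cases hx : xt m n τ
  · rw [if_pos hx, if_pos hx, Function.update_self, Function.update_self]
    ring
  · rw [if_neg hx, if_neg hx]
    ring

theorem PHC_LL (m n : ℕ) : m + 1 ≤ LL m n := by
  unfold LL
  exact Nat.le_mul_of_pos_right _ (Nat.succ_pos n)

theorem PHC_co (m n τ : ℕ) (h : τ ≤ m) : (co m n τ : ℕ) = τ := by
  have h1 := PHC_LL m n
  show (τ + τ / (2 * LL m n)) % (m + 1) = τ
  rw [Nat.div_eq_of_lt (by omega), add_zero, Nat.mod_eq_of_lt (by omega)]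

theorem PHC_ro (m n : ℕ) (k : Fin (n + 1)) (τ : ℕ) (h : LL m n + (k : ℕ) = τ) : k = ro n τ := by
  apply Fin.ext
  show (k : ℕ) = τ % (n + 1)
  rw [← h]
  unfold LL
  rw [Nat.mul_add_mod', Nat.mod_eq_of_lt k.2]

/-! ### Numbers -/

theorem PHC_small (m n : ℕ) (h2 : Stmt_CST) :
    ft m n ≤ 1 / (20 * 3 ^ m) ∧ 2 * ft m n ≤ 1 / (20 * 3 ^ n) ∧ ft m n ≤ 1 / 100 ∧ 0 < ft m n := by
  obtain ⟨c1, c2, c3, c4, c5, c6, c7, c8, c9, c10, c11, c12, c13, c14, c15, c16, c17⟩ := h2 m n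
  have e1 : 400 * ft m n ≤ th m n := by
    have := mul_le_mul_of_nonneg_right c1 c8.le
    linarith
  have hm : (1 : ℝ) ≤ 3 ^ m := one_le_pow₀ (by norm_num)
  have hn : (1 : ℝ) ≤ 3 ^ n := one_le_pow₀ (by norm_num)
  have e2 : (1 : ℝ) / (18000 * 3 ^ m) ≤ 1 / (20 * 3 ^ m) :=
    one_div_le_one_div_of_le (by positivity) (by linarith)
  have e3 : (1 : ℝ) / (18000 * 3 ^ n) ≤ 1 / (20 * 3 ^ n) :=
    one_div_le_one_div_of_le (by positivity) (by linarith)
  have e4 : (1 : ℝ) / (18000 * 3 ^ m) ≤ 1 / 100 :=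
    one_div_le_one_div_of_le (by positivity) (by linarith)
  exact ⟨by linarith, by linarith, by linarith, c8⟩

theorem PHC_z3 (m n : ℕ) (h2 : Stmt_CST) (z Z : ℝ) (τ : ℕ) (hτ : τ ≤ TT m n)
    (dx tx : Fin (m + 1) → ℝ) (te : Fin (n + 1) → ℝ) (g1 : ∀ j, 0 ≤ dx j) (g2 : ∀ j, 0 ≤ tx j)
    (g3 : ∀ i, 0 ≤ te i) (hZ : Z ≤ 28 / 10)
    (h : z + ∑ j, dx j + 4 * ∑ j, tx j + 4 * ∑ i, te i ≤ Z + 60 * DD m n / HH m n * τ) :
    z ≤ 3 := by
  obtain ⟨f1, f2, f3, f4⟩ := PHC_small m n h2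
  obtain ⟨c1, c2, c3, c4, c5, c6, c7, c8, c9, c10, c11, c12, c13, c14, c15, c16, c17⟩ := h2 m n
  have s1 : 0 ≤ ∑ j, dx j := Finset.sum_nonneg fun j _ => g1 j
  have s2 : 0 ≤ ∑ j, tx j := Finset.sum_nonneg fun j _ => g2 j
  have s3 : 0 ≤ ∑ i, te i := Finset.sum_nonneg fun i _ => g3 i
  have hD : 0 < DD m n := by linarith
  have hH : 0 < HH m n := by linarith
  have s4 : 60 * DD m n / HH m n * (τ : ℝ) ≤ 60 * DD m n / HH m n * (TT m n : ℝ) :=
    mul_le_mul_of_nonneg_left (by exact_mod_cast hτ) (by positivity)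
  linarith

theorem PHC_te (m n : ℕ) (G : Fr m n) (X ε : ℝ) (tx0 : Fin (m + 1) → ℝ)
    (η te0 : Fin (n + 1) → ℝ) (Z : ℝ) (hP : Par m n G X ε tx0 η te0 Z) (i : Fin (n + 1)) :
    te0 i ≤ 1 / 2 := by
  by_cases h : i = 0
  · rw [h]
    exact hP.tez
  · have h1 : te0 i ≤ ∑ k ∈ univ.erase 0, te0 k :=
      Finset.single_le_sum (f := te0) (fun k _ => hP.tep k)
        (Finset.mem_erase.2 ⟨h, Finset.mem_univ i⟩)
    have := hP.ste
    linarith

theorem p_PHC (h1 : Stmt_PAT) (h2 : Stmt_CST) (h3 : Stmt_BNS) : Stmt_PHC := by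
  intro m n G Θ₀ X ε tx0 η te0 Z τ F Θ S dx tx s W te z hP hτ hPh F' Θ' S1 a ν ω dx' tx' te'
    hsta hfi hfk hvl hmv hν hω hdj hdl hd' hpot htx' hte'
  obtain ⟨f1, f2, f3, f4⟩ := PHC_small m n h2
  obtain ⟨c1, c2, c3, c4, c5, c6, c7, c8, c9, c10, c11, c12, c13, c14, c15, c16, c17⟩ := h2 m n
  have hX := hP.Xp
  have hε := hP.ep
  have hD : 0 < DD m n := by linarith
  have hH : 0 < HH m n := by linarith
  have hΛ : 0 < Lam m n := by linarith
  have hS1 : 0 < S1 := by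
    have := hsta.Sp (co m n τ)
    rwa [Function.update_self] at this
  have ha : 0 < a := by
    have := hsta.sp (ro n τ)
    rwa [Function.update_self] at this
  have hSj : 0 < S (co m n τ) := hPh.sta.Sp _
  have hsi : 0 < s (ro n τ) := hPh.sta.sp _
  have hν0 : 0 ≤ ν := (abs_nonneg _).trans hν
  have hω0 : 0 ≤ ω := (abs_nonneg _).trans hω
  have hpot' : (z + ν + ω) + ∑ j, dx' j + 4 * ∑ j, tx' j + 4 * ∑ i, te' i ≤
      Z + 60 * DD m n / HH m n * ((τ + 1 : ℕ) : ℝ) := by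
    rw [Nat.cast_add, Nat.cast_one]
    exact hpot
  have hz : z ≤ 3 := PHC_z3 m n h2 z Z τ hτ.le dx tx te (fun j => (hPh.bdx j).1)
    (fun j => (hPh.btx j).1) (fun i => (hPh.bte i).1) hP.Zle hPh.pot
  have hz' : z + ν + ω ≤ 3 := PHC_z3 m n h2 (z + ν + ω) Z (τ + 1) hτ dx' tx' te'
    (fun j => (hd' j).1) (fun j => (htx' j).1) (fun i => (hte' i).1) hP.Zle hpot'
  obtain ⟨b1, b2⟩ := h3 m n η τ hP.eta hτ.le
  obtain ⟨b3, b4⟩ := h3 m n η (τ + 1) hP.eta hτ
  obtain ⟨bS1, bS2⟩ := b1 X (S (co m n τ)) (co m n τ) hX hSj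
    ((hPh.sS _).trans (hPh.bdx _).2.1)
  obtain ⟨bs1, bs2⟩ := b2 ε (s (ro n τ)) z (ro n τ) hε hsi hz (hPh.ss _)
  obtain ⟨bT1, bT2⟩ := b3 X S1 (co m n τ) hX hS1 (hdj.trans (hd' _).2.1)
  -- the new error size
  have hssi : |log (a / ε) + (Bx m n (τ + 1) (ro n τ) : ℝ) * log (Lam m n) -
      (η (ro n τ) - Ke m n η (τ + 1) (ro n τ))| ≤ z + ν + ω := by
    have e1 : log (a / ε) + (Bx m n (τ + 1) (ro n τ) : ℝ) * log (Lam m n) -
        (η (ro n τ) - Ke m n η (τ + 1) (ro n τ)) =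
      (log (s (ro n τ) / ε) + (Bx m n τ (ro n τ) : ℝ) * log (Lam m n) -
        (η (ro n τ) - Ke m n η τ (ro n τ))) +
      log (a * S1 / (s (ro n τ) * S (co m n τ))) -
      (log (S1 / S (co m n τ)) - rho m n τ * log (Lam m n) -
        (Kx m n η (τ + 1) (co m n τ) - Kx m n η τ (co m n τ))) := by
      rw [PHC_Bxi, ← PHC_KK, Real.log_div ha.ne' hε.ne', Real.log_div hsi.ne' hε.ne',
        Real.log_div (mul_pos ha hS1).ne' (mul_pos hsi hSj).ne', Real.log_div hS1.ne' hSj.ne',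
        Real.log_mul ha.ne' hS1.ne', Real.log_mul hsi.ne' hSj.ne']
      push_cast
      ring
    rw [e1]
    have t1 := abs_le.1 (hPh.ss (ro n τ))
    have t2 := abs_le.1 hν
    have t3 := abs_le.1 hω
    rw [abs_le]
    constructor <;> linarith [t1.1, t1.2, t2.1, t2.2, t3.1, t3.2]
  obtain ⟨bA1, bA2⟩ := b4 ε a (z + ν + ω) (ro n τ) hε ha hz' hssi
  -- the movement
  have hmu : 5 * s (ro n τ) / S1 ≤
      5 * exp (2 * CC m n) * (ε / X) * (1 / Lam m n) ^ Phi m n τ := by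
    have e2 : exp (2 * CC m n) * exp (-CC m n) = exp (CC m n) := by
      rw [← Real.exp_add]
      congr 1
      ring
    have e3 : (1 / Lam m n) ^ Phi m n τ * Lam m n ^ Ax m n (τ + 1) (co m n τ) =
        (1 / Lam m n) ^ Bx m n τ (ro n τ) := by
      unfold Phi
      rw [pow_add, mul_right_comm, ← mul_pow, one_div_mul_cancel hΛ.ne', one_pow, one_mul]
    have e4 : ε / X * X = ε := div_mul_cancel₀ _ hX.ne'
    rw [div_le_iff₀ hS1]
    calc 5 * s (ro n τ) ≤ 5 * (ε * exp (CC m n) * (1 / Lam m n) ^ Bx m n τ (ro n τ)) := by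
          linarith
      _ = 5 * (ε / X * X) * (exp (2 * CC m n) * exp (-CC m n)) *
          ((1 / Lam m n) ^ Phi m n τ * Lam m n ^ Ax m n (τ + 1) (co m n τ)) := by
          rw [e2, e3, e4]
          ring
      _ = 5 * exp (2 * CC m n) * (ε / X) * (1 / Lam m n) ^ Phi m n τ *
          (X * exp (-CC m n) * Lam m n ^ Ax m n (τ + 1) (co m n τ)) := by ring
      _ ≤ _ := mul_le_mul_of_nonneg_left bT1 (by positivity)
  have hmu4 : 5 * s (ro n τ) / S1 * (4 * X) ≤
      20 * exp (2 * CC m n) * ε * (1 / Lam m n) ^ Phi m n τ := by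
    have e4 : ε / X * X = ε := div_mul_cancel₀ _ hX.ne'
    calc 5 * s (ro n τ) / S1 * (4 * X) ≤
          5 * exp (2 * CC m n) * (ε / X) * (1 / Lam m n) ^ Phi m n τ * (4 * X) :=
          mul_le_mul_of_nonneg_right hmu (by positivity)
      _ = 20 * exp (2 * CC m n) * (ε / X * X) * (1 / Lam m n) ^ Phi m n τ := by ring
      _ = _ := by rw [e4]
  have hteb : ∀ i, te' i ≤ te0 i + ft m n := by
    intro i
    have e1 := (hte' i).2
    have e2 : (if τ + 1 ≤ LL m n + (i : ℕ) then te0 i else 0) ≤ te0 i := by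
      split_ifs
      · exact le_refl _
      · exact hP.tep i
    have e3 : (10 + 5 * ((τ : ℝ) + 1)) / HH m n ≤ (10 + 5 * (TT m n : ℝ)) / HH m n := by
      apply div_le_div_of_nonneg_right _ hH.le
      have : ((τ : ℝ) + 1) ≤ (TT m n : ℝ) := by exact_mod_cast hτ
      linarith
    linarith
  -- the new error of `G.v l` for `l = τ`
  have hnew : ∀ l : Fin (m + 1), (l : ℕ) = τ →
      G.v l = F'.f (ro n τ) ∧ be m n l = Bx m n (τ + 1) (ro n τ) := by
    intro l hl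
    have hc : co m n τ = l := by
      apply Fin.ext
      rw [PHC_co m n τ (by have := l.2; omega), hl]
    refine ⟨?_, ?_⟩
    · rw [hfi, hc]
      exact (hPh.keep l (by omega)).symm
    · unfold be
      rw [hl]
  have hhe : ∀ p, |ev Θ' (F'.f (ro n τ)) p - a * pQ n (ro n τ) p| ≤ te' (ro n τ) * a := by
    intro p
    have := hsta.he (ro n τ) p
    rwa [Function.update_self] at this
  obtain ⟨⟨pa1, pa2, pa3, pa4, pa5, pa6, pa7, pa8⟩, -⟩ := h1 m
  obtain ⟨-, ⟨qa1, qa2, qa3, qa4, qa5, qa6, qa7, qa8⟩⟩ := h1 n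
  refine ⟨hsta, ?_, ?_, ?_, hpot', ?_, ?_, ?_, ?_, ?_, ?_, ?_, ?_⟩
  · -- sS
    intro l
    by_cases hl : l = co m n τ
    · rw [hl, Function.update_self]
      exact hdj
    · rw [Function.update_of_ne hl, PHC_Axn m n τ l hl, PHC_Kxn m n τ η l hl, hdl l hl]
      exact hPh.sS l
  · -- ss
    intro k
    by_cases hk : k = ro n τ
    · rw [hk, Function.update_self]
      exact hssi
    · rw [Function.update_of_ne hk, PHC_Bxn m n τ k hk, PHC_Ken m n τ η k hk]
      exact (hPh.ss k).trans (by linarith)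
  · -- sW
    intro k
    by_cases hk : k = ro n τ
    · rw [hk, Function.update_self, PHC_Wxi]
      linarith
    · rw [Function.update_of_ne hk, PHC_Wxn m n τ k hk]
      exact hPh.sW k
  · exact hd'
  · -- btx
    intro l
    refine ⟨(htx' l).1, ?_⟩
    rw [Nat.cast_add, Nat.cast_one]
    exact (htx' l).2
  · -- bte
    intro i
    refine ⟨(hte' i).1, ?_⟩
    rw [Nat.cast_add, Nat.cast_one]
    exact (hte' i).2
  · -- keep
    intro l hl
    have hl2 := l.2
    have hc : l ≠ co m n τ := by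
      intro h
      have h4 := PHC_co m n τ (by omega)
      rw [← h] at h4
      omega
    rw [hvl l hc]
    exact hPh.keep l (by omega)
  · -- vis
    intro k hk
    by_cases hki : k = ro n τ
    · have hLm := PHC_LL m n
      have hco := (co m n τ).2
      have e1 : F'.U k 0 = F.X (co m n τ) 0 := by
        rw [hki]
        show (((F'.f (ro n τ)).1 0 : ℤ) : ℝ) = (((F.v (co m n τ)).1 0 : ℤ) : ℝ)
        rw [hfi]
      have e2 := (abs_le.1 (hPh.sta.hx (co m n τ) 0)).1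
      have e3 := pa5 (co m n τ)
      have e4 := (hPh.btx (co m n τ)).2
      rw [if_neg (by omega)] at e4
      have e5 : (2 + 2 * DD m n * (τ : ℝ)) / HH m n ≤ (2 + 2 * DD m n * TT m n) / HH m n := by
        apply div_le_div_of_nonneg_right _ hH.le
        have h5 : (τ : ℝ) ≤ (TT m n : ℝ) := by exact_mod_cast hτ.le
        have h6 := mul_le_mul_of_nonneg_left h5 hD.le
        linarith
      have e6 : tx (co m n τ) ≤ 1 / (20 * 3 ^ m) := by linarith
      have h3m : (0 : ℝ) < 3 ^ m := by positivity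
      have e7 : (1 : ℝ) / (10 * 3 ^ m) = 2 * (1 / (20 * 3 ^ m)) := by
        field_simp
        norm_num
      rw [e7] at e3
      have e8 := mul_le_mul_of_nonneg_left e3 hSj.le
      have e9 := mul_le_mul_of_nonneg_right e6 hSj.le
      have e10 : 1 / (20 * 3 ^ m) * S (co m n τ) ≤ F.X (co m n τ) 0 := by linarith
      rw [e1, hki, PHC_Wxi]
      exact (mul_le_mul_of_nonneg_left bS1 (by positivity)).trans e10
    · have hne : LL m n + (k : ℕ) ≠ τ := fun h => hki (PHC_ro m n k τ h)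
      have e1 : F'.U k 0 = F.U k 0 := by
        show (((F'.f k).1 0 : ℤ) : ℝ) = (((F.f k).1 0 : ℤ) : ℝ)
        rw [hfk k hki]
      rw [e1, PHC_Wxn m n τ k hki]
      exact hPh.vis k (by omega)
  · -- mov
    intro w R hw p
    have hR : 0 ≤ R := (abs_nonneg _).trans (hw 0)
    have g1 := hmv w R hw p
    have g2 := hPh.mov w R hw p
    have g3 := mul_le_mul_of_nonneg_right hmu hR
    have g4 := abs_sub_le (ev Θ' w p) (ev Θ w p) (ev Θ₀ w p)
    rw [Finset.sum_range_succ, mul_add]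
    linarith
  · -- mob
    intro l hl p
    rcases Nat.lt_or_ge (l : ℕ) τ with h | h
    · have g1 := hmv (G.v l) (4 * X) (fun q => hP.GX l q) p
      have g2 := hPh.mob l h p
      have g3 : |ev Θ' (G.v l) p| ≤ |ev Θ' (G.v l) p - ev Θ (G.v l) p| + |ev Θ (G.v l) p| := by
        have := abs_add_le (ev Θ' (G.v l) p - ev Θ (G.v l) p) (ev Θ (G.v l) p)
        rwa [sub_add_cancel] at this
      rw [Finset.sum_Ico_succ_top (by omega)]
      linarith
    · have hlt : (l : ℕ) = τ := by omega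
      obtain ⟨g1, g2⟩ := hnew l hlt
      rw [g1, g2, hlt, Finset.Ico_self, Finset.sum_empty, mul_zero, add_zero]
      have g3 := abs_le.1 (hhe p)
      have g4 := hteb (ro n τ)
      have g5 := PHC_te m n G X ε tx0 η te0 Z hP (ro n τ)
      have g6 : te' (ro n τ) * a ≤ 13 / 25 * a :=
        mul_le_mul_of_nonneg_right (by linarith) ha.le
      have g7 := mul_le_mul_of_nonneg_left (qa1 (ro n τ) p).2 ha.le
      have g8 := mul_nonneg ha.le (qa1 (ro n τ) p).1
      have g9 : |ev Θ' (F'.f (ro n τ)) p| ≤ 2 * a := by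
        rw [abs_le]
        constructor <;> linarith [g3.1, g3.2]
      linarith
  · -- mol
    intro hte0 l hl
    rcases Nat.lt_or_ge (l : ℕ) τ with h | h
    · have g1 := abs_le.1 (hmv (G.v l) (4 * X) (fun q => hP.GX l q) (Fin.last n))
      have g2 := hPh.mol hte0 l h
      rw [Finset.sum_Ico_succ_top (by omega)]
      linarith [g1.1, g1.2]
    · have hlt : (l : ℕ) = τ := by omega
      obtain ⟨g1, g2⟩ := hnew l hlt
      rw [g1, g2, hlt, Finset.Ico_self, Finset.sum_empty, mul_zero, sub_zero]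
      have g3 := abs_le.1 (hhe (Fin.last n))
      have g4 := hteb (ro n τ)
      have g5 := hte0 (ro n τ)
      have g6 : te' (ro n τ) * a ≤ 1 / (20 * 3 ^ n) * a :=
        mul_le_mul_of_nonneg_right (by linarith) ha.le
      have g7 := mul_le_mul_of_nonneg_left (qa5 (ro n τ)) ha.le
      have e7 : (1 : ℝ) / (10 * 3 ^ n) = 2 * (1 / (20 * 3 ^ n)) := by
        have h3n : (0 : ℝ) < 3 ^ n := by positivity
        field_simp
        norm_num
      rw [e7] at g7
      have g8 : 1 / (20 * 3 ^ n) * a ≤ ev Θ' (F'.f (ro n τ)) (Fin.last n) := by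
        linarith [g3.1, g3.2]
      have g9 := mul_le_mul_of_nonneg_left bA1
        (show (0 : ℝ) ≤ 1 / (20 * 3 ^ n) by positivity)
      linarith

end Pool.LG
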