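import Pool.Agent.Work.MP_7453a1_lg.Interface

set_option autoImplicit false

/-! Block PHE: a step of the second kind. -/

namespace Pool.LG

open Finset Real

/-- the sum of the tolerances of the other rows -/
theorem PHE_sum {n : ℕ} (i : Fin (n + 1)) (g t : Fin (n + 1) → ℝ) (hg : ∀ k, 0 ≤ g k)
    (hgt : ∀ k, g k ≤ t k) (h0 : i ≠ 0 → g 0 = 0) :
    ∑ k ∈ univ.erase i, g k ≤ ∑ k ∈ univ.erase 0, t k := by
  by_cases hi : i = 0
  · subst hi
    exact Finset.sum_le_sum fun k _ => hgt k
  · have h1 : ∑ k ∈ univ.erase i, g k ≤ ∑ k, g k :=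
      Finset.sum_le_sum_of_subset_of_nonneg (Finset.erase_subset _ _) fun k _ _ => hg k
    have h2 : ∑ k, g k = g 0 + ∑ k ∈ univ.erase 0, g k :=
      (Finset.add_sum_erase _ _ (Finset.mem_univ (0 : Fin (n + 1)))).symm
    have h3 : ∑ k ∈ univ.erase (0 : Fin (n + 1)), g k ≤ ∑ k ∈ univ.erase 0, t k :=
      Finset.sum_le_sum fun k _ => hgt k
    rw [h2, h0 hi] at h1
    linarith

theorem PHE_mod {n L τ : ℕ} (hL : (n + 1) ∣ L) (k : Fin (n + 1)) (h : τ = L + k) :
    ro n τ = k := by
  apply Fin.ext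
  show τ % (n + 1) = k
  obtain ⟨c, rfl⟩ := hL
  rw [h, Nat.mul_add_mod, Nat.mod_eq_of_lt k.2]

theorem p_PHE (hCST : Stmt_CST) (hSTE : Stmt_STE) (hSCH : Stmt_SCH) (hBNS : Stmt_BNS)
    (hPHC : Stmt_PHC) : Stmt_PHE := by
  intro m n G Θ₀ X ε tx0 η te0 Z τ F Θ S dx tx s W te z hPar hτ hnx hPh
  obtain ⟨hD2, hDH, -, hft1, hft2, hft3, hth, hft, hft4, hft5, -, -, -, hLam, hH, hC, hL1000⟩ := hCST m n
  obtain ⟨-, hsch2, hsch3, hsch4, -, -, hsch7, -⟩ := hSCH m n
  have hHpos : 0 < HH m n := by linarith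
  have hLpos : 0 < Lam m n := by linarith
  have hτT : τ ≤ TT m n := hτ.le
  -- `m < L ≤ τ`
  have hLτ : LL m n ≤ τ := by
    unfold xt at hnx
    exact (not_lt.1 hnx).trans (Nat.mod_le _ _)
  have hmL : m < LL m n := by
    unfold LL
    calc m < m + 1 := Nat.lt_succ_self m
      _ = (m + 1) * 1 := (mul_one _).symm
      _ ≤ (m + 1) * (n + 1) := Nat.mul_le_mul_left _ (Nat.succ_le_succ (Nat.zero_le n))
  have hlt : ∀ l : Fin (m + 1), (l : ℕ) < τ := fun l => by
    have := l.2
    omega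
  have hdvd : (n + 1) ∣ LL m n := ⟨m + 1, by unfold LL; ring⟩
  have hτR : (τ : ℝ) ≤ (TT m n : ℝ) := by exact_mod_cast hτT
  have hτ0 : (0 : ℝ) ≤ (τ : ℝ) := Nat.cast_nonneg _
  have hDft : DD m n * ft m n ≤ 1 / 1000 := by
    have h1 : DD m n * th m n ≤ 1 / 1000 := by
      rw [hft5]
      apply one_div_le_one_div_of_le (by norm_num)
      have : (1 : ℝ) ≤ 3 ^ (m + n + 2) := one_le_pow₀ (by norm_num)
      linarith
    have h2 : ft m n ≤ th m n := by nlinarith
    have h3 : DD m n * ft m n ≤ DD m n * th m n := mul_le_mul_of_nonneg_left h2 (by linarith)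
    linarith
  have hft' : ft m n ≤ 1 / 1000 := by nlinarith
  have hdx0 : ∀ l, dx l = 0 := fun l => (hPh.bdx l).2.2 (hlt l)
  have htx0 : ∀ l, 0 ≤ tx l := fun l => (hPh.btx l).1
  have htx1 : ∀ l, tx l ≤ (2 + 2 * DD m n * τ) / HH m n := fun l => by
    have h1 := (hPh.btx l).2
    rw [if_neg (by have := hlt l; omega), zero_add] at h1
    exact h1
  have htx2 : ∀ l, tx l ≤ ft m n := fun l => by
    refine (htx1 l).trans (le_trans ?_ hft1)
    apply div_le_div_of_nonneg_right _ hHpos.le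
    nlinarith
  have hte0 : ∀ k, 0 ≤ te k := fun k => (hPh.bte k).1
  have hτft : (10 + 5 * (τ : ℝ)) / HH m n ≤ ft m n := by
    refine le_trans ?_ hft2
    apply div_le_div_of_nonneg_right _ hHpos.le
    linarith
  have hte1 : ∀ k, te k ≤ (if τ ≤ LL m n + (k : ℕ) then te0 k else 0) + ft m n := fun k => by
    have h1 := (hPh.bte k).2
    linarith
  have hcard : (∑ _l : Fin (m + 1), ft m n) ≤ DD m n * ft m n := by
    rw [Finset.sum_const, Finset.card_univ, Fintype.card_fin, nsmul_eq_mul]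
    apply mul_le_mul_of_nonneg_right _ hft.le
    unfold DD
    push_cast
    linarith [Nat.cast_nonneg (α := ℝ) n]
  have hsumtx : ∑ l, tx l ≤ 9 / 100 := by
    have h1 : ∑ l, tx l ≤ ∑ _l : Fin (m + 1), ft m n := Finset.sum_le_sum fun l _ => htx2 l
    linarith
  have hte0half : ∀ k, te0 k ≤ 1 / 2 := by
    intro k
    by_cases hk : k = 0
    · rw [hk]; exact hPar.tez
    · have h1 : te0 k ≤ ∑ k ∈ univ.erase 0, te0 k :=
        Finset.single_le_sum (f := te0) (fun l _ => hPar.tep l)
          (Finset.mem_erase.2 ⟨hk, Finset.mem_univ k⟩)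
      linarith [hPar.ste]
  have hifle : ∀ k : Fin (n + 1), (if τ ≤ LL m n + (k : ℕ) then te0 k else 0) ≤ te0 k := by
    intro k
    split_ifs
    · exact le_rfl
    · exact hPar.tep k
  have hif0 : ∀ k : Fin (n + 1), 0 ≤ (if τ ≤ LL m n + (k : ℕ) then te0 k else 0) := by
    intro k
    split_ifs
    · exact hPar.tep k
    · exact le_rfl
  set i : Fin (n + 1) := ro n τ with hi
  set j : Fin (m + 1) := co m n τ with hj
  have htei : te i ≤ 13 / 25 := by
    have h1 := hte1 i
    have h2 := hifle i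
    have h3 := hte0half i
    linarith
  have hsumte : ∑ k ∈ univ.erase i, te k ≤ 1 / 10 := by
    have h1 : ∑ k ∈ univ.erase i, te k ≤
        ∑ k ∈ univ.erase i, ((if τ ≤ LL m n + (k : ℕ) then te0 k else 0) + ft m n) :=
      Finset.sum_le_sum fun k _ => hte1 k
    rw [Finset.sum_add_distrib, Finset.sum_const, Finset.card_erase_of_mem (Finset.mem_univ i),
      Finset.card_univ, Fintype.card_fin, nsmul_eq_mul] at h1
    have h2 := PHE_sum i (fun k => if τ ≤ LL m n + (k : ℕ) then te0 k else 0) te0 hif0 hifle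
      (fun hne => by
        have h3 : ¬ τ ≤ LL m n + ((0 : Fin (n + 1)) : ℕ) := by
          intro h4
          have h5 : τ = LL m n + ((0 : Fin (n + 1)) : ℕ) := by
            simp only [Fin.val_zero, add_zero] at h4 ⊢
            omega
          exact hne (PHE_mod hdvd 0 h5)
        exact if_neg h3)
    have h3 : ((n + 1 - 1 : ℕ) : ℝ) * ft m n ≤ DD m n * ft m n := by
      apply mul_le_mul_of_nonneg_right _ hft.le
      rw [Nat.add_sub_cancel]
      unfold DD
      linarith [Nat.cast_nonneg (α := ℝ) m]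
    have h4 := hPar.ste
    have h5 : ∑ k ∈ univ.erase i, (fun k : Fin (n + 1) => if τ ≤ LL m n + (k : ℕ) then te0 k else 0) k =
      ∑ k ∈ univ.erase i, (if τ ≤ LL m n + (k : ℕ) then te0 k else 0) := rfl
    rw [h5] at h2
    linarith
  -- the size of `z`
  have hsumdx0 : 0 ≤ ∑ l, dx l := Finset.sum_nonneg fun l _ => (hPh.bdx l).1
  have hsumtx0 : 0 ≤ ∑ l, tx l := Finset.sum_nonneg fun l _ => htx0 l
  have hsumte0 : 0 ≤ ∑ k, te k := Finset.sum_nonneg fun k _ => hte0 k
  have hz3 : z ≤ 3 := by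
    have h1 := hPh.pot
    have h2 : 60 * DD m n / HH m n * τ ≤ 60 * DD m n / HH m n * TT m n := by
      apply mul_le_mul_of_nonneg_left hτR
      positivity
    have h3 := hPar.Zle
    linarith
  -- bounds for the sizes
  obtain ⟨hB1, hB2⟩ := hBNS m n η τ hPar.eta hτT
  have hXp := hPar.Xp
  have hεp := hPar.ep
  have hSp := hPh.sta.Sp
  have hsp := hPh.sta.sp
  have hSj : X * exp (-CC m n) * Lam m n ^ Ax m n τ j ≤ S j :=
    (hB1 X (S j) j hXp (hSp j) ((hPh.sS j).trans (hPh.bdx j).2.1)).1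
  have hslo : ∀ k, ε * exp (-CC m n) * (1 / Lam m n) ^ Bx m n τ k ≤ s k := fun k =>
    (hB2 ε (s k) z k hεp (hsp k) hz3 (hPh.ss k)).1
  have hsup : ∀ k, s k ≤ ε * exp (CC m n) * (1 / Lam m n) ^ Bx m n τ k := fun k =>
    (hB2 ε (s k) z k hεp (hsp k) hz3 (hPh.ss k)).2
  have hWup := hPh.sW
  set C := CC m n with hCdef
  set Λ := Lam m n with hΛ
  set H := HH m n with hHdef
  have hCpos : 0 < C := by linarith
  have hΛ1 : 1 ≤ Λ := by linarith
  -- `R`
  set R : ℝ := Λ ^ rho m n τ with hR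
  have hRΛ : Λ ≤ R := by
    have h1 : Λ ^ 1 ≤ Λ ^ rho m n τ := pow_le_pow_right₀ hΛ1 (hsch7 τ)
    rwa [pow_one] at h1
  have hexp1 : (1 : ℝ) ≤ exp (4 * C) := one_le_exp (by linarith)
  have hHΛ : H ≤ Λ := by
    rw [← hLam]
    nlinarith
  have hHR : H ≤ R := hHΛ.trans hRΛ
  have hRpos : 0 < R := lt_of_lt_of_le hLpos hRΛ
  have hAx : Ax m n (τ + 1) j = Ax m n τ j + rho m n τ := by
    show Function.update (Ax m n τ) (co m n τ) (Ax m n τ (co m n τ) + rho m n τ) j = _
    rw [← hj, Function.update_self]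
  have hRS : X * exp (-C) * Λ ^ Ax m n (τ + 1) j ≤ R * S j := by
    rw [hAx, pow_add]
    calc X * exp (-C) * (Λ ^ Ax m n τ j * Λ ^ rho m n τ)
        = R * (X * exp (-C) * Λ ^ Ax m n τ j) := by rw [hR]; ring
      _ ≤ R * S j := mul_le_mul_of_nonneg_left hSj hRpos.le
  have hRSpos : 0 < R * S j := mul_pos hRpos (hSp j)
  -- exponentials
  have he4 : exp (4 * C) = exp C * exp C * exp C * exp C := by
    rw [← exp_add, ← exp_add, ← exp_add]
    congr 1
    ring
  have heC : (1 : ℝ) ≤ exp C := one_le_exp hCpos.le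
  have heneg : exp (-C) * exp C = 1 := by rw [← exp_add, neg_add_cancel, exp_zero]
  have hE2 : exp C * exp C ≤ exp (4 * C) := by
    rw [he4]
    nlinarith [mul_le_mul heC heC zero_le_one (by linarith : (0 : ℝ) ≤ exp C),
      mul_pos (exp_pos C) (exp_pos C)]
  have hH2 : H * (exp C * exp C) ≤ Λ := by
    rw [← hLam]
    have := mul_le_mul_of_nonneg_left hE2 hHpos.le
    have h2 : 0 ≤ H * exp (4 * C) := by positivity
    nlinarith
  have hH4 : H * (3 / 2 * exp (4 * C)) ≤ Λ := by
    rw [← hLam]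
    have h2 : 0 ≤ H * exp (4 * C) := by positivity
    nlinarith
  have hH22 : H * (3 / 2 * (exp C * exp C)) ≤ Λ := by
    refine le_trans ?_ hH4
    apply mul_le_mul_of_nonneg_left _ hHpos.le
    linarith
  -- the conditions of STE
  have hc1 : ∀ k, k ≠ i → H * s k ≤ s i := by
    intro k hk
    have hB := hsch2 τ k hnx hk
    have h1 : (1 / Λ) ^ Bx m n τ k ≤ (1 / Λ) ^ (Bx m n τ i + 1) :=
      pow_le_pow_of_le_one (by positivity) (by rw [div_le_one hLpos]; exact hΛ1) hB
    have hq : 0 < (1 / Λ) ^ Bx m n τ i := by positivity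
    calc H * s k ≤ H * (ε * exp C * (1 / Λ) ^ (Bx m n τ i + 1)) := by
          apply mul_le_mul_of_nonneg_left _ hHpos.le
          exact (hsup k).trans (mul_le_mul_of_nonneg_left h1 (by positivity))
      _ = (ε * exp (-C) * (1 / Λ) ^ Bx m n τ i) * ((H * (exp C * exp C)) * (1 / Λ)) := by
          rw [pow_succ]
          have : exp C = exp (-C) * (exp C * exp C) := by
            rw [← mul_assoc, heneg, one_mul]
          calc H * (ε * exp C * ((1 / Λ) ^ Bx m n τ i * (1 / Λ)))
              = H * (ε * (exp (-C) * (exp C * exp C)) * ((1 / Λ) ^ Bx m n τ i * (1 / Λ))) := by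
                rw [← this]
            _ = _ := by ring
      _ ≤ (ε * exp (-C) * (1 / Λ) ^ Bx m n τ i) * 1 := by
          apply mul_le_mul_of_nonneg_left _ (by positivity)
          rw [mul_one_div, div_le_one hLpos]
          exact hH2
      _ ≤ s i := by rw [mul_one]; exact hslo i
  have hc3 : H * W i ≤ R * S j := by
    have hW := hsch4 τ
    rw [← hi, ← hj] at hW
    refine le_trans ?_ hRS
    have h1 : Λ ^ (Wx m n τ i + 1) ≤ Λ ^ Ax m n (τ + 1) j := pow_le_pow_right₀ hΛ1 hW
    calc H * W i ≤ H * (3 / 2 * (X * exp C * Λ ^ Wx m n τ i)) :=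
          mul_le_mul_of_nonneg_left (hWup i) hHpos.le
      _ = (X * exp (-C) * Λ ^ Wx m n τ i) * (H * (3 / 2 * (exp C * exp C))) := by
          have : exp C = exp (-C) * (exp C * exp C) := by
            rw [← mul_assoc, heneg, one_mul]
          calc H * (3 / 2 * (X * exp C * Λ ^ Wx m n τ i))
              = H * (3 / 2 * (X * (exp (-C) * (exp C * exp C)) * Λ ^ Wx m n τ i)) := by
                rw [← this]
            _ = _ := by ring
      _ ≤ (X * exp (-C) * Λ ^ Wx m n τ i) * Λ :=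
          mul_le_mul_of_nonneg_left hH22 (by positivity)
      _ = X * exp (-C) * Λ ^ (Wx m n τ i + 1) := by rw [pow_succ]; ring
      _ ≤ _ := mul_le_mul_of_nonneg_left h1 (by positivity)
  have hc2 : ∀ k, k ≠ i → H * (W k * s i) ≤ R * S j * s k := by
    intro k _
    have hP := hsch3 τ k
    have hPhi : Phi m n τ = Ax m n (τ + 1) j + Bx m n τ i := rfl
    rw [hPhi] at hP
    have h1 : Λ ^ (Wx m n τ k + Bx m n τ k + 1) ≤ Λ ^ (Ax m n (τ + 1) j + Bx m n τ i) :=
      pow_le_pow_right₀ hΛ1 hP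
    have hBk : 0 < Λ ^ Bx m n τ k := by positivity
    have hBi : 0 < Λ ^ Bx m n τ i := by positivity
    have hinvk : (1 / Λ) ^ Bx m n τ k * Λ ^ Bx m n τ k = 1 := by
      rw [← mul_pow, one_div_mul_cancel hLpos.ne', one_pow]
    have hinvi : (1 / Λ) ^ Bx m n τ i * Λ ^ Bx m n τ i = 1 := by
      rw [← mul_pow, one_div_mul_cancel hLpos.ne', one_pow]
    set pk := (1 / Λ) ^ Bx m n τ k with hpk
    set pi' := (1 / Λ) ^ Bx m n τ i with hpi
    have hpk0 : 0 < pk := by positivity
    have hpi0 : 0 < pi' := by positivity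
    have h2 : H * (3 / 2 * exp (4 * C)) * Λ ^ Wx m n τ k * pi' ≤ Λ ^ Ax m n (τ + 1) j * pk := by
      have h3 : Λ * Λ ^ Wx m n τ k * Λ ^ Bx m n τ k ≤ Λ ^ Ax m n (τ + 1) j * Λ ^ Bx m n τ i := by
        calc Λ * Λ ^ Wx m n τ k * Λ ^ Bx m n τ k = Λ ^ (Wx m n τ k + Bx m n τ k + 1) := by
              rw [pow_succ, pow_add]; ring
          _ ≤ _ := h1
          _ = _ := by rw [pow_add]
      have h4 : Λ * Λ ^ Wx m n τ k * pi' ≤ Λ ^ Ax m n (τ + 1) j * pk := by
        calc Λ * Λ ^ Wx m n τ k * pi'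
            = (Λ * Λ ^ Wx m n τ k * Λ ^ Bx m n τ k) * (pk * pi') := by
              have : pk * Λ ^ Bx m n τ k = 1 := hinvk
              calc Λ * Λ ^ Wx m n τ k * pi' = Λ * Λ ^ Wx m n τ k * pi' * 1 := by ring
                _ = Λ * Λ ^ Wx m n τ k * pi' * (pk * Λ ^ Bx m n τ k) := by rw [this]
                _ = _ := by ring
          _ ≤ (Λ ^ Ax m n (τ + 1) j * Λ ^ Bx m n τ i) * (pk * pi') :=
              mul_le_mul_of_nonneg_right h3 (by positivity)
          _ = Λ ^ Ax m n (τ + 1) j * pk := by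
              have : pi' * Λ ^ Bx m n τ i = 1 := hinvi
              calc Λ ^ Ax m n (τ + 1) j * Λ ^ Bx m n τ i * (pk * pi')
                  = Λ ^ Ax m n (τ + 1) j * pk * (pi' * Λ ^ Bx m n τ i) := by ring
                _ = _ := by rw [this, mul_one]
      refine le_trans ?_ h4
      apply mul_le_mul_of_nonneg_right _ hpi0.le
      exact mul_le_mul_of_nonneg_right hH4 (by positivity)
    have hWk0 : (0 : ℝ) ≤ 3 / 2 * (X * exp C * Λ ^ Wx m n τ k) := by positivity
    calc H * (W k * s i) ≤ H * ((3 / 2 * (X * exp C * Λ ^ Wx m n τ k)) * (ε * exp C * pi')) := by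
          apply mul_le_mul_of_nonneg_left _ hHpos.le
          exact mul_le_mul (hWup k) (hsup i) (hsp i).le hWk0
      _ = (X * exp (-C) * ε * exp (-C)) * (H * (3 / 2 * exp (4 * C)) * Λ ^ Wx m n τ k * pi') := by
          have h5 : exp C * exp C = exp (-C) * exp (-C) * exp (4 * C) := by
            rw [he4]
            calc exp C * exp C = (exp (-C) * exp C) * (exp (-C) * exp C) * (exp C * exp C) := by
                  rw [heneg]; ring
              _ = _ := by ring
          calc H * ((3 / 2 * (X * exp C * Λ ^ Wx m n τ k)) * (ε * exp C * pi'))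
              = H * (3 / 2) * X * Λ ^ Wx m n τ k * ε * pi' * (exp C * exp C) := by ring
            _ = H * (3 / 2) * X * Λ ^ Wx m n τ k * ε * pi' *
                (exp (-C) * exp (-C) * exp (4 * C)) := by rw [h5]
            _ = _ := by ring
      _ ≤ (X * exp (-C) * ε * exp (-C)) * (Λ ^ Ax m n (τ + 1) j * pk) :=
          mul_le_mul_of_nonneg_left h2 (by positivity)
      _ = (X * exp (-C) * Λ ^ Ax m n (τ + 1) j) * (ε * exp (-C) * pk) := by ring
      _ ≤ R * S j * s k := mul_le_mul hRS (hslo k) (by positivity) hRSpos.le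
  -- the step
  obtain ⟨F', Θ', a, hSta, hf1, hf2, hv, hlog, hmov⟩ := hSTE m n H hDH F Θ S tx s W te hPh.sta hsumtx
    i j R htei hsumte hHR hc1 hc2 hc3
  refine ⟨F', Θ', Function.update S j (R * S j), dx, Function.update tx j (tx j + 2 * DD m n / H),
    Function.update s i a, Function.update W i (3 / 2 * S j),
    (fun k => if k = i then 10 / H else te k + 5 / H), z + (4 * te i + 10 * DD m n / H) + 0, ?_⟩
  have hKx : Kx m n η (τ + 1) = Kx m n η τ := by
    show (if xt m n τ then _ else Kx m n η τ) = _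
    rw [if_neg hnx]
  refine hPHC m n G Θ₀ X ε tx0 η te0 Z τ F Θ S dx tx s W te z hPar hτ hPh F' Θ' (R * S j) a
    (4 * te i + 10 * DD m n / H) 0 dx (Function.update tx j (tx j + 2 * DD m n / H))
    (fun k => if k = i then 10 / H else te k + 5 / H) hSta hf1 hf2 hv ?_ hlog ?_ ?_ (fun _ _ => rfl)
    ?_ ?_ ?_ ?_
  · intro w Rw hw p
    exact hmov w Rw hw p
  · rw [← hj, hKx, sub_self, sub_zero, mul_div_assoc, div_self (hSp j).ne', mul_one, hR, log_pow,
      sub_self, abs_zero]
  · rw [← hj, hKx, hAx, pow_add]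
    have h1 : R * S j / (X * (Λ ^ Ax m n τ j * Λ ^ rho m n τ)) = S j / (X * Λ ^ Ax m n τ j) := by
      rw [← hR]
      field_simp
    rw [h1]
    exact hPh.sS j
  · intro l
    rw [hdx0 l]
    exact ⟨le_rfl, by norm_num, fun _ => rfl⟩
  · -- the potential
    have h1 : ∑ l, Function.update tx j (tx j + 2 * DD m n / H) l = ∑ l, tx l + 2 * DD m n / H := by
      rw [← Finset.add_sum_erase _ _ (Finset.mem_univ j), Function.update_self,
        ← Finset.add_sum_erase univ tx (Finset.mem_univ j)]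
      have h2 : ∑ l ∈ univ.erase j, Function.update tx j (tx j + 2 * DD m n / H) l =
          ∑ l ∈ univ.erase j, tx l :=
        Finset.sum_congr rfl fun l hl => Function.update_of_ne (Finset.ne_of_mem_erase hl) _ _
      rw [h2]
      ring
    have h3 : ∑ k, (fun k => if k = i then 10 / H else te k + 5 / H) k =
        10 / H + (∑ k, te k - te i) + n * (5 / H) := by
      rw [← Finset.add_sum_erase univ _ (Finset.mem_univ i)]
      have h4 : ∑ k ∈ univ.erase i, (fun k => if k = i then 10 / H else te k + 5 / H) k =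
          ∑ k ∈ univ.erase i, (te k + 5 / H) :=
        Finset.sum_congr rfl fun k hk => by
          show (if k = i then 10 / H else te k + 5 / H) = _
          rw [if_neg (Finset.ne_of_mem_erase hk)]
      have h5 : (if i = i then 10 / H else te i + 5 / H) = 10 / H := if_pos rfl
      rw [h4, h5, Finset.sum_add_distrib, Finset.sum_const,
        Finset.card_erase_of_mem (Finset.mem_univ i), Finset.card_univ, Fintype.card_fin,
        nsmul_eq_mul, Nat.add_sub_cancel, ← Finset.add_sum_erase univ te (Finset.mem_univ i)]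
      ring
    rw [h1, h3]
    have h6 := hPh.pot
    have h7 : (18 * DD m n + 20 * n + 40) / H ≤ 60 * DD m n / H := by
      apply div_le_div_of_nonneg_right _ hHpos.le
      unfold DD
      have := Nat.cast_nonneg (α := ℝ) n
      have := Nat.cast_nonneg (α := ℝ) m
      linarith
    have h8 : (18 * DD m n + 20 * n + 40) / H = 10 * DD m n / H + 4 * (2 * DD m n / H) +
        4 * (n * (5 / H)) + 4 * (10 / H) := by
      field_simp
      ring
    have h9 : 60 * DD m n / H * ((τ : ℝ) + 1) = 60 * DD m n / H * τ + 60 * DD m n / H := by ring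
    rw [h9]
    linarith
  · intro l
    have hl := hlt l
    rw [if_neg (by omega), zero_add]
    have h1 : (2 + 2 * DD m n * ((τ : ℝ) + 1)) / H = (2 + 2 * DD m n * τ) / H + 2 * DD m n / H := by
      ring
    have h2 : 0 ≤ 2 * DD m n / H := by positivity
    rw [h1]
    by_cases hlj : l = j
    · rw [hlj, Function.update_self]
      exact ⟨add_nonneg (htx0 _) h2, by linarith [htx1 j]⟩
    · rw [Function.update_of_ne hlj]
      exact ⟨htx0 l, by linarith [htx1 l]⟩
  · intro k
    have hif1 : 0 ≤ (if τ + 1 ≤ LL m n + (k : ℕ) then te0 k else 0) := by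
      split_ifs
      · exact hPar.tep k
      · exact le_rfl
    have h5H : 0 < 5 / H := by positivity
    have h10H : 0 < 10 / H := by positivity
    have h1 : (10 + 5 * ((τ : ℝ) + 1)) / H = 10 / H + 5 / H * τ + 5 / H := by ring
    have h2 : (10 + 5 * (τ : ℝ)) / H = 10 / H + 5 / H * τ := by ring
    have h3 : 0 ≤ 5 / H * (τ : ℝ) := by positivity
    show 0 ≤ (if k = i then 10 / H else te k + 5 / H) ∧
      (if k = i then 10 / H else te k + 5 / H) ≤ _
    by_cases hk : k = i
    · rw [if_pos hk]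
      refine ⟨h10H.le, ?_⟩
      rw [h1]
      linarith
    · rw [if_neg hk]
      refine ⟨by linarith [hte0 k], ?_⟩
      have h4 := (hPh.bte k).2
      have h5 : (if τ ≤ LL m n + (k : ℕ) then te0 k else 0) ≤
          (if τ + 1 ≤ LL m n + (k : ℕ) then te0 k else 0) := by
        by_cases h6 : τ + 1 ≤ LL m n + (k : ℕ)
        · rw [if_pos h6, if_pos (by omega)]
        · have h7 : ¬ τ ≤ LL m n + (k : ℕ) := by
            intro h8
            exact hk (PHE_mod hdvd k (by omega)).symm
          rw [if_neg h7, if_neg h6]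
      rw [h1]
      rw [h2] at h4
      linarith

end Pool.LG
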