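import Pool.Agent.Work.MP_7453a1_lg.Interface

set_option autoImplicit false

/-!
# Block PHT: the steps of a stage
-/

namespace Pool.LG

open Finset Real Filter

theorem PHT_pP (m : ℕ) (j p : Fin (m + 1)) : 0 ≤ pP m j p ∧ pP m j p ≤ 7 / 5 := by
  unfold pP
  split_ifs
  · norm_num
  · norm_num
  · constructor
    · positivity
    · have h3 : (1 : ℝ) ≤ 3 ^ (j : ℕ) := one_le_pow₀ (by norm_num)
      rw [div_le_div_iff₀ (by positivity) (by norm_num)]
      linarith
  · norm_num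

theorem PHT_exp : exp (1 / 2 : ℝ) ≤ 2 := by
  have h := exp_one_lt_d9
  have h1 : exp (1 / 2 : ℝ) ^ 2 = exp 1 := by
    rw [← exp_nat_mul]
    norm_num
  nlinarith [exp_pos (1 / 2 : ℝ)]

theorem PHT_par (m n : ℕ) (G : Fr m n) (Θ₀ : Mat m n) (X ε : ℝ) (S dx tx : Fin (m + 1) → ℝ)
    (η te W : Fin (n + 1) → ℝ) (h : Start m n G Θ₀ X ε S dx tx η te W) :
    Par m n G X ε tx η te (∑ j, dx j + 4 * ∑ j, tx j + 4 * ∑ i, te i) where
  Xp := h.Xp
  ep := h.ep
  eta := h.eta
  txp := h.txp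
  stx := h.stx
  tep := h.tep
  tez := h.tez
  ste := h.ste
  Zle := h.Zle
  GX := by
    intro j p
    have hX := h.Xp
    have hS := h.sta.Sp j
    have h1 := h.sta.hx j p
    have h2 := PHT_pP m j p
    have htx : tx j ≤ 1 / 20 :=
      le_trans (Finset.single_le_sum (f := tx) (fun l _ => h.txp l) (mem_univ j)) h.stx
    have h3 : S j ≤ 2 * X := by
      have h4 := (abs_le.1 (h.dS j)).2
      have h5 : log (S j / X) ≤ 1 / 2 := h4.trans (h.dxp j).2
      have h6 : S j / X ≤ exp (1 / 2) := by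
        rw [← Real.exp_log (div_pos hS hX)]
        exact exp_le_exp.2 h5
      have h7 : S j / X ≤ 2 := h6.trans PHT_exp
      rwa [div_le_iff₀ hX] at h7
    have h8 : |G.X j p| ≤ tx j * S j + S j * pP m j p := by
      have h9 : |S j * pP m j p| = S j * pP m j p := abs_of_nonneg (mul_nonneg hS.le h2.1)
      calc |G.X j p| = |(G.X j p - S j * pP m j p) + S j * pP m j p| := by ring_nf
        _ ≤ |G.X j p - S j * pP m j p| + |S j * pP m j p| := abs_add_le _ _
        _ ≤ tx j * S j + S j * pP m j p := by rw [h9]; linarith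
    have h10 : tx j * S j ≤ 1 / 20 * S j := mul_le_mul_of_nonneg_right htx hS.le
    have h11 : S j * pP m j p ≤ S j * (7 / 5) := mul_le_mul_of_nonneg_left h2.2 hS.le
    linarith

theorem PHT_zero (m n : ℕ) (hH : 0 < HH m n) (G : Fr m n) (Θ₀ : Mat m n) (X ε : ℝ)
    (S dx tx : Fin (m + 1) → ℝ)
    (η te W : Fin (n + 1) → ℝ) (h : Start m n G Θ₀ X ε S dx tx η te W) :
    Ph m n G Θ₀ X ε tx η te (∑ j, dx j + 4 * ∑ j, tx j + 4 * ∑ i, te i) 0 G Θ₀ S dx tx
      (fun i => ε * exp (η i)) W te 0 where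
  sta := h.sta
  sS := by
    intro j
    have h1 := h.dS j
    simpa [Ax, Kx] using h1
  ss := by
    intro i
    have h1 : log (ε * exp (η i) / ε) = η i := by
      rw [mul_div_right_comm, div_self h.ep.ne', one_mul, Real.log_exp]
    simp only [Bx, Ke, h1]
    simp
  sW := by
    intro k
    have h1 := h.W0 k
    simpa [Wx] using h1
  pot := by simp
  bdx := by
    intro j
    exact ⟨(h.dxp j).1, (h.dxp j).2, fun h0 => absurd h0 (Nat.not_lt_zero _)⟩
  btx := by
    intro j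
    refine ⟨h.txp j, ?_⟩
    rw [if_pos (Nat.zero_le _)]
    have : 0 ≤ (2 + 2 * DD m n * ((0 : ℕ) : ℝ)) / HH m n := by
      apply div_nonneg _ hH.le
      simp
    linarith
  bte := by
    intro i
    refine ⟨h.tep i, ?_⟩
    rw [if_pos (Nat.zero_le _)]
    have : 0 ≤ (10 + 5 * ((0 : ℕ) : ℝ)) / HH m n := by
      apply div_nonneg _ hH.le
      simp
    linarith
  keep := fun _ _ => rfl
  vis := fun k hk => absurd hk (Nat.not_lt_zero _)
  mov := by
    intro w R _ p
    simp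
  mob := fun j hj => absurd hj (Nat.not_lt_zero _)
  mol := fun _ j hj => absurd hj (Nat.not_lt_zero _)

theorem p_PHT (hCST : Stmt_CST) (hPHX : Stmt_PHX) (hPHE : Stmt_PHE) : Stmt_PHT := by
  intro m n G Θ₀ X ε S dx tx η te W h
  have hH : 0 < HH m n := by
    obtain ⟨_, _, _, _, _, _, _, _, _, _, _, _, _, _, h1, _⟩ := hCST m n
    linarith
  have hpar := PHT_par m n G Θ₀ X ε S dx tx η te W h
  have key : ∀ τ : ℕ, τ ≤ TT m n → ∃ (F : Fr m n) (Θ : Mat m n) (S' dx' tx' : Fin (m + 1) → ℝ)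
      (s' W' te' : Fin (n + 1) → ℝ) (z : ℝ),
      Ph m n G Θ₀ X ε tx η te (∑ j, dx j + 4 * ∑ j, tx j + 4 * ∑ i, te i) τ F Θ S' dx' tx'
        s' W' te' z := by
    intro τ
    induction τ with
    | zero =>
      intro _
      exact ⟨G, Θ₀, S, dx, tx, _, W, te, 0, PHT_zero m n hH G Θ₀ X ε S dx tx η te W h⟩
    | succ τ ih =>
      intro hτ
      obtain ⟨F, Θ, S', dx', tx', s', W', te', z, hPh⟩ := ih (by omega)
      by_cases hx : xt m n τ
      · exact hPHX m n G Θ₀ X ε tx η te _ τ F Θ S' dx' tx' s' W' te' z hpar (by omega) hx hPh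
      · exact hPHE m n G Θ₀ X ε tx η te _ τ F Θ S' dx' tx' s' W' te' z hpar (by omega) hx hPh
  exact key (TT m n) le_rfl

end Pool.LG
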