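import Pool.Agent.Work.MP_7453a1_lg.Interface

set_option autoImplicit false

namespace Pool.LG

open Finset Real Filter

theorem PHX_pow {l : ℝ} (hl : 1 ≤ l) {a b : ℕ} (h : a < b) : l * l ^ a ≤ l ^ b := by
  rw [← pow_succ']
  exact pow_le_pow_right₀ hl h

/-- one power of `Λ` beats `H` and the exponentials -/
theorem PHX_a {H e l X c : ℝ} (hH : 0 < H) (he : 1 ≤ e) (hl : 1 ≤ l) (hL : H * (2 * e ^ 4) = l) (hX : 0 < X)
    (hc : c ≤ 3 / 2) {w A : ℕ} (h : w < A) : H * (c * (X * e * l ^ w)) ≤ X * e⁻¹ * l ^ A := by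
  have h1 := PHX_pow hl h
  have hw : 0 < l ^ w := by positivity
  have he0 : 0 < e := by linarith
  have h2 : X * e⁻¹ * (l * l ^ w) ≤ X * e⁻¹ * l ^ A := mul_le_mul_of_nonneg_left h1 (by positivity)
  refine le_trans ?_ h2
  have e1 : X * e⁻¹ * (l * l ^ w) = (2 * H * X * l ^ w) * e ^ 3 := by
    rw [← hL]
    field_simp
  rw [e1]
  have e2 : e ≤ e ^ 3 := le_self_pow₀ he (by norm_num)
  have h3 : H * (c * (X * e * l ^ w)) = c * (H * X * l ^ w) * e := by ring
  rw [h3]
  have h4 : c * (H * X * l ^ w) ≤ 2 * H * X * l ^ w := by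
    have : 0 < H * X * l ^ w := by positivity
    nlinarith
  calc c * (H * X * l ^ w) * e ≤ 2 * H * X * l ^ w * e := mul_le_mul_of_nonneg_right h4 he0.le
    _ ≤ 2 * H * X * l ^ w * e ^ 3 := mul_le_mul_of_nonneg_left e2 (by positivity)

theorem PHX_b {H e l X ε : ℝ} (hH : 0 < H) (he : 1 ≤ e) (hl : 1 ≤ l) (hL : H * (2 * e ^ 4) = l) (hX : 0 < X)
    (hε : 0 < ε) {w b b' A : ℕ} (h : w + b' < A + b) :
    H * (3 / 2 * (X * e * l ^ w) * (ε * e * (1 / l) ^ b)) ≤ X * e⁻¹ * l ^ A * (ε * e⁻¹ * (1 / l) ^ b') := by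
  have h1 := PHX_pow hl h
  have he0 : 0 < e := by linarith
  have hl0 : 0 < l := by linarith
  have hp : 0 < l ^ (w + b') := by positivity
  have h2 : 3 / 2 * H * e ^ 4 * l ^ (w + b') ≤ l ^ (A + b) := by
    refine le_trans ?_ h1
    rw [← hL]
    have : 0 < H * e ^ 4 * (H * (2 * e ^ 4)) ^ (w + b') := by positivity
    nlinarith
  have e1 : H * (3 / 2 * (X * e * l ^ w) * (ε * e * (1 / l) ^ b)) =
      (X * ε / (e ^ 2 * l ^ b * l ^ b')) * (3 / 2 * H * e ^ 4 * l ^ (w + b')) := by
    rw [one_div, inv_pow, pow_add]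
    field_simp
  have e2 : X * e⁻¹ * l ^ A * (ε * e⁻¹ * (1 / l) ^ b') = (X * ε / (e ^ 2 * l ^ b * l ^ b')) * l ^ (A + b) := by
    rw [one_div, inv_pow, pow_add]
    field_simp
  rw [e1, e2]
  exact mul_le_mul_of_nonneg_left h2 (by positivity)

theorem PHX_col {m n τ : ℕ} {j : Fin (m + 1)} (h : (j : ℕ) = τ) : j = co m n τ := by
  have hj := j.2
  apply Fin.ext
  unfold co
  simp only
  have hL : τ < 2 * LL m n := by
    have : m + 1 ≤ LL m n := by
      unfold LL
      exact Nat.le_mul_of_pos_right _ n.succ_pos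
    omega
  rw [Nat.div_eq_of_lt hL, add_zero, Nat.mod_eq_of_lt (by omega)]
  exact h

theorem PHX_row {m n τ : ℕ} (hx : xt m n τ) (i : Fin (n + 1)) : τ ≠ LL m n + (i : ℕ) := by
  intro h
  have hi := i.2
  have hL : n + 1 ≤ LL m n := by
    unfold LL
    exact Nat.le_mul_of_pos_left _ m.succ_pos
  unfold xt at hx
  rw [Nat.mod_eq_of_lt (by omega)] at hx
  omega

theorem PHX_Ax (m n τ : ℕ) : Ax m n (τ + 1) (co m n τ) = Ax m n τ (co m n τ) + rho m n τ := by
  rw [Ax, Function.update_self]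

theorem p_PHX (hCST : Stmt_CST) (hSTX : Stmt_STX) (hSCH : Stmt_SCH) (hBNS : Stmt_BNS) (hPHC : Stmt_PHC) :
    Stmt_PHX := by
  intro m n G Θ₀ X ε tx0 η te0 Z τ F Θ S dx tx s W te z hP hτ hx hF
  obtain ⟨c1, c2, c3, c4, c5, c6, c7, c8, c9, c10, c11, c12, c13, c14, c15, c16, c17⟩ := hCST m n
  obtain ⟨s1, s2, s3, s4, -⟩ := hSCH m n
  set D := DD m n with hD
  set H := HH m n with hH
  set C := CC m n with hC
  set l := Lam m n with hl
  set i := ro n τ with hi
  set j := co m n τ with hj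
  have hH0 : 0 < H := by linarith
  have hl1 : 1 ≤ l := by linarith
  have hl0 : 0 < l := by linarith
  have he1 : 1 ≤ exp C := one_le_exp (by linarith)
  have hL : H * (2 * exp C ^ 4) = l := by
    rw [← c14, ← exp_nat_mul]
    norm_num
  have hτ' : (τ : ℝ) ≤ TT m n := by exact_mod_cast hτ.le
  have hτ0 : (0 : ℝ) ≤ τ := Nat.cast_nonneg τ
  have hD0 : 0 < D := by linarith
  have hft : D * ft m n ≤ 1 / 1000 := by
    have h1 : (1 : ℝ) ≤ 3 ^ m := one_le_pow₀ (by norm_num)
    have h2 : (1 : ℝ) / (18000 * 3 ^ m) ≤ 1 / 18000 := by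
      apply one_div_le_one_div_of_le (by norm_num)
      linarith
    linarith
  have hft1 : ft m n ≤ 1 / 1000 := by nlinarith
  have ha1 : (2 + 2 * D * τ) / H ≤ ft m n := by
    refine le_trans ?_ c4
    apply div_le_div_of_nonneg_right _ hH0.le
    nlinarith
  have ha2 : (10 + 5 * (τ : ℝ)) / H ≤ ft m n := by
    refine le_trans ?_ c5
    apply div_le_div_of_nonneg_right _ hH0.le
    linarith
  have ha3 : 60 * D / H * τ ≤ 6 * ft m n := by
    refine le_trans ?_ c6
    apply mul_le_mul_of_nonneg_left hτ' (by positivity)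
  -- sums
  have hm1 : ((m : ℝ) + 1) ≤ D := by
    rw [hD, DD]
    have : (0 : ℝ) ≤ n := Nat.cast_nonneg n
    linarith
  have htx : ∀ k, tx k ≤ tx0 k + ft m n := by
    intro k
    refine (hF.btx k).2.trans ?_
    have := hP.txp k
    split_ifs <;> linarith
  have hstx : ∑ k, tx k ≤ 9 / 100 := by
    have h1 : ∑ k, tx k ≤ ∑ k : Fin (m + 1), (tx0 k + ft m n) := Finset.sum_le_sum fun k _ => htx k
    rw [Finset.sum_add_distrib, Finset.sum_const, Finset.card_univ, Fintype.card_fin, nsmul_eq_mul] at h1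
    push_cast at h1
    have h2 : ((m : ℝ) + 1) * ft m n ≤ D * ft m n := mul_le_mul_of_nonneg_right hm1 c8.le
    have := hP.stx
    linarith
  have hte0 : ∀ k, te0 k ≤ 1 / 2 := by
    intro k
    by_cases hk : k = 0
    · rw [hk]
      exact hP.tez
    · have h1 : te0 k ≤ ∑ i ∈ univ.erase 0, te0 i :=
        Finset.single_le_sum (f := te0) (fun i _ => hP.tep i) (Finset.mem_erase.2 ⟨hk, Finset.mem_univ k⟩)
      have := hP.ste
      linarith
  have hte : te i ≤ 13 / 25 := by
    refine (hF.bte i).2.trans ?_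
    have h1 := hte0 i
    split_ifs <;> linarith
  -- nonnegative sums
  have n1 : 0 ≤ ∑ k, dx k := Finset.sum_nonneg fun k _ => (hF.bdx k).1
  have n2 : 0 ≤ ∑ k, tx k := Finset.sum_nonneg fun k _ => (hF.btx k).1
  have n3 : 0 ≤ ∑ k, te k := Finset.sum_nonneg fun k _ => (hF.bte k).1
  have hpot := hF.pot
  rw [← hD, ← hH] at hpot
  have hZ := hP.Zle
  have hz : z ≤ 3 := by linarith
  -- new size
  set A := Ax m n (τ + 1) j with hA
  set K := Kx m n η (τ + 1) j with hK
  have hXp := hP.Xp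
  have hεp := hP.ep
  obtain ⟨S', hS'⟩ : ∃ S' : ℝ, S' = X * l ^ A * exp K := ⟨_, rfl⟩
  have hS'p : 0 < S' := by
    rw [hS']
    positivity
  have hlog : log (S' / (X * l ^ A)) = K := by
    rw [hS', mul_div_cancel_left₀ _ (by positivity), log_exp]
  obtain ⟨b1, -⟩ := hBNS m n η (τ + 1) hP.eta hτ
  have hSlow : X * exp (-C) * l ^ A ≤ S' := by
    refine (b1 X S' j hXp hS'p ?_).1
    rw [← hA, ← hK, ← hl, hlog, sub_self, abs_zero]
    norm_num
  rw [exp_neg] at hSlow
  obtain ⟨b2, b3⟩ := hBNS m n η τ hP.eta hτ.le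
  have hSup : ∀ k, S k ≤ X * exp C * l ^ Ax m n τ k := fun k =>
    (b2 X (S k) k hXp (hF.sta.Sp k) ((hF.sS k).trans (hF.bdx k).2.1)).2
  have hsb : ∀ k, ε * (exp C)⁻¹ * (1 / l) ^ Bx m n τ k ≤ s k ∧ s k ≤ ε * exp C * (1 / l) ^ Bx m n τ k := by
    intro k
    have := b3 ε (s k) z k hεp (hF.sta.sp k) hz (hF.ss k)
    rwa [← hC, exp_neg] at this
  have hW0 : ∀ k, 0 ≤ W k := fun k => (abs_nonneg _).trans (hF.sta.hw k 0)
  have hX1 : ∀ k, H * S k ≤ S' := by
    intro k
    refine le_trans ?_ hSlow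
    refine le_trans (mul_le_mul_of_nonneg_left (hSup k) hH0.le) ?_
    have := PHX_a (c := 1) hH0 he1 hl1 hL hXp (by norm_num) (s1 τ k hx)
    rwa [one_mul] at this
  have hX2 : ∀ k, k ≠ i → H * (W k * s i) ≤ S' * s k := by
    intro k _
    have h3 := s3 τ k
    unfold Phi at h3
    have h4 := PHX_b hH0 he1 hl1 hL hXp hεp h3
    refine le_trans ?_ (le_trans h4 ?_)
    · apply mul_le_mul_of_nonneg_left _ hH0.le
      exact mul_le_mul (hF.sW k) (hsb i).2 (hF.sta.sp i).le (by positivity)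
    · exact mul_le_mul hSlow (hsb k).1 (by positivity) hS'p.le
  have hX3 : H * W i ≤ S' := by
    refine le_trans ?_ hSlow
    refine le_trans (mul_le_mul_of_nonneg_left (hF.sW i) hH0.le) ?_
    exact PHX_a hH0 he1 hl1 hL hXp le_rfl (s4 τ)
  obtain ⟨F', Θ', a, t1, t2, t3, t4, t5, t6⟩ :=
    hSTX m n H c2 F Θ S tx s W te hF.sta hstx i j S' hte hX1 hX2 hX3
  have hAA : A = Ax m n τ j + rho m n τ := PHX_Ax m n τ
  have hSj := hF.sta.Sp j
  have hbdj := hF.bdx j
  refine ⟨F', Θ', Function.update S j S', Function.update dx j 0, Function.update tx j (2 / H),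
    Function.update s i a, Function.update W i (3 / 2 * S j), fun k => if k = i then te i else te k + 5 / H,
    z + (4 * tx j + 12 / H) + dx j, ?_⟩
  refine hPHC m n G Θ₀ X ε tx0 η te0 Z τ F Θ S dx tx s W te z hP hτ hF F' Θ' S' a (4 * tx j + 12 / H) (dx j)
    (Function.update dx j 0) (Function.update tx j (2 / H)) (fun k => if k = i then te i else te k + 5 / H)
    t1 t2 t3 t4 t6 t5 ?_ ?_ ?_ ?_ ?_ ?_ ?_
  · rw [← hj, ← hK, ← hl]
    have h1 := hF.sS j
    have e1 : log (S j / (X * l ^ Ax m n τ j)) = log (S j) - (log X + Ax m n τ j * log l) := by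
      rw [log_div hSj.ne' (by positivity), log_mul hXp.ne' (by positivity), log_pow]
    have e2 : log (S' / S j) = log X + (Ax m n τ j + rho m n τ) * log l + K - log (S j) := by
      rw [log_div hS'p.ne' hSj.ne', hS', log_mul (by positivity) (exp_pos _).ne',
        log_mul hXp.ne' (by positivity), log_pow, log_exp, hAA]
      push_cast
      ring
    rw [← hl, e1] at h1
    rw [e2, ← abs_neg]
    refine le_trans (le_of_eq ?_) h1
    congr 1
    ring
  · rw [← hj, ← hA, ← hK, ← hl, hlog, sub_self, abs_zero, Function.update_self]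
  · intro k hk
    rw [Function.update_of_ne hk]
  · intro k
    by_cases hk : k = j
    · rw [hk, Function.update_self]
      exact ⟨le_rfl, by norm_num, fun _ => rfl⟩
    · rw [Function.update_of_ne hk]
      refine ⟨(hF.bdx k).1, (hF.bdx k).2.1, fun h => (hF.bdx k).2.2 ?_⟩
      rcases Nat.lt_succ_iff_lt_or_eq.1 h with h | h
      · exact h
      · exact absurd (PHX_col h) hk
  · have e1 : ∑ k, Function.update dx j 0 k = ∑ k, dx k - dx j := by
      rw [Finset.sum_update_of_mem (Finset.mem_univ j), zero_add, Finset.sdiff_singleton_eq_erase]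
      have := Finset.add_sum_erase Finset.univ dx (Finset.mem_univ j)
      linarith
    have e2 : ∑ k, Function.update tx j (2 / H) k = ∑ k, tx k - tx j + 2 / H := by
      rw [Finset.sum_update_of_mem (Finset.mem_univ j), Finset.sdiff_singleton_eq_erase]
      have := Finset.add_sum_erase Finset.univ tx (Finset.mem_univ j)
      linarith
    have e3 : ∑ k, (if k = i then te i else te k + 5 / H) ≤ ∑ k, te k + ((n : ℝ) + 1) * (5 / H) := by
      have h1 : ∑ k, (if k = i then te i else te k + 5 / H) ≤ ∑ k : Fin (n + 1), (te k + 5 / H) := by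
        apply Finset.sum_le_sum
        intro k _
        have : 0 < 5 / H := by positivity
        split_ifs with hk
        · rw [hk]
          linarith
        · exact le_rfl
      refine h1.trans (le_of_eq ?_)
      rw [Finset.sum_add_distrib, Finset.sum_const, Finset.card_univ, Fintype.card_fin, nsmul_eq_mul]
      push_cast
      ring
    rw [← hD, ← hH, e1, e2]
    have hn : (0 : ℝ) ≤ n := Nat.cast_nonneg n
    have hm : (0 : ℝ) ≤ m := Nat.cast_nonneg m
    have hfin : 12 / H + 4 * (2 / H) + 4 * (((n : ℝ) + 1) * (5 / H)) ≤ 60 * D / H := by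
      rw [hD, DD]
      have : 12 / H + 4 * (2 / H) + 4 * (((n : ℝ) + 1) * (5 / H)) = (20 + 20 * ((n : ℝ) + 1)) / H := by ring
      rw [this]
      apply div_le_div_of_nonneg_right _ hH0.le
      linarith
    have : 60 * D / H * ((τ : ℝ) + 1) = 60 * D / H * τ + 60 * D / H := by ring
    rw [this]
    linarith
  · intro k
    rw [← hD, ← hH]
    by_cases hk : k = j
    · rw [hk, Function.update_self]
      refine ⟨by positivity, ?_⟩
      have h1 : 2 / H ≤ (2 + 2 * D * ((τ : ℝ) + 1)) / H := by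
        apply div_le_div_of_nonneg_right _ hH0.le
        have : 0 ≤ 2 * D * ((τ : ℝ) + 1) := by positivity
        linarith
      have h2 := hP.txp j
      split_ifs <;> linarith
    · rw [Function.update_of_ne hk]
      refine ⟨(hF.btx k).1, ?_⟩
      have h1 := (hF.btx k).2
      rw [← hD, ← hH] at h1
      have h2 : (2 + 2 * D * (τ : ℝ)) / H ≤ (2 + 2 * D * ((τ : ℝ) + 1)) / H := by
        apply div_le_div_of_nonneg_right _ hH0.le
        nlinarith
      by_cases h3 : τ + 1 ≤ (k : ℕ)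
      · rw [if_pos h3]
        rw [if_pos (by omega)] at h1
        linarith
      · rw [if_neg h3]
        have h4 : ¬ τ ≤ (k : ℕ) := by
          intro h5
          exact hk (PHX_col (by omega))
        rw [if_neg h4] at h1
        linarith
  · intro k
    rw [← hH]
    have h1 := hF.bte k
    rw [← hH] at h1
    have h5 : 0 < 5 / H := by positivity
    have h2 : (if k = i then te i else te k + 5 / H) ≤ te k + 5 / H := by
      split_ifs with hk
      · rw [hk]
        linarith
      · exact le_rfl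
    have h3 : 0 ≤ (if k = i then te i else te k + 5 / H) := by
      split_ifs with hk
      · exact (hF.bte i).1
      · linarith [h1.1]
    refine ⟨h3, h2.trans ?_⟩
    have e1 : (10 + 5 * ((τ : ℝ) + 1)) / H = (10 + 5 * (τ : ℝ)) / H + 5 / H := by ring
    rw [e1]
    have h6 := PHX_row hx k
    by_cases h7 : τ + 1 ≤ LL m n + (k : ℕ)
    · rw [if_pos h7]
      rw [if_pos (by omega)] at h1
      linarith [h1.2]
    · rw [if_neg h7]
      rw [if_neg (by omega)] at h1
      linarith [h1.2]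

end Pool.LG
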