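import Pool.Agent.Work.MP_7453a1_lg.Interface

set_option autoImplicit false

/-! Block SCH -/

namespace Pool.LG

open Finset

theorem SCH_Lpos (m n : ℕ) : 0 < LL m n := Nat.mul_pos m.succ_pos n.succ_pos

theorem SCH_Aself (m n τ : ℕ) :
    Ax m n (τ + 1) (co m n τ) = Ax m n τ (co m n τ) + rho m n τ := by
  rw [Ax]; exact Function.update_self ..

theorem SCH_Bself (m n τ : ℕ) :
    Bx m n (τ + 1) (ro n τ) = Bx m n τ (ro n τ) + rho m n τ := by
  rw [Bx]; exact Function.update_self ..

theorem SCH_Bne (m n τ : ℕ) (k : Fin (n + 1)) (h : k ≠ ro n τ) :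
    Bx m n (τ + 1) k = Bx m n τ k := by
  rw [Bx]; exact Function.update_of_ne h ..

theorem SCH_Wself (m n τ : ℕ) : Wx m n (τ + 1) (ro n τ) = Ax m n τ (co m n τ) := by
  rw [Wx]; exact Function.update_self ..

theorem SCH_Wne (m n τ : ℕ) (k : Fin (n + 1)) (h : k ≠ ro n τ) :
    Wx m n (τ + 1) k = Wx m n τ k := by
  rw [Wx]; exact Function.update_of_ne h ..

theorem SCH_rho (m n τ : ℕ) : 1 ≤ rho m n τ := by
  have hL := SCH_Lpos m n
  have := Nat.mod_lt τ (show 0 < 2 * LL m n by omega)
  unfold rho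
  split_ifs <;> omega

theorem SCH_Amono (m n : ℕ) {τ τ' : ℕ} (h : τ ≤ τ') (l : Fin (m + 1)) :
    Ax m n τ l ≤ Ax m n τ' l := by
  induction τ', h using Nat.le_induction with
  | base => exact le_rfl
  | succ τ' _ ih =>
    refine ih.trans ?_
    by_cases hl : l = co m n τ'
    · subst hl; rw [SCH_Aself]; omega
    · rw [Ax, Function.update_of_ne hl]

theorem SCH_Bmono (m n : ℕ) {τ τ' : ℕ} (h : τ ≤ τ') (l : Fin (n + 1)) :
    Bx m n τ l ≤ Bx m n τ' l := by
  induction τ', h using Nat.le_induction with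
  | base => exact le_rfl
  | succ τ' _ ih =>
    refine ih.trans ?_
    by_cases hl : l = ro n τ'
    · subst hl; rw [SCH_Bself]; omega
    · rw [SCH_Bne _ _ _ _ hl]

theorem SCH_Vmono (L p : ℕ) {t t' : ℕ} (h : t ≤ t') (c : ℕ) : V L p t c ≤ V L p t' c := by
  unfold V
  exact Finset.sum_le_sum_of_subset (Finset.range_subset_range.2 h)

theorem SCH_dec (L τ : ℕ) (hL : 0 < L) : ∃ b t, t < 2 * L ∧ τ = 2 * L * b + t :=
  ⟨τ / (2 * L), τ % (2 * L), Nat.mod_lt _ (by omega), (Nat.div_add_mod _ _).symm⟩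

theorem SCH_W (m n τ j : ℕ) (hτ : τ % (n + 1) = 0) (hj : j ≤ n + 1) (k : Fin (n + 1)) :
    Wx m n (τ + j) k =
      if (k : ℕ) < j then Ax m n (τ + k) (co m n (τ + k)) else Wx m n τ k := by
  induction j with
  | zero => simp
  | succ j ih =>
    have ih := ih (by omega)
    have hro : ((ro n (τ + j) : Fin (n + 1)) : ℕ) = j := by
      change (τ + j) % (n + 1) = j
      rw [Nat.add_mod, hτ, zero_add, Nat.mod_mod, Nat.mod_eq_of_lt (by omega)]
    by_cases hk : k = ro n (τ + j)
    · have hk' : (k : ℕ) = j := by rw [hk, hro]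
      rw [if_pos (by omega), ← add_assoc]
      rw [hk, SCH_Wself, hro]
    · have hk' : (k : ℕ) ≠ j := by
        intro h
        exact hk (Fin.ext (h.trans hro.symm))
      rw [← add_assoc, SCH_Wne _ _ _ _ hk, ih]
      by_cases h : (k : ℕ) < j
      · rw [if_pos h, if_pos (by omega)]
      · rw [if_neg h, if_neg (by omega)]

theorem p_SCH (hUMO : Stmt_UMO) (hLNK : Stmt_LNK) : Stmt_SCH := by
  intro m n
  have hL : 0 < LL m n := SCH_Lpos m n
  have hLM : LL m n / (m + 1) = n + 1 := Nat.mul_div_cancel_left _ m.succ_pos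
  have hLK : LL m n / (n + 1) = m + 1 := Nat.mul_div_cancel _ n.succ_pos
  obtain ⟨a1, a2, a3, a4, a5, a6⟩ :=
    hUMO (LL m n) (m + 1) m.succ_pos (Dvd.intro _ rfl) hL
  obtain ⟨b1, b2, b3, b4, b5, b6⟩ :=
    hUMO (LL m n) (n + 1) n.succ_pos (Dvd.intro_left _ rfl) hL
  rw [hLM] at a1
  rw [hLK] at b1
  -- the values at the steps
  have hA1 : ∀ b t, t < 2 * LL m n →
      Ax m n (2 * LL m n * b + t + 1) (co m n (2 * LL m n * b + t)) =
        b * ((n + 1) * (2 * LL m n + 1)) + V (LL m n) (m + 1) (t + 1) (t % (m + 1)) := by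
    intro b t ht
    have h1 := (hLNK m n b t).1 ht
    have h2 := ((hLNK m n b (t + 1)).2 ht).1 (co m n (2 * LL m n * b + t))
    rw [h1.2.2.2.2] at h2
    exact h2
  have hA0 : ∀ b t, t < 2 * LL m n →
      Ax m n (2 * LL m n * b + t) (co m n (2 * LL m n * b + t)) =
        b * ((n + 1) * (2 * LL m n + 1)) + V (LL m n) (m + 1) t (t % (m + 1)) := by
    intro b t ht
    have h1 := (hLNK m n b t).1 ht
    have h2 := ((hLNK m n b t).2 ht.le).1 (co m n (2 * LL m n * b + t))
    rw [h1.2.2.2.2] at h2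
    exact h2
  have hB0 : ∀ b t, t < 2 * LL m n →
      Bx m n (2 * LL m n * b + t) (ro n (2 * LL m n * b + t)) =
        b * ((m + 1) * (2 * LL m n + 1)) + V (LL m n) (n + 1) t (t % (n + 1)) := by
    intro b t ht
    have h1 := (hLNK m n b t).1 ht
    have h2 := ((hLNK m n b t).2 ht.le).2 (ro n (2 * LL m n * b + t))
    rw [h1.2.2.1] at h2
    exact h2
  have hrr0 : V (LL m n) (m + 1) 1 0 = 1 := by
    simp [V, rr, hL]
  -- monotonicity of A, B, Phi
  have h5 : ∀ τ, Ax m n (τ + 1) (co m n τ) ≤ Ax m n (τ + 2) (co m n (τ + 1)) ∧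
      Phi m n τ < Phi m n (τ + 1) := by
    intro τ
    obtain ⟨b, t, ht, rfl⟩ := SCH_dec (LL m n) τ hL
    by_cases h : t + 1 < 2 * LL m n
    · have e1 := hA1 b t ht
      have e2 := hA1 b (t + 1) h
      have e3 := hB0 b t ht
      have e4 := hB0 b (t + 1) h
      have i1 : V (LL m n) (m + 1) (t + 1) (t % (m + 1)) ≤
          V (LL m n) (m + 1) (t + 1 + 1) ((t + 1) % (m + 1)) := a4 t h
      have i2 := b5 t h
      rw [← add_assoc] at e2 e4
      refine ⟨by rw [e1, e2]; omega, ?_⟩
      unfold Phi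
      rw [e1, e2, e3, e4]
      by_cases hlt : t + 1 < LL m n
      · have i3 := a2 (t + 1) (t % (m + 1)) hlt
        omega
      · have i3 := b6 t (by omega) h
        omega
    · have ht' : t + 1 = 2 * LL m n := by omega
      have e1 := hA1 b t ht
      have e3 := hB0 b t ht
      have e2 := hA1 (b + 1) 0 (by omega)
      have e4 := hB0 (b + 1) 0 (by omega)
      have hidx : 2 * LL m n * (b + 1) + 0 = 2 * LL m n * b + t + 1 := by
        rw [add_zero, mul_add, mul_one, ← ht', add_assoc]
      rw [hidx, Nat.zero_mod] at e2 e4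
      rw [zero_add, hrr0] at e2
      rw [ht', a1 _ (Nat.mod_lt _ m.succ_pos)] at e1
      have i1 : V (LL m n) (n + 1) t (t % (n + 1)) ≤
          (m + 1) * (2 * LL m n + 1) := by
        rw [← b1 (t % (n + 1)) (Nat.mod_lt _ n.succ_pos)]
        exact SCH_Vmono _ _ ht.le _
      have e5 : (b + 1) * ((n + 1) * (2 * LL m n + 1)) =
          b * ((n + 1) * (2 * LL m n + 1)) + (n + 1) * (2 * LL m n + 1) := by ring
      have e6 : (b + 1) * ((m + 1) * (2 * LL m n + 1)) =
          b * ((m + 1) * (2 * LL m n + 1)) + (m + 1) * (2 * LL m n + 1) := by ring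
      refine ⟨by rw [e1, e2]; omega, ?_⟩
      unfold Phi
      rw [e1, e2, e3, e4]
      omega
  have hPhi0 : 1 ≤ Phi m n 0 := by
    unfold Phi
    rw [SCH_Aself]
    have := SCH_rho m n 0
    omega
  have h3 : ∀ τ k, Wx m n τ k + Bx m n τ k < Phi m n τ := by
    intro τ
    induction τ with
    | zero => intro k; exact hPhi0
    | succ τ ih =>
      intro k
      by_cases hk : k = ro n τ
      · subst hk
        rw [SCH_Wself, SCH_Bself]
        have h1 := (h5 τ).2
        have h2 : Phi m n τ = Ax m n τ (co m n τ) + rho m n τ + Bx m n τ (ro n τ) := by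
          unfold Phi
          rw [SCH_Aself]
        omega
      · rw [SCH_Wne _ _ _ _ hk, SCH_Bne _ _ _ _ hk]
        exact (ih k).trans (h5 τ).2
  have h4 : ∀ τ k, Wx m n τ k < Ax m n (τ + 1) (co m n τ) := by
    intro τ
    induction τ with
    | zero =>
      intro k
      rw [SCH_Aself]
      have := SCH_rho m n 0
      have h0 : Wx m n 0 k = 0 := rfl
      omega
    | succ τ ih =>
      intro k
      by_cases hk : k = ro n τ
      · subst hk
        rw [SCH_Wself]
        have h1 := (h5 τ).1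
        have h2 := SCH_Aself m n τ
        have h3 := SCH_rho m n τ
        change _ < Ax m n (τ + 2) (co m n (τ + 1))
        omega
      · rw [SCH_Wne _ _ _ _ hk]
        exact (ih k).trans_le (h5 τ).1
  have hTT : TT m n = 2 * LL m n * (m + 1) + 0 := by
    unfold TT
    ring
  have h6 : ∀ l, Ax m n (TT m n) l = At m n := by
    intro l
    rw [hTT, ((hLNK m n (m + 1) 0).2 (by omega)).1 l]
    simp only [V, Finset.range_zero, Finset.sum_empty, At, LL]
    ring
  have h6' : ∀ k, Bx m n (TT m n) k = Bt m n := by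
    intro k
    rw [hTT, ((hLNK m n (m + 1) 0).2 (by omega)).2 k]
    simp only [V, Finset.range_zero, Finset.sum_empty, Bt]
    ring
  -- the values `Wx T k`
  have hK2 : n + 1 ≤ LL m n := by
    unfold LL
    exact Nat.le_mul_of_pos_left _ m.succ_pos
  have hM2 : m + 1 ≤ LL m n := by
    unfold LL
    exact Nat.le_mul_of_pos_right _ n.succ_pos
  have hWT : ∀ k : Fin (n + 1), Wx m n (TT m n) k =
      m * ((n + 1) * (2 * LL m n + 1)) + V (LL m n) (m + 1) (2 * LL m n - (n + 1) + k)
        ((2 * LL m n - (n + 1) + k) % (m + 1)) := by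
    intro k
    have hk := k.isLt
    have e0 : TT m n = (2 * LL m n * m + (2 * LL m n - (n + 1))) + (n + 1) := by
      have : 2 * LL m n * (m + 1) + 0 = 2 * LL m n * m + 2 * LL m n := by ring
      rw [hTT, this]
      omega
    have e1 : (2 * LL m n * m + (2 * LL m n - (n + 1))) % (n + 1) = 0 := by
      have h1 : (n + 1) ∣ TT m n := by
        rw [hTT]
        exact ⟨2 * (m + 1) * (m + 1), by unfold LL; ring⟩
      have h2 : (n + 1) ∣ (2 * LL m n * m + (2 * LL m n - (n + 1))) := by
        rw [e0] at h1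
        exact (Nat.dvd_add_left (dvd_refl _)).1 h1
      exact Nat.mod_eq_zero_of_dvd h2
    rw [e0, SCH_W m n _ (n + 1) e1 le_rfl k, if_pos hk, add_assoc,
      hA0 m (2 * LL m n - (n + 1) + k) (by omega)]
  have h7 : ∀ k k' : Fin (n + 1), k < k' → Wx m n (TT m n) k < Wx m n (TT m n) k' := by
    have hstep : ∀ k : ℕ, k + 1 < n + 1 →
        V (LL m n) (m + 1) (2 * LL m n - (n + 1) + k) ((2 * LL m n - (n + 1) + k) % (m + 1)) <
        V (LL m n) (m + 1) (2 * LL m n - (n + 1) + (k + 1))
          ((2 * LL m n - (n + 1) + (k + 1)) % (m + 1)) := by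
      intro k hk
      have := a6 (2 * LL m n - (n + 1) + k) (by omega) (by omega)
      rw [add_assoc] at this
      exact this
    have hall : ∀ k k' : ℕ, k < k' → k' < n + 1 →
        V (LL m n) (m + 1) (2 * LL m n - (n + 1) + k) ((2 * LL m n - (n + 1) + k) % (m + 1)) <
        V (LL m n) (m + 1) (2 * LL m n - (n + 1) + k')
          ((2 * LL m n - (n + 1) + k') % (m + 1)) := by
      intro k k' h
      induction k', h using Nat.le_induction with
      | base => intro h2; exact hstep k h2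
      | succ k' _ ih => intro h2; exact (ih (by omega)).trans (hstep k' h2)
    intro k k' h
    rw [hWT, hWT]
    exact Nat.add_lt_add_left (hall k k' h k'.isLt) _
  have h7' : ∀ k, Wx m n (TT m n) k < At m n := by
    intro k
    have hcl : ∀ τ k, Wx m n τ k = 0 ∨ ∃ τ' < τ, Wx m n τ k = Ax m n τ' (co m n τ') := by
      intro τ
      induction τ with
      | zero => intro k; exact Or.inl rfl
      | succ τ ih =>
        intro k
        by_cases hk : k = ro n τ
        · subst hk
          exact Or.inr ⟨τ, Nat.lt_succ_self _, SCH_Wself m n τ⟩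
        · rw [SCH_Wne _ _ _ _ hk]
          rcases ih k with h | ⟨τ', h1, h2⟩
          · exact Or.inl h
          · exact Or.inr ⟨τ', by omega, h2⟩
    rcases hcl (TT m n) k with h | ⟨τ', h1, h2⟩
    · rw [h]
      unfold At
      exact Nat.mul_pos hL (by omega)
    · rw [h2, ← h6 (co m n τ')]
      have h3 := SCH_Aself m n τ'
      have h4 := SCH_rho m n τ'
      have h5 := SCH_Amono m n h1 (co m n τ')
      change Ax m n (τ' + 1) _ ≤ _ at h5
      omega
  -- the exponents `be`
  have hbe : ∀ j, j < LL m n → be m n j = V (LL m n) (n + 1) (j + 1) (j % (n + 1)) := by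
    intro j hj
    have h2 := ((hLNK m n 0 (j + 1)).2 (by omega)).2 (ro n j)
    rw [mul_zero, zero_add, zero_mul, zero_add] at h2
    exact h2
  have h8 : ∀ j j', j < j' → j' ≤ m → be m n j < be m n j' := by
    have hstep : ∀ j, j + 1 ≤ m → be m n j < be m n (j + 1) := by
      intro j hj
      rw [hbe j (by omega), hbe (j + 1) (by omega)]
      exact b2 (j + 1) (j % (n + 1)) (by omega)
    intro j j' h
    induction j', h using Nat.le_induction with
    | base => intro h2; exact hstep j h2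
    | succ j' _ ih => intro h2; exact (ih (by omega)).trans (hstep j' h2)
  have h9 : ∀ j, j ≤ m → 1 ≤ be m n j ∧ be m n j < Phi m n (j + 1) ∧ be m n j ≤ Bt m n := by
    intro j hj
    have e1 : be m n j = Bx m n j (ro n j) + rho m n j := SCH_Bself m n j
    have e2 := SCH_rho m n j
    have hmod : ∀ t, t < 2 * LL m n → t % (2 * LL m n) = t := fun t ht => Nat.mod_eq_of_lt ht
    have e3 : rho m n j = j + 1 := by
      unfold rho
      rw [hmod j (by omega), if_pos (by omega)]
    have e4 : j + 2 ≤ rho m n (j + 1) := by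
      unfold rho
      rw [hmod (j + 1) (by omega)]
      split_ifs <;> omega
    have e5 : Bx m n j (ro n j) ≤ Bx m n (j + 1) (ro n (j + 1)) := by
      have f1 := hB0 0 j (by omega)
      have f2 := hB0 0 (j + 1) (by omega)
      rw [mul_zero, zero_add, zero_mul, zero_add] at f1 f2
      rw [f1, f2]
      exact b5 j (by omega)
    refine ⟨by omega, ?_, ?_⟩
    · unfold Phi
      rw [SCH_Aself]
      omega
    · rw [← h6' (ro n j)]
      apply SCH_Bmono
      rw [hTT]
      have : 2 * LL m n * 1 ≤ 2 * LL m n * (m + 1) := Nat.mul_le_mul_left _ (by omega)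
      omega
  refine ⟨?_, ?_, h3, fun τ => h4 τ _, fun τ => (h5 τ).2, hPhi0, SCH_rho m n, h6, h6', h7', h7,
    h8, h9⟩
  · intro τ l hx
    obtain ⟨b, t, ht, rfl⟩ := SCH_dec (LL m n) τ hL
    have h1 := (hLNK m n b t).1 ht
    have htL : t < LL m n := h1.1.1 hx
    rw [hA1 b t ht, ((hLNK m n b t).2 ht.le).1 l]
    exact Nat.add_lt_add_left (a2 t _ htL) _
  · intro τ k hx hk
    obtain ⟨b, t, ht, rfl⟩ := SCH_dec (LL m n) τ hL
    have h1 := (hLNK m n b t).1 ht
    have htL : ¬ t < LL m n := fun h => hx (h1.1.2 h)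
    rw [hB0 b t ht, ((hLNK m n b t).2 ht.le).2 k]
    refine Nat.add_lt_add_left (b3 t k (by omega) ht k.isLt ?_) _
    intro h
    exact hk (Fin.ext (h.trans h1.2.2.1.symm))

end Pool.LG
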