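import Pool.Agent.Work.MP_7453a1_lg.Interface

set_option autoImplicit false

/-!
# Block STE: a step of the second kind
-/

namespace Pool.LG

open Finset Real

theorem STE_hold {ι : Type} [Fintype ι] (ξ g : ι → ℝ) (A B : ℝ) (hB : 0 ≤ B) (hξ : ∑ l, |ξ l| ≤ A)
    (hg : ∀ l, |g l| ≤ B) : |∑ l, ξ l * g l| ≤ A * B := by
  calc |∑ l, ξ l * g l| ≤ ∑ l, |ξ l * g l| := Finset.abs_sum_le_sum_abs _ _
    _ ≤ ∑ l, |ξ l| * B := Finset.sum_le_sum fun l _ => by
        rw [abs_mul]; exact mul_le_mul_of_nonneg_left (hg l) (abs_nonneg _)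
    _ = (∑ l, |ξ l|) * B := by rw [Finset.sum_mul]
    _ ≤ A * B := mul_le_mul_of_nonneg_right hξ hB

theorem STE_X {m n : ℕ} (F : Fr m n) (i : Fin (n + 1)) (j : Fin (m + 1)) (c : Fin (n + 1) → ℤ)
    (d : Fin (m + 1) → ℤ) (p : Fin (m + 1)) :
    Fr.X (F.nxt i j c d) j p =
      ∑ l, 2 * (d l : ℝ) * F.X l p - ∑ k, 2 * (c k : ℝ) * F.U k p - F.U i p := by
  have h : ((F.nxt i j c d).v j).1 p =
      ∑ l, 2 * d l * (F.v l).1 p - ∑ k, 2 * c k * (F.f k).1 p - (F.f i).1 p := by
    simp [Fr.nxt, Prod.fst_sum, Finset.sum_apply]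
  unfold Fr.X Fr.U
  rw [h]
  push_cast
  rfl

theorem STE_X' {m n : ℕ} (F : Fr m n) (i : Fin (n + 1)) (j : Fin (m + 1)) (c : Fin (n + 1) → ℤ)
    (d : Fin (m + 1) → ℤ) {l : Fin (m + 1)} (hl : l ≠ j) : (F.nxt i j c d).v l = F.v l := by
  simp [Fr.nxt, Function.update_of_ne hl]

theorem STE_f' {m n : ℕ} (F : Fr m n) (i : Fin (n + 1)) (j : Fin (m + 1)) (c : Fin (n + 1) → ℤ)
    (d : Fin (m + 1) → ℤ) {k : Fin (n + 1)} (hk : k ≠ i) : (F.nxt i j c d).f k = F.f k := by
  simp [Fr.nxt, Function.update_of_ne hk]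

theorem STE_f {m n : ℕ} (F : Fr m n) (i : Fin (n + 1)) (j : Fin (m + 1)) (c : Fin (n + 1) → ℤ)
    (d : Fin (m + 1) → ℤ) : (F.nxt i j c d).f i = F.v j := by
  simp [Fr.nxt]

theorem p_STE (hGOD : Stmt_GOD) (hDUA : Stmt_DUA) (hPAT : Stmt_PAT) (hLGI : Stmt_LGI) (hSTP : Stmt_STP)
    (hDMS : Stmt_DMS) : Stmt_STE := by
  intro m n H hH F Θ S tx s W te hsta htx i j R hte htes hHR hs hWs hWi
  have hm0 : (0 : ℝ) ≤ m := Nat.cast_nonneg m
  have hn0 : (0 : ℝ) ≤ n := Nat.cast_nonneg n
  have hDe : DD m n = m + n + 2 := rfl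
  have hD : (2 : ℝ) ≤ DD m n := by rw [hDe]; linarith
  have hH2 : (2000 : ℝ) ≤ H := by linarith
  have hH0 : (0 : ℝ) < H := by linarith
  have hR0 : 0 < R := by linarith
  have hSp := hsta.Sp
  have hsp := hsta.sp
  have hSj := hSp j
  have hsi := hsp i
  set S' : ℝ := R * S j with hS'
  have hS'0 : 0 < S' := mul_pos hR0 hSj
  have hinvH : 1 / H ≤ 1 / 2000 := one_div_le_one_div_of_le (by norm_num) hH2
  have hinvH0 : 0 < 1 / H := one_div_pos.2 hH0
  have hDH : DD m n * (1 / H) ≤ 1 / 1000 := by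
    rw [mul_one_div, div_le_div_iff₀ hH0 (by norm_num)]; linarith
  have hnH : ((n : ℝ) + 1) * (1 / H) ≤ 1 / 1000 := by
    refine le_trans (mul_le_mul_of_nonneg_right ?_ hinvH0.le) hDH
    rw [hDe]; linarith
  have htx0 : ∀ l, 0 ≤ tx l := by
    intro l
    have h := le_trans (abs_nonneg _) (hsta.hx l l)
    exact nonneg_of_mul_nonneg_left h (hSp l)
  have hte0 : ∀ k, 0 ≤ te k := by
    intro k
    have h := le_trans (abs_nonneg _) (hsta.he k k)
    exact nonneg_of_mul_nonneg_left h (hsp k)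
  have hW0 : ∀ k, 0 ≤ W k := fun k => le_trans (abs_nonneg _) (hsta.hw k 0)
  obtain ⟨-, hQ, -⟩ := hPAT n
  -- the old frame
  obtain ⟨-, -, h32⟩ := hDMS m (pP m) (Or.inl rfl) F.X S tx hSp hsta.hx (by linarith)
  -- the rows of the errors
  set B : Fin (n + 1) → Fin (n + 1) → ℝ := fun k p => if k = i then pQ n i p else ev Θ (F.f k) p with hB
  set σ : Fin (n + 1) → ℝ := fun k => if k = i then 1 else s k with hσ
  set τ : Fin (n + 1) → ℝ := fun k => if k = i then 0 else te k with hτ
  have hBi : ∀ p, B i p = pQ n i p := fun p => by simp [hB]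
  have hBk : ∀ k, k ≠ i → ∀ p, B k p = ev Θ (F.f k) p := fun k hk p => by simp [hB, hk]
  have hσi : σ i = 1 := by simp [hσ]
  have hσk : ∀ k, k ≠ i → σ k = s k := fun k hk => by simp [hσ, hk]
  have hσp : ∀ k, 0 < σ k := by
    intro k
    by_cases hk : k = i
    · rw [hk, hσi]; norm_num
    · rw [hσk k hk]; exact hsp k
  obtain ⟨hDmB, hcolB, -⟩ := hDMS n (pQ n) (Or.inr rfl) B σ τ hσp (by
    intro k p
    by_cases hk : k = i
    · subst hk
      rw [hBi, hσi]; simp [hτ]
    · rw [hBk k hk, hσk k hk]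
      simp only [hτ, if_neg hk]
      exact hsta.he k p) (by
    have h1 : ∑ k, τ k = ∑ k ∈ univ.erase i, τ k + τ i := (Finset.sum_erase_add _ _ (mem_univ i)).symm
    have h2 : ∑ k ∈ univ.erase i, τ k = ∑ k ∈ univ.erase i, te k :=
      Finset.sum_congr rfl fun k hk => by simp [hτ, Finset.ne_of_mem_erase hk]
    have h3 : τ i = 0 := by simp [hτ]
    rw [h1, h2, h3, add_zero]; exact htes)
  obtain ⟨Z, hZ1, hZ2, hZ3⟩ := hDUA (n + 1) B σ hDmB
  -- the error of `f i`
  set e : Fin (n + 1) → ℝ := fun p => ev Θ (F.f i) p with he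
  have hδ : ∀ p, |e p - s i * pQ n i p| ≤ te i * s i := fun p => hsta.he i p
  set g : Fin (n + 1) → ℝ := fun k => ∑ q, Z k q * e q with hg
  have hge : ∀ p, ∑ k, g k * B k p = e p := by
    intro p
    have h1 : ∀ l, g l * B l p = ∑ q, B l p * Z l q * e q := by
      intro l
      simp only [hg]
      rw [Finset.sum_mul]
      exact Finset.sum_congr rfl fun q _ => by ring
    rw [Finset.sum_congr rfl fun l _ => h1 l, Finset.sum_comm]
    have h2 : ∀ q, ∑ l, B l p * Z l q * e q = (if p = q then 1 else 0) * e q := by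
      intro q
      rw [← Finset.sum_mul, hZ3]
    rw [Finset.sum_congr rfl fun q _ => h2 q]
    simp
  have hgk : ∀ k, |g k - s i * (if i = k then 1 else 0)| ≤ 25 / (16 * σ k) * (te i * s i) := by
    intro k
    have h1 : g k = s i * (if i = k then 1 else 0) + ∑ q, Z k q * (e q - s i * pQ n i q) := by
      have h2 := hZ1 k i
      rw [← h2, Finset.mul_sum, ← Finset.sum_add_distrib]
      refine Finset.sum_congr rfl fun q _ => ?_
      rw [hBi]; ring
    rw [h1, add_sub_cancel_left]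
    exact STE_hold _ _ _ _ (mul_nonneg (hte0 i) hsi.le) (hZ2 k) hδ
  -- `lam = g i`
  set u : ℝ := g i / s i - 1 with hu
  have hgi : g i = s i * (1 + u) := by rw [hu]; field_simp; ring
  have hub : |u| ≤ 25 / 16 * te i := by
    have h1 := hgk i
    rw [if_pos rfl, mul_one, hσi] at h1
    have h2 : u = (g i - s i) / s i := by rw [hu]; field_simp
    rw [h2, abs_div, abs_of_pos hsi, div_le_iff₀ hsi]
    have h3 : 25 / (16 * (1 : ℝ)) * (te i * s i) = 25 / 16 * te i * s i := by ring
    rw [h3] at h1; exact h1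
  have hu13 : |u| ≤ 13 / 16 := by linarith
  have hu17 : |u| ≤ 17 / 20 := by linarith
  have hu3 : 3 / 16 ≤ 1 + u := by have := (abs_le.1 hu13).1; linarith
  have hu1 : 0 < 1 + u := by linarith
  have hu29 : 1 + u ≤ 29 / 16 := by have := (abs_le.1 hu13).2; linarith
  have hgi0 : 0 < g i := by rw [hgi]; exact mul_pos hsi hu1
  -- the coefficients `c`
  set c : Fin (n + 1) → ℤ := fun k => if k = i then 0 else round (-g k / 2) with hc
  have hci : c i = 0 := by simp [hc]
  set θ : Fin (n + 1) → ℝ := fun k => if k = i then 0 else 2 * (c k : ℝ) + g k with hθ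
  have hθi : θ i = 0 := by simp [hθ]
  have hθk : ∀ k, k ≠ i → 2 * (c k : ℝ) = θ k - g k := fun k hk => by simp [hθ, hk]
  have hθ1 : ∀ k, |θ k| ≤ 1 := by
    intro k
    by_cases hk : k = i
    · rw [hk, hθi]; simp
    · have h1 := abs_sub_round (-g k / 2)
      have h2 : θ k = -2 * (-g k / 2 - (round (-g k / 2) : ℝ)) := by
        simp only [hθ, hc, if_neg hk]; ring
      rw [h2, abs_mul]
      have : |(-2 : ℝ)| = 2 := by norm_num
      rw [this]; linarith
  have hck : ∀ k, k ≠ i → |2 * (c k : ℝ)| ≤ s i / s k := by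
    intro k hk
    have hsk := hsp k
    rw [hθk k hk]
    refine le_trans (abs_sub _ _) ?_
    have h1 := hgk k
    rw [if_neg (Ne.symm hk), mul_zero, sub_zero, hσk k hk] at h1
    have h2 : 25 / (16 * s k) * (te i * s i) = 25 / 16 * te i * (s i / s k) := by
      field_simp
    rw [h2] at h1
    have h3 : 0 < s i / s k := div_pos hsi hsk
    have h4 : H ≤ s i / s k := by rw [le_div_iff₀ hsk]; exact hs k hk
    have h5 : 25 / 16 * te i * (s i / s k) ≤ 13 / 16 * (s i / s k) :=
      mul_le_mul_of_nonneg_right (by linarith) h3.le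
    have h6 := hθ1 k
    linarith
  -- the coefficient `r`
  set r : ℤ := round (R / 2) with hr
  set θr : ℝ := 2 * (r : ℝ) - R with hθr
  have hθr1 : |θr| ≤ 1 := by
    have h1 := abs_sub_round (R / 2)
    have h2 : θr = -2 * (R / 2 - (round (R / 2) : ℝ)) := by simp only [hθr, hr]; ring
    rw [h2, abs_mul]
    have : |(-2 : ℝ)| = 2 := by norm_num
    rw [this]; linarith
  have h2r : 2 * (r : ℝ) = R + θr := by rw [hθr]; ring
  have h2r0 : 0 < 2 * (r : ℝ) := by
    rw [h2r]; have := (abs_le.1 hθr1).1; linarith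
  set d : Fin (m + 1) → ℤ := fun l => if l = j then r else 0 with hd
  have hdj : d j = r := by simp [hd]
  set F' := F.nxt i j c d with hF'
  -- `G = x(g)`
  set G : Fin (m + 1) → ℝ := fun p => F.U i p + ∑ k, 2 * (c k : ℝ) * F.U k p with hG
  have hGb : ∀ p, |G p| ≤ ((n : ℝ) + 1) * (S' / H) := by
    intro p
    have h1 : G p = ∑ k, (if k = i then F.U i p else 2 * (c k : ℝ) * F.U k p) := by
      have h2 : ∀ k, (if k = i then F.U i p else 2 * (c k : ℝ) * F.U k p) =
          (if k = i then F.U i p else 0) + 2 * (c k : ℝ) * F.U k p := by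
        intro k
        by_cases hk : k = i
        · subst hk; simp [hci]
        · simp [hk]
      rw [Finset.sum_congr rfl fun k _ => h2 k, Finset.sum_add_distrib]
      simp [hG]
    rw [h1]
    refine le_trans (Finset.abs_sum_le_sum_abs _ _) ?_
    have h3 : ∀ k ∈ (univ : Finset (Fin (n + 1))),
        |if k = i then F.U i p else 2 * (c k : ℝ) * F.U k p| ≤ S' / H := by
      intro k _
      by_cases hk : k = i
      · rw [if_pos hk]
        refine le_trans (hsta.hw i p) ?_
        rw [le_div_iff₀ hH0, mul_comm]; exact hWi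
      · rw [if_neg hk, abs_mul]
        have h4 : |2 * (c k : ℝ)| * |F.U k p| ≤ s i / s k * W k :=
          mul_le_mul (hck k hk) (hsta.hw k p) (abs_nonneg _) (div_pos hsi (hsp k)).le
        refine le_trans h4 ?_
        rw [div_mul_eq_mul_div, div_le_div_iff₀ (hsp k) hH0]
        have := hWs k hk
        linarith
    refine le_trans (Finset.sum_le_card_nsmul _ _ _ h3) ?_
    rw [Finset.card_univ, Fintype.card_fin, nsmul_eq_mul]
    push_cast
    exact le_rfl
  have hXj : ∀ p, F'.X j p = 2 * (r : ℝ) * F.X j p - G p := by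
    intro p
    rw [hF', STE_X]
    have h1 : ∑ l, 2 * (d l : ℝ) * F.X l p = 2 * (r : ℝ) * F.X j p := by
      rw [Finset.sum_eq_single j]
      · rw [hdj]
      · intro l _ hl
        simp [hd, hl]
      · intro h; exact absurd (mem_univ j) h
    rw [h1]
    simp only [hG]; ring
  -- the new sizes and tolerances
  set S1 := Function.update S j S' with hS1
  set tx1 := Function.update tx j (tx j + 2 * DD m n / H) with htx1
  have hS1j : S1 j = S' := by simp [hS1]
  have hS1l : ∀ l, l ≠ j → S1 l = S l := fun l hl => by simp [hS1, Function.update_of_ne hl]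
  have htx1j : tx1 j = tx j + 2 * DD m n / H := by simp [htx1]
  have htx1l : ∀ l, l ≠ j → tx1 l = tx l := fun l hl => by simp [htx1, Function.update_of_ne hl]
  have hS1p : ∀ l, 0 < S1 l := by
    intro l
    by_cases hl : l = j
    · rw [hl, hS1j]; exact hS'0
    · rw [hS1l l hl]; exact hSp l
  have hx1 : ∀ l p, |F'.X l p - S1 l * pP m l p| ≤ tx1 l * S1 l := by
    intro l p
    by_cases hl : l = j
    · rw [hl, hS1j, htx1j, hXj, h2r]
      have h1 : (R + θr) * F.X j p - G p - S' * pP m j p =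
          R * (F.X j p - S j * pP m j p) + θr * F.X j p - G p := by rw [hS']; ring
      rw [h1]
      have h2 : |R * (F.X j p - S j * pP m j p)| ≤ tx j * S' := by
        rw [abs_mul, abs_of_pos hR0]
        calc R * |F.X j p - S j * pP m j p| ≤ R * (tx j * S j) :=
              mul_le_mul_of_nonneg_left (hsta.hx j p) hR0.le
          _ = tx j * S' := by rw [hS']; ring
      have h3 : |θr * F.X j p| ≤ 3 / 2 * (S' * (1 / H)) := by
        rw [abs_mul]
        have h4 : |θr| * |F.X j p| ≤ 1 * (3 / 2 * S j) :=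
          mul_le_mul hθr1 (h32 j p) (abs_nonneg _) (by norm_num)
        have h5 : S j ≤ S' * (1 / H) := by
          rw [mul_one_div, le_div_iff₀ hH0, hS', mul_comm]
          exact mul_le_mul_of_nonneg_right hHR hSj.le
        linarith
      have h6 := hGb p
      have h7 : ((n : ℝ) + 1) * (S' / H) = ((n : ℝ) + 1) * (S' * (1 / H)) := by ring
      rw [h7] at h6
      have h8 : (tx j + 2 * DD m n / H) * S' = tx j * S' + 2 * DD m n * (S' * (1 / H)) := by ring
      rw [h8]
      have h9 : |R * (F.X j p - S j * pP m j p) + θr * F.X j p - G p| ≤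
          |R * (F.X j p - S j * pP m j p)| + |θr * F.X j p| + |G p| :=
        le_trans (abs_sub _ _) (add_le_add (abs_add_le _ _) le_rfl)
      have h10 : 0 < S' * (1 / H) := mul_pos hS'0 hinvH0
      have h11 : ((n : ℝ) + 1 + 3 / 2) * (S' * (1 / H)) ≤ 2 * DD m n * (S' * (1 / H)) :=
        mul_le_mul_of_nonneg_right (by rw [hDe]; linarith) h10.le
      linarith
    · rw [hS1l l hl, htx1l l hl]
      have : F'.X l p = F.X l p := by unfold Fr.X; rw [hF', STE_X' F i j _ d hl]
      rw [this]; exact hsta.hx l p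
  have htx1s : ∑ l, tx1 l ≤ 1 / 10 := by
    have h1 : ∑ l, tx1 l = ∑ l ∈ univ.erase j, tx1 l + tx1 j := (Finset.sum_erase_add _ _ (mem_univ j)).symm
    have h2 : ∑ l, tx l = ∑ l ∈ univ.erase j, tx l + tx j := (Finset.sum_erase_add _ _ (mem_univ j)).symm
    have h3 : ∑ l ∈ univ.erase j, tx1 l = ∑ l ∈ univ.erase j, tx l :=
      Finset.sum_congr rfl fun l hl => htx1l l (Finset.ne_of_mem_erase hl)
    have h4 : 2 * DD m n / H = 2 * (DD m n * (1 / H)) := by ring
    rw [h1, h3, htx1j, h4]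
    linarith
  obtain ⟨hDm1, -, -⟩ := hDMS m (pP m) (Or.inl rfl) F'.X S1 tx1 hS1p hx1 htx1s
  obtain ⟨Θ', ξ, hcen, hξ, hev, hq⟩ := hSTP m n F Θ hsta.cen i j c d S1 hDm1
  rw [hS1j] at hξ
  rw [hdj] at hq
  -- the vector `E`
  set E : Fin (n + 1) → ℝ := fun p => ev Θ (F.f i) p + ∑ k, 2 * (c k : ℝ) * ev Θ (F.f k) p with hE
  have hEe : ∀ p, E p = g i * pQ n i p + ∑ k, θ k * B k p := by
    intro p
    have h1 := hge p
    have h2 : ∀ k, 2 * (c k : ℝ) * ev Θ (F.f k) p =
        θ k * B k p - g k * B k p + (if k = i then g i * pQ n i p else 0) := by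
      intro k
      by_cases hk : k = i
      · subst hk
        rw [hci, hθi, hBi, if_pos rfl]; push_cast; ring
      · rw [hθk k hk, hBk k hk, if_neg hk]; ring
    change ev Θ (F.f i) p + ∑ k, 2 * (c k : ℝ) * ev Θ (F.f k) p = _
    rw [Finset.sum_congr rfl fun k _ => h2 k, Finset.sum_add_distrib, Finset.sum_sub_distrib, h1]
    simp only [Finset.sum_ite_eq', Finset.mem_univ, if_true, he]
    ring
  have hθB : ∀ p, |∑ k, θ k * B k p| ≤ 33 / 20 * (s i * (1 / H)) := by
    intro p
    have h1 : |∑ k, θ k * B k p| ≤ ∑ k, s i / H * (|B k p| / σ k) := by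
      refine le_trans (Finset.abs_sum_le_sum_abs _ _) (Finset.sum_le_sum fun k _ => ?_)
      by_cases hk : k = i
      · rw [hk, hθi, zero_mul, abs_zero]
        have := hσp i
        positivity
      · rw [abs_mul, hσk k hk]
        have hsk := hsp k
        have h2 : s k ≤ s i / H := by rw [le_div_iff₀ hH0]; linarith [hs k hk]
        have h3 : |θ k| * |B k p| ≤ 1 * |B k p| := mul_le_mul_of_nonneg_right (hθ1 k) (abs_nonneg _)
        have h4 : |B k p| = s k * (|B k p| / s k) := by field_simp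
        calc |θ k| * |B k p| ≤ |B k p| := by linarith
          _ = s k * (|B k p| / s k) := h4
          _ ≤ s i / H * (|B k p| / s k) :=
            mul_le_mul_of_nonneg_right h2 (div_nonneg (abs_nonneg _) hsk.le)
    rw [← Finset.mul_sum] at h1
    have h5 : s i / H * ∑ k, |B k p| / σ k ≤ s i / H * (33 / 20) :=
      mul_le_mul_of_nonneg_left (hcolB p) (div_nonneg hsi.le hH0.le)
    have h6 : 33 / 20 * (s i * (1 / H)) = s i / H * (33 / 20) := by ring
    rw [h6]; linarith
  have hEb : ∀ p, |E p| ≤ 13 / 5 * s i := by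
    intro p
    rw [hEe]
    refine le_trans (abs_add_le _ _) ?_
    have h1 := hθB p
    have h2 := hQ i p
    have h3 : |g i * pQ n i p| ≤ 203 / 80 * s i := by
      rw [abs_mul, abs_of_pos hgi0, abs_of_nonneg h2.1]
      have h4 : g i ≤ 29 / 16 * s i := by rw [hgi]; nlinarith
      calc g i * pQ n i p ≤ 29 / 16 * s i * (7 / 5) :=
            mul_le_mul h4 h2.2 h2.1 (by positivity)
        _ = 203 / 80 * s i := by ring
    have h5 : s i * (1 / H) ≤ s i * (1 / 2000) := mul_le_mul_of_nonneg_left hinvH hsi.le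
    linarith
  have hmv : ∀ (w : Fin (m + 1) → ℝ) (Rw : ℝ), 0 ≤ Rw → (∀ l, |w l| ≤ Rw) → ∀ p,
      |E p * ∑ l, ξ l * w l| ≤ 5 * (s i * Rw / S') := by
    intro w Rw hRw hw p
    have h1 := STE_hold ξ w _ Rw hRw hξ hw
    rw [abs_mul]
    have h2 : |E p| * |∑ l, ξ l * w l| ≤ (13 / 5 * s i) * (25 / (16 * S') * Rw) :=
      mul_le_mul (hEb p) h1 (abs_nonneg _) (by positivity)
    have h3 : (13 / 5 * s i) * (25 / (16 * S') * Rw) = 65 / 16 * (s i * Rw / S') := by
      field_simp
      ring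
    rw [h3] at h2
    have h4 : 0 ≤ s i * Rw / S' := by positivity
    linarith
  -- y
  set y : ℝ := ∑ l, ξ l * G l with hy
  have hyb : |y| ≤ 25 / 16 * (((n : ℝ) + 1) * (1 / H)) := by
    have h1 := STE_hold ξ G _ (((n : ℝ) + 1) * (S' / H)) (by positivity) hξ hGb
    have h2 : 25 / (16 * S') * (((n : ℝ) + 1) * (S' / H)) = 25 / 16 * (((n : ℝ) + 1) * (1 / H)) := by
      field_simp
    rw [h2] at h1; exact h1
  have hy17 : |y| ≤ 17 / 20 := by linarith
  have hy1 : 0 < 1 + y := by have := (abs_le.1 hy17).1; linarith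
  -- q
  set q : ℝ := ∑ l, ξ l * F.X j l with hqd
  have hq' : 2 * (r : ℝ) * q = 1 + y := hq
  have hqe : q = (1 + y) / (2 * (r : ℝ)) := by
    rw [eq_div_iff h2r0.ne', mul_comm]; exact hq'
  have hq0 : 0 < q := by rw [hqe]; positivity
  set v : ℝ := θr / R with hv
  have hvb : |v| ≤ 1 / H := by
    rw [hv, abs_div, abs_of_pos hR0, div_le_div_iff₀ hR0 hH0]
    have : |θr| * H ≤ 1 * H := mul_le_mul_of_nonneg_right hθr1 hH0.le
    linarith
  have hv17 : |v| ≤ 17 / 20 := by linarith
  have hv1 : 0 < 1 + v := by have := (abs_le.1 hv17).1; linarith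
  have h2rv : 2 * (r : ℝ) = R * (1 + v) := by
    rw [h2r, hv]; field_simp
  have ha0 : 0 < q * g i := mul_pos hq0 hgi0
  have hEq : ∀ p, |E p * q - q * g i * pQ n i p| ≤ 10 / H * (q * g i) := by
    intro p
    have h1 : E p * q - q * g i * pQ n i p = q * ∑ k, θ k * B k p := by
      rw [hEe]; ring
    rw [h1, abs_mul, abs_of_pos hq0]
    have h2 := mul_le_mul_of_nonneg_left (hθB p) hq0.le
    have h3 : 10 / H * (q * g i) = q * (10 * (g i * (1 / H))) := by ring
    rw [h3]
    refine le_trans h2 (mul_le_mul_of_nonneg_left ?_ hq0.le)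
    have h4 : 3 / 16 * s i ≤ g i := by rw [hgi]; nlinarith
    have h5 : 3 / 16 * s i * (1 / H) ≤ g i * (1 / H) := mul_le_mul_of_nonneg_right h4 hinvH0.le
    have h6 : 0 < s i * (1 / H) := mul_pos hsi hinvH0
    linarith
  refine ⟨F', Θ', q * g i, ⟨?_, ?_, ?_, ?_, ?_, ?_, ?_⟩, STE_f F i j _ d, fun k hk => STE_f' F i j _ d hk,
    fun l hl => STE_X' F i j _ d hl, ?_, ?_⟩
  · exact hGOD m n F i j c d hci hsta.good
  · exact hcen
  · exact hS1p
  · intro k
    by_cases hk : k = i
    · rw [hk, Function.update_self]; exact ha0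
    · rw [Function.update_of_ne hk]; exact hsp k
  · exact hx1
  · intro k p
    by_cases hk : k = i
    · subst hk
      rw [Function.update_self, if_pos rfl, hF', STE_f, hev, hsta.cen j p, zero_add]
      exact hEq p
    · rw [Function.update_of_ne hk, if_neg hk, hF', STE_f' F i j _ d hk, hev]
      have h1 := hmv (fun l => F.U k l) (W k) (hW0 k) (fun l => hsta.hw k l) p
      have h2 : 5 * (s i * W k / S') ≤ 5 / H * s k := by
        have h3 : s i * W k / S' ≤ s k / H := by
          rw [div_le_div_iff₀ hS'0 hH0]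
          have := hWs k hk
          linarith
        have h5 : 5 / H * s k = 5 * (s k / H) := by ring
        rw [h5]; linarith
      have h6 : |ev Θ (F.f k) p - s k * pQ n k p| ≤ te k * s k := hsta.he k p
      have h7 : ev Θ (F.f k) p + E p * ∑ l, ξ l * ((F.f k).1 l : ℝ) - s k * pQ n k p =
          (ev Θ (F.f k) p - s k * pQ n k p) + E p * ∑ l, ξ l * F.U k l := by
        unfold Fr.U; ring
      change |ev Θ (F.f k) p + E p * ∑ l, ξ l * ((F.f k).1 l : ℝ) - s k * pQ n k p| ≤ _
      rw [h7]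
      refine le_trans (abs_add_le _ _) ?_
      have h8 : (te k + 5 / H) * s k = te k * s k + 5 / H * s k := by ring
      rw [h8]
      exact add_le_add h6 (le_trans h1 h2)
  · intro k p
    by_cases hk : k = i
    · subst hk
      rw [Function.update_self]
      have h1 : F'.U k p = F.X j p := by unfold Fr.U Fr.X; rw [hF', STE_f]
      rw [h1]; exact h32 j p
    · rw [Function.update_of_ne hk]
      have h1 : F'.U k p = F.U k p := by unfold Fr.U; rw [hF', STE_f' F i j _ d hk]
      rw [h1]; exact hsta.hw k p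
  · have h1 : q * g i * (R * S j) / (s i * S j) = (1 + u) * (1 + y) / (1 + v) := by
      rw [hqe, hgi, h2rv]; field_simp
    rw [h1, Real.log_div (mul_pos hu1 hy1).ne' hv1.ne', Real.log_mul hu1.ne' hy1.ne']
    refine le_trans (abs_sub _ _) ?_
    have h2 := hLGI y hy17
    have h3 := hLGI u hu17
    have h4 := hLGI v hv17
    have h5 := abs_add_le (log (1 + u)) (log (1 + y))
    have h6 : 10 * DD m n / H = 10 * (DD m n * (1 / H)) := by ring
    rw [h6]
    have h7 : ((n : ℝ) + 1) * (1 / H) + 1 / H ≤ DD m n * (1 / H) := by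
      rw [← add_one_mul]
      exact mul_le_mul_of_nonneg_right (by rw [hDe]; linarith) hinvH0.le
    have h8 := hte0 i
    have h9 : 0 ≤ ((n : ℝ) + 1) * (1 / H) := by positivity
    linarith
  · intro w Rw hw p
    have hRw : 0 ≤ Rw := le_trans (abs_nonneg _) (hw 0)
    have h1 := hmv (fun l => (w.1 l : ℝ)) Rw hRw hw p
    rw [hev]
    have h2 : ev Θ w p + (ev Θ (F.f i) p + ∑ k, 2 * (c k : ℝ) * ev Θ (F.f k) p) *
        ∑ l, ξ l * (w.1 l : ℝ) - ev Θ w p = E p * ∑ l, ξ l * (w.1 l : ℝ) := by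
      simp only [hE]; ring
    rw [h2]
    refine le_trans h1 (le_of_eq ?_)
    ring

end Pool.LG
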