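import Pool.Agent.Work.MP_7453a1_lg.Interface

set_option autoImplicit false

/-! # Block STG: a stage (helper4) -/

namespace Pool.LG

open Finset Real

theorem STG_geom {x : ℝ} (hx0 : 0 ≤ x) (hx : x ≤ 1 / 2) (N : ℕ) :
    ∑ t ∈ range N, x ^ t ≤ 2 - 2 * (1 / 2 : ℝ) ^ N := by
  induction N with
  | zero => simp
  | succ N ih =>
    rw [sum_range_succ]
    have h1 : x ^ N ≤ (1 / 2 : ℝ) ^ N := pow_le_pow_left₀ hx0 hx N
    have h2 : (1 / 2 : ℝ) ^ (N + 1) = (1 / 2 : ℝ) ^ N * (1 / 2) := pow_succ _ _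
    rw [h2]
    linarith

/-- sums over a strictly increasing sequence of exponents -/
theorem STG_sum {x : ℝ} (hx0 : 0 < x) (hx : x ≤ 1 / 2) (P : ℕ → ℕ) (hP : ∀ t, P t < P (t + 1))
    (a b : ℕ) : ∑ t ∈ Ico a b, x ^ P t ≤ 2 * x ^ P a := by
  rw [sum_Ico_eq_sum_range]
  have h1 : ∀ t, P a + t ≤ P (a + t) := by
    intro t
    induction t with
    | zero => exact le_rfl
    | succ t ih =>
      have := hP (a + t)
      have e : a + (t + 1) = a + t + 1 := by ring
      rw [e]
      omega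
  have h2 : ∑ t ∈ range (b - a), x ^ P (a + t) ≤ ∑ t ∈ range (b - a), x ^ P a * x ^ t := by
    refine sum_le_sum fun t _ => ?_
    rw [← pow_add]
    exact pow_le_pow_of_le_one hx0.le (by linarith) (h1 t)
  refine h2.trans ?_
  rw [← mul_sum]
  have h3 := STG_geom hx0.le hx (b - a)
  have h4 : (0 : ℝ) < (1 / 2 : ℝ) ^ (b - a) := by positivity
  have h5 : 0 < x ^ P a := by positivity
  nlinarith

theorem STG_T (m n : ℕ) : m < TT m n ∧ ∀ k : ℕ, k ≤ n → LL m n + k < TT m n := by
  have h1 : TT m n = 2 * (m + 1) * ((m + 1) * (n + 1)) := rfl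
  have h2 : LL m n = (m + 1) * (n + 1) := rfl
  have h3 : (m + 1) * (n + 1) ≤ (m + 1) * ((m + 1) * (n + 1)) := Nat.le_mul_of_pos_left _ m.succ_pos
  have h4 : n + 1 ≤ (m + 1) * (n + 1) := Nat.le_mul_of_pos_left _ m.succ_pos
  have h5 : m + 1 ≤ (m + 1) * (n + 1) := Nat.le_mul_of_pos_right _ n.succ_pos
  have h6 : TT m n = 2 * ((m + 1) * ((m + 1) * (n + 1))) := by rw [h1]; ring
  refine ⟨by omega, fun k hk => ?_⟩
  omega

theorem p_STG (hCST : Stmt_CST) (hPHT : Stmt_PHT) (hSCH : Stmt_SCH) (hKTO : Stmt_KTO) :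
    Stmt_STG := by
  intro m n G Θ₀ X ε S dx tx η te W h
  obtain ⟨hD2, -, -, hc1, hc2, hc3, hth, hft, hftth, -, -, hthn, hHft, hLam, hH, hC, hL⟩ := hCST m n
  obtain ⟨-, -, -, -, hPhi, hPhi0, -, hAT, hBT, hWT, -, -, hbe⟩ := hSCH m n
  obtain ⟨-, -, hKx, hKe⟩ := hKTO m n η 6 h.eta
  obtain ⟨F, Θ, S', dx', tx', s', W', te', z, P⟩ := hPHT m n G Θ₀ X ε S dx tx η te W h
  obtain ⟨hTm, hTL⟩ := STG_T m n
  set Λ := Lam m n with hΛ
  have hΛ0 : 0 < Λ := by linarith
  set x : ℝ := 1 / Λ with hx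
  have hx0 : 0 < x := by positivity
  have hx1 : x ≤ 1 / 1000 := by
    rw [hx]
    exact one_div_le_one_div_of_le (by norm_num) hL
  have hX := h.Xp
  have hε := h.ep
  -- the tolerance is small
  have hft1 : ft m n * 400 ≤ th m n := by
    have : 400 ≤ 200 * DD m n := by linarith
    nlinarith
  have hth1 : th m n ≤ 1 / 18000 := by
    refine hthn.trans ?_
    apply one_div_le_one_div_of_le (by norm_num)
    have : (1 : ℝ) ≤ 3 ^ n := one_le_pow₀ (by norm_num)
    linarith
  have hft2 : ft m n ≤ 1 / 100 := by linarith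
  have hDft : DD m n * ft m n ≤ 1 / 200 := by nlinarith
  have hm1 : ((m : ℝ) + 1) ≤ DD m n := by
    unfold DD
    have : (0 : ℝ) ≤ n := Nat.cast_nonneg n
    linarith
  have hn1 : ((n : ℝ) + 1) ≤ DD m n := by
    unfold DD
    have : (0 : ℝ) ≤ m := Nat.cast_nonneg m
    linarith
  have hmn : ((m : ℝ) + 1) + ((n : ℝ) + 1) = DD m n := by unfold DD; ring
  have hmft : ((m : ℝ) + 1) * ft m n ≤ 1 / 200 :=
    (mul_le_mul_of_nonneg_right hm1 hft.le).trans hDft
  have hnft : ((n : ℝ) + 1) * ft m n ≤ 1 / 200 :=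
    (mul_le_mul_of_nonneg_right hn1 hft.le).trans hDft
  -- the end of the stage
  have hdx : ∀ j, dx' j = 0 := fun j => (P.bdx j).2.2 (by have := j.2; omega)
  have htx : ∀ j, 0 ≤ tx' j ∧ tx' j ≤ ft m n := by
    intro j
    have h1 := P.btx j
    rw [if_neg (by have := j.2; omega), zero_add] at h1
    exact ⟨h1.1, h1.2.trans hc1⟩
  have hte : ∀ i, 0 ≤ te' i ∧ te' i ≤ ft m n := by
    intro i
    have h1 := P.bte i
    rw [if_neg (by have := hTL i (Nat.lt_succ_iff.1 i.2); omega), zero_add] at h1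
    exact ⟨h1.1, h1.2.trans hc2⟩
  set Z := ∑ j, dx j + 4 * ∑ j, tx j + 4 * ∑ i, te i with hZ
  have hz : z ≤ Z + 6 * ft m n := by
    have h1 := P.pot
    have h2 : 0 ≤ ∑ j, dx' j := sum_nonneg fun j _ => (P.bdx j).1
    have h3 : 0 ≤ ∑ j, tx' j := sum_nonneg fun j _ => (htx j).1
    have h4 : 0 ≤ ∑ i, te' i := sum_nonneg fun i _ => (hte i).1
    linarith
  have hZ28 : Z ≤ 28 / 10 := h.Zle
  have hKE : KE m n = Λ ^ At m n := rfl
  have hKE0 : 0 < KE m n := by rw [hKE]; positivity
  have hS : ∀ j, S' j = X * KE m n := by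
    intro j
    have h1 := P.sS j
    rw [hdx j, hAT j, hKx h.eta0 j, sub_zero] at h1
    have h2 : log (S' j / (X * Λ ^ At m n)) = 0 := abs_nonpos_iff.1 h1
    have h3 : 0 < S' j / (X * Λ ^ At m n) := by
      have := P.sta.Sp j
      positivity
    have h4 : S' j / (X * Λ ^ At m n) = 1 := by
      rw [← exp_log h3, h2, exp_zero]
    rw [div_eq_one_iff_eq (by positivity)] at h4
    exact h4
  set σ : Fin (n + 1) → ℝ := fun i => log (s' i / ε) + Bt m n * log Λ with hσ
  have hσz : ∀ i, |σ i| ≤ z := by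
    intro i
    have h1 := P.ss i
    rw [hBT i, hKe i, sub_self, sub_zero] at h1
    exact h1
  have hz0 : 0 ≤ z := (abs_nonneg _).trans (hσz 0)
  set μ : ℝ := (∑ i, σ i) / ((n : ℝ) + 1) with hμ
  have hn0 : (0 : ℝ) < (n : ℝ) + 1 := by positivity
  have hμz : |μ| ≤ z := by
    rw [hμ, abs_div, abs_of_pos hn0, div_le_iff₀ hn0]
    refine (abs_sum_le_sum_abs _ _).trans ?_
    refine (sum_le_sum fun i _ => hσz i).trans ?_
    rw [sum_const, card_univ, Fintype.card_fin, nsmul_eq_mul]
    push_cast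
    linarith
  set ε' : ℝ := ε * exp (μ - Bt m n * log Λ) with hε'
  have hε'0 : 0 < ε' := by positivity
  set η' : Fin (n + 1) → ℝ := fun i => σ i - μ with hη'
  have hs' : ∀ i, s' i = ε' * exp (η' i) := by
    intro i
    have h1 : 0 < s' i / ε := div_pos (P.sta.sp i) hε
    have h2 : s' i / ε = exp (σ i - Bt m n * log Λ) := by
      rw [hσ]
      simp only
      rw [add_sub_cancel_right, exp_log h1]
    have h3 : s' i = ε * exp (σ i - Bt m n * log Λ) := by
      rw [← h2]
      field_simp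
    rw [h3, hε', mul_assoc, ← exp_add, hη']
    congr 2
    ring
  have hη2 : ∀ i, |η' i| ≤ 2 * (Z + 6 * ft m n) := by
    intro i
    have h1 : |η' i| ≤ |σ i| + |μ| := abs_sub _ _
    have h2 := hσz i
    linarith
  -- sums of powers
  have hsum : ∀ a b : ℕ, ∑ t ∈ Ico a b, x ^ Phi m n t ≤ 2 * x ^ Phi m n a :=
    STG_sum hx0 (by linarith) (Phi m n) hPhi
  have hsumj : ∀ j : Fin (m + 1), ∑ t ∈ Ico ((j : ℕ) + 1) (TT m n), x ^ Phi m n t ≤
      2 * (x * x ^ be m n j) := by
    intro j
    refine (hsum _ _).trans ?_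
    have h1 := (hbe j (Nat.lt_succ_iff.1 j.2)).2.1
    have h2 : x ^ Phi m n ((j : ℕ) + 1) ≤ x ^ (be m n j + 1) :=
      pow_le_pow_of_le_one hx0.le (by linarith) h1
    rw [pow_succ, mul_comm] at h2
    linarith
  set C := CC m n with hCdef
  -- `40 exp (2 C) / Λ`
  have hxΛ : x * (2 * HH m n * exp (4 * C)) = 1 := by
    have h1 : 2 * HH m n * exp (4 * C) = Λ := by
      rw [← hLam]
      ring
    rw [h1, hx]
    field_simp
  have hH0 : 0 < HH m n := by linarith
  have hsmall : 40 * exp (2 * C) * x ≤ 1 / (60 * 3 ^ n) * exp (-C) := by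
    have h1 : x = 1 / (2 * HH m n * exp (4 * C)) := by
      rw [eq_div_iff (by positivity)]
      exact hxΛ
    have h2 : exp (2 * C) * (1 / exp (4 * C)) = exp (-(2 * C)) := by
      rw [one_div, ← exp_neg, ← exp_add]
      congr 1
      ring
    have h3 : exp (-(2 * C)) ≤ exp (-C) := exp_le_exp.2 (by linarith)
    have h4 : 20 / HH m n ≤ 1 / (60 * 3 ^ n) := by
      have h5 : 1 / HH m n ≤ ft m n := hHft
      have h6 : th m n ≤ 1 / (18000 * 3 ^ n) := hthn
      have h7 : (1 : ℝ) / (18000 * 3 ^ n) = 1 / (60 * 3 ^ n) / 300 := by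
        field_simp
        norm_num
      have h8 : 20 / HH m n = 20 * (1 / HH m n) := by ring
      rw [h8]
      rw [h7] at h6
      have h9 : (0 : ℝ) < 1 / (60 * 3 ^ n) := by positivity
      linarith
    calc 40 * exp (2 * C) * x = 20 / HH m n * (exp (2 * C) * (1 / exp (4 * C))) := by
          rw [h1]
          field_simp
          norm_num
      _ = 20 / HH m n * exp (-(2 * C)) := by rw [h2]
      _ ≤ 1 / (60 * 3 ^ n) * exp (-C) := by
          have : 0 < exp (-(2 * C)) := exp_pos _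
          gcongr
  have hxbe : ∀ j : Fin (m + 1), 20 * exp (2 * C) *
      ∑ t ∈ Ico ((j : ℕ) + 1) (TT m n), x ^ Phi m n t ≤ 1 / (60 * 3 ^ n) * exp (-C) * x ^ be m n j := by
    intro j
    calc 20 * exp (2 * C) * ∑ t ∈ Ico ((j : ℕ) + 1) (TT m n), x ^ Phi m n t
        ≤ 20 * exp (2 * C) * (2 * (x * x ^ be m n j)) := by
          gcongr
          exact hsumj j
      _ = (40 * exp (2 * C) * x) * x ^ be m n j := by ring
      _ ≤ 1 / (60 * 3 ^ n) * exp (-C) * x ^ be m n j := by gcongr
  refine ⟨F, Θ, ε', η', W', ?_, hη2, ?_, ?_⟩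
  · refine ⟨?_, by positivity, hε'0, ?_, ?_, ?_, ?_, fun _ => hft.le, ?_, fun _ => hft.le, ?_, ?_,
      ?_, ?_⟩
    · refine ⟨P.sta.good, P.sta.cen, fun _ => by positivity, fun i => by positivity, ?_, ?_,
        P.sta.hw⟩
      · intro j p
        have h1 := P.sta.hx j p
        rw [hS j] at h1
        refine h1.trans ?_
        have := (htx j).2
        gcongr
      · intro i p
        have h1 := P.sta.he i p
        rw [hs' i] at h1
        refine h1.trans ?_
        have := (hte i).2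
        gcongr
    · rw [hη', sum_sub_distrib, sum_const, card_univ, Fintype.card_fin, nsmul_eq_mul, hμ]
      push_cast
      field_simp
      ring
    · intro i
      have := hη2 i
      linarith
    · intro j
      rw [div_self (by positivity), log_one, abs_zero]
    · intro j
      constructor <;> norm_num
    · rw [sum_const, card_univ, Fintype.card_fin, nsmul_eq_mul]
      push_cast
      linarith
    · linarith
    · rw [sum_const, card_erase_of_mem (mem_univ _), card_univ, Fintype.card_fin, nsmul_eq_mul,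
        Nat.add_sub_cancel]
      have : (n : ℝ) * ft m n ≤ ((n : ℝ) + 1) * ft m n := by
        gcongr
        linarith
      linarith
    · intro k
      refine (P.sW k).trans ?_
      have h1 : Λ ^ Wx m n (TT m n) k ≤ Λ ^ At m n :=
        pow_le_pow_right₀ (by linarith) (hWT k).le
      have h2 : X * exp C * Λ ^ Wx m n (TT m n) k ≤ X * exp C * Λ ^ At m n := by gcongr
      rw [hKE]
      linarith
    · rw [sum_const_zero, sum_const, sum_const, card_univ, card_univ, Fintype.card_fin,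
        Fintype.card_fin, nsmul_eq_mul, nsmul_eq_mul]
      push_cast
      linarith
  · refine ⟨?_, ?_, ?_, ?_, ?_⟩
    · have h1 : log (ε' / ε) + Bt m n * log Λ = μ := by
        rw [hε', mul_div_cancel_left₀ _ hε.ne', log_exp]
        ring
      rw [h1]
      linarith
    · intro w R hR p
      have hR0 : 0 ≤ R := (abs_nonneg _).trans (hR 0)
      refine (P.mov w R hR p).trans ?_
      have h1 : ∑ t ∈ range (TT m n), x ^ Phi m n t ≤ 2 * x := by
        rw [← Nat.Ico_zero_eq_range]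
        refine (hsum 0 _).trans ?_
        have : x ^ Phi m n 0 ≤ x ^ 1 := pow_le_pow_of_le_one hx0.le (by linarith) hPhi0
        rw [pow_one] at this
        linarith
      calc 5 * exp (2 * C) * (ε / X) * R * ∑ t ∈ range (TT m n), x ^ Phi m n t
          ≤ 5 * exp (2 * C) * (ε / X) * R * (2 * x) := by gcongr
        _ = 10 * exp (2 * C) * (ε / X) * R / Λ := by
            rw [hx]
            ring
    · intro j p
      refine (P.mob j (by have := j.2; omega) p).trans ?_
      have h1 := hxbe j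
      have h2 : 1 / (60 * 3 ^ n) * exp (-C) * x ^ be m n j ≤ exp C * x ^ be m n j := by
        have h3 : (1 : ℝ) / (60 * 3 ^ n) ≤ 1 := by
          rw [div_le_one (by positivity)]
          have : (1 : ℝ) ≤ 3 ^ n := one_le_pow₀ (by norm_num)
          linarith
        have h4 : exp (-C) ≤ exp C := exp_le_exp.2 (by linarith)
        have h5 : 1 / (60 * 3 ^ n) * exp (-C) ≤ 1 * exp C := by gcongr
        rw [one_mul] at h5
        gcongr
      calc ε * (2 * exp C * x ^ be m n j + 20 * exp (2 * C) *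
            ∑ t ∈ Ico ((j : ℕ) + 1) (TT m n), x ^ Phi m n t)
          ≤ ε * (2 * exp C * x ^ be m n j + exp C * x ^ be m n j) :=
            mul_le_mul_of_nonneg_left (add_le_add le_rfl (h1.trans h2)) hε.le
        _ = 3 * ε * exp C * x ^ be m n j := by ring
    · intro k
      exact P.vis k (hTL k (Nat.lt_succ_iff.1 k.2))
    · intro k p
      exact (P.sta.hw k p).trans (P.sW k)
  · intro hte0 j
    refine le_trans ?_ (P.mol hte0 j (by have := j.2; omega))
    have h1 := hxbe j
    have h2 : (1 : ℝ) / (20 * 3 ^ n) - 1 / (60 * 3 ^ n) = 1 / (30 * 3 ^ n) := by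
      field_simp
      norm_num
    calc 1 / (30 * 3 ^ n) * exp (-C) * ε * x ^ be m n j
        = ε * (1 / (20 * 3 ^ n) * exp (-C) * x ^ be m n j -
            1 / (60 * 3 ^ n) * exp (-C) * x ^ be m n j) := by
          rw [← h2]
          ring
      _ ≤ ε * (1 / (20 * 3 ^ n) * exp (-C) * x ^ be m n j - 20 * exp (2 * C) *
            ∑ t ∈ Ico ((j : ℕ) + 1) (TT m n), x ^ Phi m n t) := by gcongr

end Pool.LG
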