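import Pool.Agent.Work.MP_7453a1_lg.Interface

set_option autoImplicit false

/-! # Block STP (helper84) -/

namespace Pool.LG

open Finset Real Filter

/-- the coordinate `p` of the error vector, as a homomorphism -/
noncomputable def STP_ev {m n : ℕ} (Θ : Mat m n) (p : Fin (n + 1)) : Pt m n →+ ℝ :=
  AddMonoidHom.mk' (fun w => ev Θ w p) (by
    intro a b
    have h1 : ∀ l, ((a + b).1 l : ℝ) = (a.1 l : ℝ) + (b.1 l : ℝ) := by
      intro l
      rw [Prod.fst_add, Pi.add_apply, Int.cast_add]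
    have h2 : ((a + b).2 p : ℝ) = (a.2 p : ℝ) + (b.2 p : ℝ) := by
      rw [Prod.snd_add, Pi.add_apply, Int.cast_add]
    simp only [ev, h1, h2, mul_add, Finset.sum_add_distrib]
    ring)

theorem STP_ev_apply {m n : ℕ} (Θ : Mat m n) (p : Fin (n + 1)) (w : Pt m n) :
    STP_ev Θ p w = ev Θ w p := rfl

/-- the linear form `∑ ξ l * x l` -/
noncomputable def STP_fu {m n : ℕ} (ξ : Fin (m + 1) → ℝ) : Pt m n →+ ℝ :=
  AddMonoidHom.mk' (fun w => ∑ l, ξ l * (w.1 l : ℝ)) (by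
    intro a b
    have h1 : ∀ l, ((a + b).1 l : ℝ) = (a.1 l : ℝ) + (b.1 l : ℝ) := by
      intro l
      rw [Prod.fst_add, Pi.add_apply, Int.cast_add]
    simp only [h1, mul_add, Finset.sum_add_distrib])

theorem STP_fu_apply {m n : ℕ} (ξ : Fin (m + 1) → ℝ) (w : Pt m n) :
    STP_fu ξ w = ∑ l, ξ l * (w.1 l : ℝ) := rfl

theorem STP_nxt {m n : ℕ} (F : Fr m n) (i : Fin (n + 1)) (j : Fin (m + 1))
    (c : Fin (n + 1) → ℤ) (d : Fin (m + 1) → ℤ) (φ : Pt m n →+ ℝ) :
    φ ((F.nxt i j c d).v j) = ∑ l, 2 * (d l : ℝ) * φ (F.v l) -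
      (φ (F.f i) + ∑ k, 2 * (c k : ℝ) * φ (F.f k)) := by
  have h1 : (F.nxt i j c d).v j = ∑ l, (2 * d l) • F.v l - ∑ k, (2 * c k) • F.f k - F.f i := by
    simp [Fr.nxt]
  rw [h1, map_sub, map_sub, map_sum, map_sum]
  simp only [map_zsmul]
  simp only [zsmul_eq_mul]
  push_cast
  ring

theorem p_STP (hDUA : Stmt_DUA) : Stmt_STP := by
  intro m n F Θ hcen i j c d S hD
  obtain ⟨Z, hZ1, hZ2, -⟩ := hDUA (m + 1) (Fr.X (F.nxt i j c d)) S hD
  have hv : ∀ l, l ≠ j → (F.nxt i j c d).v l = F.v l := by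
    intro l hl
    simp [Fr.nxt, hl]
  set E : Fin (n + 1) → ℝ := fun p => ev Θ (F.f i) p + ∑ k, 2 * (c k : ℝ) * ev Θ (F.f k) p with hE
  have hev : ∀ (w : Pt m n) p, ev (fun p l => Θ p l + E p * Z j l : Mat m n) w p =
      ev Θ w p + E p * ∑ l, Z j l * (w.1 l : ℝ) := by
    intro w p
    simp only [ev, add_mul, Finset.sum_add_distrib, Finset.mul_sum, mul_assoc]
    ring
  have hfu : ∀ l, STP_fu (n := n) (Z j) ((F.nxt i j c d).v l) = if l = j then 1 else 0 :=
    fun l => hZ1 j l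
  refine ⟨fun p l => Θ p l + E p * Z j l, Z j, ?_, hZ2 j, hev, ?_⟩
  · intro l p
    rw [hev]
    have h1 : ∑ q, Z j q * (((F.nxt i j c d).v l).1 q : ℝ) = if l = j then 1 else 0 := hfu l
    rw [h1]
    by_cases hl : l = j
    · rw [if_pos hl, hl, ← STP_ev_apply, STP_nxt]
      have h2 : ∑ l, 2 * (d l : ℝ) * STP_ev Θ p (F.v l) = 0 := by
        refine Finset.sum_eq_zero fun l _ => ?_
        rw [STP_ev_apply, hcen, mul_zero]
      rw [h2]
      simp only [hE, STP_ev_apply]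
      ring
    · rw [if_neg hl, hv l hl, hcen, mul_zero, add_zero]
  · have h1 := STP_nxt F i j c d (STP_fu (n := n) (Z j))
    rw [hfu j, if_pos rfl] at h1
    have h2 : ∑ l, 2 * (d l : ℝ) * STP_fu (n := n) (Z j) (F.v l) =
        2 * (d j : ℝ) * STP_fu (n := n) (Z j) (F.v j) := by
      rw [← Finset.add_sum_erase univ _ (Finset.mem_univ j)]
      have h3 : ∑ l ∈ univ.erase j, 2 * (d l : ℝ) * STP_fu (n := n) (Z j) (F.v l) = 0 := by
        refine Finset.sum_eq_zero fun l hl => ?_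
        have hlj := Finset.ne_of_mem_erase hl
        have h4 := hfu l
        rw [if_neg hlj, hv l hlj] at h4
        rw [h4, mul_zero]
      rw [h3, add_zero]
    rw [h2] at h1
    have h5 : ∑ l, Z j l * (F.U i l + ∑ k, 2 * (c k : ℝ) * F.U k l) =
        STP_fu (n := n) (Z j) (F.f i) + ∑ k, 2 * (c k : ℝ) * STP_fu (n := n) (Z j) (F.f k) := by
      simp only [STP_fu_apply, mul_add, Finset.sum_add_distrib, Finset.mul_sum, Fr.U]
      congr 1
      rw [Finset.sum_comm]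
      refine Finset.sum_congr rfl fun k _ => Finset.sum_congr rfl fun l _ => ?_
      ring
    have h6 : ∑ l, Z j l * F.X j l = STP_fu (n := n) (Z j) (F.v j) := rfl
    rw [h5, h6]
    linarith

end Pool.LG
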