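import Pool.Agent.Work.MP_7453a1_lg.Interface

set_option autoImplicit false

/-!
# Block STX: a step of the first kind
-/

namespace Pool.LG

open Finset Real

theorem STX_hold {ι : Type} [Fintype ι] (ξ g : ι → ℝ) (A B : ℝ) (hB : 0 ≤ B) (hξ : ∑ l, |ξ l| ≤ A)
    (hg : ∀ l, |g l| ≤ B) : |∑ l, ξ l * g l| ≤ A * B := by
  calc |∑ l, ξ l * g l| ≤ ∑ l, |ξ l * g l| := Finset.abs_sum_le_sum_abs _ _
    _ ≤ ∑ l, |ξ l| * B := Finset.sum_le_sum fun l _ => by
        rw [abs_mul]; exact mul_le_mul_of_nonneg_left (hg l) (abs_nonneg _)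
    _ = (∑ l, |ξ l|) * B := by rw [Finset.sum_mul]
    _ ≤ A * B := mul_le_mul_of_nonneg_right hξ hB

theorem STX_X {m n : ℕ} (F : Fr m n) (i : Fin (n + 1)) (j : Fin (m + 1)) (d : Fin (m + 1) → ℤ) (p : Fin (m + 1)) :
    Fr.X (F.nxt i j (fun _ => 0) d) j p = ∑ l, 2 * (d l : ℝ) * F.X l p - F.U i p := by
  have h : ((F.nxt i j (fun _ => 0) d).v j).1 p = ∑ l, 2 * d l * (F.v l).1 p - (F.f i).1 p := by
    simp [Fr.nxt, Prod.fst_sum, Finset.sum_apply]
  unfold Fr.X Fr.U
  rw [h]
  push_cast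
  rfl

theorem STX_X' {m n : ℕ} (F : Fr m n) (i : Fin (n + 1)) (j : Fin (m + 1)) (c : Fin (n + 1) → ℤ)
    (d : Fin (m + 1) → ℤ) {l : Fin (m + 1)} (hl : l ≠ j) : (F.nxt i j c d).v l = F.v l := by
  simp [Fr.nxt, Function.update_of_ne hl]

theorem STX_f' {m n : ℕ} (F : Fr m n) (i : Fin (n + 1)) (j : Fin (m + 1)) (c : Fin (n + 1) → ℤ)
    (d : Fin (m + 1) → ℤ) {k : Fin (n + 1)} (hk : k ≠ i) : (F.nxt i j c d).f k = F.f k := by
  simp [Fr.nxt, Function.update_of_ne hk]

theorem STX_f {m n : ℕ} (F : Fr m n) (i : Fin (n + 1)) (j : Fin (m + 1)) (c : Fin (n + 1) → ℤ)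
    (d : Fin (m + 1) → ℤ) : (F.nxt i j c d).f i = F.v j := by
  simp [Fr.nxt]

theorem p_STX (hGOD : Stmt_GOD) (hDUA : Stmt_DUA) (hPAT : Stmt_PAT) (hLGI : Stmt_LGI) (hSTP : Stmt_STP)
    (hDMS : Stmt_DMS) : Stmt_STX := by
  intro m n H hH F Θ S tx s W te hsta htx i j S' hte hS hWs hWi
  have hD : (2 : ℝ) ≤ DD m n := by
    unfold DD
    have h1 : (0 : ℝ) ≤ m := Nat.cast_nonneg m
    have h2 : (0 : ℝ) ≤ n := Nat.cast_nonneg n
    linarith
  have hH2 : (2000 : ℝ) ≤ H := by linarith
  have hH0 : (0 : ℝ) < H := by linarith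
  have hSp := hsta.Sp
  have hsp := hsta.sp
  have hSj := hSp j
  have hsi := hsp i
  have hS'0 : 0 < S' := lt_of_lt_of_le (mul_pos hH0 (hSp j)) (hS j)
  have hinvH : 1 / H ≤ 1 / 2000 := one_div_le_one_div_of_le (by norm_num) hH2
  have hinvH0 : 0 < 1 / H := one_div_pos.2 hH0
  -- the tolerances are nonnegative
  have htx0 : ∀ l, 0 ≤ tx l := by
    intro l
    have h := le_trans (abs_nonneg _) (hsta.hx l l)
    exact nonneg_of_mul_nonneg_left h (hSp l)
  have htxj : tx j ≤ 9 / 100 := le_trans (Finset.single_le_sum (fun l _ => htx0 l) (mem_univ j)) htx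
  have hW0 : ∀ k, 0 ≤ W k := fun k => le_trans (abs_nonneg _) (hsta.hw k 0)
  -- the old frame
  obtain ⟨hDm, hcol, h32⟩ := hDMS m (pP m) (Or.inl rfl) F.X S tx hSp hsta.hx (by linarith)
  obtain ⟨Z, hZ1, hZ2, hZ3⟩ := hDUA (m + 1) F.X S hDm
  set T : Fin (m + 1) → ℝ := fun p => S' * pP m j p + F.U i p with hT
  set γ : Fin (m + 1) → ℝ := fun l => ∑ q, Z l q * T q with hγ
  have hγT : ∀ p, ∑ l, γ l * F.X l p = T p := by
    intro p
    have h1 : ∀ l, γ l * F.X l p = ∑ q, F.X l p * Z l q * T q := by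
      intro l
      simp only [hγ]
      rw [Finset.sum_mul]
      exact Finset.sum_congr rfl fun q _ => by ring
    rw [Finset.sum_congr rfl fun l _ => h1 l, Finset.sum_comm]
    have h2 : ∀ q, ∑ l, F.X l p * Z l q * T q = (if p = q then 1 else 0) * T q := by
      intro q
      rw [← Finset.sum_mul, hZ3]
    rw [Finset.sum_congr rfl fun q _ => h2 q]
    simp
  set d : Fin (m + 1) → ℤ := fun l => round (γ l / 2) with hd
  set θ : Fin (m + 1) → ℝ := fun l => 2 * (d l : ℝ) - γ l with hθ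
  have hθ1 : ∀ l, |θ l| ≤ 1 := by
    intro l
    have h1 := abs_sub_round (γ l / 2)
    have h2 : θ l = -2 * (γ l / 2 - (round (γ l / 2) : ℝ)) := by simp only [hθ, hd]; ring
    rw [h2, abs_mul]
    have : |(-2 : ℝ)| = 2 := by norm_num
    rw [this]; linarith
  set F' := F.nxt i j (fun _ => 0) d with hF'
  have hXj : ∀ p, F'.X j p = S' * pP m j p + ∑ l, θ l * F.X l p := by
    intro p
    rw [hF', STX_X]
    have h1 : ∑ l, 2 * (d l : ℝ) * F.X l p = ∑ l, γ l * F.X l p + ∑ l, θ l * F.X l p := by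
      rw [← Finset.sum_add_distrib]
      exact Finset.sum_congr rfl fun l _ => by simp only [hθ]; ring
    rw [h1, hγT]
    simp only [hT]; ring
  have hθX : ∀ p, |∑ l, θ l * F.X l p| ≤ 2 / H * S' := by
    intro p
    have h1 : |∑ l, θ l * F.X l p| ≤ ∑ l, S' / H * (|F.X l p| / S l) := by
      refine le_trans (Finset.abs_sum_le_sum_abs _ _) (Finset.sum_le_sum fun l _ => ?_)
      rw [abs_mul]
      have h2 : S l ≤ S' / H := by rw [le_div_iff₀ hH0]; linarith [hS l]
      have h3 : |θ l| * |F.X l p| ≤ 1 * |F.X l p| := mul_le_mul_of_nonneg_right (hθ1 l) (abs_nonneg _)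
      have h4 : |F.X l p| = S l * (|F.X l p| / S l) := by field_simp [(hSp l).ne']
      calc |θ l| * |F.X l p| ≤ |F.X l p| := by linarith
        _ = S l * (|F.X l p| / S l) := h4
        _ ≤ S' / H * (|F.X l p| / S l) :=
          mul_le_mul_of_nonneg_right h2 (div_nonneg (abs_nonneg _) (hSp l).le)
    rw [← Finset.mul_sum] at h1
    have h5 : S' / H * ∑ l, |F.X l p| / S l ≤ S' / H * (33 / 20) :=
      mul_le_mul_of_nonneg_left (hcol p) (div_nonneg hS'0.le hH0.le)
    have h6 : 2 / H * S' = S' / H * 2 := by ring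
    have h7 : 0 ≤ S' / H := div_nonneg hS'0.le hH0.le
    rw [h6]; nlinarith
  -- the new sizes and tolerances
  set S1 := Function.update S j S' with hS1
  set tx1 := Function.update tx j (2 / H) with htx1
  have hS1j : S1 j = S' := by simp [hS1]
  have hS1l : ∀ l, l ≠ j → S1 l = S l := fun l hl => by simp [hS1, Function.update_of_ne hl]
  have htx1j : tx1 j = 2 / H := by simp [htx1]
  have htx1l : ∀ l, l ≠ j → tx1 l = tx l := fun l hl => by simp [htx1, Function.update_of_ne hl]
  have hS1p : ∀ l, 0 < S1 l := by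
    intro l
    by_cases hl : l = j
    · rw [hl, hS1j]; exact hS'0
    · rw [hS1l l hl]; exact hSp l
  have hx1 : ∀ l p, |F'.X l p - S1 l * pP m l p| ≤ tx1 l * S1 l := by
    intro l p
    by_cases hl : l = j
    · rw [hl, hS1j, htx1j, hXj]
      have : S' * pP m j p + ∑ l, θ l * F.X l p - S' * pP m j p = ∑ l, θ l * F.X l p := by ring
      rw [this]; exact hθX p
    · rw [hS1l l hl, htx1l l hl]
      have : F'.X l p = F.X l p := by unfold Fr.X; rw [hF', STX_X' F i j _ d hl]
      rw [this]; exact hsta.hx l p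
  have htx1s : ∑ l, tx1 l ≤ 1 / 10 := by
    have h1 : ∑ l, tx1 l = ∑ l ∈ univ.erase j, tx1 l + tx1 j := (Finset.sum_erase_add _ _ (mem_univ j)).symm
    have h2 : ∑ l, tx l = ∑ l ∈ univ.erase j, tx l + tx j := (Finset.sum_erase_add _ _ (mem_univ j)).symm
    have h3 : ∑ l ∈ univ.erase j, tx1 l = ∑ l ∈ univ.erase j, tx l :=
      Finset.sum_congr rfl fun l hl => htx1l l (Finset.ne_of_mem_erase hl)
    have h4 : 2 / H = 2 * (1 / H) := by ring
    rw [h1, h3, htx1j, h4]
    linarith [htx0 j]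
  obtain ⟨hDm1, -, -⟩ := hDMS m (pP m) (Or.inl rfl) F'.X S1 tx1 hS1p hx1 htx1s
  obtain ⟨Θ', ξ, hcen, hξ, hev, hq⟩ := hSTP m n F Θ hsta.cen i j (fun _ => 0) d S1 hDm1
  rw [hS1j] at hξ
  simp only [Int.cast_zero, mul_zero, zero_mul, Finset.sum_const_zero, add_zero] at hev hq
  -- the error of f i
  set E : Fin (n + 1) → ℝ := fun p => ev Θ (F.f i) p with hE
  have hEb : ∀ p, |E p| ≤ 48 / 25 * s i := by
    intro p
    have h1 := hsta.he i p
    obtain ⟨-, hQ, -⟩ := hPAT n
    have h2 := (hQ i p)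
    have h3 : |E p| ≤ |E p - s i * pQ n i p| + |s i * pQ n i p| := by
      have := abs_add_le (E p - s i * pQ n i p) (s i * pQ n i p)
      rwa [sub_add_cancel] at this
    have h4 : |s i * pQ n i p| ≤ 7 / 5 * s i := by
      rw [abs_mul, abs_of_pos hsi, abs_of_nonneg h2.1]
      nlinarith [h2.2]
    have h5 : te i * s i ≤ 13 / 25 * s i := mul_le_mul_of_nonneg_right hte hsi.le
    have h6 : |E p - s i * pQ n i p| ≤ te i * s i := h1
    linarith
  have hmv : ∀ (g : Fin (m + 1) → ℝ) (R : ℝ), 0 ≤ R → (∀ l, |g l| ≤ R) → ∀ p,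
      |E p * ∑ l, ξ l * g l| ≤ 3 * (s i * R / S') := by
    intro g R hR hg p
    have h1 := STX_hold ξ g _ R hR hξ hg
    rw [abs_mul]
    have h2 : |E p| * |∑ l, ξ l * g l| ≤ (48 / 25 * s i) * (25 / (16 * S') * R) :=
      mul_le_mul (hEb p) h1 (abs_nonneg _) (by positivity)
    have h3 : (48 / 25 * s i) * (25 / (16 * S') * R) = 3 * (s i * R / S') := by
      field_simp
      ring
    rw [h3] at h2; exact h2
  -- y
  set y : ℝ := ∑ l, ξ l * F.U i l with hy
  have hyb : |y| ≤ 25 / 16 * (1 / H) := by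
    have h1 := STX_hold ξ (fun l => F.U i l) _ (W i) (hW0 i) hξ (fun l => hsta.hw i l)
    have h2 : 25 / (16 * S') * W i ≤ 25 / 16 * (1 / H) := by
      have h3 : W i ≤ S' / H := by rw [le_div_iff₀ hH0]; linarith
      calc 25 / (16 * S') * W i ≤ 25 / (16 * S') * (S' / H) := mul_le_mul_of_nonneg_left h3 (by positivity)
        _ = 25 / 16 * (1 / H) := by field_simp
    exact le_trans h1 h2
  -- u
  set u : ℝ := 2 * (d j : ℝ) * S j / S' - 1 with hu
  have hub : |u| ≤ 25 / 16 * tx j + 25 / 16 * (1 / H) + 1 / H := by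
    have h1 : γ j = S' / S j + ∑ q, Z j q * (F.U i q - S' / S j * (F.X j q - S j * pP m j q)) := by
      have h2 : ∀ q, Z j q * T q = S' / S j * (Z j q * F.X j q) +
          Z j q * (F.U i q - S' / S j * (F.X j q - S j * pP m j q)) := by
        intro q
        simp only [hT]
        field_simp
        ring
      have h3 := hZ1 j j
      rw [if_pos rfl] at h3
      change ∑ q, Z j q * T q = _
      rw [Finset.sum_congr rfl fun q _ => h2 q, Finset.sum_add_distrib, ← Finset.mul_sum, h3, mul_one]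
    have h4 : |∑ q, Z j q * (F.U i q - S' / S j * (F.X j q - S j * pP m j q))| ≤
        25 / (16 * S j) * (W i + S' * tx j) := by
      refine STX_hold _ _ _ _ (by have := hW0 i; have := htx0 j; positivity) (hZ2 j) fun q => ?_
      refine le_trans (abs_sub _ _) ?_
      have h5 := hsta.hw i q
      have h6 : |S' / S j * (F.X j q - S j * pP m j q)| ≤ S' * tx j := by
        rw [abs_mul, abs_of_pos (div_pos hS'0 hSj)]
        calc S' / S j * |F.X j q - S j * pP m j q| ≤ S' / S j * (tx j * S j) :=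
              mul_le_mul_of_nonneg_left (hsta.hx j q) (div_pos hS'0 hSj).le
          _ = S' * tx j := by field_simp
      linarith
    have h7 : u = (∑ q, Z j q * (F.U i q - S' / S j * (F.X j q - S j * pP m j q))) * (S j / S') +
        θ j * (S j / S') := by
      have h8 : 2 * (d j : ℝ) = γ j + θ j := by simp only [hθ]; ring
      rw [hu, h8, h1]
      field_simp
      ring
    have hr0 : 0 < S j / S' := div_pos hSj hS'0
    have hr1 : S j / S' ≤ 1 / H := by
      rw [div_le_div_iff₀ hS'0 hH0]; linarith [hS j]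
    have h9 : W i / S' ≤ 1 / H := by
      rw [div_le_div_iff₀ hS'0 hH0]; linarith
    rw [h7]
    refine le_trans (abs_add_le _ _) ?_
    rw [abs_mul, abs_mul, abs_of_pos hr0]
    have h10 : |∑ q, Z j q * (F.U i q - S' / S j * (F.X j q - S j * pP m j q))| * (S j / S') ≤
        25 / (16 * S j) * (W i + S' * tx j) * (S j / S') := mul_le_mul_of_nonneg_right h4 hr0.le
    have h11 : 25 / (16 * S j) * (W i + S' * tx j) * (S j / S') = 25 / 16 * (W i / S') + 25 / 16 * tx j := by
      field_simp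
    have h12 : |θ j| * (S j / S') ≤ 1 * (1 / H) := mul_le_mul (hθ1 j) hr1 hr0.le (by norm_num)
    rw [h11] at h10
    linarith
  have hu17 : |u| ≤ 17 / 20 := by linarith
  have hy17 : |y| ≤ 17 / 20 := by linarith
  have hu1 : 0 < 1 + u := by have := (abs_le.1 hu17).1; linarith
  have hy1 : 0 < 1 + y := by have := (abs_le.1 hy17).1; linarith
  have hdj : 2 * (d j : ℝ) = (1 + u) * (S' / S j) := by rw [hu]; field_simp; ring
  have hdj0 : 0 < 2 * (d j : ℝ) := by rw [hdj]; positivity
  set q : ℝ := ∑ l, ξ l * F.X j l with hqd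
  have hqe : q = (1 + y) / (2 * (d j : ℝ)) := by
    rw [eq_div_iff hdj0.ne', mul_comm]; exact hq
  have hq0 : 0 < q := by rw [hqe]; positivity
  have hlog : q * S' / S j = (1 + y) / (1 + u) := by
    rw [hqe, hdj]; field_simp
  refine ⟨F', Θ', q * s i, ⟨?_, ?_, ?_, ?_, ?_, ?_, ?_⟩, STX_f F i j _ d, fun k hk => STX_f' F i j _ d hk,
    fun l hl => STX_X' F i j _ d hl, ?_, ?_⟩
  · exact hGOD m n F i j (fun _ => 0) d rfl hsta.good
  · exact hcen
  · exact hS1p
  · intro k
    by_cases hk : k = i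
    · rw [hk, Function.update_self]; exact mul_pos hq0 hsi
    · rw [Function.update_of_ne hk]; exact hsp k
  · exact hx1
  · intro k p
    by_cases hk : k = i
    · subst hk
      rw [Function.update_self, if_pos rfl, hF', STX_f, hev, hsta.cen j p, zero_add]
      change |E p * q - q * s k * pQ n k p| ≤ te k * (q * s k)
      have h1 : E p * q - q * s k * pQ n k p = q * (E p - s k * pQ n k p) := by ring
      rw [h1, abs_mul, abs_of_pos hq0]
      have h2 := mul_le_mul_of_nonneg_left (hsta.he k p) hq0.le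
      linarith
    · rw [Function.update_of_ne hk, if_neg hk, hF', STX_f' F i j _ d hk, hev]
      have h1 := hmv (fun l => F.U k l) (W k) (hW0 k) (fun l => hsta.hw k l) p
      have h2 : 3 * (s i * W k / S') ≤ 5 / H * s k := by
        have h3 : s i * W k / S' ≤ s k / H := by
          rw [div_le_div_iff₀ hS'0 hH0]; linarith [hWs k hk]
        have h4 : 0 ≤ s k / H := div_nonneg (hsp k).le hH0.le
        have h5 : 5 / H * s k = 5 * (s k / H) := by ring
        rw [h5]; linarith
      have h6 : |ev Θ (F.f k) p - s k * pQ n k p| ≤ te k * s k := hsta.he k p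
      have h7 : ev Θ (F.f k) p + E p * ∑ l, ξ l * ((F.f k).1 l : ℝ) - s k * pQ n k p =
          (ev Θ (F.f k) p - s k * pQ n k p) + E p * ∑ l, ξ l * F.U k l := by
        unfold Fr.U; ring
      change |ev Θ (F.f k) p + E p * ∑ l, ξ l * ((F.f k).1 l : ℝ) - s k * pQ n k p| ≤ _
      rw [h7]
      refine le_trans (abs_add_le _ _) ?_
      rw [add_mul]
      linarith
  · intro k p
    by_cases hk : k = i
    · subst hk
      rw [Function.update_self]
      have h1 : F'.U k p = F.X j p := by unfold Fr.U Fr.X; rw [hF', STX_f]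
      rw [h1]; exact h32 j p
    · rw [Function.update_of_ne hk]
      have h1 : F'.U k p = F.U k p := by unfold Fr.U; rw [hF', STX_f' F i j _ d hk]
      rw [h1]; exact hsta.hw k p
  · have h1 : q * s i * S' / (s i * S j) = (1 + y) / (1 + u) := by
      rw [← hlog]; field_simp
    rw [h1, Real.log_div hy1.ne' hu1.ne']
    refine le_trans (abs_sub _ _) ?_
    have h2 := hLGI y hy17
    have h3 := hLGI u hu17
    have h4 : 12 / H = 12 * (1 / H) := by ring
    rw [h4]
    have h5 := htx0 j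
    linarith
  · intro w R hw p
    have hR : 0 ≤ R := le_trans (abs_nonneg _) (hw 0)
    have h1 := hmv (fun l => (w.1 l : ℝ)) R hR hw p
    rw [hev]
    have h2 : ev Θ w p + ev Θ (F.f i) p * ∑ l, ξ l * (w.1 l : ℝ) - ev Θ w p = E p * ∑ l, ξ l * (w.1 l : ℝ) := by
      simp only [hE]; ring
    rw [h2]
    refine le_trans h1 ?_
    have h3 : 0 ≤ s i * R / S' := by positivity
    have h4 : 5 * s i / S' * R = 5 * (s i * R / S') := by ring
    rw [h4]; linarith

end Pool.LG
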