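import Pool.Agent.Work.MP_7453a1_lg.HandIn
import Pool.Agent.Work.MP_7453a1_lg.B_GOD
import Pool.Agent.Work.MP_7453a1_lg.B_DUA
import Pool.Agent.Work.MP_7453a1_lg.B_PAT
import Pool.Agent.Work.MP_7453a1_lg.B_LGI
import Pool.Agent.Work.MP_7453a1_lg.B_CST
import Pool.Agent.Work.MP_7453a1_lg.B_STP
import Pool.Agent.Work.MP_7453a1_lg.B_DMS
import Pool.Agent.Work.MP_7453a1_lg.B_STX
import Pool.Agent.Work.MP_7453a1_lg.B_STE
import Pool.Agent.Work.MP_7453a1_lg.B_UMO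
import Pool.Agent.Work.MP_7453a1_lg.B_LNK
import Pool.Agent.Work.MP_7453a1_lg.B_SCH
import Pool.Agent.Work.MP_7453a1_lg.B_KTO
import Pool.Agent.Work.MP_7453a1_lg.B_BNS
import Pool.Agent.Work.MP_7453a1_lg.B_PHC
import Pool.Agent.Work.MP_7453a1_lg.B_PHX
import Pool.Agent.Work.MP_7453a1_lg.B_PHE
import Pool.Agent.Work.MP_7453a1_lg.B_PHT
import Pool.Agent.Work.MP_7453a1_lg.B_STG
import Pool.Agent.Work.MP_7453a1_lg.B_INI
import Pool.Agent.Work.MP_7453a1_lg.B_SEQ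
import Pool.Agent.Work.MP_7453a1_lg.B_LMT
import Pool.Agent.Work.MP_7453a1_lg.B_CLF
import Pool.Agent.Work.MP_7453a1_lg.B_ORD
import Pool.Agent.Work.MP_7453a1_lg.B_CEC
import Pool.Agent.Work.MP_7453a1_lg.B_APX
import Pool.Agent.Work.MP_7453a1_lg.B_CLC
import Pool.Agent.Work.MP_7453a1_lg.B_NMA
import Pool.Agent.Work.MP_7453a1_lg.B_NMB
import Pool.Agent.Work.MP_7453a1_lg.B_BST
import Pool.Agent.Work.MP_7453a1_lg.B_CNT
import Pool.Agent.Work.MP_7453a1_lg.B_BRG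
import Pool.Agent.Work.MP_7453a1_lg.B_LM2
import Pool.Agent.Work.MP_7453a1_lg.B_NUM
import Pool.Agent.Work.MP_7453a1_lg.B_FIN

set_option autoImplicit false

/-! # The upper bound for all `m, n`: composition of the blocks -/

namespace Pool.LG

theorem q_STP : Stmt_STP := p_STP p_DUA
theorem q_DMS : Stmt_DMS := p_DMS p_PAT
theorem q_STX : Stmt_STX := p_STX p_GOD p_DUA p_PAT p_LGI q_STP q_DMS
theorem q_STE : Stmt_STE := p_STE p_GOD p_DUA p_PAT p_LGI q_STP q_DMS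
theorem q_LNK : Stmt_LNK := p_LNK p_UMO
theorem q_SCH : Stmt_SCH := p_SCH p_UMO q_LNK
theorem q_BNS : Stmt_BNS := p_BNS p_CST p_KTO
theorem q_PHC : Stmt_PHC := p_PHC p_PAT p_CST q_BNS
theorem q_PHX : Stmt_PHX := p_PHX p_CST q_STX q_SCH q_BNS q_PHC
theorem q_PHE : Stmt_PHE := p_PHE p_CST q_STE q_SCH q_BNS q_PHC
theorem q_PHT : Stmt_PHT := p_PHT p_CST q_PHX q_PHE
theorem q_STG : Stmt_STG := p_STG p_CST q_PHT q_SCH p_KTO
theorem q_INI : Stmt_INI := p_INI p_PAT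
theorem q_SEQ : Stmt_SEQ := p_SEQ p_CST q_STG q_INI
theorem q_CLF : Stmt_CLF := p_CLF p_PAT p_CST q_SCH q_SEQ p_LMT
theorem q_CEC : Stmt_CEC := p_CEC p_PAT p_CST
theorem q_APX : Stmt_APX := p_APX p_CST
theorem q_CLC : Stmt_CLC := p_CLC p_PAT p_CST q_APX
theorem q_NMA : Stmt_NMA := p_NMA p_PAT p_CST q_APX q_CLC p_ORD
theorem q_NMB : Stmt_NMB := p_NMB p_PAT p_CST q_APX q_CLC p_ORD
theorem q_BST : Stmt_BST := p_BST q_CLC q_CEC
theorem q_CNT : Stmt_CNT := p_CNT p_PAT p_CST q_NMA q_NMB q_BST p_ORD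
theorem q_FIN : Stmt_FIN := p_FIN q_CLF q_CNT p_BRG p_LM2 p_NUM

end Pool.LG
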