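import Pool.Agent.Work.MP_7453a1_lg.Interface

set_option autoImplicit false

/-! # Block BRG -/

namespace Pool.LG

open Finset Real Filter
open Pool.Agent.Work.MP_7453a1_nt_two (Admissible IsBest Lengths G g len err)
open Pool.LE (sn)

theorem p_BRG : Stmt_BRG := by
  intro m n Θ z hz
  refine ⟨z.1, z.2, ⟨hz.1, ?_⟩, rfl⟩
  intro x' y' h1 h2
  rcases hz.2 (x', y') h1 h2 with h | h | h
  · exact Or.inl ⟨congrArg Prod.fst h, congrArg Prod.snd h⟩
  · exact Or.inr (Or.inl ⟨congrArg Prod.fst h, congrArg Prod.snd h⟩)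
  · exact Or.inr (Or.inr ⟨congrArg Prod.fst h, congrArg Prod.snd h⟩)

end Pool.LG
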