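import Pool.Agent.Work.MP_7453a1_lg.Interface

set_option autoImplicit false

/-! # Block SEQ: the sequence of the stages -/

namespace Pool.LG

open Finset Real

/-- the data at the beginning of a stage -/
abbrev SEQ_T (m n : ℕ) : Type :=
  Fr m n × Mat m n × ℝ × (Fin (n + 1) → ℝ) × (Fin (n + 1) → ℝ)

/-- they are the beginning of stage `s` -/
def SEQ_P (m n s : ℕ) (t : SEQ_T m n) : Prop :=
  Start m n t.1 t.2.1 (KE m n ^ (s + 1)) t.2.2.1 (fun _ => KE m n ^ (s + 1)) (fun _ => 0)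
    (fun _ => ft m n) t.2.2.2.1 (fun _ => ft m n) t.2.2.2.2

/-- the relation between two consecutive stages -/
def SEQ_R (m n s : ℕ) (t t' : SEQ_T m n) : Prop :=
  (∀ i, |t'.2.2.2.1 i| ≤ th m n / 5) ∧
    Nx m n t.1 t.2.1 (KE m n ^ (s + 1)) t.2.2.1 t'.1 t'.2.1 t'.2.2.1 ∧
    (∀ j : Fin (m + 1), 1 / (30 * 3 ^ n) * exp (-CC m n) * t.2.2.1 * (1 / Lam m n) ^ be m n j ≤
      ev t'.2.1 (t.1.v j) (Fin.last n))

theorem SEQ_exists {T : Type} {P : ℕ → T → Prop} {R : ℕ → T → T → Prop} (h0 : ∃ t, P 0 t)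
    (hs : ∀ s t, P s t → ∃ t', P (s + 1) t' ∧ R s t t') :
    ∃ u : ℕ → T, ∀ s, P s (u s) ∧ R s (u s) (u (s + 1)) := by
  classical
  obtain ⟨t0, ht0⟩ := h0
  let u : ∀ s : ℕ, {t : T // P s t} := fun s =>
    Nat.rec (motive := fun s => {t : T // P s t}) ⟨t0, ht0⟩
      (fun s t => ⟨(hs s t.1 t.2).choose, (hs s t.1 t.2).choose_spec.1⟩) s
  exact ⟨fun s => (u s).1, fun s => ⟨(u s).2, (hs s (u s).1 (u s).2).choose_spec.2⟩⟩

theorem p_SEQ (hCST : Stmt_CST) (hSTG : Stmt_STG) (hINI : Stmt_INI) : Stmt_SEQ := by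
  intro m n
  obtain ⟨hD, -, -, -, -, -, -, hft, hthft, -⟩ := hCST m n
  have key : ∃ u : ℕ → SEQ_T m n, ∀ s, SEQ_P m n s (u s) ∧ SEQ_R m n s (u s) (u (s + 1)) := by
    apply SEQ_exists
    · obtain ⟨F, Θ, ε, S, dx, tx, η, te, W, h⟩ := hINI m n
      obtain ⟨F', Θ', ε', η', W', h', -⟩ := hSTG m n F Θ 1 ε S dx tx η te W h
      refine ⟨(F', Θ', ε', η', W'), ?_⟩
      rw [one_mul] at h'
      unfold SEQ_P
      rw [zero_add, pow_one]
      exact h'
    · intro s t ht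
      obtain ⟨F', Θ', ε', η', W', h', hη, hN, hl⟩ := hSTG m n t.1 t.2.1 (KE m n ^ (s + 1)) t.2.2.1
        (fun _ => KE m n ^ (s + 1)) (fun _ => 0) (fun _ => ft m n) t.2.2.2.1 (fun _ => ft m n)
        t.2.2.2.2 ht
      refine ⟨(F', Θ', ε', η', W'), ?_, ?_, hN, ?_⟩
      · unfold SEQ_P
        rw [← pow_succ] at h'
        exact h'
      · intro i
        refine (hη i).trans ?_
        rw [Finset.sum_const, Finset.sum_const, Finset.sum_const, Finset.card_univ, Finset.card_univ,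
          Fintype.card_fin, Fintype.card_fin]
        simp only [nsmul_eq_mul]
        have h1 : ((m + 1 : ℕ) : ℝ) + ((n + 1 : ℕ) : ℝ) = DD m n := by
          unfold DD
          push_cast
          ring
        have h2 : 2 * ft m n ≤ DD m n * ft m n := mul_le_mul_of_nonneg_right hD hft.le
        have h3 : (((m + 1 : ℕ) : ℝ) + ((n + 1 : ℕ) : ℝ)) * ft m n = DD m n * ft m n := by rw [h1]
        nlinarith [h2, h3, hthft]
      · exact hl fun _ => le_rfl
  obtain ⟨u, hu⟩ := key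
  exact ⟨fun s => (u s).1, fun s => (u s).2.1, fun s => (u s).2.2.1, fun s => (u s).2.2.2.1,
    fun s => (u s).2.2.2.2, fun s => ⟨(hu s).1, (hu s).2.1, (hu s).2.2.1, (hu s).2.2.2⟩⟩

end Pool.LG
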