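import Pool.Agent.Work.MP_7453a1_lg.Interface

set_option autoImplicit false

namespace Pool.LG

open Finset Real Filter

theorem UMO_succ (L p t c : ℕ) :
    V L p (t + 1) c = V L p t c + (if t % p = c then rr L t else 0) := by
  unfold V
  rw [Finset.sum_range_succ]

theorem UMO_mono (L p c : ℕ) : Monotone (fun t => V L p t c) := by
  apply monotone_nat_of_le_succ
  intro t
  show V L p t c ≤ V L p (t + 1) c
  rw [UMO_succ]
  exact Nat.le_add_right _ _

theorem UMO_gap (L p s k : ℕ) (hk : k < p) :
    V L p (s + 1 + k) (s % p) = V L p (s + 1) (s % p) := by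
  induction k with
  | zero => rfl
  | succ k ih =>
    have h1 : V L p (s + 1 + (k + 1)) (s % p) = V L p (s + 1 + k) (s % p) +
        (if (s + 1 + k) % p = s % p then rr L (s + 1 + k) else 0) :=
      UMO_succ L p (s + 1 + k) (s % p)
    rw [h1, ih (by omega), if_neg]
    · rfl
    · intro h
      have h2 : p ∣ s + 1 + k - s :=
        (Nat.modEq_iff_dvd' (by omega)).1 (Nat.ModEq.symm h)
      exact absurd (Nat.le_of_dvd (by omega) h2) (by omega)

theorem UMO_bz (L p t : ℕ) (h : t < p) : V L p t (t % p) = 0 := by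
  unfold V
  apply Finset.sum_eq_zero
  intro u hu
  rw [Finset.mem_range] at hu
  rw [Nat.mod_eq_of_lt h, Nat.mod_eq_of_lt (by omega), if_neg (by omega)]

theorem UMO_bs (L p s : ℕ) (hp : 0 < p) :
    V L p (s + p) ((s + p) % p) = V L p (s + 1) (s % p) := by
  rw [Nat.add_mod_right]
  have h := UMO_gap L p s (p - 1) (by omega)
  have h2 : s + 1 + (p - 1) = s + p := by omega
  rw [h2] at h
  exact h

theorem UMO_a (L p t : ℕ) : V L p (t + 1) (t % p) = V L p t (t % p) + rr L t := by
  rw [UMO_succ, if_pos rfl]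

theorem UMO_last (L p t : ℕ) (h1 : t < 2 * L) (h2 : 2 * L ≤ t + p) :
    V L p (t + 1) (t % p) = V L p (2 * L) (t % p) := by
  have h := UMO_gap L p t (2 * L - (t + 1)) (by omega)
  have h3 : t + 1 + (2 * L - (t + 1)) = 2 * L := by omega
  rw [h3] at h
  exact h.symm

theorem UMO_ble (L p : ℕ) (hp : 0 < p) :
    ∀ t, t + 1 ≤ L → V L p t (t % p) ≤ V L p (t + 1) ((t + 1) % p) := by
  intro t
  induction t using Nat.strong_induction_on with
  | _ t ih =>
    intro ht
    rcases Nat.lt_or_ge t p with h | h
    · rw [UMO_bz L p t h]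
      exact Nat.zero_le _
    · obtain ⟨s, rfl⟩ : ∃ s, t = s + p := ⟨t - p, by omega⟩
      have e1 := UMO_bs L p s hp
      have e2 := UMO_bs L p (s + 1) hp
      have e3 := UMO_a L p s
      have e4 := UMO_a L p (s + 1)
      have e5 := ih s (by omega) (by omega)
      have e6 : s + p + 1 = s + 1 + p := by omega
      rw [e6, e1, e2, e3, e4]
      have r1 : rr L s = s + 1 := by unfold rr; rw [if_pos (by omega)]
      have r2 : rr L (s + 1) = s + 1 + 1 := by unfold rr; rw [if_pos (by omega)]
      omega

theorem UMO_cnt (p q c : ℕ) (hc : c < p) :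
    ∑ u ∈ range (p * q), (if u % p = c then 1 else 0) = q := by
  induction q with
  | zero => simp
  | succ q ih =>
    rw [Nat.mul_succ, Finset.sum_range_add, ih]
    congr 1
    have h : ∀ x ∈ range p, (if (p * q + x) % p = c then 1 else 0) = (if x = c then 1 else 0) := by
      intro x hx
      rw [Finset.mem_range] at hx
      rw [Nat.mul_add_mod, Nat.mod_eq_of_lt hx]
    rw [Finset.sum_congr rfl h, Finset.sum_ite_eq', if_pos (Finset.mem_range.2 hc)]

theorem UMO_tot (L p : ℕ) (hp : 0 < p) (hpL : p ∣ L) (c : ℕ) (hc : c < p) :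
    V L p (2 * L) c = L / p * (2 * L + 1) := by
  obtain ⟨q, rfl⟩ := hpL
  have e0 : 2 * (p * q) = p * q + p * q := by omega
  have e1 : V (p * q) p (2 * (p * q)) c =
      ∑ u ∈ range (p * q), (if u % p = c then 1 else 0) * (2 * (p * q) + 1) := by
    unfold V
    rw [e0, Finset.sum_range_add, ← Finset.sum_add_distrib]
    apply Finset.sum_congr rfl
    intro u hu
    rw [Finset.mem_range] at hu
    have e2 : (p * q + u) % p = u % p := Nat.mul_add_mod _ _ _
    have r1 : rr (p * q) u = u + 1 := by unfold rr; rw [if_pos hu]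
    have r2 : rr (p * q) (p * q + u) = 3 * (p * q) - (p * q + u) := by
      unfold rr
      rw [if_neg (by omega)]
    rw [e2, r1, r2]
    by_cases h : u % p = c
    · rw [if_pos h, if_pos h, if_pos h]
      omega
    · rw [if_neg h, if_neg h, if_neg h]
      omega
  rw [e1, ← Finset.sum_mul, UMO_cnt p q c hc, Nat.mul_div_cancel_left q hp]

theorem UMO_top (L p : ℕ) (hp : 0 < p) (hpL : p ∣ L) :
    ∀ d t, t + d = 2 * L → L ≤ t → t + 1 < 2 * L →
      V L p (t + 1) (t % p) ≤ V L p (t + 2) ((t + 1) % p) ∧
      (t + p < 2 * L → V L p (t + 1) (t % p) < V L p (t + 2) ((t + 1) % p)) := by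
  intro d
  induction d using Nat.strong_induction_on with
  | _ d ih =>
    intro t h1 h2 h3
    have tt := fun s => UMO_tot L p hp hpL (s % p) (Nat.mod_lt _ hp)
    rcases Nat.lt_or_ge (t + p) (2 * L) with h | h
    · -- `A (t + p) = A t + rr (t + p)`
      have a1 := UMO_a L p (t + p)
      rw [UMO_bs L p t hp] at a1
      have r1 : rr L (t + p) = 3 * L - (t + p) := by unfold rr; rw [if_neg (by omega)]
      rcases Nat.lt_or_ge (t + 1 + p) (2 * L) with h' | h'
      · have a2 := UMO_a L p (t + 1 + p)
        rw [UMO_bs L p (t + 1) hp] at a2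
        have r2 : rr L (t + 1 + p) = 3 * L - (t + 1 + p) := by unfold rr; rw [if_neg (by omega)]
        obtain ⟨i1, _⟩ := ih (d - p) (by omega) (t + p) (by omega) (by omega) (by omega)
        have e6 : t + p + 1 = t + 1 + p := by omega
        have e7 : t + p + 2 = t + 1 + p + 1 := by omega
        rw [e7, e6] at i1
        rw [e6] at a1
        have key : V L p (t + 1) (t % p) < V L p (t + 2) ((t + 1) % p) := by
          have e8 : t + 1 + 1 = t + 2 := rfl
          rw [e8] at a2
          omega
        exact ⟨key.le, fun _ => key⟩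
      · have l1 := UMO_last L p (t + 1) (by omega) (by omega)
        have l2 := UMO_last L p (t + p) (by omega) (by omega)
        rw [tt] at l1 l2
        have e8 : t + 1 + 1 = t + 2 := rfl
        rw [e8] at l1
        have key : V L p (t + 1) (t % p) < V L p (t + 2) ((t + 1) % p) := by
          omega
        exact ⟨key.le, fun _ => key⟩
    · have l1 := UMO_last L p (t + 1) (by omega) (by omega)
      have l2 := UMO_last L p t (by omega) (by omega)
      rw [tt] at l1 l2
      have e8 : t + 1 + 1 = t + 2 := rfl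
      rw [e8] at l1
      refine ⟨by omega, fun h'' => by omega⟩

theorem UMO_all (L p : ℕ) (hp : 0 < p) (hpL : p ∣ L) (hL : 0 < L) (t : ℕ) (ht : t + 1 < 2 * L) :
      V L p (t + 1) (t % p) ≤ V L p (t + 2) ((t + 1) % p) ∧
      (t + p < 2 * L ∨ t < L → V L p (t + 1) (t % p) < V L p (t + 2) ((t + 1) % p)) := by
  rcases Nat.lt_or_ge t L with h | h
  · have e1 := UMO_a L p t
    have e2 := UMO_a L p (t + 1)
    have e3 := UMO_ble L p hp t (by omega)
    have e8 : t + 1 + 1 = t + 2 := rfl
    rw [e8] at e2
    have r1 : rr L t = t + 1 := by unfold rr; rw [if_pos h]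
    have r2 : t + 1 < rr L (t + 1) := by
      unfold rr
      split_ifs with h'
      · omega
      · omega
    have key : V L p (t + 1) (t % p) < V L p (t + 2) ((t + 1) % p) := by omega
    exact ⟨key.le, fun _ => key⟩
  · obtain ⟨k1, k2⟩ := UMO_top L p hp hpL (2 * L - t) t (by omega) h ht
    refine ⟨k1, fun h' => k2 ?_⟩
    rcases h' with h' | h'
    · exact h'
    · omega

theorem UMO_am (L p : ℕ) (hp : 0 < p) (hpL : p ∣ L) (hL : 0 < L) (s k : ℕ) (h : s + k < 2 * L) :
    V L p (s + 1) (s % p) ≤ V L p (s + k + 1) ((s + k) % p) := by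
  induction k with
  | zero => exact le_refl _
  | succ k ih =>
    exact (ih (by omega)).trans (UMO_all L p hp hpL hL (s + k) (by omega)).1

theorem p_UMO : Stmt_UMO := by
  intro L p hp hpL hL
  have hle : p ≤ L := Nat.le_of_dvd hL hpL
  refine ⟨fun c hc => UMO_tot L p hp hpL c hc, ?_, ?_, ?_, ?_, ?_⟩
  · intro t
    induction t with
    | zero =>
      intro c _
      have e1 := UMO_a L p 0
      have e2 : V L p 0 c = 0 := rfl
      have e3 : rr L 0 = 0 + 1 := by unfold rr; rw [if_pos hL]
      omega
    | succ t ih =>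
      intro c ht
      have e1 := (UMO_all L p hp hpL hL t (by omega)).2 (Or.inr (by omega))
      have e8 : t + 1 + 1 = t + 2 := rfl
      rw [e8]
      by_cases h : t % p = c
      · rw [← h]
        exact e1
      · rw [UMO_succ, if_neg h]
        have e2 := ih c (by omega)
        omega
  · intro t c h1 h2 hc hne
    obtain ⟨s, rfl⟩ : ∃ s, t = s + p := ⟨t - p, by omega⟩
    rw [UMO_bs L p s hp]
    rw [Nat.add_mod_right] at hne
    obtain ⟨k, hk1, hk2, hk3⟩ : ∃ k, 0 < k ∧ k < p ∧ (s + k) % p = c := by
      have hs := Nat.mod_lt s hp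
      have hd := Nat.div_add_mod s p
      refine ⟨(c + (p - s % p)) % p, ?_, Nat.mod_lt _ hp, ?_⟩
      · rcases Nat.lt_or_ge c (s % p) with h | h
        · rw [Nat.mod_eq_of_lt (by omega)]
          omega
        · have e : c + (p - s % p) = (c - s % p) + p := by omega
          rw [e, Nat.add_mod_right, Nat.mod_eq_of_lt (by omega)]
          omega
      · rw [Nat.add_mod_mod]
        have e : s + (c + (p - s % p)) = p * (s / p) + (c + p) := by omega
        rw [e, Nat.mul_add_mod, Nat.add_mod_right, Nat.mod_eq_of_lt hc]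
    have e1 := (UMO_all L p hp hpL hL s (by omega)).2 (Or.inl h2)
    have e2 := UMO_am L p hp hpL hL (s + 1) (k - 1) (by omega)
    have e3 : s + 1 + (k - 1) = s + k := by omega
    rw [e3] at e2
    have e4 : V L p (s + k + 1) ((s + k) % p) ≤ V L p (s + p) ((s + k) % p) :=
      UMO_mono L p ((s + k) % p) (by omega)
    rw [hk3] at e2 e4
    exact lt_of_lt_of_le e1 (e2.trans e4)
  · intro t ht
    exact (UMO_all L p hp hpL hL t ht).1
  · intro t ht
    rcases Nat.lt_or_ge t p with h | h
    · rw [UMO_bz L p t h]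
      exact Nat.zero_le _
    · obtain ⟨s, rfl⟩ : ∃ s, t = s + p := ⟨t - p, by omega⟩
      have e1 := UMO_bs L p s hp
      have e2 := UMO_bs L p (s + 1) hp
      have e6 : s + p + 1 = s + 1 + p := by omega
      rw [e6, e1, e2]
      exact (UMO_all L p hp hpL hL s (by omega)).1
  · intro t h1 ht
    rcases Nat.lt_or_ge t p with h | h
    · rw [UMO_bz L p t h]
      have e : t + 1 = 0 + p := by omega
      rw [e, UMO_bs L p 0 hp]
      have e1 := UMO_a L p 0
      have e3 : rr L 0 = 0 + 1 := by unfold rr; rw [if_pos hL]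
      omega
    · obtain ⟨s, rfl⟩ : ∃ s, t = s + p := ⟨t - p, by omega⟩
      have e1 := UMO_bs L p s hp
      have e2 := UMO_bs L p (s + 1) hp
      have e6 : s + p + 1 = s + 1 + p := by omega
      rw [e6, e1, e2]
      exact (UMO_all L p hp hpL hL s (by omega)).2 (Or.inl (by omega))

end Pool.LG
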