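import Pool.Agent.Work.MP_7453a1_nt_two.Defs

set_option autoImplicit false

/-!
# Sup norms, all `m, n`: frames (helper85)

Sup norms on `ℝ^(m+1)` and `ℝ^(n+1)`.  Points `w = (x, y)` of `ℤ^(m+1) × ℤ^(n+1)`, error vector `ev Θ w = Θ x - y`.
A frame consists of points `v 0, …, v m` and `f 0, …, f n`; it is good if `h = (∑ v + ∑ f) / 2` is an integer point
and `h`, the `v j` and the `f k` generate all integer points.  The matrix `Θ` is the centre of the frame if the errors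
of all `v j` vanish.  The steps, the schedule and the state of the construction are defined here.
-/

namespace Pool.LG

open Finset Real

/-! ## Points, frames -/

/-- Integer points `(x, y)`. -/
abbrev Pt (m n : ℕ) : Type := (Fin (m + 1) → ℤ) × (Fin (n + 1) → ℤ)

/-- Real matrices with `n + 1` rows and `m + 1` columns. -/
abbrev Mat (m n : ℕ) : Type := Matrix (Fin (n + 1)) (Fin (m + 1)) ℝ

/-- The error vector `Θ x - y`. -/
noncomputable def ev {m n : ℕ} (Θ : Mat m n) (w : Pt m n) : Fin (n + 1) → ℝ :=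
  fun p => ∑ l, Θ p l * (w.1 l : ℝ) - (w.2 p : ℝ)

/-- The vector `x` as a real vector. -/
def xv {m n : ℕ} (w : Pt m n) : Fin (m + 1) → ℝ := fun l => (w.1 l : ℝ)

/-- A frame. -/
structure Fr (m n : ℕ) where
  v : Fin (m + 1) → Pt m n
  f : Fin (n + 1) → Pt m n

namespace Fr

variable {m n : ℕ}

/-- coordinate `p` of the vector `x` of `v j` -/
def X (F : Fr m n) (j p : Fin (m + 1)) : ℝ := ((F.v j).1 p : ℝ)

/-- coordinate `p` of the vector `x` of `f k` -/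
def U (F : Fr m n) (k : Fin (n + 1)) (p : Fin (m + 1)) : ℝ := ((F.f k).1 p : ℝ)

/-- the next frame: `v j' = 2 ∑ d_l v_l - 2 ∑ c_k f_k - f_i`, `f i' = v j` (used with `c i = 0`) -/
def nxt (F : Fr m n) (i : Fin (n + 1)) (j : Fin (m + 1)) (c : Fin (n + 1) → ℤ) (d : Fin (m + 1) → ℤ) : Fr m n where
  v := Function.update F.v j (∑ l, (2 * d l) • F.v l - ∑ k, (2 * c k) • F.f k - F.f i)
  f := Function.update F.f i (F.v j)

/-- `h = (∑ v + ∑ f) / 2` is an integer point and `h, v j, f k` generate the integer points -/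
def Good (F : Fr m n) : Prop :=
  ∃ h : Pt m n, h + h = ∑ j, F.v j + ∑ k, F.f k ∧
    ∀ z : Pt m n, ∃ (t : ℤ) (a : Fin (m + 1) → ℤ) (b : Fin (n + 1) → ℤ),
      z = t • h + ∑ j, a j • F.v j + ∑ k, b k • F.f k

end Fr

/-- signs -/
def Sg {N : ℕ} (σ : Fin N → ℤ) : Prop := ∀ k, σ k = 1 ∨ σ k = -1

/-- the rows of `A`, divided by the sizes `S l`, are near the coordinate axes: for every coordinate `p` the sum of the
absolute values of the coordinates `p` of the other rows is small -/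
structure Dm {N : ℕ} (A : Fin N → Fin N → ℝ) (S : Fin N → ℝ) : Prop where
  pos : ∀ l, 0 < S l
  dl : ∀ l, 4 / 5 * S l ≤ A l l
  off : ∀ p, ∑ l ∈ univ.erase p, |A l p| / S l ≤ 4 / 25

/-! ## Patterns -/

/-- the pattern of the vectors `x` of the `v j`: `7/5` at `0` for `j = 0`; for `j ≠ 0`: `1` at `j` and
`1 / (10 * 3 ^ j)` at `0` -/
noncomputable def pP (m : ℕ) (j p : Fin (m + 1)) : ℝ :=
  if p = j then (if j = 0 then 7 / 5 else 1) else if p = 0 then 1 / (10 * 3 ^ (j : ℕ)) else 0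

/-- the pattern of the errors of the `f k`: the same with reversed indices (the special coordinate is the last one) -/
noncomputable def pQ (n : ℕ) (k p : Fin (n + 1)) : ℝ := pP n k.rev p.rev

/-! ## Constants -/

/-- `D = m + n + 2` -/
noncomputable def DD (m n : ℕ) : ℝ := (m : ℝ) + n + 2

/-- `H = 10 ^ 6 D ^ 6 3 ^ D` -/
noncomputable def HH (m n : ℕ) : ℝ := 10 ^ 6 * DD m n ^ 6 * 3 ^ (m + n + 2)

/-- bound for the logarithmic deviations of the sizes -/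
noncomputable def CC (m n : ℕ) : ℝ := 8 * DD m n

/-- `Λ = 2 H exp (4 C)` -/
noncomputable def Lam (m n : ℕ) : ℝ := 2 * HH m n * exp (4 * CC m n)

/-- the tolerance needed for the clusters of best approximations -/
noncomputable def th (m n : ℕ) : ℝ := 1 / (1000 * DD m n * 3 ^ (m + n + 2))

/-- the tolerance at the end of a stage -/
noncomputable def ft (m n : ℕ) : ℝ := th m n / (200 * DD m n)

/-! ## The schedule: `T = 2 (m + 1) L` steps, `L = (m + 1) (n + 1)` -/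

/-- `L = (m + 1) (n + 1)` -/
def LL (m n : ℕ) : ℕ := (m + 1) * (n + 1)

/-- the number of the steps of a stage -/
def TT (m n : ℕ) : ℕ := 2 * (m + 1) * LL m n

/-- step `τ` is of the first kind (it controls `x(v j)`) -/
def xt (m n τ : ℕ) : Prop := τ % (2 * LL m n) < LL m n

instance (m n τ : ℕ) : Decidable (xt m n τ) := by unfold xt; infer_instance

/-- the exponent of step `τ` -/
def rho (m n τ : ℕ) : ℕ :=
  if τ % (2 * LL m n) < LL m n then τ % (2 * LL m n) + 1 else 3 * LL m n - τ % (2 * LL m n)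

/-- the row (index of `f`) of step `τ` -/
def ro (n τ : ℕ) : Fin (n + 1) := ⟨τ % (n + 1), Nat.mod_lt _ n.succ_pos⟩

/-- the column (index of `v`) of step `τ` -/
def co (m n τ : ℕ) : Fin (m + 1) := ⟨(τ + τ / (2 * LL m n)) % (m + 1), Nat.mod_lt _ m.succ_pos⟩

/-- the exponent of the size of `x(v l)` before step `τ` -/
def Ax (m n : ℕ) : ℕ → Fin (m + 1) → ℕ
  | 0 => fun _ => 0
  | τ + 1 => Function.update (Ax m n τ) (co m n τ) (Ax m n τ (co m n τ) + rho m n τ)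

/-- minus the exponent of the size of the error of `f k` before step `τ` -/
def Bx (m n : ℕ) : ℕ → Fin (n + 1) → ℕ
  | 0 => fun _ => 0
  | τ + 1 => Function.update (Bx m n τ) (ro n τ) (Bx m n τ (ro n τ) + rho m n τ)

/-- the exponent of the size of `x(f k)` before step `τ` -/
def Wx (m n : ℕ) : ℕ → Fin (n + 1) → ℕ
  | 0 => fun _ => 0
  | τ + 1 => Function.update (Wx m n τ) (ro n τ) (Ax m n τ (co m n τ))

/-- the movement of the centre in step `τ` is about `Λ ^ (- Phi τ)` -/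
def Phi (m n τ : ℕ) : ℕ := Ax m n (τ + 1) (co m n τ) + Bx m n τ (ro n τ)

/-- the exponent of the error of `G.v j` (`G` the frame at the beginning of the stage) after step `j ≤ m` -/
def be (m n j : ℕ) : ℕ := Bx m n (j + 1) (ro n j)

/-- the exponent of the sizes of `x(v j)` at the end of the stage -/
def At (m n : ℕ) : ℕ := LL m n * (2 * LL m n + 1)

/-- the exponent of the errors of the `f k` at the end of the stage -/
def Bt (m n : ℕ) : ℕ := (m + 1) ^ 2 * (2 * LL m n + 1)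

/-- the logarithmic corrections of the sizes of `x(v l)` before step `τ` -/
noncomputable def Kx (m n : ℕ) (η : Fin (n + 1) → ℝ) : ℕ → Fin (m + 1) → ℝ
  | 0 => fun _ => 0
  | τ + 1 => if xt m n τ then
      Function.update (Kx m n η τ) (co m n τ) (Kx m n η τ (co m n τ) + η (ro n τ) / ((m : ℝ) + 1) ^ 2)
      else Kx m n η τ

/-- the logarithmic corrections of the errors of the `f k` before step `τ` -/
noncomputable def Ke (m n : ℕ) (η : Fin (n + 1) → ℝ) : ℕ → Fin (n + 1) → ℝ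
  | 0 => fun _ => 0
  | τ + 1 => if xt m n τ then
      Function.update (Ke m n η τ) (ro n τ) (Ke m n η τ (ro n τ) + η (ro n τ) / ((m : ℝ) + 1) ^ 2)
      else Ke m n η τ

/-! ## States -/

/-- A good frame with centre `Θ`; `x(v j)` is `S j` times the pattern up to the relative error `tx j`, the error of
`f i` is `s i` times the pattern up to the relative error `te i`, the coordinates of `x(f k)` are at most `W k`. -/
structure Sta (m n : ℕ) (F : Fr m n) (Θ : Mat m n) (S tx : Fin (m + 1) → ℝ) (s W te : Fin (n + 1) → ℝ) : Prop where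
  good : F.Good
  cen : ∀ j p, ev Θ (F.v j) p = 0
  Sp : ∀ j, 0 < S j
  sp : ∀ i, 0 < s i
  hx : ∀ j p, |F.X j p - S j * pP m j p| ≤ tx j * S j
  he : ∀ i p, |ev Θ (F.f i) p - s i * pQ n i p| ≤ te i * s i
  hw : ∀ k p, |F.U k p| ≤ W k

/-- parameters of a stage which begins with the frame `G` -/
structure Par (m n : ℕ) (G : Fr m n) (X ε : ℝ) (tx0 : Fin (m + 1) → ℝ) (η te0 : Fin (n + 1) → ℝ) (Z : ℝ) : Prop where
  Xp : 0 < X
  ep : 0 < ε
  eta : ∀ i, |η i| ≤ 6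
  txp : ∀ j, 0 ≤ tx0 j
  stx : ∑ j, tx0 j ≤ 1 / 20
  tep : ∀ i, 0 ≤ te0 i
  tez : te0 0 ≤ 1 / 2
  ste : ∑ i ∈ univ.erase 0, te0 i ≤ 1 / 20
  Zle : Z ≤ 28 / 10
  GX : ∀ j p, |G.X j p| ≤ 4 * X

/-- The state after `τ` steps of the stage which begins with the frame `G`, the centre `Θ₀` and the sizes
`S j ≈ X`, `s i = ε exp (η i)`. -/
structure Ph (m n : ℕ) (G : Fr m n) (Θ₀ : Mat m n) (X ε : ℝ) (tx0 : Fin (m + 1) → ℝ) (η te0 : Fin (n + 1) → ℝ)
    (Z : ℝ) (τ : ℕ) (F : Fr m n) (Θ : Mat m n) (S dx tx : Fin (m + 1) → ℝ) (s W te : Fin (n + 1) → ℝ)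
    (z : ℝ) : Prop where
  sta : Sta m n F Θ S tx s W te
  sS : ∀ j, |log (S j / (X * Lam m n ^ Ax m n τ j)) - Kx m n η τ j| ≤ dx j
  ss : ∀ i, |log (s i / ε) + Bx m n τ i * log (Lam m n) - (η i - Ke m n η τ i)| ≤ z
  sW : ∀ k, W k ≤ 3 / 2 * (X * exp (CC m n) * Lam m n ^ Wx m n τ k)
  pot : z + ∑ j, dx j + 4 * ∑ j, tx j + 4 * ∑ i, te i ≤ Z + 60 * DD m n / HH m n * τ
  bdx : ∀ j, 0 ≤ dx j ∧ dx j ≤ 1 / 2 ∧ ((j : ℕ) < τ → dx j = 0)
  btx : ∀ j, 0 ≤ tx j ∧ tx j ≤ (if τ ≤ (j : ℕ) then tx0 j else 0) + (2 + 2 * DD m n * τ) / HH m n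
  bte : ∀ i, 0 ≤ te i ∧ te i ≤ (if τ ≤ LL m n + (i : ℕ) then te0 i else 0) + (10 + 5 * τ) / HH m n
  keep : ∀ j : Fin (m + 1), τ ≤ (j : ℕ) → F.v j = G.v j
  vis : ∀ k : Fin (n + 1), LL m n + (k : ℕ) < τ →
    1 / (20 * 3 ^ m) * (X * exp (-CC m n) * Lam m n ^ Wx m n τ k) ≤ F.U k 0
  mov : ∀ (w : Pt m n) (R : ℝ), (∀ l, |(w.1 l : ℝ)| ≤ R) → ∀ p, |ev Θ w p - ev Θ₀ w p| ≤
    5 * exp (2 * CC m n) * (ε / X) * R * ∑ t ∈ range τ, (1 / Lam m n) ^ Phi m n t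
  mob : ∀ j : Fin (m + 1), (j : ℕ) < τ → ∀ p, |ev Θ (G.v j) p| ≤
    ε * (2 * exp (CC m n) * (1 / Lam m n) ^ be m n j +
      20 * exp (2 * CC m n) * ∑ t ∈ Ico ((j : ℕ) + 1) τ, (1 / Lam m n) ^ Phi m n t)
  mol : (∀ i, te0 i ≤ ft m n) → ∀ j : Fin (m + 1), (j : ℕ) < τ →
    ε * (1 / (20 * 3 ^ n) * exp (-CC m n) * (1 / Lam m n) ^ be m n j -
      20 * exp (2 * CC m n) * ∑ t ∈ Ico ((j : ℕ) + 1) τ, (1 / Lam m n) ^ Phi m n t) ≤ ev Θ (G.v j) (Fin.last n)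

/-- The state at the beginning of a stage. -/
structure Start (m n : ℕ) (G : Fr m n) (Θ₀ : Mat m n) (X ε : ℝ) (S dx tx : Fin (m + 1) → ℝ)
    (η te W : Fin (n + 1) → ℝ) : Prop where
  sta : Sta m n G Θ₀ S tx (fun i => ε * exp (η i)) W te
  Xp : 0 < X
  ep : 0 < ε
  eta0 : ∑ i, η i = 0
  eta : ∀ i, |η i| ≤ 6
  dS : ∀ j, |log (S j / X)| ≤ dx j
  dxp : ∀ j, 0 ≤ dx j ∧ dx j ≤ 1 / 2
  txp : ∀ j, 0 ≤ tx j
  stx : ∑ j, tx j ≤ 1 / 20
  tep : ∀ i, 0 ≤ te i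
  tez : te 0 ≤ 1 / 2
  ste : ∑ i ∈ univ.erase 0, te i ≤ 1 / 20
  W0 : ∀ k, W k ≤ 3 / 2 * (X * exp (CC m n))
  Zle : ∑ j, dx j + 4 * ∑ j, tx j + 4 * ∑ i, te i ≤ 28 / 10

/-- What the stage from `G, Θ₀, X, ε` to `F, Θ, X Λ ^ At, ε'` provides. -/
structure Nx (m n : ℕ) (G : Fr m n) (Θ₀ : Mat m n) (X ε : ℝ) (F : Fr m n) (Θ : Mat m n) (ε' : ℝ) : Prop where
  eps : |log (ε' / ε) + Bt m n * log (Lam m n)| ≤ 3
  mov : ∀ (w : Pt m n) (R : ℝ), (∀ l, |(w.1 l : ℝ)| ≤ R) → ∀ p, |ev Θ w p - ev Θ₀ w p| ≤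
    10 * exp (2 * CC m n) * (ε / X) * R / Lam m n
  mob : ∀ j p, |ev Θ (G.v j) p| ≤ 3 * ε * exp (CC m n) * (1 / Lam m n) ^ be m n j
  flo : ∀ k, 1 / (20 * 3 ^ m) * (X * exp (-CC m n) * Lam m n ^ Wx m n (TT m n) k) ≤ F.U k 0
  fup : ∀ k p, |F.U k p| ≤ 3 / 2 * (X * exp (CC m n) * Lam m n ^ Wx m n (TT m n) k)

/-- A frame whose points `(∑ ± v j + ∑ ± f k) / 2` contain `2 ^ max m n` best approximations of `Θ`. -/
structure Clu (m n : ℕ) (F : Fr m n) (X ε : ℝ) (Θ : Mat m n) : Prop where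
  good : F.Good
  Xp : 0 < X
  ep : 0 < ε
  hx : ∀ j p, |F.X j p - X * pP m j p| ≤ th m n * X
  hf : ∀ k p, |F.U k p| ≤ th m n * X
  he : ∀ i p, |ev Θ (F.f i) p - ε * pQ n i p| ≤ th m n * ε
  hv : ∀ j p, |ev Θ (F.v j) p| ≤ th m n * ε
  fo : ∀ k, ∑ l ∈ univ.filter (· < k), |F.U l 0| < F.U k 0
  vo : ∀ j, ∑ l ∈ univ.filter (j < ·), |ev Θ (F.v l) (Fin.last n)| < ev Θ (F.v j) (Fin.last n)

/-- A best approximation point (sup norms). -/
def IsB {m n : ℕ} (Θ : Mat m n) (w : Pt m n) : Prop :=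
  w.1 ≠ 0 ∧ ∀ w' : Pt m n, ‖xv w'‖ ≤ ‖xv w‖ → ‖ev Θ w'‖ ≤ ‖ev Θ w‖ → w' = 0 ∨ w' = w ∨ w' = -w

/-- the growth of the sizes in one stage -/
noncomputable def KE (m n : ℕ) : ℝ := Lam m n ^ At m n

end Pool.LG
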