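import Pool.Agent.Work.MP_7453a1_lg.Defs
import Pool.Agent.Work.MP_7453a1_le.Interface

set_option autoImplicit false

/-!
# Sup norms, all `m, n`: an upper bound for `g` (helper85)

THEOREM.  For all `m, n ≥ 1` there is a real `n × m` matrix `Θ` with (∗), with infinitely many best approximation
lengths for the sup norms and `G(Θ) ≤ exp (600 N ^ 5 / 2 ^ N)`, `N = max m n`.  (Here `m + 1`, `n + 1` instead of `m`, `n`.)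

The file of block `X` is `Pool/Agent/Work/MP_7453a1_lg/B_X.lean`: `import` this file, `namespace Pool.LG`,
`theorem p_X (hA : Stmt_A) (hB : Stmt_B) .. : Stmt_X` with exactly the blocks of the column `uses` as hypotheses
in that order; auxiliary lemmas have the prefix `X_`.

Words: `M = m + 1`, `K = n + 1`, `D = m + n + 2 ≥ 2`, `L = M K`, `T = 2 M L ≤ D ^ 3 / 2`, `H = HH`, `C = CC = 8 D`, `Λ = Lam`,
`X j p` and `U k p` are the coordinates of `x(v j)` and `x(f k)`; `P = pP m`, `Q = pQ n`.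

IDEA.  Step `(i, j; c, d)`: `v_j' = 2 ∑ d_l v_l - 2 ∑ c_k f_k - f_i`, `f_i' = v_j`.  The centre moves by the rank one matrix
`E ξ`, `E = e(f_i) + 2 ∑ c_k e(f_k)`, `ξ` orthogonal to the other `x(v_l')`, `ξ x(v_j') = 1`.  A step of the first kind (STX) has
`c = 0`; `d` is chosen so that `x(v_j')` is `S'` times the pattern.  A step of the second kind (STE) has only `d_j ≠ 0`; `c` is
chosen so that `e(f_i')` is a multiple of the pattern.  In both cases `s_i' S_j' = s_i S_j` up to a small relative error.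
The schedule: step `τ` treats the row `τ mod K` and the column `(τ + [τ / (2 L)]) mod M` with the factor `Λ ^ rho τ`; after
`2 L` steps all sizes are equal again (up to bounded factors), and in the `M` rounds of a stage every pair (row, column)
is treated `M` times by a step of the first kind, which allows to correct the logarithmic deviations `η i` of the
errors.  At the beginning of the third and every later stage there are `2 ^ max m n` best approximations.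
-/

namespace Pool.LG

open Finset Real Filter

/-! ## 1. Frames, dual vectors, one step -/

/-- **GOD** (80 lines), uses nothing.  `Good` is preserved.  `∑ v' + ∑ f' = ∑ v + ∑ f - f_i + v_j'` (the sums change by
`v_j' - v_j` and `v_j - f_i`), so `h' = h - f_i + ∑ d_l v_l - ∑ c_k f_k`.  Old generators in terms of the new ones: `v_j = f_i'`, the other
`v_l`, `f_k` are unchanged, `f_i = 2 ∑ d_l v_l - 2 ∑ c_k f_k - v_j'` (`c_i = 0`) and `h = h' + f_i - ∑ d_l v_l + ∑ c_k f_k`. -/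
def Stmt_GOD : Prop :=
  ∀ (m n : ℕ) (F : Fr m n) (i : Fin (n + 1)) (j : Fin (m + 1)) (c : Fin (n + 1) → ℤ) (d : Fin (m + 1) → ℤ),
    c i = 0 → F.Good → (F.nxt i j c d).Good

/-- **DUA** (120 lines), uses nothing.  Dual vectors.  `B l p = A l p / S l`; the matrix `p l ↦ B l p` is row diagonally dominant
(`det_ne_zero_of_sum_row_lt_diag`), so `∑ l, α l * B l p = T p` is solvable for every `T` and `|α l| ≤ 25/16 max |T p|` (take `l` with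
`|α l|` maximal and `p = l`: `4/5 |α l| ≤ |T l| + 4/25 |α l|`).  Let `Z` be the inverse of the transposed matrix (divided by `S k`),
so `∑ p, Z k p * A l p = δ`; the third claim is the other order of the product.  `∑ |Z k p| S k = ∑ p, S k * Z k p * T p` with
`T p = sign (Z k p)`; write `T p = ∑ l, α l * B l p`: the sum is `α k ≤ 25/16`.  (Compare `MP_7453a1_le/B_DUA.lean`.) -/
def Stmt_DUA : Prop :=
  ∀ (N : ℕ) (A : Fin N → Fin N → ℝ) (S : Fin N → ℝ), Dm A S → ∃ Z : Fin N → Fin N → ℝ,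
    (∀ k l, ∑ p, Z k p * A l p = if l = k then 1 else 0) ∧
    (∀ k, ∑ p, |Z k p| ≤ 25 / (16 * S k)) ∧
    (∀ p q, ∑ k, A k p * Z k q = if p = q then 1 else 0)

/-- **PAT** (120 lines), uses nothing.  The patterns.  `∑_{j ≥ 1} 1 / (10 * 3 ^ j) ≤ 1/20`.  `pQ m k (last) = pP m k.rev 0`. -/
def Stmt_PAT : Prop :=
  ∀ m : ℕ,
    ((∀ j p, 0 ≤ pP m j p ∧ pP m j p ≤ 7 / 5) ∧ (∀ j, 1 ≤ pP m j j) ∧ (∀ p, ∑ j ∈ univ.erase p, pP m j p ≤ 1 / 20) ∧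
      (∀ j p, p ≠ 0 → p ≠ j → pP m j p = 0) ∧ (∀ j, 1 / (10 * 3 ^ m) ≤ pP m j 0) ∧
      (∀ j, j ≠ 0 → pP m j j = 1) ∧ pP m 0 0 = 7 / 5 ∧
      ∀ j, j ≠ 0 → ∑ l ∈ univ.filter (j < ·), pP m l 0 ≤ pP m j 0 / 2) ∧
    ((∀ j p, 0 ≤ pQ m j p ∧ pQ m j p ≤ 7 / 5) ∧ (∀ j, 1 ≤ pQ m j j) ∧ (∀ p, ∑ j ∈ univ.erase p, pQ m j p ≤ 1 / 20) ∧
      (∀ j p, p ≠ Fin.last m → p ≠ j → pQ m j p = 0) ∧ (∀ j, 1 / (10 * 3 ^ m) ≤ pQ m j (Fin.last m)) ∧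
      (∀ j, j ≠ Fin.last m → pQ m j j = 1) ∧ pQ m (Fin.last m) (Fin.last m) = 7 / 5 ∧
      ∀ j, j ≠ Fin.last m → ∑ l ∈ univ.filter (· < j), pQ m l (Fin.last m) ≤ pQ m j (Fin.last m) / 2)

/-- **LGI** (40 lines), uses nothing.  `log (1 + u) ≤ u` for `u ≥ 0`; for `u = - y`, `0 ≤ y ≤ 17/20`: `- log (1 - y) ≤ 5/2 y`, i.e.
`exp (-5/2 y) ≤ 1 - y`: both sides agree at `0`, at `17/20` it holds (`exp (-17/8) ≤ 0.15`, `exp (17/8) ≥ 1 + 2.125 + 2.257 + 1.599 = 6.98`)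
and `exp` is convex. -/
def Stmt_LGI : Prop := ∀ u : ℝ, |u| ≤ 17 / 20 → |log (1 + u)| ≤ 5 / 2 * |u|

/-- **CST** (150 lines), uses nothing.  Numbers.  `T = 2 (m + 1) ^ 2 (n + 1) ≤ D ^ 3 / 2` as `(m + 1) (n + 1) ≤ D ^ 2 / 4` and `m + 1 ≤ D`.
`ft = 5 D ^ 4 / H`.  `2 + 2 D T ≤ 2 + D ^ 4 ≤ 5 D ^ 4`, `10 + 5 T ≤ 10 + 5/2 D ^ 3 ≤ 5 D ^ 4` (`D ≥ 2`), `60 D T ≤ 30 D ^ 4`. -/
def Stmt_CST : Prop :=
  ∀ m n : ℕ,
    2 ≤ DD m n ∧ 1000 * DD m n ≤ HH m n ∧ (TT m n : ℝ) ≤ DD m n ^ 3 / 2 ∧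
    (2 + 2 * DD m n * TT m n) / HH m n ≤ ft m n ∧ (10 + 5 * (TT m n : ℝ)) / HH m n ≤ ft m n ∧
    60 * DD m n / HH m n * TT m n ≤ 6 * ft m n ∧
    0 < th m n ∧ 0 < ft m n ∧ 200 * DD m n * ft m n = th m n ∧
    DD m n * th m n = 1 / (1000 * 3 ^ (m + n + 2)) ∧
    th m n ≤ 1 / (18000 * 3 ^ m) ∧ th m n ≤ 1 / (18000 * 3 ^ n) ∧ 1 / HH m n ≤ ft m n ∧
    HH m n * (2 * exp (4 * CC m n)) = Lam m n ∧ 1000 ≤ HH m n ∧ 16 ≤ CC m n ∧ 1000 ≤ Lam m n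

/-- **STP** (150 lines), uses DUA.  `Z` for the new vectors `X' = (F.nxt i j c d).X` (DUA), `ξ = Z j`, `Θ' p l = Θ p l + E p * ξ l`,
`E p = e(f_i)_p + ∑ 2 c_k e(f_k)_p`.  The new `v_j'` has `e(v_j') = - E` (the errors of the `v_l` vanish), `∑ ξ l X' j l = 1`, so
`ev Θ' v_j' = 0`; for `l ≠ j` nothing changes.  The last equation: `1 = ∑ ξ l X' j l`, `X' j l = ∑ 2 d_k X k l - ∑ 2 c_k U k l - U i l`,
and `∑ ξ l X k l = 0` for `k ≠ j`. -/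
def Stmt_STP : Prop :=
  ∀ (m n : ℕ) (F : Fr m n) (Θ : Mat m n), (∀ j p, ev Θ (F.v j) p = 0) →
    ∀ (i : Fin (n + 1)) (j : Fin (m + 1)) (c : Fin (n + 1) → ℤ) (d : Fin (m + 1) → ℤ) (S : Fin (m + 1) → ℝ),
      Dm (Fr.X (F.nxt i j c d)) S →
    ∃ (Θ' : Mat m n) (ξ : Fin (m + 1) → ℝ),
      (∀ l p, ev Θ' ((F.nxt i j c d).v l) p = 0) ∧ ∑ l, |ξ l| ≤ 25 / (16 * S j) ∧
      (∀ (w : Pt m n) p, ev Θ' w p = ev Θ w p +
        (ev Θ (F.f i) p + ∑ k, 2 * (c k : ℝ) * ev Θ (F.f k) p) * ∑ l, ξ l * (w.1 l : ℝ)) ∧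
      2 * (d j : ℝ) * ∑ l, ξ l * F.X j l = 1 + ∑ l, ξ l * (F.U i l + ∑ k, 2 * (c k : ℝ) * F.U k l)

/-- **DMS** (80 lines), uses PAT.  Domination from the tolerances (`0 ≤ tx l` follows from the hypothesis).
`A l l ≥ (1 - 1/10) S l`; the sums over `l ≠ p` are at most `1/20 + 1/10 ≤ 4/25`; the full sums at most
`7/5 + 1/20 + 1/10 ≤ 33/20`; `7/5 + 1/10 = 3/2`. -/
def Stmt_DMS : Prop :=
  ∀ (m : ℕ) (pt : Fin (m + 1) → Fin (m + 1) → ℝ), pt = pP m ∨ pt = pQ m →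
    ∀ (A : Fin (m + 1) → Fin (m + 1) → ℝ) (S tx : Fin (m + 1) → ℝ), (∀ l, 0 < S l) →
      (∀ l p, |A l p - S l * pt l p| ≤ tx l * S l) → ∑ l, tx l ≤ 1 / 10 →
    Dm A S ∧ (∀ p, ∑ l, |A l p| / S l ≤ 33 / 20) ∧ ∀ l p, |A l p| ≤ 3 / 2 * S l

/-- **STX** (250 lines), uses GOD DUA PAT LGI STP DMS.  A step of the first kind, `c = 0`.  `H ≥ 2000`, so everything `/ H` is small.
Target `T_p = S' P_jp + U i p`.  DMS, DUA (old frame, sizes `S`) give `Z` with `∑ |Z l q| ≤ 25/(16 S_l)`; `γ_l = ∑_q Z l q T_q` solves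
`∑ γ_l X l p = T_p` (third claim of DUA).  `d_l = round (γ_l / 2)`, `2 d_l = γ_l + θ_l`, `|θ_l| ≤ 1`.  So `X' j p = S' P_jp + ∑ θ_l X l p`
and `|∑ θ_l X l p| ≤ ∑ S_l |X l p| / S_l ≤ (S'/H) 33/20 ≤ (2/H) S'`.  New tolerances: `∑ tx' ≤ 9/100 + 2/H ≤ 1/10`, DMS gives `Dm` for STP.
`T = (S'/S_j) (X j ·) - (S'/S_j) (error of X j) + U i`, so `|γ_j S_j / S' - 1| ≤ 25/16 (tx_j + 1/H)`; `2 d_j S_j / S' = 1 + u`,
`|u| ≤ 25/16 (tx_j + 1/H) + 1/H ≤ 17/20`.  STP: `E = e(f_i)`, `|E_p| ≤ s_i (7/5 + 13/25) ≤ 1.92 s_i`; with `y = ∑ ξ_l U i l`,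
`|y| ≤ 25/(16 S') W_i ≤ 25/(16 H)`: `e'(f_i') = e'(v_j) = E (1 + y) / (2 d_j) = λ E` (`λ > 0`), so `a = λ s_i`, same `te_i`;
`a S' / (s_i S_j) = (1 + y) / (1 + u)`: LGI twice: `≤ 5/2 · 25/16 tx_j + (5/2) (25/16 + 25/16 + 1) / H ≤ 4 tx_j + 12/H`.
Others: `|e'(f_k) - e(f_k)| ≤ |E_p| 25/(16 S') W_k ≤ 3 s_i W_k / S' ≤ 3 s_k / H`.  Movement: `1.92 s_i · 25/(16 S') R ≤ 5 s_i R / S'`. -/
def Stmt_STX : Prop :=
  ∀ (m n : ℕ) (H : ℝ), 1000 * DD m n ≤ H → ∀ (F : Fr m n) (Θ : Mat m n) (S tx : Fin (m + 1) → ℝ)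
    (s W te : Fin (n + 1) → ℝ), Sta m n F Θ S tx s W te → ∑ l, tx l ≤ 9 / 100 →
    ∀ (i : Fin (n + 1)) (j : Fin (m + 1)) (S' : ℝ), te i ≤ 13 / 25 → (∀ l, H * S l ≤ S') →
      (∀ k, k ≠ i → H * (W k * s i) ≤ S' * s k) → H * W i ≤ S' →
    ∃ (F' : Fr m n) (Θ' : Mat m n) (a : ℝ),
      Sta m n F' Θ' (Function.update S j S') (Function.update tx j (2 / H)) (Function.update s i a)
        (Function.update W i (3 / 2 * S j)) (fun k => if k = i then te i else te k + 5 / H) ∧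
      F'.f i = F.v j ∧ (∀ k, k ≠ i → F'.f k = F.f k) ∧ (∀ l, l ≠ j → F'.v l = F.v l) ∧
      |log (a * S' / (s i * S j))| ≤ 4 * tx j + 12 / H ∧
      ∀ (w : Pt m n) (R : ℝ), (∀ l, |(w.1 l : ℝ)| ≤ R) → ∀ p, |ev Θ' w p - ev Θ w p| ≤ 5 * s i / S' * R

/-- **STE** (300 lines), uses GOD DUA PAT LGI STP DMS.  A step of the second kind.  Rows `B k = e(f_k)` for `k ≠ i`, `B i = Q_i`, sizes `s_k`
and `1`, tolerances `te_k` and `0`: DMS (pattern `pQ n`), DUA give `Z`.  `e(f_i)_p = s_i (Q_ip + δ_p)`, `|δ_p| ≤ te_i ≤ 13/25`.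
`γ_k = - ∑_p Z k p e(f_i)_p` for `k ≠ i` and `λ = ∑_p Z i p e(f_i)_p` satisfy `e(f_i) + ∑_{k ≠ i} γ_k e(f_k) = λ Q_i` (third claim);
`|γ_k| ≤ 25/16 te_i s_i / s_k ≤ 13/16 s_i / s_k` (`∑_p Z k p Q_ip = 0`), `λ = s_i (1 + u)`, `|u| ≤ 25/16 te_i ≤ 13/16`.
`2 c_k = γ_k + θ_k`, `|θ_k| ≤ 1`, `c_i = 0`; `|2 c_k| ≤ s_i / s_k` as `1 ≤ s_i / (H s_k)`.  `r = round (R / 2)`, `2 r = R + θ`, `|θ| ≤ 1`; `d = r` at `j`,
`0` elsewhere.  `g = f_i + ∑ 2 c_k f_k`: `|x(g)_p| ≤ W_i + ∑_{k ≠ i} (s_i / s_k) W_k ≤ (n + 1) R S_j / H`.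
`|X' j p - R S_j P_jp| ≤ |θ| 3/2 S_j + tx_j R S_j + (n + 1) R S_j / H ≤ (tx_j + 2 D / H) R S_j`; `∑ tx' ≤ 9/100 + 2 D / H ≤ 1/10`, DMS gives
`Dm` for STP.  `E_p = λ Q_ip + ∑_{k ≠ i} θ_k e(f_k)_p`, `|∑ θ_k e(f_k)_p| ≤ (s_i / H) 33/20`; `|E_p| ≤ 29/16 · 7/5 s_i + s_i / 100 ≤ 2.6 s_i`.
`y = ∑ ξ_l x(g)_l`, `|y| ≤ 25/16 (n + 1) / H`.  `e'(f_i') = e'(v_j) = E (1 + y) / (2 r)`; `a = λ (1 + y) / (2 r) > 0`; the relative error is at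
most `(33/20) s_i / (H λ) ≤ 10 / H` (`λ ≥ 3/16 s_i`).  `a R S_j / (s_i S_j) = (1 + u) (1 + y) / (1 + θ / R)`: LGI three times:
`≤ 125/32 te_i + (5/2) (25/16 (n + 1) + 1) / H ≤ 4 te_i + 10 D / H`.
Others: `|e'(f_k)_p - e(f_k)_p| ≤ 2.6 s_i 25/(16 R S_j) W_k ≤ 5 s_k / H`.  Movement the same with `|w.1| ≤ R_w`. -/
def Stmt_STE : Prop :=
  ∀ (m n : ℕ) (H : ℝ), 1000 * DD m n ≤ H → ∀ (F : Fr m n) (Θ : Mat m n) (S tx : Fin (m + 1) → ℝ)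
    (s W te : Fin (n + 1) → ℝ), Sta m n F Θ S tx s W te → ∑ l, tx l ≤ 9 / 100 →
    ∀ (i : Fin (n + 1)) (j : Fin (m + 1)) (R : ℝ), te i ≤ 13 / 25 → ∑ k ∈ univ.erase i, te k ≤ 1 / 10 → H ≤ R →
      (∀ k, k ≠ i → H * s k ≤ s i) → (∀ k, k ≠ i → H * (W k * s i) ≤ R * S j * s k) → H * W i ≤ R * S j →
    ∃ (F' : Fr m n) (Θ' : Mat m n) (a : ℝ),
      Sta m n F' Θ' (Function.update S j (R * S j)) (Function.update tx j (tx j + 2 * DD m n / H))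
        (Function.update s i a) (Function.update W i (3 / 2 * S j))
        (fun k => if k = i then 10 / H else te k + 5 / H) ∧
      F'.f i = F.v j ∧ (∀ k, k ≠ i → F'.f k = F.f k) ∧ (∀ l, l ≠ j → F'.v l = F.v l) ∧
      |log (a * (R * S j) / (s i * S j))| ≤ 4 * te i + 10 * DD m n / H ∧
      ∀ (w : Pt m n) (Rw : ℝ), (∀ l, |(w.1 l : ℝ)| ≤ Rw) → ∀ p,
        |ev Θ' w p - ev Θ w p| ≤ 5 * s i / (R * S j) * Rw

/-! ## 2. The schedule -/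

/-- the exponent of the step `u < 2 L` of a round -/
def rr (L u : ℕ) : ℕ := if u < L then u + 1 else 3 * L - u

/-- sum of the exponents of the steps `u < t` of a round in the class `c` modulo `p` -/
def V (L p t c : ℕ) : ℕ := ∑ u ∈ range t, if u % p = c then rr L u else 0

/-- **UMO** (250 lines), uses nothing.  Let `a t = V L p (t + 1) (t % p)`.  `a t = rr t + a (t - p)` (`rr t` if `t < p`); `V L p t c` is `a u` for the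
largest `u < t` in the class `c` (`0` if there is none); `V L p t (t % p) = a (t - p)` (`0` if `t < p`).
(i) `a` is strictly increasing on `[0, L)`: `a (t+1) - a t = 1 + (a (t+1-p) - a (t-p))`, induction.
(ii) Total: `u` and `u + L` are in the same class (`p ∣ L`), `rr u + rr (u + L) = 2 L + 1`, and there are `L / p` elements `u < L` in it.
(iii) For `t ≥ L`: `a t + R t = (L/p) (2 L + 1)`, `R t = ∑_{u ≡ t, t < u < 2 L} (3 L - u)`; the terms of `R (t + 1)` are `3 L - (t + 1 + s p) <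
3 L - (t + s p)`, `s ≥ 1`, `t + 1 + s p < 2 L`; so `a t ≤ a (t + 1)`, strictly if `t + p < 2 L`.
(iv) `a (L - 1) < a L`: `a L = 2 L + a (L - p)`, `a (L - 1) = L + a (L - 1 - p)`.  So `a` is monotone on `[0, 2 L)` and `a t < a (t + 1)` if
`t + p < 2 L`.  (2) by (i); (3): `a (t - p) < a (t - p + 1) ≤ a u` for the largest `u < t` in the class `c`, `t - p < u`;
(5), (6): `a (t - p)` and `a (t + 1 - p)`, `(t - p) + p < 2 L` (and `0 < a 0` if `t + 1 = p`).  Checked for `L = p q ≤ 24`. -/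
def Stmt_UMO : Prop :=
  ∀ (L p : ℕ), 0 < p → p ∣ L → 0 < L →
    (∀ c, c < p → V L p (2 * L) c = L / p * (2 * L + 1)) ∧
    (∀ t c, t < L → V L p t c < V L p (t + 1) (t % p)) ∧
    (∀ t c, L ≤ t → t < 2 * L → c < p → c ≠ t % p → V L p t (t % p) < V L p t c) ∧
    (∀ t, t + 1 < 2 * L → V L p (t + 1) (t % p) ≤ V L p (t + 2) ((t + 1) % p)) ∧
    (∀ t, t + 1 < 2 * L → V L p t (t % p) ≤ V L p (t + 1) ((t + 1) % p)) ∧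
    (∀ t, L ≤ t + 1 → t + 1 < 2 * L → V L p t (t % p) < V L p (t + 1) ((t + 1) % p))

/-- **LNK** (150 lines), uses UMO.  The step `2 L b + t`, `t < 2 L`, is step `t` of round `b`: `(2 L b + t) % (2 L) = t`,
`(2 L b + t) / (2 L) = b`, the row is `t % K` (`K ∣ L`), the column `(t + b) % M` (`M ∣ L`); `(t + b) % M = l ↔ t % M = (l + m b) % M`
(`m b + b = M b`).  Induction on `t` inside a round; at the end of a round UMO (1): `L / M = n + 1`, `L / K = m + 1`. -/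
def Stmt_LNK : Prop :=
  ∀ (m n b t : ℕ),
    (t < 2 * LL m n → (xt m n (2 * LL m n * b + t) ↔ t < LL m n) ∧ rho m n (2 * LL m n * b + t) = rr (LL m n) t ∧
      ((ro n (2 * LL m n * b + t) : Fin (n + 1)) : ℕ) = t % (n + 1) ∧
      ((co m n (2 * LL m n * b + t) : Fin (m + 1)) : ℕ) = (t + b) % (m + 1) ∧
      (((co m n (2 * LL m n * b + t) : Fin (m + 1)) : ℕ) + m * b) % (m + 1) = t % (m + 1)) ∧
    (t ≤ 2 * LL m n →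
      (∀ l : Fin (m + 1), Ax m n (2 * LL m n * b + t) l =
        b * ((n + 1) * (2 * LL m n + 1)) + V (LL m n) (m + 1) t (((l : ℕ) + m * b) % (m + 1))) ∧
      (∀ k : Fin (n + 1), Bx m n (2 * LL m n * b + t) k =
        b * ((m + 1) * (2 * LL m n + 1)) + V (LL m n) (n + 1) t k))

/-- **SCH** (300 lines), uses UMO LNK.  Write `τ = 2 L b + t`.  (1) UMO (2).  (2) UMO (3).  (5) `Phi` is strictly increasing: `t + 1 < L`: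
UMO (2) for `t + 1`, `c = t % M`, and (5); `L ≤ t + 1 < 2 L`: (4) and (6); `t = 2 L - 1`: the left side is at most
`(b+1) K (2L+1) + (b+1) M (2L+1)`, the right side is this plus `1`.  (3) Induction: `Wx τ k + Bx τ k` is `0` or `Phi τ'` for some `τ' < τ`;
(5) and `0 < Phi 0`.  (4) `Wx τ k` is `0` or `Ax τ' (co τ') < Ax (τ'+1) (co τ')` for some `τ' < τ`, and `Ax (τ+1) (co τ)` is
nondecreasing in `τ` (UMO (4), (1)) and positive.  (6) `T = 2 L M`: LNK with `b = M`, `t = 0`.  (7) `Wx T k = Ax τ_k (co τ_k)`,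
`τ_k = T - K + k`: strictly increasing in `k` by UMO (6), and `< Ax (τ_k + 1) (co τ_k) ≤ Ax T (co τ_k)`.  (8) `be j = V L K (j + 1) (j % K)`
(`j ≤ m < L`): increasing by UMO (2); `Phi (j + 1) ≥ rho (j + 1) + Bx (j+1) (ro (j+1))`, `be j = (j + 1) + (Bx before step j)`,
`Bx j (ro j) ≤ Bx (j+1) (ro (j+1))` (UMO (5)) and `rho (j + 1) ≥ j + 2` (`j + 1 < L`, or `j + 1 = L` and `rho = 2 L`).
All checked numerically for `m, n ≤ 3`. -/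
def Stmt_SCH : Prop :=
  ∀ m n : ℕ,
    (∀ τ l, xt m n τ → Ax m n τ l < Ax m n (τ + 1) (co m n τ)) ∧
    (∀ τ k, ¬ xt m n τ → k ≠ ro n τ → Bx m n τ (ro n τ) < Bx m n τ k) ∧
    (∀ τ k, Wx m n τ k + Bx m n τ k < Phi m n τ) ∧
    (∀ τ, Wx m n τ (ro n τ) < Ax m n (τ + 1) (co m n τ)) ∧
    (∀ τ, Phi m n τ < Phi m n (τ + 1)) ∧ 1 ≤ Phi m n 0 ∧ (∀ τ, 1 ≤ rho m n τ) ∧
    (∀ l, Ax m n (TT m n) l = At m n) ∧ (∀ k, Bx m n (TT m n) k = Bt m n) ∧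
    (∀ k, Wx m n (TT m n) k < At m n) ∧ (∀ k k', k < k' → Wx m n (TT m n) k < Wx m n (TT m n) k') ∧
    (∀ j j', j < j' → j' ≤ m → be m n j < be m n j') ∧
    (∀ j, j ≤ m → 1 ≤ be m n j ∧ be m n j < Phi m n (j + 1) ∧ be m n j ≤ Bt m n)

/-- **KTO** (200 lines), uses nothing.  `Kx τ j` is the sum of `η (ro t) / M ^ 2` over the `t < τ` of the first kind with column `j`, `Ke τ i` the sum
over those with row `i`.  There are `M L` steps `t < T` of the first kind, so the absolute values are at most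
`M L Δ / M ^ 2 = (n + 1) Δ`.  At the end: `t = 2 L b + u`, `b ≤ m`, `u < L`; row `u % K`, column `(u + b) % M`.  For fixed `u` exactly one
`b ≤ m` gives the column `j`: `Kx T j = ∑_{u < L} η (u % K) / M ^ 2 = M ∑ η / M ^ 2 = 0`.  `Ke T i`: there are `M · M` pairs `(b, u)` with
`u % K = i`. -/
def Stmt_KTO : Prop :=
  ∀ (m n : ℕ) (η : Fin (n + 1) → ℝ) (Δ : ℝ), (∀ i, |η i| ≤ Δ) →
    (∀ τ, τ ≤ TT m n → ∀ j, |Kx m n η τ j| ≤ (n + 1) * Δ) ∧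
    (∀ τ, τ ≤ TT m n → ∀ i, |Ke m n η τ i| ≤ (n + 1) * Δ) ∧
    (∑ i, η i = 0 → ∀ j, Kx m n η (TT m n) j = 0) ∧ (∀ i, Ke m n η (TT m n) i = η i)

/-- **BNS** (80 lines), uses CST KTO.  `|Kx| + 1/2 ≤ 6 (n + 1) + 1/2 ≤ 8 D`, `|η - Ke| + 3 ≤ 6 + 6 (n + 1) + 3 ≤ 8 D`; exponentiate. -/
def Stmt_BNS : Prop :=
  ∀ (m n : ℕ) (η : Fin (n + 1) → ℝ) (τ : ℕ), (∀ i, |η i| ≤ 6) → τ ≤ TT m n →
    (∀ (X S : ℝ) (j : Fin (m + 1)), 0 < X → 0 < S →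
      |log (S / (X * Lam m n ^ Ax m n τ j)) - Kx m n η τ j| ≤ 1 / 2 →
      X * exp (-CC m n) * Lam m n ^ Ax m n τ j ≤ S ∧ S ≤ X * exp (CC m n) * Lam m n ^ Ax m n τ j) ∧
    (∀ (ε s z : ℝ) (i : Fin (n + 1)), 0 < ε → 0 < s → z ≤ 3 →
      |log (s / ε) + Bx m n τ i * log (Lam m n) - (η i - Ke m n η τ i)| ≤ z →
      ε * exp (-CC m n) * (1 / Lam m n) ^ Bx m n τ i ≤ s ∧ s ≤ ε * exp (CC m n) * (1 / Lam m n) ^ Bx m n τ i)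

/-! ## 3. A stage -/

/-- **PHC** (300 lines), uses PAT CST BNS.  From the data of a step to the state `τ + 1` (`i = ro n τ`, `j = co m n τ`; `S1` is the new size
of `v j`, `a` that of the error of `f i`).  `pot` for `τ` and `τ + 1` gives `z ≤ 28/10 + 6 ft ≤ 3`, `z + ν + ω ≤ 3` (the sums are `≥ 0`,
`CST`).  `ss` for `i`: the new value is the old one plus `log (a S1 / (s_i S_j))` minus `log (S1 / S_j) - rho log Λ - (Kx' - Kx)`,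
as `Ke (τ+1) i - Ke τ i = Kx (τ+1) j - Kx τ j`.  `sW` for `i`: `3/2 S_j` and BNS, `Wx (τ+1) i = Ax τ j`.  `keep`: for `τ ≤ m` the
column is `τ` (`τ / (2 L) = 0`, `τ < M`), for `τ > m` nothing is claimed.  `vis` for `i` (`τ ≥ L + i`, so all columns have been treated,
`tx_j ≤ (2 + 2 D τ) / H ≤ ft ≤ 1 / (20 3 ^ m)`): `U' i 0 = X j 0 ≥ S_j (P_j0 - tx_j) ≥ S_j / (20 3 ^ m)`, BNS; for `k ≠ i` use `L + k ≠ τ`
(`(L + k) % K = k`).  `mov`: `5 s_i / S1 ≤ 5 exp (2 C) (ε / X) (1 / Λ) ^ Phi τ` by BNS for `s_i` (at `τ`) and `S1` (at `τ + 1`).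
`mob`, `mol` for `j' < τ`: the same with `R = 4 X` (`Par.GX`).  For `j' = τ ≤ m`: `G.v τ = F.v τ = F'.f i`; its error is
`a (Q_i p ± te'_i)`, `te'_i ≤ te0_i + (10 + 5 (τ+1)) / H ≤ 13/25` (`≤ 1 / (20 3 ^ n)` if all `te0 ≤ ft`: `2 ft ≤ 1/(20 3^n)`),
`Q_{i, last} ≥ 1/(10 3 ^ n)`, BNS at `τ + 1` for `a`; `be τ = Bx (τ + 1) i`. -/
def Stmt_PHC : Prop :=
  ∀ (m n : ℕ) (G : Fr m n) (Θ₀ : Mat m n) (X ε : ℝ) (tx0 : Fin (m + 1) → ℝ) (η te0 : Fin (n + 1) → ℝ) (Z : ℝ)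
    (τ : ℕ) (F : Fr m n) (Θ : Mat m n) (S dx tx : Fin (m + 1) → ℝ) (s W te : Fin (n + 1) → ℝ) (z : ℝ),
    Par m n G X ε tx0 η te0 Z → τ < TT m n → Ph m n G Θ₀ X ε tx0 η te0 Z τ F Θ S dx tx s W te z →
    ∀ (F' : Fr m n) (Θ' : Mat m n) (S1 a ν ω : ℝ) (dx' tx' : Fin (m + 1) → ℝ) (te' : Fin (n + 1) → ℝ),
      Sta m n F' Θ' (Function.update S (co m n τ) S1) tx' (Function.update s (ro n τ) a)
        (Function.update W (ro n τ) (3 / 2 * S (co m n τ))) te' →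
      F'.f (ro n τ) = F.v (co m n τ) → (∀ k, k ≠ ro n τ → F'.f k = F.f k) →
      (∀ l, l ≠ co m n τ → F'.v l = F.v l) →
      (∀ (w : Pt m n) (R : ℝ), (∀ l, |(w.1 l : ℝ)| ≤ R) → ∀ p,
        |ev Θ' w p - ev Θ w p| ≤ 5 * s (ro n τ) / S1 * R) →
      |log (a * S1 / (s (ro n τ) * S (co m n τ)))| ≤ ν →
      |log (S1 / S (co m n τ)) - rho m n τ * log (Lam m n) -
        (Kx m n η (τ + 1) (co m n τ) - Kx m n η τ (co m n τ))| ≤ ω →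
      |log (S1 / (X * Lam m n ^ Ax m n (τ + 1) (co m n τ))) - Kx m n η (τ + 1) (co m n τ)| ≤ dx' (co m n τ) →
      (∀ l, l ≠ co m n τ → dx' l = dx l) →
      (∀ j, 0 ≤ dx' j ∧ dx' j ≤ 1 / 2 ∧ ((j : ℕ) < τ + 1 → dx' j = 0)) →
      (z + ν + ω) + ∑ j, dx' j + 4 * ∑ j, tx' j + 4 * ∑ i, te' i ≤ Z + 60 * DD m n / HH m n * (τ + 1) →
      (∀ j, 0 ≤ tx' j ∧ tx' j ≤ (if τ + 1 ≤ (j : ℕ) then tx0 j else 0) +
        (2 + 2 * DD m n * (τ + 1)) / HH m n) →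
      (∀ i, 0 ≤ te' i ∧ te' i ≤ (if τ + 1 ≤ LL m n + (i : ℕ) then te0 i else 0) +
        (10 + 5 * ((τ : ℝ) + 1)) / HH m n) →
      Ph m n G Θ₀ X ε tx0 η te0 Z (τ + 1) F' Θ' (Function.update S (co m n τ) S1) dx' tx'
        (Function.update s (ro n τ) a) (Function.update W (ro n τ) (3 / 2 * S (co m n τ))) te' (z + ν + ω)

/-- **PHX** (250 lines), uses CST STX SCH BNS PHC.  A step of the first kind, `i = ro n τ`, `j = co m n τ`, `H = HH`: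
`S' = X Λ ^ Ax (τ+1) j exp (Kx (τ+1) j)`.  BNS at `τ + 1`: `X e^{-C} Λ ^ Ax (τ+1) j ≤ S'`.  STX: `∑ tx ≤ ∑ tx0 + D ft ≤ 9/100`,
`te_i ≤ 1/2 + ft ≤ 13/25` (`te0_i ≤ 1/2` for all `i`); `H S_l ≤ S'` by SCH (1), `H W_k s_i ≤ S' s_k` by SCH (3) (divide by `Λ` powers:
`H · 3/2 · e^{4C} ≤ Λ`; `Wx + Bx k + 1 ≤ Ax (τ+1) j + Bx i`), `H W_i ≤ S'` by SCH (4).  PHC with `S1 = S'`, `ν = 4 tx_j + 12/H`,
`ω = dx_j`, `dx' = update dx j 0`, `tx' = update tx j (2/H)`, `te'` from STX.  Hypothesis on `ω`: `log (S'/S_j) - rho log Λ - (Kx' - Kx) =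
- (log (S_j / (X Λ ^ Ax τ j)) - Kx τ j)`.  Potential: `4 tx_j + 12/H + dx_j - dx_j - 4 tx_j + 8/H + 20 n / H ≤ 60 D / H`.
`btx`: for `j' = τ` the column is `τ = j` (as `τ ≤ m`).  `bte`: `τ ≠ L + i'` as the step is of the first kind. -/
def Stmt_PHX : Prop :=
  ∀ (m n : ℕ) (G : Fr m n) (Θ₀ : Mat m n) (X ε : ℝ) (tx0 : Fin (m + 1) → ℝ) (η te0 : Fin (n + 1) → ℝ) (Z : ℝ)
    (τ : ℕ) (F : Fr m n) (Θ : Mat m n) (S dx tx : Fin (m + 1) → ℝ) (s W te : Fin (n + 1) → ℝ) (z : ℝ),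
    Par m n G X ε tx0 η te0 Z → τ < TT m n → xt m n τ →
    Ph m n G Θ₀ X ε tx0 η te0 Z τ F Θ S dx tx s W te z →
    ∃ (F' : Fr m n) (Θ' : Mat m n) (S' dx' tx' : Fin (m + 1) → ℝ) (s' W' te' : Fin (n + 1) → ℝ) (z' : ℝ),
      Ph m n G Θ₀ X ε tx0 η te0 Z (τ + 1) F' Θ' S' dx' tx' s' W' te' z'

/-- **PHE** (250 lines), uses CST STE SCH BNS PHC.  A step of the second kind, `τ ≥ L > m`, so `dx = 0` and `tx ≤ ft`.
`R = Λ ^ rho τ ≥ Λ ≥ H`.  `∑_{k ≠ i} te_k ≤ 1/10`: `te_k ≤ (te0_k if τ ≤ L + k) + ft`; `k = 0` occurs with `te0_0` only if `τ = L`, but then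
`i = 0`; so the sum is at most `1/20 + D ft`.  `H s_k ≤ s_i` by SCH (2) and BNS; the other conditions as in PHX (`R S_j ≥
X e^{-C} Λ ^ Ax (τ+1) j`).  PHC with `S1 = R S_j`, `ν = 4 te_i + 10 D/H`, `ω = 0`, `dx' = dx`, `tx' = update tx j (tx_j + 2 D/H)`.
Potential: `4 te_i + 10 D/H + 8 D/H - 4 te_i + 40/H + 20 n/H ≤ 60 D/H`.  `bte`: if `τ = L + i'` then `i' = ro n τ`. -/
def Stmt_PHE : Prop :=
  ∀ (m n : ℕ) (G : Fr m n) (Θ₀ : Mat m n) (X ε : ℝ) (tx0 : Fin (m + 1) → ℝ) (η te0 : Fin (n + 1) → ℝ) (Z : ℝ)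
    (τ : ℕ) (F : Fr m n) (Θ : Mat m n) (S dx tx : Fin (m + 1) → ℝ) (s W te : Fin (n + 1) → ℝ) (z : ℝ),
    Par m n G X ε tx0 η te0 Z → τ < TT m n → ¬ xt m n τ →
    Ph m n G Θ₀ X ε tx0 η te0 Z τ F Θ S dx tx s W te z →
    ∃ (F' : Fr m n) (Θ' : Mat m n) (S' dx' tx' : Fin (m + 1) → ℝ) (s' W' te' : Fin (n + 1) → ℝ) (z' : ℝ),
      Ph m n G Θ₀ X ε tx0 η te0 Z (τ + 1) F' Θ' S' dx' tx' s' W' te' z'

/-- **PHT** (120 lines), uses CST PHX PHE.  `Par` holds: `|G.X j p| ≤ S_j (7/5 + tx_j) ≤ 3/2 e^{1/2} X ≤ 4 X`.  The state `0`: all exponents and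
corrections are `0`, `z = 0`, empty sums.  Then `T` steps. -/
def Stmt_PHT : Prop :=
  ∀ (m n : ℕ) (G : Fr m n) (Θ₀ : Mat m n) (X ε : ℝ) (S dx tx : Fin (m + 1) → ℝ) (η te W : Fin (n + 1) → ℝ),
    Start m n G Θ₀ X ε S dx tx η te W →
    ∃ (F : Fr m n) (Θ : Mat m n) (S' dx' tx' : Fin (m + 1) → ℝ) (s' W' te' : Fin (n + 1) → ℝ) (z : ℝ),
      Ph m n G Θ₀ X ε tx η te (∑ j, dx j + 4 * ∑ j, tx j + 4 * ∑ i, te i) (TT m n) F Θ S' dx' tx' s' W' te' z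

/-- **STG** (300 lines), uses CST PHT SCH KTO.  A stage.  At `T`: `dx' = 0`, `Kx = 0`, so `S'_j = X Λ ^ At`; `tx', te' ≤ ft` (`T > m`, `T > L + n`;
`Sta` is monotone in the tolerances).  `σ_i = log (s'_i / ε) + Bt log Λ`, `|σ_i| ≤ z ≤ Z + 6 ft`; `σ` the mean, `ε' = ε exp (σ - Bt log Λ)`,
`η'_i = σ_i - σ`, `|η'_i| ≤ 2 z ≤ 2 (28/10) + 12 ft ≤ 6`.  `W' ≤ 3/2 X e^C Λ ^ Wx ≤ 3/2 X Λ ^ At e^C`.  `Start.Zle`: `4 D ft ≤ 28/10`.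
`Phi t ≥ t + 1` and `Phi` is strictly increasing, so `∑_{t < T} (1/Λ) ^ Phi t ≤ 2/Λ` and
`∑_{j < t < T} (1/Λ) ^ Phi t ≤ 2 (1/Λ) ^ Phi (j+1) ≤ (2/Λ) (1/Λ) ^ be j`; `40 e^{2C} / Λ = 20 e^{-2C} / H ≤ e^{-C} / (60 3 ^ n)`. -/
def Stmt_STG : Prop :=
  ∀ (m n : ℕ) (G : Fr m n) (Θ₀ : Mat m n) (X ε : ℝ) (S dx tx : Fin (m + 1) → ℝ) (η te W : Fin (n + 1) → ℝ),
    Start m n G Θ₀ X ε S dx tx η te W →
    ∃ (F : Fr m n) (Θ : Mat m n) (ε' : ℝ) (η' W' : Fin (n + 1) → ℝ),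
      Start m n F Θ (X * KE m n) ε' (fun _ => X * KE m n) (fun _ => 0) (fun _ => ft m n) η' (fun _ => ft m n) W' ∧
      (∀ i, |η' i| ≤ 2 * (∑ j, dx j + 4 * ∑ j, tx j + 4 * ∑ i, te i + 6 * ft m n)) ∧
      Nx m n G Θ₀ X ε F Θ ε' ∧
      ((∀ i, te i ≤ ft m n) → ∀ j : Fin (m + 1), 1 / (30 * 3 ^ n) * exp (-CC m n) * ε * (1 / Lam m n) ^ be m n j ≤
        ev Θ (G.v j) (Fin.last n))

/-- **INI** (250 lines), uses PAT.  `v_j = (e_j; 0)`, `f_0 = ((1, .., 1); (-2, -1, .., -1))`, `f_k = (0; - e_k)` for `k ≥ 1`, `Θ = 0`, `X = 1`.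
Good: `h = ((1, .., 1); (-1, .., -1))`; `z = (x; y) = t h + ∑ a v + ∑ b f` with `t = - y_0`, `b_0 = 0`, `b_k = y_0 - y_k`, `a_j = x_j + y_0`.
`S_0 = 5/7`, `S_j = 1`, `dx_0 = 2/5` (`|log (5/7)| ≤ 2/5`), `dx_j = 0`; `tx_0 = 0`, `tx_j = pP m j 0` (the sum is `≤ 1/20`).
`s_0 = 2`, `te_0 = 1/2` (also if `n = 0`: `|2 - 14/5| ≤ 1`); for `0 < k < n`: `s_k = 1`, `te_k = pQ n k (last)`; for `k = n ≥ 1`: `s_n = 5/7`,
`te_n = 0`.  `ε = exp (mean of log s_i)`, `η_i = log s_i - mean`, `|η_i| ≤ 2`.  `W_0 = 1`, `W_k = 0`.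
`Zle`: `2/5 + 4/20 + 4 (1/2 + 1/20) = 28/10`. -/
def Stmt_INI : Prop :=
  ∀ m n : ℕ, ∃ (F : Fr m n) (Θ : Mat m n) (ε : ℝ) (S dx tx : Fin (m + 1) → ℝ) (η te W : Fin (n + 1) → ℝ),
    Start m n F Θ 1 ε S dx tx η te W

/-- **SEQ** (120 lines), uses CST STG INI.  STG for the frame of INI gives the frame `F 0` (`X = KE`), then STG again and again; the
deviations `η (s + 1)` are at most `2 (4 D ft + 6 ft) ≤ 14 D ft ≤ th / 5`. -/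
def Stmt_SEQ : Prop :=
  ∀ m n : ℕ, ∃ (F : ℕ → Fr m n) (Θ : ℕ → Mat m n) (ε : ℕ → ℝ) (η W : ℕ → Fin (n + 1) → ℝ), ∀ s,
    Start m n (F s) (Θ s) (KE m n ^ (s + 1)) (ε s) (fun _ => KE m n ^ (s + 1)) (fun _ => 0) (fun _ => ft m n)
      (η s) (fun _ => ft m n) (W s) ∧
    (∀ i, |η (s + 1) i| ≤ th m n / 5) ∧
    Nx m n (F s) (Θ s) (KE m n ^ (s + 1)) (ε s) (F (s + 1)) (Θ (s + 1)) (ε (s + 1)) ∧
    (∀ j : Fin (m + 1), 1 / (30 * 3 ^ n) * exp (-CC m n) * ε s * (1 / Lam m n) ^ be m n j ≤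
      ev (Θ (s + 1)) ((F s).v j) (Fin.last n))

/-- **LMT** (120 lines), uses nothing.  The limit.  For the unit vectors `w = (e_l; 0)`: `|Θ (s+1) p l - Θ s p l| ≤ μ s`, and `μ (s + t) ≤ μ s / 2 ^ t`,
so the entries converge.  For fixed `w` sum the movements: `∑_t μ (s + t) R ≤ 2 μ s R`, and `ev Θ' w p` is the limit of
`ev (Θ t) w p`. -/
def Stmt_LMT : Prop :=
  ∀ (m n : ℕ) (Θ : ℕ → Mat m n) (μ : ℕ → ℝ), (∀ s, 0 ≤ μ s ∧ μ (s + 1) ≤ μ s / 2) →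
    (∀ s (w : Pt m n) (R : ℝ), (∀ l, |(w.1 l : ℝ)| ≤ R) → ∀ p, |ev (Θ (s + 1)) w p - ev (Θ s) w p| ≤ μ s * R) →
    ∃ Θ' : Mat m n, ∀ s (w : Pt m n) (R : ℝ), (∀ l, |(w.1 l : ℝ)| ≤ R) → ∀ p,
      |ev Θ' w p - ev (Θ s) w p| ≤ 2 * μ s * R

/-- **CLF** (300 lines), uses PAT CST SCH SEQ LMT.  `μ s = 10 e^{2C} (ε s / X s) / Λ`, `X s = KE ^ (s+1)`; `Nx.eps`: `ε (s+1) ≤ e^3 ε s Λ ^ (-Bt)`,
so `μ (s+1) ≤ e^3 Λ ^ (-Bt-At) μ s ≤ μ s / 2` (`e^3 ≤ e^C`, `At ≥ 1`).  `Clu` for `F (s+1)`, `X = KE ^ (s+2)`, `ε = ε (s+1)`: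
`hx`: `ft ≤ th`.  `hf`: `Nx.fup` of the stage before: `3/2 e^C X_s Λ ^ (At - 1) = 3/2 e^C X / Λ ≤ th X` (`Wx T k < At`, `1/H ≤ ft`).
`he`: `2 μ (s+1) · 3/2 e^C X / Λ + ft ε e^{η_i} + 7/5 ε |e^{η_i} - 1| ≤ th ε` (`|e^y - 1| ≤ 2 |y|`).  `hv`: `3 ε e^C (1/Λ) ^ be j + tail ≤ th ε`,
`tail = 2 μ (s+2) · 3/2 X ≤ 30 e^{2C+3} ε (1/Λ) ^ (Bt+At+1)`, `be j ≥ 1`.  `fo`: `Nx.flo`, `Nx.fup`, `Wx T l + 1 ≤ Wx T k` for `l < k`: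
`(n + 1) 3/2 e^C Λ ^ (Wx T k - 1) < e^{-C} Λ ^ Wx T k / (20 3 ^ m)`.  `vo`: the lower bound of SEQ minus tail, and `Nx.mob` plus tail for
`l > j`, `be l ≥ be j + 1`, `tail ≤ 30 e^{3C} ε (1/Λ) ^ (be j + 2)`. -/
def Stmt_CLF : Prop :=
  ∀ m n : ℕ, ∃ (F : ℕ → Fr m n) (ε : ℕ → ℝ) (Θ : Mat m n), ∀ s, Clu m n (F s) (KE m n ^ (s + 2)) (ε s) Θ

/-! ## 4. The cluster of best approximations -/

/-- twice the special coordinate of `x(z)`, `z = (∑ σ_j v_j + ∑ τ_k f_k) / 2` -/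
noncomputable def aa {m n : ℕ} (F : Fr m n) (σ : Fin (m + 1) → ℤ) (τ : Fin (n + 1) → ℤ) : ℝ :=
  ∑ j, (σ j : ℝ) * F.X j 0 + ∑ k, (τ k : ℝ) * F.U k 0

/-- twice the special coordinate of the error of `z = (∑ σ_j v_j + ∑ τ_k f_k) / 2` -/
noncomputable def ee {m n : ℕ} (Θ : Mat m n) (F : Fr m n) (σ : Fin (m + 1) → ℤ) (τ : Fin (n + 1) → ℤ) : ℝ :=
  ∑ j, (σ j : ℝ) * ev Θ (F.v j) (Fin.last n) + ∑ k, (τ k : ℝ) * ev Θ (F.f k) (Fin.last n)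

/-- the signs with minimal length -/
def sA (m : ℕ) : Fin (m + 1) → ℤ := fun j => if j = 0 then 1 else -1

/-- the signs with minimal error -/
def tB (n : ℕ) : Fin (n + 1) → ℤ := fun k => if k = Fin.last n then -1 else 1

/-- **ORD** (100 lines), uses nothing.  Comparison of signed sums (compare `MP_7453a1_ld/B_ORD.lean`).  The difference is
`2 w k + ∑ (σ' l - σ l) w l` over `l < k` (or `l > k`) `≥ 2 w k - 2 ∑ |w l| > 0`. -/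
def Stmt_ORD : Prop :=
  (∀ (N : ℕ) (σ σ' : Fin N → ℤ), σ ≠ σ' → (∃ k, σ k ≠ σ' k ∧ ∀ l, k < l → σ l = σ' l) ∧
    ∃ k, σ k ≠ σ' k ∧ ∀ l, l < k → σ l = σ' l) ∧
  (∀ (N : ℕ) (w : Fin N → ℝ) (σ σ' : Fin N → ℤ) (k : Fin N), Sg σ → Sg σ' →
    ∑ l ∈ univ.filter (· < k), |w l| < w k → (∀ l, k < l → σ l = σ' l) → σ k = -1 → σ' k = 1 →
    ∑ l, (σ l : ℝ) * w l < ∑ l, (σ' l : ℝ) * w l) ∧
  (∀ (N : ℕ) (w : Fin N → ℝ) (σ σ' : Fin N → ℤ) (k : Fin N), Sg σ → Sg σ' →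
    ∑ l ∈ univ.filter (k < ·), |w l| < w k → (∀ l, l < k → σ l = σ' l) → σ k = -1 → σ' k = 1 →
    ∑ l, (σ l : ℝ) * w l < ∑ l, (σ' l : ℝ) * w l)

/-- **CEC** (250 lines), uses PAT CST.  Classification.  `z + z = ∑ α_j v_j + ∑ β_k f_k`, `α_j = t + 2 a_j`, `β_k = t + 2 b_k` (`Good`).  `A = max |α_j|`,
`B = max |β_k|`, `κ = D th ≤ 1/9000`.  Let `A = |α_j|`.  If `j ≠ 0`: coordinate `j`: `A (1 - th) X ≤ 3/2 X + A m th X + B (n+1) th X`.  If `j = 0`: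
coordinate `0`: `A (7/5 - th) X ≤ 3/2 X + A (1/20 + m th) X + B (n+1) th X`.  So `A (1 - κ) ≤ 3/2 + κ B`; for `B` in the same way
`B (1 - κ) ≤ 3/2 + κ A` (coordinates of the errors; `hv`).  So `max A B (1 - 2 κ) ≤ 3/2`, `A, B < 2`, hence `≤ 1`.  `t` even: all are `0`, so
`z = 0`; `t` odd: all are `± 1`. -/
def Stmt_CEC : Prop :=
  ∀ (m n : ℕ) (F : Fr m n) (X ε : ℝ) (Θ : Mat m n), Clu m n F X ε Θ → ∀ z : Pt m n,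
    (∀ p, 2 * |(z.1 p : ℝ)| ≤ 3 / 2 * X) → (∀ p, 2 * |ev Θ z p| ≤ 3 / 2 * ε) →
    z = 0 ∨ ∃ (σ : Fin (m + 1) → ℤ) (τ : Fin (n + 1) → ℤ), Sg σ ∧ Sg τ ∧
      z + z = ∑ j, σ j • F.v j + ∑ k, τ k • F.f k

/-- **APX** (60 lines), uses CST.  `(m + 1) th + (n + 1) th = D th`. -/
def Stmt_APX : Prop :=
  ∀ (m n : ℕ) (F : Fr m n) (X ε : ℝ) (Θ : Mat m n), Clu m n F X ε Θ →
    ∀ (σ : Fin (m + 1) → ℤ) (τ : Fin (n + 1) → ℤ), Sg σ → Sg τ →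
    |aa F σ τ - X * ∑ j, (σ j : ℝ) * pP m j 0| ≤ X / (1000 * 3 ^ (m + n + 2)) ∧
    |ee Θ F σ τ - ε * ∑ k, (τ k : ℝ) * pQ n k (Fin.last n)| ≤ ε / (1000 * 3 ^ (m + n + 2))

/-- **CLC** (200 lines), uses PAT CST APX.  `z = h + ∑ (σ_j - 1)/2 v_j + ∑ (τ_k - 1)/2 f_k`.  Coordinate `0` of `x(2 z)` is `aa`,
`|aa| = X (7/5 ± 1/20 ± 1/1000)` (`∑ σ_j P_j0 = ± 7/5 + ..`), the other coordinates are at most `X (1 + 1/1000)` in absolute value; the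
same for the errors with the last coordinate. -/
def Stmt_CLC : Prop :=
  ∀ (m n : ℕ) (F : Fr m n) (X ε : ℝ) (Θ : Mat m n), Clu m n F X ε Θ →
    ∀ (σ : Fin (m + 1) → ℤ) (τ : Fin (n + 1) → ℤ), Sg σ → Sg τ →
    (∃ z : Pt m n, z + z = ∑ j, σ j • F.v j + ∑ k, τ k • F.f k) ∧
    4 / 3 * X ≤ |aa F σ τ| ∧ |aa F σ τ| ≤ 3 / 2 * X ∧ 4 / 3 * ε ≤ |ee Θ F σ τ| ∧ |ee Θ F σ τ| ≤ 3 / 2 * ε ∧
    (σ 0 = 1 → 0 < aa F σ τ) ∧ (τ (Fin.last n) = -1 → ee Θ F σ τ < 0) ∧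
    ∀ z : Pt m n, z + z = ∑ j, σ j • F.v j + ∑ k, τ k • F.f k →
      2 * ‖xv z‖ = |aa F σ τ| ∧ 2 * ‖ev Θ z‖ = |ee Θ F σ τ|

/-- **NMA** (200 lines), uses PAT CST APX CLC ORD.  `κ = 1/(1000 3 ^ (m+n+2))`.  (1) If `σ' j = 1` for some `j ≠ 0` then by APX
`aa F σ' τ' ≥ X (7/5 - ∑_{j ≥ 1} P_j0 + 2 P_j0 - κ)`, `aa F (sA m) τ ≤ X (7/5 - ∑ P_j0 + κ)`, `2 P_j0 ≥ 1/(5 3 ^ m) > 2 κ`, a contradiction; so
`σ' = sA m`.  (2) Let `τ' ≠ τ` and `k` the largest index of difference.  `τ k = -1`, `τ' k = 1`: ORD with `w l = U l 0` (`Clu.fo`) gives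
`aa F (sA m) τ < aa F (sA m) τ'`.  `τ k = 1`, `τ' k = -1`: then `k ≠ last` and `τ' last = -1`; ORD with `w l = ev Θ (f_l) last`
(`> ∑_{l < k}`: `Q_k - th > Q_k / 2 + n th` as `Q_k / 2 ≥ 1/(20 3 ^ n) > D th`) gives `ee' < ee < 0`, so `|ee'| > |ee|`. -/
def Stmt_NMA : Prop :=
  ∀ (m n : ℕ) (F : Fr m n) (X ε : ℝ) (Θ : Mat m n), Clu m n F X ε Θ →
    ∀ τ : Fin (n + 1) → ℤ, Sg τ → τ (Fin.last n) = -1 →
    ∀ (σ' : Fin (m + 1) → ℤ) (τ' : Fin (n + 1) → ℤ), Sg σ' → Sg τ' → σ' 0 = 1 →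
      aa F σ' τ' ≤ aa F (sA m) τ → |ee Θ F σ' τ'| ≤ |ee Θ F (sA m) τ| → σ' = sA m ∧ τ' = τ

/-- **NMB** (250 lines), uses PAT CST APX CLC ORD.  `|ee Θ F σ (tB n)| ≤ ε (7/5 - ∑_{k<n} Q_k + κ)`, `Q_k = pQ n k last`.  (1) `τ' last = -1`: if
`τ' k = -1` for some `k < n` then `|ee'| ≥ ε (7/5 - ∑ Q + 2 Q_k - κ)`, a contradiction; so `τ' = tB n`.  (2) `τ' last = 1`: in the same
way `τ' k = -1` for all `k < n`, `τ' = - tB n`; with `b_j = ev Θ (v_j) last`, `t = ∑ tB_k ev Θ (f_k) last`: `0 < ee' = ∑ σ' b - t ≤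
- (∑ σ b + t)`, so `∑ σ' b ≤ ∑ (-σ) b`, which contradicts ORD (third part, `k = 0`, `w = b`, signs `-σ` and `σ'`; `Clu.vo`).
(3) `τ' = tB n`, `σ' ≠ σ`: the smallest index `j` of difference is not `0`.  `σ j = -1`, `σ' j = 1`: ORD (third part) with `w l = X l 0`
(`P_j0 - th > P_j0 / 2 + m th`) gives `aa < aa'`.  `σ j = 1`, `σ' j = -1`: ORD with `w = b` gives `ee' < ee < 0`. -/
def Stmt_NMB : Prop :=
  ∀ (m n : ℕ) (F : Fr m n) (X ε : ℝ) (Θ : Mat m n), Clu m n F X ε Θ →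
    ∀ σ : Fin (m + 1) → ℤ, Sg σ → σ 0 = 1 →
    ∀ (σ' : Fin (m + 1) → ℤ) (τ' : Fin (n + 1) → ℤ), Sg σ' → Sg τ' → σ' 0 = 1 →
      aa F σ' τ' ≤ aa F σ (tB n) → |ee Θ F σ' τ'| ≤ |ee Θ F σ (tB n)| → σ' = σ ∧ τ' = tB n

/-- **BST** (150 lines), uses CLC CEC.  A pair of signs which is not beaten gives a best approximation.  A competitor `z'` of `z` satisfies
`2 |x(z')_p| ≤ 2 ‖xv z‖ ≤ 3/2 X` and the same for the error, so by CEC it is `0` or has signs `σ', τ'`; if `σ' 0 = -1` replace `z'` by `- z'`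
(signs `-σ', -τ'`).  CLC for both; the hypothesis gives equal signs, so `z' + z' = z + z` and `z' = z`.  `z.1 ≠ 0` as `‖xv z‖ > 0`. -/
def Stmt_BST : Prop :=
  ∀ (m n : ℕ) (F : Fr m n) (X ε : ℝ) (Θ : Mat m n), Clu m n F X ε Θ →
    ∀ (σ : Fin (m + 1) → ℤ) (τ : Fin (n + 1) → ℤ), Sg σ → Sg τ → σ 0 = 1 →
    (∀ (σ' : Fin (m + 1) → ℤ) (τ' : Fin (n + 1) → ℤ), Sg σ' → Sg τ' → σ' 0 = 1 →
      aa F σ' τ' ≤ aa F σ τ → |ee Θ F σ' τ'| ≤ |ee Θ F σ τ| → σ' = σ ∧ τ' = τ) →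
    ∃ z : Pt m n, IsB Θ z ∧ 2 * ‖xv z‖ = aa F σ τ ∧ X / 2 < ‖xv z‖ ∧ ‖xv z‖ ≤ X

/-- **CNT** (200 lines), uses PAT CST NMA NMB BST ORD.  If `m ≤ n`: the `2 ^ n` sign vectors `τ` with `τ last = -1` and `σ = sA m`; `aa` is injective in
`τ` (ORD, `Clu.fo`).  If `n ≤ m`: the `2 ^ m` sign vectors `σ` with `σ 0 = 1` and `τ = tB n`; `aa` is injective in `σ` (ORD, third part,
smallest index of difference `j ≠ 0`, `∑_{l > j} |X l 0| < X j 0` as in NMB). -/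
def Stmt_CNT : Prop :=
  ∀ (m n : ℕ) (F : Fr m n) (X ε : ℝ) (Θ : Mat m n), Clu m n F X ε Θ →
    ∃ T : Finset ℝ, 2 ^ max m n ≤ T.card ∧ ∀ r ∈ T, X / 2 < r ∧ r ≤ X ∧ ∃ z, IsB Θ z ∧ ‖xv z‖ = r

/-! ## 5. The growth rate -/

open Pool.Agent.Work.MP_7453a1_nt_two (Admissible IsBest Lengths G g len err)
open Pool.LE (sn)

/-- **BRG** (60 lines), uses nothing.  Translation (`err` is the norm of `ev`).  Compare `MP_7453a1_le/B_BRG.lean`. -/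
def Stmt_BRG : Prop :=
  ∀ (m n : ℕ) (Θ : Mat m n) (z : Pt m n), IsB Θ z → ‖xv z‖ ∈ Lengths (sn (m + 1)) (sn (n + 1)) Θ

/-- **LM2** (180 lines), uses nothing.  As `B_LIM.lean` of `MP_7453a1_le`, but the sets begin at `K ^ 2`: the sets `T s`, `s < t`, are disjoint, so there
are at least `t 2 ^ q` lengths `≤ K ^ (t + 1)`, `M (t 2 ^ q) ≤ K ^ (t + 1)` and `M_ν ^ (1 / ν) ≤ K ^ ((t + 1) / (t 2 ^ q))` for
`ν = t 2 ^ q`, `t ≥ 1`, which tends to `K ^ (1 / 2 ^ q)`. -/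
def Stmt_LM2 : Prop :=
  ∀ (a b : ℕ) (Nm : Seminorm ℝ (Fin a → ℝ)) (Nn : Seminorm ℝ (Fin b → ℝ))
    (Θ : Matrix (Fin b) (Fin a) ℝ) (q : ℕ) (K : ℝ), 2 ≤ K →
    (∀ s : ℕ, ∃ T : Finset ℝ, 2 ^ q ≤ T.card ∧ ∀ r ∈ T,
      r ∈ Lengths Nm Nn Θ ∧ K ^ (s + 2) / 2 < r ∧ r ≤ K ^ (s + 2)) →
    (∀ R : ℝ, ∃ r ∈ Lengths Nm Nn Θ, R < r) ∧
    G Nm Nn Θ ≤ ENNReal.ofReal (K ^ (1 / (2 : ℝ) ^ q))

/-- **NUM** (100 lines), uses nothing.  `N = max m n + 1`, `D ≤ 2 N`, `L ≤ N ^ 2`, `At = L (2 L + 1) ≤ 3 N ^ 4`.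
`log Λ = log 2 + 6 log 10 + 6 log D + D log 3 + 32 D ≤ 15 + 6 D + 1.1 D + 32 D ≤ 47 D ≤ 94 N` (`log D ≤ D`, `15 ≤ 7.5 D`),
`2 log KE ≤ 2 · 3 · 94 N ^ 5 ≤ 600 N ^ 5`. -/
def Stmt_NUM : Prop :=
  ∀ m n : ℕ, 2 ≤ KE m n ∧
    KE m n ^ (1 / (2 : ℝ) ^ max m n) ≤ exp (600 * ((max m n : ℕ) + 1 : ℝ) ^ 5 / 2 ^ (max m n + 1))

/-- **FIN** (80 lines), uses CLF CNT BRG LM2 NUM.  `Pool.LE.p_ADM` (`import Pool.Agent.Work.MP_7453a1_le.B_ADM`) gives (∗). -/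
def Stmt_FIN : Prop :=
  ∀ m n : ℕ, ∃ Θ : Matrix (Fin (n + 1)) (Fin (m + 1)) ℝ, Admissible Θ ∧
    (Lengths (sn (m + 1)) (sn (n + 1)) Θ).Infinite ∧
    G (sn (m + 1)) (sn (n + 1)) Θ ≤
      ENNReal.ofReal (exp (600 * ((max m n : ℕ) + 1 : ℝ) ^ 5 / 2 ^ (max m n + 1)))

end Pool.LG
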